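import Pool.Agent.Hhelper96.PEPS.Commuting

/-!
Quadratic forms of Hermitian matrices with a nondegenerate gapped ground state, and the comparison of
the ground state energies of `H` and `H + t K` when the gap stays open and the variance of `K` in the
ground states is controlled.
-/

set_option autoImplicit false
set_option linter.unusedSectionVars false

open scoped BigOperators
open Matrix

namespace Pool.Agent.Hhelper96.PEPS

section forms

variable {n : Type} [Fintype n] [DecidableEq n]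

/-- squared norm of a vector -/
noncomputable def sqn (φ : n → ℂ) : ℝ := ∑ i, ‖φ i‖ ^ 2

theorem sqn_nonneg (φ : n → ℂ) : 0 ≤ sqn φ := by unfold sqn; positivity

theorem sqn_pos {φ : n → ℂ} (h : φ ≠ 0) : 0 < sqn φ := by
  obtain ⟨s, hs⟩ : ∃ s, φ s ≠ 0 := by
    by_contra hcon
    push Not at hcon
    exact h (funext hcon)
  unfold sqn
  apply Finset.sum_pos'
  · intro _ _; positivity
  · exact ⟨s, Finset.mem_univ _, by positivity⟩

theorem sqn_smul (c : ℂ) (φ : n → ℂ) : sqn (c • φ) = ‖c‖ ^ 2 * sqn φ := by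
  unfold sqn
  rw [Finset.mul_sum]
  refine Finset.sum_congr rfl (fun s _ => ?_)
  rw [Pi.smul_apply, smul_eq_mul, norm_mul, mul_pow]

theorem star_dot_self (φ : n → ℂ) : star φ ⬝ᵥ φ = ((sqn φ : ℝ) : ℂ) := by
  unfold sqn dotProduct
  rw [Complex.ofReal_sum]
  refine Finset.sum_congr rfl (fun i _ => ?_)
  rw [Pi.star_apply, mul_comm]
  exact mul_star_self' (φ i)
where
  mul_star_self' (z : ℂ) : z * star z = ((‖z‖ ^ 2 : ℝ) : ℂ) := by
    rw [Complex.star_def, Complex.mul_conj, Complex.normSq_eq_norm_sq]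

theorem star_dot_star (φ χ : n → ℂ) : star (star φ ⬝ᵥ χ) = star χ ⬝ᵥ φ := by
  rw [Matrix.star_dotProduct, star_star]

theorem cauchy (φ χ : n → ℂ) : ‖star φ ⬝ᵥ χ‖ ≤ √(sqn φ) * √(sqn χ) := by
  unfold dotProduct sqn
  refine (norm_sum_le _ _).trans ?_
  have h1 : ∀ i, ‖(star φ) i * χ i‖ = ‖φ i‖ * ‖χ i‖ := by
    intro i
    rw [norm_mul, Pi.star_apply, norm_star]
  simp_rw [h1]
  exact Real.sum_mul_le_sqrt_mul_sqrt _ _ _

/-- quadratic form -/
noncomputable def ex (A : Matrix n n ℂ) (φ : n → ℂ) : ℝ := (star φ ⬝ᵥ A.mulVec φ).re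

theorem ex_add (A B : Matrix n n ℂ) (φ : n → ℂ) : ex (A + B) φ = ex A φ + ex B φ := by
  unfold ex
  rw [Matrix.add_mulVec, dotProduct_add, Complex.add_re]

theorem ex_sub (A B : Matrix n n ℂ) (φ : n → ℂ) : ex (A - B) φ = ex A φ - ex B φ := by
  unfold ex
  rw [Matrix.sub_mulVec, dotProduct_sub, Complex.sub_re]

theorem ex_smul (c : ℝ) (A : Matrix n n ℂ) (φ : n → ℂ) : ex ((c : ℂ) • A) φ = c * ex A φ := by
  unfold ex
  rw [Matrix.smul_mulVec, dotProduct_smul, smul_eq_mul, Complex.re_ofReal_mul]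

theorem ex_sum {ι : Type} (s : Finset ι) (A : ι → Matrix n n ℂ) (φ : n → ℂ) :
    ex (∑ i ∈ s, A i) φ = ∑ i ∈ s, ex (A i) φ := by
  unfold ex
  rw [Matrix.sum_mulVec, dotProduct_sum, Complex.re_sum]

theorem ex_smul_vec (A : Matrix n n ℂ) (c : ℂ) (φ : n → ℂ) : ex A (c • φ) = ‖c‖ ^ 2 * ex A φ := by
  unfold ex
  rw [Matrix.mulVec_smul, star_smul, smul_dotProduct, dotProduct_smul, smul_smul, smul_eq_mul]
  have : star c * c = ((‖c‖ ^ 2 : ℝ) : ℂ) := by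
    rw [mul_comm, Complex.star_def, Complex.mul_conj, Complex.normSq_eq_norm_sq]
  rw [this, Complex.re_ofReal_mul]

/-- for Hermitian matrices the form is Hermitian -/
theorem herm_form {A : Matrix n n ℂ} (hA : A.IsHermitian) (φ χ : n → ℂ) :
    star φ ⬝ᵥ A.mulVec χ = star (star χ ⬝ᵥ A.mulVec φ) := by
  rw [star_dot_star, Matrix.star_mulVec, hA.eq, ← Matrix.dotProduct_mulVec]

theorem herm_form_im {A : Matrix n n ℂ} (hA : A.IsHermitian) (φ : n → ℂ) :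
    star φ ⬝ᵥ A.mulVec φ = ((ex A φ : ℝ) : ℂ) := by
  have h := herm_form hA φ φ
  have h2 : (star φ ⬝ᵥ A.mulVec φ).im = 0 := by
    have := congrArg Complex.im h
    rw [Complex.star_def, Complex.conj_im] at this
    linarith
  apply Complex.ext
  · rfl
  · rw [h2]; simp

/-- expansion of the quadratic form -/
theorem ex_add_vec {A : Matrix n n ℂ} (hA : A.IsHermitian) (α : ℂ) (ψ χ : n → ℂ) :
    ex A (α • ψ + χ) = ‖α‖ ^ 2 * ex A ψ + 2 * (star α * (star ψ ⬝ᵥ A.mulVec χ)).re + ex A χ := by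
  have h1 : star (α • ψ + χ) ⬝ᵥ A.mulVec (α • ψ + χ) =
      star (α • ψ) ⬝ᵥ A.mulVec (α • ψ) + star (α • ψ) ⬝ᵥ A.mulVec χ +
        star χ ⬝ᵥ A.mulVec (α • ψ) + star χ ⬝ᵥ A.mulVec χ := by
    rw [Matrix.mulVec_add, star_add, add_dotProduct, dotProduct_add, dotProduct_add]
    ring
  have h2 : star (α • ψ) ⬝ᵥ A.mulVec χ = star α * (star ψ ⬝ᵥ A.mulVec χ) := by
    rw [star_smul, smul_dotProduct, smul_eq_mul]
  have h3 : star χ ⬝ᵥ A.mulVec (α • ψ) = star (star α * (star ψ ⬝ᵥ A.mulVec χ)) := by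
    rw [herm_form hA χ (α • ψ), h2]
  have h4 : (star (star α * (star ψ ⬝ᵥ A.mulVec χ))).re =
      (star α * (star ψ ⬝ᵥ A.mulVec χ)).re := by
    rw [Complex.star_def, Complex.conj_re]
  have h5 : (star (α • ψ) ⬝ᵥ A.mulVec (α • ψ)).re = ‖α‖ ^ 2 * ex A ψ := ex_smul_vec A α ψ
  change (star (α • ψ + χ) ⬝ᵥ A.mulVec (α • ψ + χ)).re = _
  rw [h1, Complex.add_re, Complex.add_re, Complex.add_re, h5, h2, h3, h4]
  unfold ex
  ring

theorem sqn_add_vec (α : ℂ) {ψ χ : n → ℂ} (h : star ψ ⬝ᵥ χ = 0) :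
    sqn (α • ψ + χ) = ‖α‖ ^ 2 * sqn ψ + sqn χ := by
  have h1 : star (α • ψ + χ) ⬝ᵥ (α • ψ + χ) = (((‖α‖ ^ 2 * sqn ψ + sqn χ : ℝ)) : ℂ) := by
    have h2 : star χ ⬝ᵥ ψ = 0 := by
      rw [← star_dot_star, h, star_zero]
    rw [star_add, add_dotProduct, dotProduct_add, dotProduct_add, star_smul, smul_dotProduct,
      smul_dotProduct, dotProduct_smul, dotProduct_smul, h, h2, star_dot_self, star_dot_self,
      smul_eq_mul, smul_eq_mul]
    have : star α * α = ((‖α‖ ^ 2 : ℝ) : ℂ) := by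
      rw [mul_comm, Complex.star_def, Complex.mul_conj, Complex.normSq_eq_norm_sq]
    simp only [smul_eq_mul, mul_zero, add_zero, zero_add]
    rw [← mul_assoc, this]
    push_cast
    ring
  rw [star_dot_self] at h1
  exact Complex.ofReal_injective h1

/-- normalised nondegenerate ground state `ψ` with energy `E` and gap `Δ` -/
def GS (H : Matrix n n ℂ) (Δ E : ℝ) (ψ : n → ℂ) : Prop :=
  sqn ψ = 1 ∧ H.mulVec ψ = (E : ℂ) • ψ ∧
    ∀ χ : n → ℂ, star ψ ⬝ᵥ χ = 0 → (E + Δ) * sqn χ ≤ ex H χ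

theorem GS.ex_eq {H : Matrix n n ℂ} {Δ E : ℝ} {ψ : n → ℂ} (h : GS H Δ E ψ) : ex H ψ = E := by
  unfold ex
  rw [h.2.1, dotProduct_smul, star_dot_self, h.1]
  simp

/-- a nondegenerate gapped ground state, normalised -/
theorem gs_of_gapped {H : Matrix n n ℂ} (hH : H.IsHermitian) {Δ : ℝ} (hΔ : 0 < Δ) {ψ : n → ℂ}
    (hg : IsGappedGround H Δ ψ) : ∃ E : ℝ, ∃ c : ℂ, c ≠ 0 ∧ GS H Δ E (c • ψ) := by
  obtain ⟨hne, E₀, hE, hgap⟩ := hg
  have hpos := sqn_pos hne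
  obtain ⟨c, hc⟩ : ∃ c : ℂ, c = (((√(sqn ψ))⁻¹ : ℝ) : ℂ) := ⟨_, rfl⟩
  have hcpos : 0 < (√(sqn ψ))⁻¹ := inv_pos.2 (Real.sqrt_pos.2 hpos)
  have hc0 : c ≠ 0 := by rw [hc]; exact_mod_cast hcpos.ne'
  refine ⟨E₀, c, hc0, ?_, ?_, ?_⟩
  · rw [sqn_smul, hc, Complex.norm_real, Real.norm_of_nonneg hcpos.le, inv_pow,
      Real.sq_sqrt hpos.le, inv_mul_cancel₀ hpos.ne']
  · rw [Matrix.mulVec_smul, hE, smul_comm]
  · intro χ hχ
    have hχ' : star ψ ⬝ᵥ χ = 0 := by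
      rw [star_smul, smul_dotProduct, smul_eq_mul] at hχ
      rcases mul_eq_zero.1 hχ with h | h
      · exact absurd (star_eq_zero.1 h) hc0
      · exact h
    set U : Matrix n n ℂ := (hH.eigenvectorUnitary : Matrix n n ℂ) with hU
    have hUU : U * Uᴴ = 1 := by
      rw [← Matrix.star_eq_conjTranspose]
      exact Unitary.coe_mul_star_self hH.eigenvectorUnitary
    have hUU' : Uᴴ * U = 1 := by
      rw [← Matrix.star_eq_conjTranspose]
      exact Unitary.coe_star_mul_self hH.eigenvectorUnitary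
    have hHd : H = U * diagonal (fun i => ((hH.eigenvalues i : ℝ) : ℂ)) * Uᴴ := by
      have h := hH.spectral_theorem
      rw [Unitary.conjStarAlgAut_apply] at h
      exact h
    obtain ⟨z, hz⟩ : ∃ z : n → ℂ, z = Uᴴ.mulVec χ := ⟨_, rfl⟩
    have hzs : star z = Matrix.vecMul (star χ) U := by
      rw [hz, Matrix.star_mulVec, Matrix.conjTranspose_conjTranspose]
    have hcol : ∀ i, H.mulVec (fun k => U k i) = ((hH.eigenvalues i : ℝ) : ℂ) • (fun k => U k i) := by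
      intro i
      have h1 := hH.mulVec_eigenvectorBasis i
      have h2 : (fun k => U k i) = ⇑(hH.eigenvectorBasis i) := by
        funext k
        rw [hU]
        exact hH.eigenvectorUnitary_apply k i
      rw [h2, h1]
      rfl
    have hcol0 : ∀ i, (fun k => U k i) ≠ 0 := by
      intro i h0
      have h1 := congrFun (congrFun hUU' i) i
      rw [Matrix.mul_apply, Matrix.one_apply_eq] at h1
      have h2 : ∀ k, U k i = 0 := fun k => congrFun h0 k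
      simp [h2] at h1
    have hzi : ∀ i, z i = star (fun k => U k i) ⬝ᵥ χ := by
      intro i
      rw [hz]
      rfl
    have hform : ex H χ = ∑ i, hH.eigenvalues i * ‖z i‖ ^ 2 := by
      have h1 : star χ ⬝ᵥ H.mulVec χ = ∑ i, ((hH.eigenvalues i * ‖z i‖ ^ 2 : ℝ) : ℂ) := by
        conv_lhs => rw [hHd]
        rw [← Matrix.mulVec_mulVec, ← Matrix.mulVec_mulVec, Matrix.dotProduct_mulVec, ← hzs, ← hz]
        unfold dotProduct
        refine Finset.sum_congr rfl (fun i _ => ?_)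
        rw [Matrix.mulVec_diagonal, Pi.star_apply]
        have : star (z i) * z i = ((‖z i‖ ^ 2 : ℝ) : ℂ) := by
          rw [mul_comm, Complex.star_def, Complex.mul_conj, Complex.normSq_eq_norm_sq]
        calc star (z i) * (((hH.eigenvalues i : ℝ) : ℂ) * z i) =
            ((hH.eigenvalues i : ℝ) : ℂ) * (star (z i) * z i) := by ring
          _ = _ := by rw [this]; push_cast; ring
      unfold ex
      rw [h1, ← Complex.ofReal_sum, Complex.ofReal_re]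
    have hsq : sqn χ = ∑ i, ‖z i‖ ^ 2 := by
      have h1 : ((sqn χ : ℝ) : ℂ) = ((sqn z : ℝ) : ℂ) := by
        rw [← star_dot_self, ← star_dot_self, hzs, hz, ← Matrix.dotProduct_mulVec,
          Matrix.mulVec_mulVec, hUU, Matrix.one_mulVec]
      exact Complex.ofReal_injective h1
    rw [hform, hsq, Finset.mul_sum]
    refine Finset.sum_le_sum (fun i _ => ?_)
    rcases hgap (hH.eigenvalues i) _ (hcol0 i) (hcol i) with ⟨c', hc'⟩ | h1
    · have : z i = 0 := by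
        rw [hzi, hc', star_smul, smul_dotProduct, hχ', smul_zero]
      rw [this]
      simp
    · exact mul_le_mul_of_nonneg_right h1 (by positivity)

/-- one step of perturbation theory -/
theorem one_step {H K : Matrix n n ℂ} (hH : H.IsHermitian) (hK : K.IsHermitian) {Δ E V B δ : ℝ}
    {ψ : n → ℂ} (hΔ : 0 < Δ) (hgs : GS H Δ E ψ)
    (hV : sqn (K.mulVec ψ - ((ex K ψ : ℝ) : ℂ) • ψ) ≤ V) (hB : ∀ φ, |ex K φ| ≤ B * sqn φ)
    (hδ : |δ| * B ≤ Δ / 4) (φ : n → ℂ) :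
    (E + δ * ex K ψ - 2 * δ ^ 2 * V / Δ) * sqn φ ≤ ex (H + (δ : ℂ) • K) φ := by
  have hV0 : 0 ≤ V := (sqn_nonneg _).trans hV
  obtain ⟨g, hg⟩ : ∃ g, g = ex K ψ := ⟨_, rfl⟩
  obtain ⟨α, hα⟩ : ∃ α, α = star ψ ⬝ᵥ φ := ⟨_, rfl⟩
  obtain ⟨χ, hχ⟩ : ∃ χ, χ = φ - α • ψ := ⟨_, rfl⟩
  have hort : star ψ ⬝ᵥ χ = 0 := by
    rw [hχ, dotProduct_sub, dotProduct_smul, star_dot_self, hgs.1, ← hα]
    simp
  have hφ : φ = α • ψ + χ := by rw [hχ]; abel
  have hort' : star χ ⬝ᵥ ψ = 0 := by rw [← star_dot_star, hort, star_zero]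
  -- the form of H
  have hHc : star ψ ⬝ᵥ H.mulVec χ = 0 := by
    rw [herm_form hH, hgs.2.1, dotProduct_smul, hort', smul_zero, star_zero]
  have hHf : ex H φ = ‖α‖ ^ 2 * E + ex H χ := by
    rw [hφ, ex_add_vec hH, hHc, mul_zero, hgs.ex_eq]
    simp
  have hHl := hgs.2.2 χ hort
  -- the form of K
  obtain ⟨z, hz⟩ : ∃ z, z = star ψ ⬝ᵥ K.mulVec χ := ⟨_, rfl⟩
  have hzb : ‖z‖ ≤ √(sqn χ) * √V := by
    have h1 : z = star (star χ ⬝ᵥ (K.mulVec ψ - ((g : ℝ) : ℂ) • ψ)) := by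
      rw [hz, herm_form hK, dotProduct_sub, dotProduct_smul, hort', smul_zero, sub_zero]
    rw [h1, norm_star]
    refine (cauchy _ _).trans ?_
    apply mul_le_mul_of_nonneg_left _ (Real.sqrt_nonneg _)
    apply Real.sqrt_le_sqrt
    rw [hg]
    exact hV
  have hKf : ex K φ = ‖α‖ ^ 2 * g + 2 * (star α * z).re + ex K χ := by
    rw [hφ, ex_add_vec hK, ← hz, ← hg]
  have hre : |(star α * z).re| ≤ ‖α‖ * (√(sqn χ) * √V) := by
    refine (Complex.abs_re_le_norm _).trans ?_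
    rw [norm_mul, norm_star]
    exact mul_le_mul_of_nonneg_left hzb (norm_nonneg _)
  have hKχ := hB χ
  have hgB : |g| ≤ B := by
    have := hB ψ
    rw [hgs.1, mul_one, ← hg] at this
    exact this
  have hsq : sqn φ = ‖α‖ ^ 2 + sqn χ := by
    rw [hφ, sqn_add_vec α hort, hgs.1, mul_one]
  rw [ex_add, ex_smul, ← hg, hHf, hKf, hsq]
  -- names
  obtain ⟨y, hy⟩ : ∃ y, y = ‖α‖ := ⟨_, rfl⟩
  obtain ⟨x, hx⟩ : ∃ x, x = √(sqn χ) := ⟨_, rfl⟩
  obtain ⟨v, hv⟩ : ∃ v, v = √V := ⟨_, rfl⟩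
  have hxx : sqn χ = x ^ 2 := by rw [hx, Real.sq_sqrt (sqn_nonneg _)]
  have hvv : V = v ^ 2 := by rw [hv, Real.sq_sqrt hV0]
  rw [← hx, ← hv, ← hy] at hre
  rw [hxx] at hKχ hHl
  rw [← hy, hxx, hvv]
  have h1 : |δ * (2 * (star α * z).re)| ≤ 2 * |δ| * (y * (x * v)) := by
    rw [abs_mul, abs_mul, abs_two]
    have := mul_le_mul_of_nonneg_left hre (abs_nonneg δ)
    nlinarith
  have h2 : |δ * ex K χ| ≤ |δ| * B * x ^ 2 := by
    rw [abs_mul, mul_assoc]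
    exact mul_le_mul_of_nonneg_left hKχ (abs_nonneg δ)
  have h3 : |δ * g * x ^ 2| ≤ |δ| * B * x ^ 2 := by
    rw [abs_mul, abs_mul, abs_of_nonneg (sq_nonneg x)]
    exact mul_le_mul_of_nonneg_right (mul_le_mul_of_nonneg_left hgB (abs_nonneg δ)) (sq_nonneg x)
  have h4 : |δ| * B * x ^ 2 ≤ Δ / 4 * x ^ 2 := mul_le_mul_of_nonneg_right hδ (sq_nonneg x)
  have h5 := neg_abs_le (δ * (2 * (star α * z).re))
  have h6 := neg_abs_le (δ * ex K χ)
  have h7 := le_abs_self (δ * g * x ^ 2)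
  have h8 : 0 ≤ (1 / (2 * Δ)) * (Δ * x - 2 * |δ| * v * y) ^ 2 := by positivity
  have h9 : (1 / (2 * Δ)) * (Δ * x - 2 * |δ| * v * y) ^ 2 =
      Δ / 2 * x ^ 2 - 2 * |δ| * (y * (x * v)) + 2 * δ ^ 2 * v ^ 2 / Δ * y ^ 2 := by
    have : |δ| ^ 2 = δ ^ 2 := sq_abs δ
    field_simp
    ring_nf
    rw [this]
    ring
  have h10 : 0 ≤ 2 * δ ^ 2 * v ^ 2 / Δ * x ^ 2 := by positivity
  nlinarith [h1, h2, h3, h4, h5, h6, h7, h8, h9, h10, hHl]

/-- ground state energies along a gapped segment -/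
theorem chain {H K : Matrix n n ℂ} (hH : H.IsHermitian) (hK : K.IsHermitian) {Δ V B t : ℝ}
    (hΔ : 0 < Δ) (hV : 0 ≤ V) (ht : 0 < t) (hB0 : 0 ≤ B) (hB : ∀ φ, |ex K φ| ≤ B * sqn φ)
    (hgs : ∀ s ∈ Set.Icc (0 : ℝ) t, ∃ E ψ, GS (H + (s : ℂ) • K) Δ E ψ ∧
      sqn (K.mulVec ψ - ((ex K ψ : ℝ) : ℂ) • ψ) ≤ V)
    {E₀ : ℝ} {ψ₀ : n → ℂ} (h₀ : GS H Δ E₀ ψ₀)
    (hV₀ : sqn (K.mulVec ψ₀ - ((ex K ψ₀ : ℝ) : ℂ) • ψ₀) ≤ V)
    {E₁ : ℝ} {ψ₁ : n → ℂ} (h₁ : GS (H + (t : ℂ) • K) Δ E₁ ψ₁) :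
    E₀ + t * ex K ψ₀ - 2 * t ^ 2 * V / Δ ≤ E₁ := by
  -- number of steps
  obtain ⟨N, hN⟩ : ∃ N : ℕ, t * B / (Δ / 4) + 1 ≤ N := exists_nat_ge _
  have hN0 : (0 : ℝ) < N := by
    have : 0 ≤ t * B / (Δ / 4) := by positivity
    linarith
  obtain ⟨δ, hδ⟩ : ∃ δ, δ = t / N := ⟨_, rfl⟩
  have hδpos : 0 < δ := by rw [hδ]; positivity
  have hNδ : (N : ℝ) * δ = t := by rw [hδ]; field_simp
  have hδB : |δ| * B ≤ Δ / 4 := by
    rw [abs_of_pos hδpos, hδ, div_mul_eq_mul_div, div_le_iff₀ hN0]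
    have h1 : t * B / (Δ / 4) ≤ N := by linarith
    rw [div_le_iff₀ (by positivity)] at h1
    linarith
  have hδB' : |-δ| * B ≤ Δ / 4 := by rw [abs_neg]; exact hδB
  have hHs : ∀ s : ℝ, (H + (s : ℂ) • K).IsHermitian := by
    intro s
    refine hH.add ?_
    unfold Matrix.IsHermitian
    rw [Matrix.conjTranspose_smul, hK.eq]
    congr 1
    exact Complex.conj_ofReal s
  have key : ∀ j : ℕ, j ≤ N → ∃ E ψ, GS (H + ((j * δ : ℝ) : ℂ) • K) Δ E ψ ∧
      sqn (K.mulVec ψ - ((ex K ψ : ℝ) : ℂ) • ψ) ≤ V ∧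
      ex K ψ₀ - 4 * (j * δ) * V / Δ ≤ ex K ψ ∧
      E₀ + (j * δ) * ex K ψ₀ - 2 * (j * δ) ^ 2 * V / Δ ≤ E := by
    intro j
    induction j with
    | zero =>
      intro _
      refine ⟨E₀, ψ₀, ?_, hV₀, ?_, ?_⟩
      · simpa using h₀
      · simp
      · simp
    | succ j ih =>
      intro hj
      obtain ⟨E, ψ, hE, hVψ, hg, hEl⟩ := ih (by omega)
      have hjt : ((j + 1 : ℕ) : ℝ) * δ ∈ Set.Icc (0 : ℝ) t := by
        constructor
        · positivity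
        · rw [← hNδ]
          apply mul_le_mul_of_nonneg_right _ hδpos.le
          exact_mod_cast hj
      obtain ⟨E', ψ', hE', hVψ'⟩ := hgs _ hjt
      have hstep : H + ((((j + 1 : ℕ) : ℝ) * δ : ℝ) : ℂ) • K =
          (H + ((j * δ : ℝ) : ℂ) • K) + (δ : ℂ) • K := by
        rw [add_assoc, ← add_smul]
        congr 2
        push_cast
        ring
      have hstep' : H + ((j * δ : ℝ) : ℂ) • K =
          (H + ((((j + 1 : ℕ) : ℝ) * δ : ℝ) : ℂ) • K) + ((-δ : ℝ) : ℂ) • K := by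
        rw [hstep, add_assoc, ← add_smul]
        push_cast
        rw [add_neg_cancel, zero_smul, add_zero]
      have s1 := one_step (hHs (j * δ)) hK hΔ hE hVψ hB hδB ψ'
      rw [← hstep, hE'.1, mul_one, hE'.ex_eq] at s1
      have s2 := one_step (hHs ((j + 1 : ℕ) * δ)) hK hΔ hE' hVψ' hB hδB' ψ
      rw [← hstep', hE.1, mul_one, hE.ex_eq] at s2
      refine ⟨E', ψ', hE', hVψ', ?_, ?_⟩
      · -- slope
        have h1 : δ * ex K ψ - 4 * δ ^ 2 * V / Δ ≤ δ * ex K ψ' := by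
          have e1 : 2 * (-δ) ^ 2 * V / Δ = 2 * δ ^ 2 * V / Δ := by ring
          have e2 : 4 * δ ^ 2 * V / Δ = 2 * δ ^ 2 * V / Δ + 2 * δ ^ 2 * V / Δ := by ring
          rw [e1] at s2
          rw [e2]
          linarith
        have h2 : δ * (ex K ψ - 4 * δ * V / Δ) ≤ δ * ex K ψ' := by
          have : δ * (ex K ψ - 4 * δ * V / Δ) = δ * ex K ψ - 4 * δ ^ 2 * V / Δ := by ring
          rw [this]; exact h1
        have h3 := le_of_mul_le_mul_left h2 hδpos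
        have e3 : 4 * (((j + 1 : ℕ) : ℝ) * δ) * V / Δ = 4 * (j * δ) * V / Δ + 4 * δ * V / Δ := by
          push_cast; ring
        rw [e3]
        linarith
      · have h1 : δ * (ex K ψ₀ - 4 * (j * δ) * V / Δ) ≤ δ * ex K ψ :=
          mul_le_mul_of_nonneg_left hg hδpos.le
        have e3 : E₀ + (((j + 1 : ℕ) : ℝ) * δ) * ex K ψ₀ -
            2 * (((j + 1 : ℕ) : ℝ) * δ) ^ 2 * V / Δ =
            (E₀ + (j * δ) * ex K ψ₀ - 2 * (j * δ) ^ 2 * V / Δ) +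
              δ * (ex K ψ₀ - 4 * (j * δ) * V / Δ) - 2 * δ ^ 2 * V / Δ := by
          push_cast; ring
        rw [e3]
        linarith
  obtain ⟨E, ψ, hE, hVψ, _, hEl⟩ := key N le_rfl
  rw [hNδ] at hE hEl
  refine hEl.trans ?_
  have s1 := one_step (hHs t) hK (δ := 0) hΔ hE hVψ hB (by simp; positivity) ψ₁
  rw [h₁.1] at s1
  simp only [Complex.ofReal_zero, zero_smul, add_zero, zero_mul, mul_one] at s1
  rw [h₁.ex_eq] at s1
  have : 2 * (0 : ℝ) ^ 2 * V / Δ = 0 := by ring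
  rw [this, sub_zero] at s1
  exact s1

/-- the variance is bounded by the double commutator -/
theorem variance_le {H K : Matrix n n ℂ} (hH : H.IsHermitian) (hK : K.IsHermitian) {Δ E : ℝ}
    {ψ : n → ℂ} (hgs : GS H Δ E ψ) :
    Δ * sqn (K.mulVec ψ - ((ex K ψ : ℝ) : ℂ) • ψ) ≤
      ex (K * (H * K - K * H) - (H * K - K * H) * K) ψ / 2 := by
  obtain ⟨g, hg⟩ : ∃ g, g = ex K ψ := ⟨_, rfl⟩
  obtain ⟨χ, hχ⟩ : ∃ χ, χ = K.mulVec ψ - ((g : ℝ) : ℂ) • ψ := ⟨_, rfl⟩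
  have hort : star ψ ⬝ᵥ χ = 0 := by
    rw [hχ, dotProduct_sub, dotProduct_smul, star_dot_self, hgs.1, herm_form_im hK, ← hg]
    simp
  have hort' : star χ ⬝ᵥ ψ = 0 := by rw [← star_dot_star, hort, star_zero]
  have h1 := hgs.2.2 χ hort
  rw [← hg, ← hχ]
  -- `K ψ = g ψ + χ`
  have hKψ : K.mulVec ψ = ((g : ℝ) : ℂ) • ψ + χ := by rw [hχ]; abel
  have hHc : star ψ ⬝ᵥ H.mulVec χ = 0 := by
    rw [herm_form hH, hgs.2.1, dotProduct_smul, hort', smul_zero, star_zero]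
  have hHK : ex H (K.mulVec ψ) = g ^ 2 * E + ex H χ := by
    rw [hKψ, ex_add_vec hH, hHc, mul_zero, hgs.ex_eq, Complex.norm_real, Real.norm_eq_abs, sq_abs]
    simp
  have hKK : sqn (K.mulVec ψ) = g ^ 2 + sqn χ := by
    rw [hKψ, sqn_add_vec _ hort, hgs.1, mul_one, Complex.norm_real, Real.norm_eq_abs, sq_abs]
  -- expectation values
  have e1 : star ψ ⬝ᵥ (K * (H * K)).mulVec ψ = ((ex H (K.mulVec ψ) : ℝ) : ℂ) := by
    rw [← Matrix.mulVec_mulVec, ← Matrix.mulVec_mulVec, ← herm_form_im hH]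
    rw [Matrix.dotProduct_mulVec, Matrix.star_mulVec, hK.eq]
  have e2 : star ψ ⬝ᵥ (K * (K * H)).mulVec ψ = ((E * sqn (K.mulVec ψ) : ℝ) : ℂ) := by
    rw [← Matrix.mulVec_mulVec, ← Matrix.mulVec_mulVec, hgs.2.1, Matrix.mulVec_smul,
      Matrix.mulVec_smul, dotProduct_smul, smul_eq_mul, Complex.ofReal_mul, ← star_dot_self]
    congr 1
    rw [Matrix.dotProduct_mulVec, Matrix.star_mulVec, hK.eq]
  have e3 : star ψ ⬝ᵥ (H * K * K).mulVec ψ = ((E * sqn (K.mulVec ψ) : ℝ) : ℂ) := by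
    rw [← Matrix.mulVec_mulVec, ← Matrix.mulVec_mulVec, herm_form hH, hgs.2.1, dotProduct_smul,
      smul_eq_mul, star_mul, Complex.ofReal_mul, ← star_dot_self, star_dot_star]
    have : star ((E : ℝ) : ℂ) = ((E : ℝ) : ℂ) := Complex.conj_ofReal E
    rw [this, mul_comm]
    congr 1
    rw [Matrix.dotProduct_mulVec, Matrix.star_mulVec, hK.eq]
  have e4 : star ψ ⬝ᵥ (K * H * K).mulVec ψ = ((ex H (K.mulVec ψ) : ℝ) : ℂ) := by
    rw [Matrix.mul_assoc]; exact e1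
  have e5 : ex (K * (H * K - K * H) - (H * K - K * H) * K) ψ =
      2 * (ex H (K.mulVec ψ) - E * sqn (K.mulVec ψ)) := by
    rw [ex_sub, Matrix.mul_sub, Matrix.sub_mul, ex_sub, ex_sub]
    unfold ex at *
    rw [e1, e2, e3, e4]
    simp only [Complex.ofReal_re]
    ring
  rw [e5, hHK, hKK]
  linarith

end forms

end Pool.Agent.Hhelper96.PEPS
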