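import Pool.Agent.Hhelper96.PEPS.Spectral

/-!
Bounds on local operators and the size of the double commutator of two extensive operators.
-/

set_option autoImplicit false
set_option linter.unusedSectionVars false

open scoped BigOperators
open Matrix

namespace Pool.Agent.Hhelper96.PEPS

section bd

variable {n : Type} [Fintype n] [DecidableEq n]

/-- `X` is bounded by `c` -/
def Bd (c : ℝ) (X : Matrix n n ℂ) : Prop := 0 ≤ c ∧ ∀ φ, sqn (X.mulVec φ) ≤ c ^ 2 * sqn φ

theorem Bd.mul {c c' : ℝ} {X Y : Matrix n n ℂ} (hX : Bd c X) (hY : Bd c' Y) : Bd (c * c') (X * Y) := by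
  refine ⟨mul_nonneg hX.1 hY.1, fun φ => ?_⟩
  rw [← Matrix.mulVec_mulVec]
  calc sqn (X.mulVec (Y.mulVec φ)) ≤ c ^ 2 * sqn (Y.mulVec φ) := hX.2 _
    _ ≤ c ^ 2 * (c' ^ 2 * sqn φ) := mul_le_mul_of_nonneg_left (hY.2 φ) (sq_nonneg c)
    _ = (c * c') ^ 2 * sqn φ := by ring

theorem Bd.abs_ex_le {c : ℝ} {X : Matrix n n ℂ} (hX : Bd c X) (φ : n → ℂ) :
    |ex X φ| ≤ c * sqn φ := by
  unfold ex
  refine (Complex.abs_re_le_norm _).trans ((cauchy _ _).trans ?_)
  have h1 : √(sqn (X.mulVec φ)) ≤ c * √(sqn φ) := by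
    rw [Real.sqrt_le_left (mul_nonneg hX.1 (Real.sqrt_nonneg _)), mul_pow,
      Real.sq_sqrt (sqn_nonneg _)]
    exact hX.2 φ
  calc √(sqn φ) * √(sqn (X.mulVec φ)) ≤ √(sqn φ) * (c * √(sqn φ)) :=
        mul_le_mul_of_nonneg_left h1 (Real.sqrt_nonneg _)
    _ = c * (√(sqn φ) * √(sqn φ)) := by ring
    _ = c * sqn φ := by rw [Real.mul_self_sqrt (sqn_nonneg _)]

end bd

section opAt

variable {S T : Type} [Fintype S] [DecidableEq S] [Fintype T] [DecidableEq T] {d : ℕ}

/-- bound for a local operator -/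
noncomputable def locBd (p : Matrix (T → Fin d) (T → Fin d) ℂ) : ℝ :=
  √((∑ a, ∑ c, ‖p a c‖ ^ 2) * Fintype.card (T → Fin d))

theorem locBd_nonneg (p : Matrix (T → Fin d) (T → Fin d) ℂ) : 0 ≤ locBd p := Real.sqrt_nonneg _

theorem sum_overwrite {κ : T → S} (hκ : Function.Injective κ) (F : (S → Fin d) → ℝ) :
    ∑ s : S → Fin d, ∑ c : T → Fin d, F (overwrite κ s c) =
      Fintype.card (T → Fin d) * ∑ s, F s := by
  have h1 : ∑ s : S → Fin d, ∑ c : T → Fin d, F (overwrite κ s c) =
      ∑ s : S → Fin d, ∑ _c : T → Fin d, F s := by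
    rw [← Fintype.sum_prod_type' (f := fun (s : S → Fin d) (c : T → Fin d) => F (overwrite κ s c)),
      ← Fintype.sum_prod_type' (f := fun (s : S → Fin d) (_ : T → Fin d) => F s)]
    have hinv : ∀ x : (S → Fin d) × (T → Fin d),
        (overwrite κ (overwrite κ x.1 x.2) (x.1 ∘ κ), (overwrite κ x.1 x.2) ∘ κ) = x := by
      rintro ⟨s, c⟩
      refine Prod.ext ?_ (overwrite_comp hκ s c)
      funext u
      by_cases hu : ∃ t, κ t = u
      · obtain ⟨t, rfl⟩ := hu
        simp only
        rw [overwrite_mem hκ]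
        rfl
      · push Not at hu
        simp only
        rw [overwrite_not_mem κ _ _ u hu, overwrite_not_mem κ _ _ u hu]
    exact Fintype.sum_equiv (⟨fun x => (overwrite κ x.1 x.2, x.1 ∘ κ),
      fun x => (overwrite κ x.1 x.2, x.1 ∘ κ), hinv, hinv⟩ :
      ((S → Fin d) × (T → Fin d)) ≃ ((S → Fin d) × (T → Fin d))) _ _ (fun x => rfl)
  rw [h1, Finset.mul_sum]
  refine Finset.sum_congr rfl (fun s _ => ?_)
  rw [Finset.sum_const, Finset.card_univ, nsmul_eq_mul]

theorem bd_opAt {κ : T → S} (hκ : Function.Injective κ) (p : Matrix (T → Fin d) (T → Fin d) ℂ) :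
    Bd (locBd p) (opAt κ p) := by
  refine ⟨locBd_nonneg p, fun φ => ?_⟩
  have hP : 0 ≤ ∑ a, ∑ c, ‖p a c‖ ^ 2 := by positivity
  have h1 : ∀ s, ‖(opAt κ p).mulVec φ s‖ ^ 2 ≤
      (∑ a, ∑ c, ‖p a c‖ ^ 2) * ∑ c : T → Fin d, ‖φ (overwrite κ s c)‖ ^ 2 := by
    intro s
    have e1 : (opAt κ p).mulVec φ s = ∑ c : T → Fin d, p (s ∘ κ) c * φ (overwrite κ s c) := by
      unfold Matrix.mulVec dotProduct
      exact sum_opAt hκ p s φ
    rw [e1]
    have e2 : ‖∑ c : T → Fin d, p (s ∘ κ) c * φ (overwrite κ s c)‖ ≤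
        √(∑ c, ‖p (s ∘ κ) c‖ ^ 2) * √(∑ c : T → Fin d, ‖φ (overwrite κ s c)‖ ^ 2) := by
      refine (norm_sum_le _ _).trans ?_
      simp_rw [norm_mul]
      exact Real.sum_mul_le_sqrt_mul_sqrt _ _ _
    have e3 : (√(∑ c, ‖p (s ∘ κ) c‖ ^ 2) * √(∑ c : T → Fin d, ‖φ (overwrite κ s c)‖ ^ 2)) ^ 2 =
        (∑ c, ‖p (s ∘ κ) c‖ ^ 2) * ∑ c : T → Fin d, ‖φ (overwrite κ s c)‖ ^ 2 := by
      rw [mul_pow, Real.sq_sqrt (by positivity), Real.sq_sqrt (by positivity)]
    refine (pow_le_pow_left₀ (norm_nonneg _) e2 2).trans ?_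
    rw [e3]
    apply mul_le_mul_of_nonneg_right _ (by positivity)
    exact Finset.single_le_sum (f := fun a => ∑ c, ‖p a c‖ ^ 2) (fun _ _ => by positivity)
      (Finset.mem_univ (s ∘ κ))
  unfold sqn
  refine (Finset.sum_le_sum (fun s _ => h1 s)).trans ?_
  rw [← Finset.mul_sum, sum_overwrite hκ (fun s => ‖φ s‖ ^ 2)]
  unfold locBd
  rw [Real.sq_sqrt (by positivity)]
  apply le_of_eq
  ring

end opAt

section count

variable {L : ℕ} [NeZero L]

open Classical in
/-- positions `w` whose `A`-window meets the `B`-window at `v` -/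
noncomputable def nb (L : ℕ) [NeZero L] (A B : Finset (ℤ × ℤ)) (v : Site L) : Finset (Site L) :=
  Finset.univ.filter (fun w => ∃ a ∈ A, ∃ b ∈ B, place L w a = place L v b)

theorem card_nb_le (A B : Finset (ℤ × ℤ)) (v : Site L) : (nb L A B v).card ≤ A.card * B.card := by
  classical
  calc (nb L A B v).card ≤ ((A ×ˢ B).image (fun x => place L (place L v x.2) (-x.1))).card := by
        apply Finset.card_le_card
        intro w hw
        simp only [nb, Finset.mem_filter, Finset.mem_univ, true_and] at hw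
        obtain ⟨a, ha, b, hb, h⟩ := hw
        rw [Finset.mem_image]
        refine ⟨(a, b), Finset.mem_product.2 ⟨ha, hb⟩, ?_⟩
        simp only
        rw [← h]
        unfold place
        ext <;> simp
    _ ≤ (A ×ˢ B).card := Finset.card_image_le
    _ = A.card * B.card := Finset.card_product A B

end count

section dcomm

variable {d L : ℕ} [NeZero L]

/-- The double commutator of extensive operators is extensive. -/
theorem dcomm_le (F R : Finset (ℤ × ℤ)) (h : Matrix (F → Fin d) (F → Fin d) ℂ)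
    (k : Matrix (R → Fin d) (R → Fin d) ℂ)
    (hF : ∀ v : Site L, Function.Injective (fun p : F => place L v p))
    (hR : ∀ v : Site L, Function.Injective (fun p : R => place L v p))
    (ψ : (Site L → Fin d) → ℂ) :
    ex (hamiltonian L R k * (hamiltonian L F h * hamiltonian L R k -
        hamiltonian L R k * hamiltonian L F h) -
      (hamiltonian L F h * hamiltonian L R k - hamiltonian L R k * hamiltonian L F h) *
        hamiltonian L R k) ψ ≤
      (4 * (locBd k * locBd h * locBd k)) * (F.card * R.card * (R.card * R.card + R.card * F.card)) *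
        (L : ℝ) ^ 2 * sqn ψ := by
  classical
  obtain ⟨kv, hkv⟩ : ∃ kv : Site L → Matrix (Site L → Fin d) (Site L → Fin d) ℂ,
    kv = localTerm L R k := ⟨_, rfl⟩
  obtain ⟨hv, hhv⟩ : ∃ hv : Site L → Matrix (Site L → Fin d) (Site L → Fin d) ℂ,
    hv = localTerm L F h := ⟨_, rfl⟩
  obtain ⟨T, hT⟩ : ∃ T : Site L → Site L → Site L → Matrix (Site L → Fin d) (Site L → Fin d) ℂ,
    T = fun v w u => kv u * (hv w * kv v - kv v * hv w) - (hv w * kv v - kv v * hv w) * kv u :=
    ⟨_, rfl⟩
  have hsum : hamiltonian L R k * (hamiltonian L F h * hamiltonian L R k -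
        hamiltonian L R k * hamiltonian L F h) -
      (hamiltonian L F h * hamiltonian L R k - hamiltonian L R k * hamiltonian L F h) *
        hamiltonian L R k = ∑ v, ∑ w, ∑ u, T v w u := by
    have h1 : hamiltonian L F h * hamiltonian L R k - hamiltonian L R k * hamiltonian L F h =
        ∑ v, ∑ w, (hv w * kv v - kv v * hv w) := by
      unfold hamiltonian
      rw [← hkv, ← hhv, Finset.sum_mul_sum, Finset.sum_mul_sum, Finset.sum_comm,
        ← Finset.sum_sub_distrib]
      refine Finset.sum_congr rfl (fun v _ => ?_)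
      rw [← Finset.sum_sub_distrib]
    rw [h1]
    unfold hamiltonian
    rw [← hkv, Finset.mul_sum, Finset.sum_mul, ← Finset.sum_sub_distrib]
    refine Finset.sum_congr rfl (fun v _ => ?_)
    rw [Finset.mul_sum, Finset.sum_mul, ← Finset.sum_sub_distrib]
    refine Finset.sum_congr rfl (fun w _ => ?_)
    rw [Finset.sum_mul, Finset.mul_sum, ← Finset.sum_sub_distrib]
    refine Finset.sum_congr rfl (fun u _ => ?_)
    rw [hT]
  -- bounds on single terms
  have hbk : ∀ v, Bd (locBd k) (kv v) := by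
    intro v
    rw [hkv, localTerm_eq_opAt]
    exact bd_opAt (hR v) k
  have hbh : ∀ v, Bd (locBd h) (hv v) := by
    intro v
    rw [hhv, localTerm_eq_opAt]
    exact bd_opAt (hF v) h
  have hnn : 0 ≤ locBd k * locBd h * locBd k :=
    mul_nonneg (mul_nonneg (locBd_nonneg k) (locBd_nonneg h)) (locBd_nonneg k)
  have hTb : ∀ v w u, ex (T v w u) ψ ≤ 4 * (locBd k * locBd h * locBd k) * sqn ψ := by
    intro v w u
    have e1 : T v w u = kv u * hv w * kv v - kv u * kv v * hv w - hv w * kv v * kv u +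
        kv v * hv w * kv u := by
      rw [hT]
      simp only
      noncomm_ring
    rw [e1, ex_add, ex_sub, ex_sub]
    have b1 := (((hbk u).mul (hbh w)).mul (hbk v)).abs_ex_le ψ
    have b2 := (((hbk u).mul (hbk v)).mul (hbh w)).abs_ex_le ψ
    have b3 := (((hbh w).mul (hbk v)).mul (hbk u)).abs_ex_le ψ
    have b4 := (((hbk v).mul (hbh w)).mul (hbk u)).abs_ex_le ψ
    have e2 : locBd k * locBd k * locBd h = locBd k * locBd h * locBd k := by ring
    have e3 : locBd h * locBd k * locBd k = locBd k * locBd h * locBd k := by ring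
    rw [e2] at b2
    rw [e3] at b3
    have c1 := le_abs_self (ex (kv u * hv w * kv v) ψ)
    have c2 := neg_abs_le (ex (kv u * kv v * hv w) ψ)
    have c3 := neg_abs_le (ex (hv w * kv v * kv u) ψ)
    have c4 := le_abs_self (ex (kv v * hv w * kv u) ψ)
    linarith
  -- vanishing
  have hz1 : ∀ v w u, w ∉ nb L F R v → T v w u = 0 := by
    intro v w u hw
    have hc : hv w * kv v = kv v * hv w := by
      rw [hhv, hkv, localTerm_eq_opAt, localTerm_eq_opAt]
      apply opAt_comm_of_disjoint (hF w) (hR v)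
      intro t t' heq
      apply hw
      simp only [nb, Finset.mem_filter, Finset.mem_univ, true_and]
      exact ⟨t, t.2, t', t'.2, heq⟩
    rw [hT]
    simp only
    rw [hc, sub_self, mul_zero, zero_mul, sub_zero]
  have hz2 : ∀ v w u, u ∉ nb L R R v → u ∉ nb L R F w → T v w u = 0 := by
    intro v w u hu1 hu2
    have hc1 : kv u * kv v = kv v * kv u := by
      rw [hkv, localTerm_eq_opAt, localTerm_eq_opAt]
      apply opAt_comm_of_disjoint (hR u) (hR v)
      intro t t' heq
      apply hu1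
      simp only [nb, Finset.mem_filter, Finset.mem_univ, true_and]
      exact ⟨t, t.2, t', t'.2, heq⟩
    have hc2 : kv u * hv w = hv w * kv u := by
      rw [hkv, hhv, localTerm_eq_opAt, localTerm_eq_opAt]
      apply opAt_comm_of_disjoint (hR u) (hF w)
      intro t t' heq
      apply hu2
      simp only [nb, Finset.mem_filter, Finset.mem_univ, true_and]
      exact ⟨t, t.2, t', t'.2, heq⟩
    rw [hT]
    simp only
    have e1 : kv u * (hv w * kv v - kv v * hv w) = (kv u * hv w) * kv v - (kv u * kv v) * hv w := by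
      noncomm_ring
    rw [e1, hc1, hc2]
    have e2 : hv w * kv u * kv v = hv w * (kv u * kv v) := by rw [mul_assoc]
    have e3 : kv v * kv u * hv w = kv v * (kv u * hv w) := by rw [mul_assoc]
    rw [e2, e3, hc1, hc2]
    noncomm_ring
  obtain ⟨M, hM⟩ : ∃ M, M = 4 * (locBd k * locBd h * locBd k) * sqn ψ := ⟨_, rfl⟩
  have hM0 : 0 ≤ M := by
    rw [hM]
    exact mul_nonneg (mul_nonneg (by norm_num) hnn) (sqn_nonneg _)
  have hin : ∀ v w, ∑ u, ex (T v w u) ψ ≤ ((R.card * R.card + R.card * F.card : ℕ) : ℝ) * M := by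
    intro v w
    have h1 : ∑ u, ex (T v w u) ψ ≤ ∑ u, if u ∈ nb L R R v ∪ nb L R F w then M else 0 := by
      refine Finset.sum_le_sum (fun u _ => ?_)
      by_cases hu : u ∈ nb L R R v ∪ nb L R F w
      · rw [if_pos hu, hM]
        exact hTb v w u
      · rw [if_neg hu]
        rw [Finset.mem_union, not_or] at hu
        rw [hz2 v w u hu.1 hu.2]
        unfold ex
        simp
    refine h1.trans ?_
    rw [Finset.sum_ite_mem, Finset.univ_inter, Finset.sum_const, nsmul_eq_mul]
    apply mul_le_mul_of_nonneg_right _ hM0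
    exact_mod_cast (Finset.card_union_le _ _).trans
      (add_le_add (card_nb_le R R v) (card_nb_le R F w))
  have hmid : ∀ v, ∑ w, ∑ u, ex (T v w u) ψ ≤
      ((F.card * R.card : ℕ) : ℝ) * (((R.card * R.card + R.card * F.card : ℕ) : ℝ) * M) := by
    intro v
    have hM1 : 0 ≤ ((R.card * R.card + R.card * F.card : ℕ) : ℝ) * M :=
      mul_nonneg (Nat.cast_nonneg _) hM0
    have h1 : ∑ w, ∑ u, ex (T v w u) ψ ≤ ∑ w, if w ∈ nb L F R v then
        ((R.card * R.card + R.card * F.card : ℕ) : ℝ) * M else 0 := by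
      refine Finset.sum_le_sum (fun w _ => ?_)
      by_cases hw : w ∈ nb L F R v
      · rw [if_pos hw]
        exact hin v w
      · rw [if_neg hw]
        apply le_of_eq
        apply Finset.sum_eq_zero
        intro u _
        rw [hz1 v w u hw]
        unfold ex
        simp
    refine h1.trans ?_
    rw [Finset.sum_ite_mem, Finset.univ_inter, Finset.sum_const, nsmul_eq_mul]
    apply mul_le_mul_of_nonneg_right _ hM1
    exact_mod_cast card_nb_le F R v
  rw [hsum]
  simp_rw [ex_sum]
  refine (Finset.sum_le_sum (fun v _ => hmid v)).trans ?_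
  rw [Finset.sum_const, Finset.card_univ, Fintype.card_prod, ZMod.card, nsmul_eq_mul, hM]
  push_cast
  apply le_of_eq
  ring

end dcomm

end Pool.Agent.Hhelper96.PEPS
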