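import Pool.Agent.Hhelper96.PEPS.TorusNet

/-!
The averaging estimate with an error inside the blocks, and the approximation of a state given on one
torus by a label network.
-/

set_option autoImplicit false
set_option linter.unusedSectionVars false

open scoped BigOperators ComplexOrder
open Matrix

namespace Pool.Agent.Hhelper96.PEPS

section tn

variable {n : Type} [Fintype n] [DecidableEq n]

theorem traceNorm_smul_le (c : ℂ) (M : Matrix n n ℂ) : traceNorm (c • M) ≤ ‖c‖ * traceNorm M := by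
  obtain ⟨W, hW, h⟩ := exists_contr_trace_eq (c • M)
  have h1 : traceNorm (c • M) = ‖(Wᴴ * (c • M)).trace‖ := by
    rw [h, Complex.norm_real, Real.norm_of_nonneg (traceNorm_nonneg _)]
  rw [h1, Matrix.mul_smul, Matrix.trace_smul, smul_eq_mul, norm_mul]
  exact mul_le_mul_of_nonneg_left (norm_trace_le_traceNorm M hW) (norm_nonneg _)

theorem traceNorm_zero : traceNorm (0 : Matrix n n ℂ) = 0 := by
  have := traceNorm_smul_le (0 : ℂ) (0 : Matrix n n ℂ)
  rw [zero_smul, norm_zero, zero_mul] at this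
  exact le_antisymm this (traceNorm_nonneg _)

theorem traceNorm_sum_le {α : Type} (B : Finset α) (f : α → Matrix n n ℂ) :
    traceNorm (∑ q ∈ B, f q) ≤ ∑ q ∈ B, traceNorm (f q) := by
  classical
  induction B using Finset.induction_on with
  | empty => simp [traceNorm_zero]
  | insert a B ha ih =>
    rw [Finset.sum_insert ha, Finset.sum_insert ha]
    exact (traceNorm_add_le _ _).trans (by linarith)

end tn

section avg

variable {N₁ N₂ d : ℕ} (χ : (Fin N₁ × Fin N₂ → Fin d) → ℂ) (zr on : Fin d)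
variable {L : ℕ} [NeZero L]

/-- the averaging estimate, with an error inside the good grids -/
theorem traceNorm_super_le_err {T : Type} [Fintype T] [DecidableEq T] (hzo : zr ≠ on)
    (hχ : nsq χ = 1) (h1 : (N₁ + 2) ^ 2 ≤ L) (h2 : (N₂ + 2) ^ 2 ≤ L) (ι : T → Site L)
    (hι : Function.Injective ι)
    (hT1 : (N₁ + 3) * Fintype.card T < L) (hT2 : (N₂ + 3) * Fintype.card T < L)
    (ρ : Matrix (T → Fin d) (T → Fin d) ℂ) (hρ : ρ.PosSemidef) (hρ1 : ρ.trace = 1)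
    (G₁ : Finset (Fin (N₁ + 3))) (G₂ : Finset (Fin (N₂ + 3))) (x₀ y₀ : ZMod L) (δ : ℝ) (hδ : 0 ≤ δ)
    (hgood : ∀ (ξ : ZMod L → Fin (N₁ + 3)) (η : ZMod L → Fin (N₂ + 3)), IsWalk ξ → IsWalk η →
      ξ x₀ ∈ G₁ → η y₀ ∈ G₂ → traceNorm (ptrace ι (outer (fun s => gridVec χ zr on ξ η s)) -
        ((wgt χ zr on L (ξ, η) : ℝ) : ℂ) • ρ) ≤ δ * wgt χ zr on L (ξ, η)) :
    superVec (L := L) χ zr on ≠ 0 ∧
    traceNorm (ptrace ι (density (superVec (L := L) χ zr on)) - ρ) ≤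
      2 * (((N₁ + 3 - G₁.card : ℕ) : ℝ) / ((N₁ : ℝ) + 2) +
        ((N₂ + 3 - G₂.card : ℕ) : ℝ) / ((N₂ : ℝ) + 2)) + δ := by
  classical
  have hL : 0 < L := Nat.pos_of_ne_zero (NeZero.ne L)
  obtain ⟨W, hW⟩ : ∃ W : ℝ, W = ∑ q ∈ grids N₁ N₂ L, wgt χ zr on L q := ⟨_, rfl⟩
  have hWpos : 0 < W := by
    rw [hW]; exact sum_wgt_pos χ zr on hχ h1 h2
  have hnsq : nsq (superVec (L := L) χ zr on) = W := by
    rw [hW]; exact nsq_superVec χ zr on hzo hL
  have hne : superVec (L := L) χ zr on ≠ 0 := by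
    intro h0
    rw [h0] at hnsq
    have : nsq (0 : (Site L → Fin d) → ℂ) = 0 := by simp [nsq]
    rw [this] at hnsq
    exact hWpos.ne hnsq
  refine ⟨hne, ?_⟩
  obtain ⟨B, hB⟩ : ∃ B, B = (grids N₁ N₂ L).filter (fun q => ¬ (q.1 x₀ ∈ G₁ ∧ q.2 y₀ ∈ G₂)) :=
    ⟨_, rfl⟩
  obtain ⟨G, hG⟩ : ∃ G, G = (grids N₁ N₂ L).filter (fun q => (q.1 x₀ ∈ G₁ ∧ q.2 y₀ ∈ G₂)) :=
    ⟨_, rfl⟩
  obtain ⟨M, hM⟩ : ∃ M : ((ZMod L → Fin (N₁ + 3)) × (ZMod L → Fin (N₂ + 3))) →
      Matrix (T → Fin d) (T → Fin d) ℂ,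
      ∀ q, M q = ptrace ι (outer (fun s => gridVec χ zr on q.1 q.2 s)) := ⟨_, fun _ => rfl⟩
  have hsum : ptrace ι (outer (superVec (L := L) χ zr on)) - ((W : ℝ) : ℂ) • ρ =
      ∑ q ∈ G, (M q - ((wgt χ zr on L q : ℝ) : ℂ) • ρ) +
      (∑ q ∈ B, M q - ∑ q ∈ B, ((wgt χ zr on L q : ℝ) : ℂ) • ρ) := by
    rw [ptrace_outer_superVec χ zr on hzo ι hT1 hT2, hW, Complex.ofReal_sum, Finset.sum_smul,
      ← Finset.sum_sub_distrib, ← Finset.sum_sub_distrib, hB, hG,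
      Finset.sum_filter_add_sum_filter_not]
    refine Finset.sum_congr rfl (fun q hq => ?_)
    rw [hM]
  have hWc : ((W : ℝ) : ℂ) ≠ 0 := by exact_mod_cast hWpos.ne'
  have hred : ptrace ι (density (superVec (L := L) χ zr on)) - ρ =
      ((W : ℝ) : ℂ)⁻¹ • (∑ q ∈ G, (M q - ((wgt χ zr on L q : ℝ) : ℂ) • ρ)) +
      (((W : ℝ) : ℂ)⁻¹ • (∑ q ∈ B, M q) -
        ((W : ℝ) : ℂ)⁻¹ • (∑ q ∈ B, ((wgt χ zr on L q : ℝ) : ℂ) • ρ)) := by
    rw [← smul_sub, ← smul_add, ← hsum, smul_sub, density_eq, hnsq, ptrace_smul, smul_smul,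
      inv_mul_cancel₀ hWc, one_smul]
  have hcinv : ((W : ℝ) : ℂ)⁻¹ = ((W⁻¹ : ℝ) : ℂ) := by push_cast; rfl
  have hinv0 : (0 : ℂ) ≤ ((W : ℝ) : ℂ)⁻¹ := by
    rw [hcinv, Complex.zero_le_real]
    exact inv_nonneg.2 hWpos.le
  have hP : (((W : ℝ) : ℂ)⁻¹ • (∑ q ∈ B, M q)).PosSemidef := by
    refine (Matrix.posSemidef_sum _ (fun q _ => ?_)).smul hinv0
    rw [hM]
    exact posSemidef_ptrace ι hι _
  have hQ : (((W : ℝ) : ℂ)⁻¹ • (∑ q ∈ B, ((wgt χ zr on L q : ℝ) : ℂ) • ρ)).PosSemidef := by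
    refine (Matrix.posSemidef_sum _ (fun q _ => hρ.smul ?_)).smul hinv0
    rw [Complex.zero_le_real]
    exact nsq_nonneg _
  have htP : (((W : ℝ) : ℂ)⁻¹ • (∑ q ∈ B, M q)).trace.re = W⁻¹ * ∑ q ∈ B, wgt χ zr on L q := by
    rw [Matrix.trace_smul, Matrix.trace_sum]
    have : ∀ q ∈ B, (M q).trace = ((wgt χ zr on L q : ℝ) : ℂ) := by
      intro q _
      rw [hM, trace_ptrace ι hι, trace_outer, wgt]
    rw [Finset.sum_congr rfl this, ← Complex.ofReal_sum, hcinv, smul_eq_mul, ← Complex.ofReal_mul,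
      Complex.ofReal_re]
  have htQ : (((W : ℝ) : ℂ)⁻¹ • (∑ q ∈ B, ((wgt χ zr on L q : ℝ) : ℂ) • ρ)).trace.re =
      W⁻¹ * ∑ q ∈ B, wgt χ zr on L q := by
    rw [Matrix.trace_smul, Matrix.trace_sum]
    have : ∀ q ∈ B, (((wgt χ zr on L q : ℝ) : ℂ) • ρ).trace = ((wgt χ zr on L q : ℝ) : ℂ) := by
      intro q _
      rw [Matrix.trace_smul, hρ1, smul_eq_mul, mul_one]
    rw [Finset.sum_congr rfl this, ← Complex.ofReal_sum, hcinv, smul_eq_mul, ← Complex.ofReal_mul,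
      Complex.ofReal_re]
  have hbad : ∑ q ∈ B, wgt χ zr on L q ≤
      (((N₁ + 3 - G₁.card : ℕ) : ℝ) / ((N₁ : ℝ) + 2) +
        ((N₂ + 3 - G₂.card : ℕ) : ℝ) / ((N₂ : ℝ) + 2)) * W := by
    have hb1 := sum_bad_x (N₂ := N₂) χ zr on G₁ x₀
    have hb2 := sum_bad_y (N₁ := N₁) χ zr on G₂ y₀
    rw [← hW] at hb1 hb2
    have hc : ∑ q ∈ B, wgt χ zr on L q ≤
        ∑ q ∈ (grids N₁ N₂ L).filter (fun q => q.1 x₀ ∉ G₁), wgt χ zr on L q +
        ∑ q ∈ (grids N₁ N₂ L).filter (fun q => q.2 y₀ ∉ G₂), wgt χ zr on L q := by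
      rw [hB, Finset.sum_filter, Finset.sum_filter, Finset.sum_filter, ← Finset.sum_add_distrib]
      refine Finset.sum_le_sum (fun q _ => ?_)
      have h0 : 0 ≤ wgt χ zr on L q := nsq_nonneg _
      by_cases hx : q.1 x₀ ∈ G₁
      · by_cases hy : q.2 y₀ ∈ G₂
        · simp [hx, hy]
        · simp [hx, hy]
      · by_cases hy : q.2 y₀ ∈ G₂
        · simp [hx, hy]
        · simp [hx, hy, h0]
    have hn1 : (0 : ℝ) < (N₁ : ℝ) + 2 := by positivity
    have hn2 : (0 : ℝ) < (N₂ : ℝ) + 2 := by positivity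
    have e1 : ∑ q ∈ (grids N₁ N₂ L).filter (fun q => q.1 x₀ ∉ G₁), wgt χ zr on L q ≤
        ((N₁ + 3 - G₁.card : ℕ) : ℝ) / ((N₁ : ℝ) + 2) * W := by
      rw [div_mul_eq_mul_div, le_div_iff₀ hn1, mul_comm]
      exact hb1
    have e2 : ∑ q ∈ (grids N₁ N₂ L).filter (fun q => q.2 y₀ ∉ G₂), wgt χ zr on L q ≤
        ((N₂ + 3 - G₂.card : ℕ) : ℝ) / ((N₂ : ℝ) + 2) * W := by
      rw [div_mul_eq_mul_div, le_div_iff₀ hn2, mul_comm]
      exact hb2
    rw [add_mul]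
    linarith
  have hgoodsum : traceNorm (((W : ℝ) : ℂ)⁻¹ •
      (∑ q ∈ G, (M q - ((wgt χ zr on L q : ℝ) : ℂ) • ρ))) ≤ δ := by
    refine (traceNorm_smul_le _ _).trans ?_
    have hn : ‖((W : ℝ) : ℂ)⁻¹‖ = W⁻¹ := by
      rw [hcinv, Complex.norm_real, Real.norm_of_nonneg (inv_nonneg.2 hWpos.le)]
    rw [hn]
    have hs : traceNorm (∑ q ∈ G, (M q - ((wgt χ zr on L q : ℝ) : ℂ) • ρ)) ≤ δ * W := by
      refine (traceNorm_sum_le _ _).trans ?_
      rw [hW, Finset.mul_sum]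
      refine (Finset.sum_le_sum (g := fun q => δ * wgt χ zr on L q) (fun q hq => ?_)).trans ?_
      · rw [hG] at hq
        simp only [grids, Finset.mem_filter, Finset.mem_univ, true_and] at hq
        rw [hM]
        exact hgood q.1 q.2 hq.1.1 hq.1.2 hq.2.1 hq.2.2
      · rw [hG]
        refine Finset.sum_le_sum_of_subset_of_nonneg (Finset.filter_subset _ _) (fun q _ _ => ?_)
        exact mul_nonneg hδ (nsq_nonneg _)
    calc W⁻¹ * traceNorm (∑ q ∈ G, (M q - ((wgt χ zr on L q : ℝ) : ℂ) • ρ)) ≤ W⁻¹ * (δ * W) :=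
          mul_le_mul_of_nonneg_left hs (inv_nonneg.2 hWpos.le)
      _ = δ := by field_simp
  rw [hred]
  refine (traceNorm_add_le _ _).trans ?_
  have t0 := traceNorm_sub_le' (((W : ℝ) : ℂ)⁻¹ • (∑ q ∈ B, M q))
    (((W : ℝ) : ℂ)⁻¹ • (∑ q ∈ B, ((wgt χ zr on L q : ℝ) : ℂ) • ρ))
  have t1 := traceNorm_posSemidef_le hP
  have t2 := traceNorm_posSemidef_le hQ
  rw [htP] at t1
  rw [htQ] at t2
  have hfin : W⁻¹ * ∑ q ∈ B, wgt χ zr on L q ≤
      (((N₁ + 3 - G₁.card : ℕ) : ℝ) / ((N₁ : ℝ) + 2) +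
        ((N₂ + 3 - G₂.card : ℕ) : ℝ) / ((N₂ : ℝ) + 2)) := by
    rw [inv_mul_le_iff₀ hWpos, mul_comm]
    exact hbad
  linarith

end avg

section bij

variable {S T d : ℕ}

end bij

section core

variable {d : ℕ}

theorem nsq_pos_of_ne_zero {S : Type} [Fintype S] [DecidableEq S] {ψ : (S → Fin d) → ℂ}
    (hψ : ψ ≠ 0) : 0 < nsq ψ := by
  obtain ⟨s, hs⟩ : ∃ s, ψ s ≠ 0 := by
    by_contra hcon
    push Not at hcon
    exact hψ (funext hcon)
  unfold nsq
  apply Finset.sum_pos'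
  · intro _ _; positivity
  · exact ⟨s, Finset.mem_univ _, by positivity⟩

theorem nsq_smul {S : Type} [Fintype S] [DecidableEq S] (K : ℂ) (ψ : (S → Fin d) → ℂ) :
    nsq (fun s => K * ψ s) = ‖K‖ ^ 2 * nsq ψ := by
  unfold nsq
  rw [Finset.mul_sum]
  refine Finset.sum_congr rfl (fun s _ => ?_)
  rw [norm_mul, mul_pow]

theorem density_smul {S : Type} [Fintype S] [DecidableEq S] {K : ℂ} (hK : K ≠ 0)
    (ψ : (S → Fin d) → ℂ) : density (fun s => K * ψ s) = density ψ := by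
  ext s s'
  have h1 : (∑ t, ‖K * ψ t‖ ^ 2 : ℝ) = ‖K‖ ^ 2 * ∑ t, ‖ψ t‖ ^ 2 := nsq_smul K ψ
  unfold density
  rw [h1, star_mul]
  have h2 : (K * star K) = ((‖K‖ ^ 2 : ℝ) : ℂ) := mul_star_self K
  have h3 : ((‖K‖ ^ 2 : ℝ) : ℂ) ≠ 0 := by
    have : ‖K‖ ≠ 0 := norm_ne_zero_iff.2 hK
    exact_mod_cast pow_ne_zero 2 this
  calc K * ψ s * (star (ψ s') * star K) / ((‖K‖ ^ 2 * ∑ t, ‖ψ t‖ ^ 2 : ℝ) : ℂ)
      = (K * star K) * (ψ s * star (ψ s')) / (((‖K‖ ^ 2 : ℝ) : ℂ) * ((∑ t, ‖ψ t‖ ^ 2 : ℝ) : ℂ)) := by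
        push_cast
        ring
    _ = ψ s * star (ψ s') / ((∑ t, ‖ψ t‖ ^ 2 : ℝ) : ℂ) := by
        rw [h2, mul_div_mul_left _ _ h3]

/-- the marginal on all sites -/
theorem ptrace_equiv {S T : Type} [Fintype S] [DecidableEq S] [Fintype T] [DecidableEq T]
    (e : T ≃ S) (φ : (S → Fin d) → ℂ) :
    ptrace e (outer φ) = outer (fun c => φ (c ∘ e.symm)) := by
  classical
  ext a b
  rw [ptrace_eq_glue e e.injective]
  have hemp : IsEmpty {u // ¬ u ∈ Set.range e} := ⟨fun u => u.2 (e.surjective u.1)⟩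
  rw [Fintype.sum_unique]
  have h1 : ∀ c : T → Fin d, glue (⇑e) c default = c ∘ e.symm := by
    intro c
    funext u
    obtain ⟨t, rfl⟩ := e.surjective u
    rw [glue_apply_mem e e.injective]
    simp
  unfold outer
  rw [h1, h1]

/-- A state given on the `N × N` torus by a label network, all of whose `R`-marginals are close to
`ρ`, gives a translation invariant PEPS with `R`-marginals close to `ρ` on all large tori. -/
theorem core_net {zr on : Fin d} (hzo : zr ≠ on) (N r : ℕ) [NeZero N] (hrN : r ≤ N)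
    (R : Finset (ℤ × ℤ)) (a b : ℤ)
    (hR : ∀ p ∈ R, a ≤ p.1 ∧ p.1 < a + r ∧ b ≤ p.2 ∧ p.2 < b + r)
    {Y : Type} [Fintype Y] [DecidableEq Y]
    (W : Site N → Fin d → Y → Y → Y → ℂ) (hW : netT W ≠ 0)
    (ρ : Matrix (R → Fin d) (R → Fin d) ℂ) (hρ : ρ.PosSemidef) (hρ1 : ρ.trace = 1) (δ : ℝ)
    (hδ : ∀ v, traceNorm (reduced N R v (netT W) - ρ) ≤ δ) :
    ∃ A : Fin d → Fin (Fintype.card (HidY N N (Y × Y × Y))) →
        Fin (Fintype.card (HidY N N (Y × Y × Y))) → Fin (Fintype.card (HidY N N (Y × Y × Y))) →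
        Fin (Fintype.card (HidY N N (Y × Y × Y))) → ℂ,
      ∀ (L : ℕ) [NeZero L], (N + 2) ^ 2 ≤ L → (N + 3) * R.card < L →
        pepsVec L A ≠ 0 ∧ ∀ v, traceNorm (reduced L R v (pepsVec L A) - ρ) ≤
          4 * (r + 2 : ℝ) / (N + 2) + δ := by
  classical
  have hN := NeZero.pos N
  have hnpos : 0 < nsq (netT W) := nsq_pos_of_ne_zero hW
  -- normalisation
  obtain ⟨K, hK⟩ : ∃ K : ℂ, K = (((√(nsq (netT W)))⁻¹ : ℝ) : ℂ) := ⟨_, rfl⟩
  have hKpos : 0 < (√(nsq (netT W)))⁻¹ := inv_pos.2 (Real.sqrt_pos.2 hnpos)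
  have hK0 : K ≠ 0 := by
    rw [hK]; exact_mod_cast hKpos.ne'
  have hKn : ‖K‖ ^ 2 * nsq (netT W) = 1 := by
    rw [hK, Complex.norm_real, Real.norm_of_nonneg hKpos.le, inv_pow, Real.sq_sqrt hnpos.le,
      inv_mul_cancel₀ hnpos.ne']
  obtain ⟨W', hW'⟩ : ∃ W' : Site N → Fin d → Y → Y → Y → ℂ,
    W' = fun v s l dwn y => (if v = 0 then K else 1) * W v s l dwn y := ⟨_, rfl⟩
  have hφ' : netT W' = fun s => K * netT W s := by
    funext s
    rw [hW']
    exact netT_scale W K s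
  have hdens : density (netT W') = density (netT W) := by
    rw [hφ']; exact density_smul hK0 _
  have hnsq' : nsq (netT W') = 1 := by
    rw [hφ', nsq_smul, hKn]
  have hout : density (netT W') = outer (netT W') := by
    rw [density_eq, hnsq']
    simp
  -- the block state
  obtain ⟨χ, hχd⟩ : ∃ χ, χ = netVec (cutW W') := ⟨_, rfl⟩
  have hχout : outer χ = ptrace (boxE N) (outer (netT W')) := by
    rw [ptrace_equiv, hχd]
    congr 1
    funext c
    exact netVec_cutW W' c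
  have hχ : nsq χ = 1 := by
    have h1 := congrArg Matrix.trace hχout
    rw [trace_outer, trace_ptrace _ (boxE N).injective, trace_outer, hnsq'] at h1
    exact_mod_cast h1
  refine ⟨gTensor (Fintype.equivFin (HidY N N (Y × Y × Y))) (netWt (cutW W') zr on), ?_⟩
  intro L _ hL1 hL2
  rw [pepsVec_net (cutW W') zr on hN hN, ← hχd]
  have hrL : r ≤ L := by nlinarith
  have hιinj : ∀ v : Site L, Function.Injective (fun p : R => place L v p) :=
    fun v => place_injective hrL R a b hR v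
  have hcard : Fintype.card R = R.card := Fintype.card_coe R
  have hδ0 : 0 ≤ δ := (traceNorm_nonneg _).trans (hδ 0)
  -- marginals inside a block
  have hgood : ∀ v : Site L, ∀ (ξ : ZMod L → Fin (N + 3)) (η : ZMod L → Fin (N + 3)),
      IsWalk ξ → IsWalk η → ξ (v.1 + (a : ZMod L)) ∈ good2 N r → η (v.2 + (b : ZMod L)) ∈ good2 N r →
      traceNorm (ptrace (fun p : R => place L v p) (outer (fun s => gridVec χ zr on ξ η s)) -
        ((wgt χ zr on L (ξ, η) : ℝ) : ℂ) • ρ) ≤ δ * wgt χ zr on L (ξ, η) := by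
    intro v ξ η hξ hη hgx hgy
    simp only [good2, Finset.mem_filter, Finset.mem_univ, true_and] at hgx
    simp only [good2, Finset.mem_filter, Finset.mem_univ, true_and] at hgy
    obtain ⟨k, hk⟩ : ∃ k, (ξ (v.1 + (a : ZMod L)) : ℕ) = 2 + k :=
      ⟨(ξ (v.1 + (a : ZMod L)) : ℕ) - 2, by omega⟩
    obtain ⟨l, hl⟩ : ∃ l, (η (v.2 + (b : ZMod L)) : ℕ) = 2 + l :=
      ⟨(η (v.2 + (b : ZMod L)) : ℕ) - 2, by omega⟩
    obtain ⟨u, hu⟩ : ∃ u : Site L, u = (v.1 + (a : ZMod L) - (k : ZMod L),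
      v.2 + (b : ZMod L) - (l : ZMod L)) := ⟨_, rfl⟩
    have hu1 : (ξ u.1 : ℕ) = 2 := by
      rw [hu]
      have := hξ.back (v.1 + (a : ZMod L)) k (by omega)
      rw [this]; omega
    have hu2 : (η u.2 : ℕ) = 2 := by
      rw [hu]
      have := hη.back (v.2 + (b : ZMod L)) l (by omega)
      rw [this]; omega
    have hblk := ptrace_blk (N₁ := N) (N₂ := N) χ zr on hξ hη hu1 hu2 hN hN hχ
    have hbinj := blk_injective (N₁ := N) (N₂ := N) hξ hη hu1 hu2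
    obtain ⟨μ, hμ⟩ : ∃ μ : R → Fin N × Fin N, ∀ p : R,
        ((μ p).1 : ℕ) = k + (p.1.1 - a).toNat ∧ ((μ p).2 : ℕ) = l + (p.1.2 - b).toNat := by
      refine ⟨fun p => (⟨k + (p.1.1 - a).toNat, ?_⟩, ⟨l + (p.1.2 - b).toNat, ?_⟩), ?_⟩
      · have := hR p.1 p.2; omega
      · have := hR p.1 p.2; omega
      · intro p; simp
    have hc1 : (fun p : R => place L v p) = blk N N u ∘ μ := by
      funext p
      have hp := hR p.1 p.2
      have h1 := hμ p
      unfold place blk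
      simp only [Function.comp_apply]
      rw [h1.1, h1.2, hu]
      have e1 := toNat_cast L p.1.1 a (by omega)
      have e2 := toNat_cast L p.1.2 b (by omega)
      ext
      · push_cast
        rw [e1]; ring
      · push_cast
        rw [e2]; ring
    have hc2 : ptrace μ (outer χ) = reduced N R
        (((k : ZMod N) - (a : ZMod N)), ((l : ZMod N) - (b : ZMod N))) (netT W) := by
      rw [hχout, ← ptrace_comp _ _ (boxE N).injective, ← hout, hdens]
      have hc3 : (boxE N) ∘ μ = fun p : R => place N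
          (((k : ZMod N) - (a : ZMod N)), ((l : ZMod N) - (b : ZMod N))) p := by
        funext p
        have hp := hR p.1 p.2
        have h1 := hμ p
        simp only [Function.comp_apply]
        rw [boxE_apply]
        unfold place
        rw [h1.1, h1.2]
        have e1 := toNat_cast N p.1.1 a (by omega)
        have e2 := toNat_cast N p.1.2 b (by omega)
        ext
        · push_cast
          rw [e1]; ring
        · push_cast
          rw [e2]; ring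
      rw [hc3]
      rfl
    rw [hc1, ptrace_comp _ _ hbinj, hblk, ptrace_smul, hc2, ← smul_sub]
    refine (traceNorm_smul_le _ _).trans ?_
    have hw0 : 0 ≤ wgt χ zr on L (ξ, η) := nsq_nonneg _
    rw [Complex.norm_real, Real.norm_of_nonneg hw0, mul_comm]
    exact mul_le_mul_of_nonneg_right (hδ _) hw0
  have hT1 : (N + 3) * Fintype.card R < L := by rw [hcard]; exact hL2
  have hbd : 2 * (((N + 3 - (good2 N r).card : ℕ) : ℝ) / ((N : ℝ) + 2) +
        ((N + 3 - (good2 N r).card : ℕ) : ℝ) / ((N : ℝ) + 2)) + δ ≤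
        4 * (r + 2 : ℝ) / (N + 2) + δ := by
    have c2 : ((N + 3 - (good2 N r).card : ℕ) : ℝ) ≤ r + 2 := by
      exact_mod_cast card_good2 N r hrN
    have hn : (0 : ℝ) < (N : ℝ) + 2 := by positivity
    have e2 : ((N + 3 - (good2 N r).card : ℕ) : ℝ) / ((N : ℝ) + 2) ≤ (r + 2) / ((N : ℝ) + 2) :=
      div_le_div_of_nonneg_right c2 hn.le
    have e3 : 4 * (r + 2 : ℝ) / (N + 2) = 4 * ((r + 2) / ((N : ℝ) + 2)) := by ring
    rw [e3]
    linarith
  constructor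
  · exact (traceNorm_super_le_err χ zr on hzo hχ hL1 hL1 _ (hιinj 0) hT1
      hT1 _ hρ hρ1 (good2 N r) (good2 N r) _ _ δ hδ0 (hgood 0)).1
  · intro v
    refine le_trans ?_ hbd
    exact (traceNorm_super_le_err χ zr on hzo hχ hL1 hL1 _ (hιinj v) hT1
      hT1 _ hρ hρ1 (good2 N r) (good2 N r) _ _ δ hδ0 (hgood v)).2

end core

end Pool.Agent.Hhelper96.PEPS
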