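import Pool.Agent.Hhelper96.PEPS.Window

/-!
Unique ground states of commuting translation invariant Hamiltonians are window networks with a
bounded number of hidden states per site.
-/

set_option autoImplicit false
set_option linter.unusedSectionVars false

open scoped BigOperators
open Matrix

namespace Pool.Agent.Hhelper96.PEPS

section algebra

variable {n : Type} [Fintype n] [DecidableEq n]

theorem aeval_mulVec {A : Matrix n n ℂ} {v : n → ℂ} {μ : ℂ} (h : A.mulVec v = μ • v)
    (P : Polynomial ℂ) : (Polynomial.aeval A P).mulVec v = (P.eval μ) • v := by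
  induction P using Polynomial.induction_on' with
  | add p q hp hq =>
    rw [map_add, Matrix.add_mulVec, hp, hq, Polynomial.eval_add, add_smul]
  | monomial k a =>
    rw [Polynomial.aeval_monomial, Polynomial.eval_monomial]
    have hk : ∀ k : ℕ, (A ^ k).mulVec v = (μ ^ k) • v := by
      intro k
      induction k with
      | zero => simp
      | succ k ih =>
        rw [pow_succ, ← Matrix.mulVec_mulVec, h, Matrix.mulVec_smul, ih, smul_smul, pow_succ]
        congr 1
        ring
    rw [← Matrix.mulVec_mulVec, hk, Matrix.mulVec_smul, Algebra.algebraMap_eq_smul_one,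
      Matrix.smul_mulVec, Matrix.one_mulVec, smul_smul]
    congr 1
    ring

theorem commute_aeval {A : Type} [Ring A] [Algebra ℂ A] {x y : A} (h : Commute x y)
    (P : Polynomial ℂ) : Commute x (Polynomial.aeval y P) := by
  induction P using Polynomial.induction_on' with
  | add p q hp hq =>
    rw [map_add]
    exact hp.add_right hq
  | monomial k a =>
    rw [Polynomial.aeval_monomial]
    exact (Algebra.commute_algebraMap_right a x).mul_right (h.pow_right k)

/-- a Hermitian matrix has, for every `e`, a polynomial in it that is an eigenprojector -/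
theorem exists_proj_poly {h : Matrix n n ℂ} (hh : h.IsHermitian) (e : ℂ) :
    ∃ q : Polynomial ℂ, q.eval e = 1 ∧ h * Polynomial.aeval h q = e • Polynomial.aeval h q := by
  classical
  obtain ⟨Sp, hSp⟩ : ∃ Sp : Finset ℂ,
      Sp = (Finset.univ.image (fun i => ((hh.eigenvalues i : ℝ) : ℂ))).erase e := ⟨_, rfl⟩
  obtain ⟨q, hq⟩ : ∃ q : Polynomial ℂ, q = ∏ μ ∈ Sp,
      (Polynomial.C (e - μ)⁻¹ * (Polynomial.X - Polynomial.C μ)) := ⟨_, rfl⟩
  refine ⟨q, ?_, ?_⟩
  · rw [hq, Polynomial.eval_prod]
    apply Finset.prod_eq_one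
    intro μ hμ
    rw [hSp] at hμ
    have : e - μ ≠ 0 := sub_ne_zero.2 (Finset.ne_of_mem_erase hμ).symm
    simp [this]
  · -- check on eigenvectors
    have hvan : ∀ i, ((Polynomial.X - Polynomial.C e) * q).eval ((hh.eigenvalues i : ℝ) : ℂ) = 0 := by
      intro i
      rw [Polynomial.eval_mul]
      by_cases hi : ((hh.eigenvalues i : ℝ) : ℂ) = e
      · rw [hi]; simp
      · apply mul_eq_zero_of_right
        rw [hq, Polynomial.eval_prod]
        apply Finset.prod_eq_zero (i := ((hh.eigenvalues i : ℝ) : ℂ))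
        · rw [hSp, Finset.mem_erase]
          exact ⟨hi, Finset.mem_image.2 ⟨i, Finset.mem_univ _, rfl⟩⟩
        · simp
    set U : Matrix n n ℂ := (hh.eigenvectorUnitary : Matrix n n ℂ) with hU
    have hUU : U * Uᴴ = 1 := by
      rw [← Matrix.star_eq_conjTranspose]
      exact Unitary.coe_mul_star_self hh.eigenvectorUnitary
    have hcol : ∀ i, h.mulVec (fun k => U k i) = ((hh.eigenvalues i : ℝ) : ℂ) • (fun k => U k i) := by
      intro i
      have h1 := hh.mulVec_eigenvectorBasis i
      have h2 : (fun k => U k i) = ⇑(hh.eigenvectorBasis i) := by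
        funext k
        rw [hU]
        exact hh.eigenvectorUnitary_apply k i
      rw [h2, h1]
      rfl
    have hM : Polynomial.aeval h ((Polynomial.X - Polynomial.C e) * q) = 0 := by
      have h3 : Polynomial.aeval h ((Polynomial.X - Polynomial.C e) * q) * U = 0 := by
        ext k i
        have h4 := aeval_mulVec (hcol i) ((Polynomial.X - Polynomial.C e) * q)
        rw [hvan i, zero_smul] at h4
        have := congrFun h4 k
        rw [Matrix.mul_apply]
        exact this
      calc Polynomial.aeval h ((Polynomial.X - Polynomial.C e) * q)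
          = Polynomial.aeval h ((Polynomial.X - Polynomial.C e) * q) * (U * Uᴴ) := by
            rw [hUU, Matrix.mul_one]
        _ = (Polynomial.aeval h ((Polynomial.X - Polynomial.C e) * q) * U) * Uᴴ := by
            rw [Matrix.mul_assoc]
        _ = 0 := by rw [h3, Matrix.zero_mul]
    rw [map_mul, map_sub, Polynomial.aeval_X, Polynomial.aeval_C, sub_mul, sub_eq_zero,
      Algebra.algebraMap_eq_smul_one, smul_mul_assoc, one_mul] at hM
    exact hM

theorem list_absorb {A : Type} [Ring A] [Algebra ℂ A] {x y : A} {e : ℂ} (l : List A)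
    (hc : ∀ z ∈ l, Commute x z) (hy : y ∈ l) (hxy : x * y = e • y) : x * l.prod = e • l.prod := by
  induction l with
  | nil => simp at hy
  | cons a l ih =>
    rw [List.prod_cons, ← mul_assoc]
    rcases List.mem_cons.1 hy with rfl | hy
    · rw [hxy, smul_mul_assoc]
    · rw [(hc a List.mem_cons_self).eq, mul_assoc, ih (fun z hz => hc z (List.mem_cons_of_mem a hz)) hy,
        mul_smul_comm]

theorem list_prod_mulVec_eq {l : List (Matrix n n ℂ)} {v : n → ℂ} (h : ∀ A ∈ l, A.mulVec v = v) :
    l.prod.mulVec v = v := by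
  induction l with
  | nil => simp
  | cons a l ih =>
    rw [List.prod_cons, ← Matrix.mulVec_mulVec, ih (fun A hA => h A (List.mem_cons_of_mem a hA)),
      h a List.mem_cons_self]

end algebra

section ground

variable {N d : ℕ} [NeZero N]

theorem exists_tr_smul (F : Finset (ℤ × ℤ)) (h : Matrix (F → Fin d) (F → Fin d) ℂ) {Δ : ℝ}
    (hΔ : 0 < Δ) {ψ : (Site N → Fin d) → ℂ} (hg : IsGappedGround (hamiltonian N F h) Δ ψ)
    (t : Site N) : ∃ c : ℂ, c ≠ 0 ∧ ∀ s, ψ (tr t s) = c * ψ s := by
  obtain ⟨s₁, hs₁⟩ : ∃ s, ψ s ≠ 0 := by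
    by_contra hcon
    push Not at hcon
    exact hg.1 (funext hcon)
  have hpos : (0 : ℝ) < ∑ s, ‖ψ s‖ ^ 2 := by
    apply Finset.sum_pos'
    · intro _ _; positivity
    · exact ⟨s₁, Finset.mem_univ _, by positivity⟩
  have hpc : ((∑ s, ‖ψ s‖ ^ 2 : ℝ) : ℂ) ≠ 0 := by exact_mod_cast hpos.ne'
  have key : ∀ s s', ψ (tr t s) * star (ψ (tr t s')) = ψ s * star (ψ s') := by
    intro s s'
    have h1 := density_tr F h hΔ hg t s s'
    unfold density at h1
    exact (div_left_inj' hpc).1 h1
  have hne : ψ (tr t s₁) ≠ 0 := by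
    intro h0
    have := key s₁ s₁
    rw [h0, zero_mul] at this
    exact hs₁ (by simpa using this.symm)
  have hne' : star (ψ (tr t s₁)) ≠ 0 := by simpa using hne
  refine ⟨star (ψ s₁) / star (ψ (tr t s₁)), ?_, ?_⟩
  · apply div_ne_zero
    · simpa using hs₁
    · exact hne'
  · intro s
    have := key s s₁
    field_simp
    rw [this]
    ring

/-- a nondegenerate ground state of a commuting translation invariant Hamiltonian is a joint
eigenvector of the local terms, with one common eigenvalue -/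
theorem exists_joint_eigenvalue (F : Finset (ℤ × ℤ)) (h : Matrix (F → Fin d) (F → Fin d) ℂ) {Δ : ℝ}
    (hΔ : 0 < Δ) {ψ : (Site N → Fin d) → ℂ} (hg : IsGappedGround (hamiltonian N F h) Δ ψ)
    (hcomm : ∀ v w, Commute (localTerm N F h v) (localTerm N F h w)) :
    ∃ e : ℂ, ∀ v, (localTerm N F h v).mulVec ψ = e • ψ := by
  have hg' := hg
  obtain ⟨hne, E₀, hE, hgap⟩ := hg
  have h1 : ∀ v, ∃ c : ℂ, (localTerm N F h v).mulVec ψ = c • ψ := by
    intro v
    by_cases h0 : (localTerm N F h v).mulVec ψ = 0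
    · exact ⟨0, by rw [h0, zero_smul]⟩
    · have hHv : Commute (hamiltonian N F h) (localTerm N F h v) := by
        unfold hamiltonian
        exact Commute.sum_left _ _ _ (fun w _ => hcomm w v)
      have h2 : (hamiltonian N F h).mulVec ((localTerm N F h v).mulVec ψ) =
          (E₀ : ℂ) • (localTerm N F h v).mulVec ψ := by
        rw [Matrix.mulVec_mulVec, hHv.eq, ← Matrix.mulVec_mulVec, hE, Matrix.mulVec_smul]
      rcases hgap E₀ _ h0 h2 with ⟨c, hc⟩ | h3
      · exact ⟨c, hc⟩
      · exfalso; linarith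
  choose c hc using h1
  refine ⟨c 0, fun v => ?_⟩
  obtain ⟨k, hk, hk'⟩ := exists_tr_smul F h hΔ hg' v
  obtain ⟨s₁, hs₁⟩ : ∃ s, ψ s ≠ 0 := by
    by_contra hcon
    push Not at hcon
    exact hne (funext hcon)
  have h2 : (localTerm N F h 0).mulVec ψ (tr v s₁) = k * (localTerm N F h v).mulVec ψ s₁ := by
    unfold Matrix.mulVec dotProduct
    rw [← Equiv.sum_comp (trEquiv (d := d) v)
      (fun s' => localTerm N F h 0 (tr v s₁) s' * ψ s'), Finset.mul_sum]
    refine Finset.sum_congr rfl (fun s' _ => ?_)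
    have : (trEquiv (d := d) v) s' = tr v s' := rfl
    rw [this, localTerm_tr, hk', zero_add]
    ring
  rw [hc 0, hc v] at h2
  simp only [Pi.smul_apply, smul_eq_mul] at h2
  rw [hk'] at h2
  have h3 : c 0 = c v := by
    have h4 : k * ψ s₁ ≠ 0 := mul_ne_zero hk hs₁
    have h5 : c 0 * (k * ψ s₁) = c v * (k * ψ s₁) := by rw [h2]; ring
    exact mul_right_cancel₀ h4 h5
  rw [hc v, h3]

variable {m : ℕ} [NeZero m]

/-- The ground state is a multiple of a window network. -/
theorem commuting_winNet (hmN : m ∣ N) (F : Finset (ℤ × ℤ)) (a₀ b₀ : ℤ)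
    (hF : ∀ p ∈ F, a₀ ≤ p.1 ∧ p.1 < a₀ + m ∧ b₀ ≤ p.2 ∧ p.2 < b₀ + m)
    (h : Matrix (F → Fin d) (F → Fin d) ℂ) (hh : h.IsHermitian) {Δ : ℝ}
    (hΔ : 0 < Δ) {ψ : (Site N → Fin d) → ℂ} (hg : IsGappedGround (hamiltonian N F h) Δ ψ)
    (hcomm : ∀ v w, Commute (localTerm N F h v) (localTerm N F h w)) :
    ∃ φ : (Site N → Fin d) → ℂ, WinNet m (d ^ (m * m)) φ ∧ φ ≠ 0 ∧ ∃ c : ℂ, φ = c • ψ := by
  classical
  have hmN' : m ≤ N := Nat.le_of_dvd (NeZero.pos N) hmN
  obtain ⟨e, he⟩ := exists_joint_eigenvalue F h hΔ hg hcomm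
  obtain ⟨hne, E₀, hE, hgap⟩ := hg
  obtain ⟨q, hq1, hq2⟩ := exists_proj_poly hh e
  obtain ⟨p, hp⟩ : ∃ p, p = Polynomial.aeval h q := ⟨_, rfl⟩
  -- windows
  obtain ⟨emb, hemb⟩ : ∃ emb : F → Fin m × Fin m, ∀ f : F,
      ((emb f).1 : ℕ) = (f.1.1 - a₀).toNat ∧ ((emb f).2 : ℕ) = (f.1.2 - b₀).toNat := by
    refine ⟨fun f => (⟨(f.1.1 - a₀).toNat, ?_⟩, ⟨(f.1.2 - b₀).toNat, ?_⟩), fun f => ⟨rfl, rfl⟩⟩
    · have := hF f.1 f.2; omega
    · have := hF f.1 f.2; omega
  have hwin : ∀ v : Site N, (fun f : F => win N m v (emb f)) =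
      fun f : F => place N (v.1 - (a₀ : ZMod N), v.2 - (b₀ : ZMod N)) f := by
    intro v
    funext f
    have h1 := hF f.1 f.2
    have h2 := hemb f
    have e1 := toNat_cast N f.1.1 a₀ (by omega)
    have e2 := toNat_cast N f.1.2 b₀ (by omega)
    unfold win place
    ext
    · simp only
      rw [h2.1, e1]; ring
    · simp only
      rw [h2.2, e2]; ring
  have hinj : ∀ v : Site N, Function.Injective (fun f : F => win N m v (emb f)) := by
    intro v
    rw [hwin v]
    exact place_injective hmN' F a₀ b₀ hF _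
  -- the local projectors
  obtain ⟨P, hP⟩ : ∃ P : Site N → Matrix (Site N → Fin d) (Site N → Fin d) ℂ,
    P = fun v => opAt (fun f : F => win N m v (emb f)) p := ⟨_, rfl⟩
  obtain ⟨Hv, hHv⟩ : ∃ Hv : Site N → Matrix (Site N → Fin d) (Site N → Fin d) ℂ,
    Hv = fun v => opAt (fun f : F => win N m v (emb f)) h := ⟨_, rfl⟩
  have hHloc : ∀ v, Hv v = localTerm N F h (v.1 - (a₀ : ZMod N), v.2 - (b₀ : ZMod N)) := by
    intro v
    rw [hHv, localTerm_eq_opAt]
    simp only
    rw [hwin v]
  have hPa : ∀ v, P v = Polynomial.aeval (Hv v) q := by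
    intro v
    rw [hP, hHv, hp]
    exact opAt_aeval (hinj v) h q
  have hHP : ∀ v, Hv v * P v = e • P v := by
    intro v
    rw [hHv, hP]
    simp only
    rw [← opAt_mul (hinj v), hp, hq2, opAt_smul]
  have hcHP : ∀ v w, Commute (Hv v) (P w) := by
    intro v w
    rw [hPa w]
    apply commute_aeval
    rw [hHloc, hHloc]
    exact hcomm _ _
  have hPψ : ∀ v, (P v).mulVec ψ = ψ := by
    intro v
    rw [hPa v]
    have h1 : (Hv v).mulVec ψ = e • ψ := by
      rw [hHloc]; exact he _
    rw [aeval_mulVec h1 q, hq1, one_smul]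
  -- the layers
  obtain ⟨cls, hcls⟩ : ∃ cls : Site m → List (Site N), cls = fun c =>
    (Finset.univ.filter (fun v : Site N => (ZMod.castHom hmN (ZMod m) v.1,
      ZMod.castHom hmN (ZMod m) v.2) = c)).toList := ⟨_, rfl⟩
  have hmem : ∀ c v, v ∈ cls c ↔ (ZMod.castHom hmN (ZMod m) v.1, ZMod.castHom hmN (ZMod m) v.2) = c := by
    intro c v
    rw [hcls]
    simp only [Finset.mem_toList, Finset.mem_filter, Finset.mem_univ, true_and]
  obtain ⟨O, hO⟩ : ∃ O : Site m → Matrix (Site N → Fin d) (Site N → Fin d) ℂ,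
    O = fun c => ((cls c).map P).prod := ⟨_, rfl⟩
  have hOwin : ∀ c, WinOp m (O c) := by
    intro c
    rw [hO]
    simp only
    rw [hP]
    apply winOp_prod emb p hinj
    · rw [hcls]; exact Finset.nodup_toList _
    · intro v hv v' hv' hvv' t t' heq
      apply hvv'
      have h1 := (hmem c v).1 hv
      have h2 := (hmem c v').1 hv'
      rw [← h2] at h1
      have h3 : ZMod.castHom hmN (ZMod m) v.1 = ZMod.castHom hmN (ZMod m) v'.1 :=
        congrArg Prod.fst h1
      have h4 : ZMod.castHom hmN (ZMod m) v.2 = ZMod.castHom hmN (ZMod m) v'.2 :=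
        congrArg Prod.snd h1
      have key : ∀ (x x' : ZMod N) (k k' : Fin m),
          ZMod.castHom hmN (ZMod m) x = ZMod.castHom hmN (ZMod m) x' →
          x + ((k : ℕ) : ZMod N) = x' + ((k' : ℕ) : ZMod N) → x = x' := by
        intro x x' k k' hx hk
        have h5 := congrArg (ZMod.castHom hmN (ZMod m)) hk
        rw [map_add, map_add, hx, map_natCast, map_natCast] at h5
        have h6 := add_left_cancel h5
        have h7 := natCast_inj_of_lt k.isLt k'.isLt h6
        rw [h7] at hk
        exact add_right_cancel hk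
      have h5 : v.1 + (((emb t).1 : ℕ) : ZMod N) = v'.1 + (((emb t').1 : ℕ) : ZMod N) :=
        congrArg Prod.fst heq
      have h6 : v.2 + (((emb t).2 : ℕ) : ZMod N) = v'.2 + (((emb t').2 : ℕ) : ZMod N) :=
        congrArg Prod.snd heq
      exact Prod.ext (key _ _ _ _ h3 h5) (key _ _ _ _ h4 h6)
  -- the full product
  obtain ⟨cl, hcl⟩ : ∃ cl : List (Site m), cl = (Finset.univ : Finset (Site m)).toList := ⟨_, rfl⟩
  obtain ⟨Pi, hPi⟩ : ∃ Pi, Pi = (cl.map O).prod := ⟨_, rfl⟩
  have hPiψ : Pi.mulVec ψ = ψ := by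
    rw [hPi]
    apply list_prod_mulVec_eq
    intro A hA
    obtain ⟨c, _, rfl⟩ := List.mem_map.1 hA
    rw [hO]
    apply list_prod_mulVec_eq
    intro B hB
    obtain ⟨v, _, rfl⟩ := List.mem_map.1 hB
    exact hPψ v
  have hcHO : ∀ v c, Commute (Hv v) (O c) := by
    intro v c
    rw [hO]
    apply Commute.list_prod_right
    intro A hA
    obtain ⟨w, _, rfl⟩ := List.mem_map.1 hA
    exact hcHP v w
  have hHO : ∀ v, Hv v * Pi = e • Pi := by
    intro v
    rw [hPi]
    obtain ⟨c, hc⟩ : ∃ c, c = (ZMod.castHom hmN (ZMod m) v.1, ZMod.castHom hmN (ZMod m) v.2) :=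
      ⟨_, rfl⟩
    apply list_absorb (y := O c)
    · intro A hA
      obtain ⟨c', _, rfl⟩ := List.mem_map.1 hA
      exact hcHO v c'
    · apply List.mem_map.2
      exact ⟨c, by rw [hcl]; simp, rfl⟩
    · rw [hO]
      apply list_absorb (y := P v)
      · intro A hA
        obtain ⟨w, _, rfl⟩ := List.mem_map.1 hA
        exact hcHP v w
      · apply List.mem_map.2
        exact ⟨v, (hmem c v).2 hc.symm, rfl⟩
      · exact hHP v
  -- a nonzero column
  have hPi0 : Pi ≠ 0 := by
    intro h0
    rw [h0, Matrix.zero_mulVec] at hPiψ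
    exact hne hPiψ.symm
  obtain ⟨s₀, hs₀⟩ : ∃ s₀, (fun s => Pi s s₀) ≠ 0 := by
    by_contra hcon
    push Not at hcon
    apply hPi0
    ext s s₀
    exact congrFun (hcon s₀) s
  have hcol : Pi.mulVec (fun s => if s = s₀ then (1 : ℂ) else 0) = fun s => Pi s s₀ := by
    funext s
    simp [Matrix.mulVec, dotProduct]
  refine ⟨fun s => Pi s s₀, ?_, hs₀, ?_⟩
  · rw [← hcol, hPi]
    have hlen : cl.length = m * m := by
      rw [hcl, Finset.length_toList, Finset.card_univ, Fintype.card_prod, ZMod.card]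
    rw [← hlen]
    clear hPi hcl hlen hHO hPiψ
    induction cl with
    | nil =>
      simp only [List.map_nil, List.prod_nil, Matrix.one_mulVec, List.length_nil, pow_zero]
      exact winNet_single s₀
    | cons c cl ih =>
      rw [List.map_cons, List.prod_cons, ← Matrix.mulVec_mulVec, List.length_cons, pow_succ,
        mul_comm]
      exact ih.mulVec (hOwin c)
  · -- proportionality
    have hH1 : ∀ φ : (Site N → Fin d) → ℂ, (∀ v, (Hv v).mulVec φ = e • φ) →
        (hamiltonian N F h).mulVec φ = ((N * N : ℕ) : ℂ) • e • φ := by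
      intro φ hφ
      have h1 : ∀ v, (localTerm N F h v).mulVec φ = e • φ := by
        intro v
        have h2 := hφ (v.1 + (a₀ : ZMod N), v.2 + (b₀ : ZMod N))
        rw [hHloc] at h2
        simpa using h2
      unfold hamiltonian
      rw [Matrix.sum_mulVec]
      rw [Finset.sum_congr rfl (fun v _ => h1 v), Finset.sum_const, Finset.card_univ,
        Fintype.card_prod, ZMod.card]
      rw [← Nat.cast_smul_eq_nsmul ℂ]
    have hcolE : (hamiltonian N F h).mulVec (fun s => Pi s s₀) = ((N * N : ℕ) : ℂ) • e •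
        (fun s => Pi s s₀) := by
      apply hH1
      intro v
      rw [← hcol, Matrix.mulVec_mulVec, hHO v, Matrix.smul_mulVec]
    have hψE : (hamiltonian N F h).mulVec ψ = ((N * N : ℕ) : ℂ) • e • ψ := by
      apply hH1
      intro v
      rw [hHloc]
      exact he _
    have hE0 : ((N * N : ℕ) : ℂ) * e = (E₀ : ℂ) := by
      obtain ⟨s₁, hs₁⟩ : ∃ s, ψ s ≠ 0 := by
        by_contra hcon
        push Not at hcon
        exact hne (funext hcon)
      rw [hE] at hψE
      have := congrFun hψE s₁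
      simp only [_root_.Pi.smul_apply, smul_eq_mul] at this
      have h2 : (E₀ : ℂ) * ψ s₁ = ((N * N : ℕ) : ℂ) * e * ψ s₁ := by rw [this]; ring
      exact (mul_right_cancel₀ hs₁ h2).symm
    rw [smul_smul, hE0] at hcolE
    rcases hgap E₀ _ hs₀ hcolE with h1 | h1
    · exact h1
    · exfalso; linarith

end ground

end Pool.Agent.Hhelper96.PEPS
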