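import Pool.Agent.Hhelper96.PEPS.Commuting
import Pool.Agent.Hhelper96.PEPS.AvgErr

/-!
Commuting families with eventually constant marginals: translation invariant PEPS approximation with
bond dimension of order `1 / ε ^ 2`.
-/

set_option autoImplicit false
set_option linter.unusedSectionVars false

open scoped BigOperators Topology ComplexOrder
open Matrix Filter

namespace Pool.Agent.Hhelper96.PEPS

theorem exists_box (R : Finset (ℤ × ℤ)) : ∃ (r : ℕ) (a b : ℤ), 1 ≤ r ∧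
    ∀ p ∈ R, a ≤ p.1 ∧ p.1 < a + r ∧ b ≤ p.2 ∧ p.2 < b + r := by
  obtain ⟨K, hK⟩ : ∃ K : ℕ, ∀ p ∈ R, p.1.natAbs ≤ K ∧ p.2.natAbs ≤ K := by
    refine ⟨∑ p ∈ R, (p.1.natAbs + p.2.natAbs), fun p hp => ?_⟩
    have h1 := Finset.single_le_sum (f := fun p : ℤ × ℤ => p.1.natAbs + p.2.natAbs)
      (fun _ _ => Nat.zero_le _) hp
    omega
  refine ⟨2 * K + 1, -(K : ℤ), -(K : ℤ), by omega, fun p hp => ?_⟩
  have := hK p hp
  omega

section reduced

variable {d L : ℕ} [NeZero L]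

theorem reduced_smul (R : Finset (ℤ × ℤ)) (v : Site L) {K : ℂ} (hK : K ≠ 0)
    (ψ : (Site L → Fin d) → ℂ) : reduced L R v (K • ψ) = reduced L R v ψ := by
  unfold reduced
  have : density (K • ψ) = density ψ := density_smul hK ψ
  rw [this]

theorem posSemidef_reduced {r : ℕ} (hrL : r ≤ L) (R : Finset (ℤ × ℤ)) (a b : ℤ)
    (hR : ∀ p ∈ R, a ≤ p.1 ∧ p.1 < a + r ∧ b ≤ p.2 ∧ p.2 < b + r) (v : Site L)
    {ψ : (Site L → Fin d) → ℂ} (hψ : ψ ≠ 0) :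
    (reduced L R v ψ).PosSemidef ∧ (reduced L R v ψ).trace = 1 := by
  have hnpos := nsq_pos_of_ne_zero hψ
  have hnc : ((nsq ψ : ℝ) : ℂ) ≠ 0 := by exact_mod_cast hnpos.ne'
  have hinv0 : (0 : ℂ) ≤ ((nsq ψ : ℝ) : ℂ)⁻¹ := by
    have : ((nsq ψ : ℝ) : ℂ)⁻¹ = (((nsq ψ)⁻¹ : ℝ) : ℂ) := by push_cast; rfl
    rw [this, Complex.zero_le_real]
    exact inv_nonneg.2 hnpos.le
  have hinj := place_injective hrL R a b hR v
  constructor
  · unfold reduced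
    rw [density_eq, ptrace_smul]
    exact (posSemidef_ptrace _ hinj ψ).smul hinv0
  · unfold reduced
    rw [density_eq, ptrace_smul, Matrix.trace_smul, trace_ptrace _ hinj, trace_outer,
      smul_eq_mul, inv_mul_cancel₀ hnc]

end reduced

/-- The approximation statement for commuting families, given that the marginals are eventually
constant. -/
theorem commuting_final (d : ℕ) (F : Finset (ℤ × ℤ)) (h : Matrix (F → Fin d) (F → Fin d) ℂ)
    (hh : h.IsHermitian)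
    (hcomm : ∀ᶠ n in atTop, ∀ v w : Site (n + 1),
      Commute (localTerm (n + 1) F h v) (localTerm (n + 1) F h w))
    (Δ : ℕ → ℝ) (ψ : ∀ n : ℕ, (Site (n + 1) → Fin d) → ℂ)
    (hψ : ∀ᶠ n in atTop, 0 < Δ n ∧ IsGappedGround (hamiltonian (n + 1) F h) (Δ n) (ψ n))
    (R : Finset (ℤ × ℤ))
    (hconst : ∃ ρ, ∀ᶠ n in atTop, reduced (n + 1) R 0 (ψ n) = ρ) :
    ∃ C : ℝ, ∀ ε : ℝ, 0 < ε → ε ≤ 1 → ∃ D : ℕ, (D : ℝ) ≤ C / ε ^ 2 ∧
      ∃ A : Fin d → Fin D → Fin D → Fin D → Fin D → ℂ,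
        (∀ᶠ n in atTop, pepsVec (n + 1) A ≠ 0) ∧
        ∀ᶠ n in atTop, ∀ v : Site (n + 1),
          traceNorm (reduced (n + 1) R v (ψ n) - reduced (n + 1) R v (pepsVec (n + 1) A)) ≤ ε := by
  classical
  obtain ⟨ρ, hρ⟩ := hconst
  obtain ⟨r, a, b, hr, hR⟩ := exists_box R
  obtain ⟨m, a₀, b₀, hm, hF⟩ := exists_box F
  have : NeZero m := ⟨by omega⟩
  obtain ⟨n₀, hn₀⟩ := eventually_atTop.1 (hρ.and (hψ.and hcomm))
  rcases Nat.lt_or_ge 1 d with hd | hd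
  · have hzo : (⟨0, by omega⟩ : Fin d) ≠ ⟨1, hd⟩ := by
      intro h
      simp only [Fin.mk.injEq] at h
      omega
    obtain ⟨y₀, hy₀⟩ : ∃ y₀ : ℕ, y₀ = Fintype.card ((Fin m × Fin m → Fin d × Fin (d ^ (m * m))) ×
      (Fin m × Fin m → Fin d × Fin (d ^ (m * m))) ×
      (Fin m × Fin m → Fin d × Fin (d ^ (m * m)))) + 1 := ⟨_, rfl⟩
    -- the constant
    refine ⟨((m : ℝ) * (4 * (r + 2) + 1 + (n₀ + 1 + r)) + 3) ^ 2 * y₀, ?_⟩
    intro ε hε hε1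
    obtain ⟨K, hK⟩ : ∃ K : ℕ, K = ⌈4 * (r + 2 : ℝ) / ε⌉₊ + (n₀ + 1 + r) := ⟨_, rfl⟩
    obtain ⟨N, hN⟩ : ∃ N : ℕ, N = m * K := ⟨_, rfl⟩
    have hKN : K ≤ N := by rw [hN]; nlinarith
    have hn₀N : n₀ + 1 + r ≤ N := by omega
    have hNpos : 0 < N := by omega
    obtain ⟨n₁, hn₁⟩ : ∃ n₁, N = n₁ + 1 := ⟨N - 1, by omega⟩
    have hn₁' : n₀ ≤ n₁ := by omega
    obtain ⟨h1, h2, h3⟩ := hn₀ n₁ hn₁'
    have hmN : m ∣ n₁ + 1 := ⟨K, by rw [← hn₁, hN]⟩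
    obtain ⟨φ, hφw, hφ0, c, hc⟩ := commuting_winNet (N := n₁ + 1) (m := m) hmN F a₀ b₀ hF h hh
      h2.1 h2.2 h3
    obtain ⟨W, hW⟩ := hφw.netT
    have hc0 : c ≠ 0 := by
      rintro rfl
      rw [zero_smul] at hc
      exact hφ0 hc
    have hrN : r ≤ n₁ + 1 := by omega
    have hred : ∀ v, reduced (n₁ + 1) R v (netT W) = ρ := by
      intro v
      rw [hW, hc, reduced_smul R v hc0, reduced_eq_of_gapped F h h2.1 h2.2 R v, h1]
    have hρ' := posSemidef_reduced hrN R a b hR 0 h2.2.1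
    rw [h1] at hρ'
    obtain ⟨A, hA⟩ := core_net hzo (n₁ + 1) r hrN R a b hR W (by rw [hW]; exact hφ0) ρ hρ'.1 hρ'.2 0
      (fun v => by rw [hred v, sub_self, traceNorm_zero])
    refine ⟨_, ?_, A, ?_, ?_⟩
    · rw [card_hidY, ← hy₀, ← hn₁]
      have e1 : (N : ℝ) + 3 ≤ ((m : ℝ) * (4 * (r + 2) + 1 + (n₀ + 1 + r)) + 3) / ε := by
        rw [le_div_iff₀ hε, hN, hK]
        push_cast
        have e2 : (⌈4 * (r + 2 : ℝ) / ε⌉₊ : ℝ) ≤ 4 * (r + 2 : ℝ) / ε + 1 :=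
          (Nat.ceil_lt_add_one (by positivity)).le
        have e3 : (⌈4 * (r + 2 : ℝ) / ε⌉₊ : ℝ) * ε ≤ 4 * (r + 2 : ℝ) + 1 := by
          calc (⌈4 * (r + 2 : ℝ) / ε⌉₊ : ℝ) * ε ≤ (4 * (r + 2 : ℝ) / ε + 1) * ε :=
                mul_le_mul_of_nonneg_right e2 hε.le
            _ = 4 * (r + 2 : ℝ) + ε := by field_simp
            _ ≤ _ := by linarith
        have e4 : ((n₀ : ℝ) + 1 + r) * ε ≤ n₀ + 1 + r := by
          have : (0 : ℝ) ≤ (n₀ : ℝ) + 1 + r := by positivity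
          nlinarith
        have hm0 : (0 : ℝ) ≤ m := by positivity
        have e5 : (m : ℝ) * ((⌈4 * (r + 2 : ℝ) / ε⌉₊ : ℝ) * ε + ((n₀ : ℝ) + 1 + r) * ε) ≤
            m * (4 * (r + 2) + 1 + (n₀ + 1 + r)) := mul_le_mul_of_nonneg_left (by linarith) hm0
        have e6 : (3 : ℝ) * ε ≤ 3 := by linarith
        nlinarith
      have e7 : (0 : ℝ) ≤ (N : ℝ) + 3 := by positivity
      push_cast
      calc ((N : ℝ) + 3) * (((N : ℝ) + 3) * (y₀ : ℝ)) = ((N : ℝ) + 3) ^ 2 * y₀ := by ring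
        _ ≤ (((m : ℝ) * (4 * (r + 2) + 1 + (n₀ + 1 + r)) + 3) / ε) ^ 2 * y₀ := by
            apply mul_le_mul_of_nonneg_right _ (Nat.cast_nonneg _)
            exact pow_le_pow_left₀ e7 e1 2
        _ = _ := by rw [div_pow]; ring
    · filter_upwards [eventually_ge_atTop ((n₁ + 1 + 2) ^ 2),
        eventually_ge_atTop ((n₁ + 1 + 3) * R.card)] with n h5 h6
      exact (hA (n + 1) (by omega) (by omega)).1
    · filter_upwards [eventually_ge_atTop ((n₁ + 1 + 2) ^ 2),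
        eventually_ge_atTop ((n₁ + 1 + 3) * R.card), hρ, hψ] with n h5 h6 h7 h8 v
      have h9 := (hA (n + 1) (by omega) (by omega)).2 v
      rw [reduced_eq_of_gapped F h h8.1 h8.2 R v, h7, traceNorm_sub_comm]
      refine h9.trans ?_
      rw [add_zero, ← hn₁, div_le_iff₀ (by positivity)]
      have e2 : 4 * (r + 2 : ℝ) / ε ≤ (⌈4 * (r + 2 : ℝ) / ε⌉₊ : ℝ) := Nat.le_ceil _
      rw [div_le_iff₀ hε] at e2
      have e3 : (⌈4 * (r + 2 : ℝ) / ε⌉₊ : ℝ) ≤ N := by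
        exact_mod_cast (by omega : ⌈4 * (r + 2 : ℝ) / ε⌉₊ ≤ N)
      nlinarith
  · -- one-dimensional sites
    refine ⟨1, ?_⟩
    intro ε hε hε1
    obtain ⟨h1, h2, h3⟩ := hn₀ (n₀ + r) (by omega)
    obtain ⟨A, hA⟩ := core_trivial d hd R r hr a b hR (n₀ + r + 1) (by omega) (ψ (n₀ + r)) h2.2.1
    refine ⟨1, ?_, A, ?_, ?_⟩
    · rw [Nat.cast_one, le_div_iff₀ (by positivity), one_mul]
      nlinarith
    · filter_upwards [eventually_ge_atTop r] with n hn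
      exact (hA (n + 1) (by omega)).1
    · filter_upwards [eventually_ge_atTop r, hρ, hψ] with n hn h7 h8 v
      have h9 := (hA (n + 1) (by omega)).2 v
      rw [h1] at h9
      rw [reduced_eq_of_gapped F h h8.1 h8.2 R v, h7, traceNorm_sub_comm]
      exact h9.trans hε.le

end Pool.Agent.Hhelper96.PEPS
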