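import Pool.Agent.Hhelper96.PEPS.Local
import Pool.Agent.Hhelper96.PEPS.CommFinal

/-!
Energies in terms of marginals; convergence of the ground state energy density on square tori.
-/

set_option autoImplicit false
set_option linter.unusedSectionVars false

open scoped BigOperators Topology ComplexOrder
open Matrix Filter

namespace Pool.Agent.Hhelper96.PEPS

section TI

variable {d : ℕ} {L : ℕ} [NeZero L]

theorem density_tr' {H : Matrix (Site L → Fin d) (Site L → Fin d) ℂ}
    (hTI : ∀ (t : Site L) (s s' : Site L → Fin d), H (tr t s) (tr t s') = H s s') {Δ : ℝ}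
    (hΔ : 0 < Δ) {ψ : (Site L → Fin d) → ℂ} (hg : IsGappedGround H Δ ψ)
    (t : Site L) (s s' : Site L → Fin d) : density ψ (tr t s) (tr t s') = density ψ s s' := by
  obtain ⟨hne, E₀, hE, hgap⟩ := hg
  set φ : (Site L → Fin d) → ℂ := fun s => ψ (tr t s) with hφ
  have hφne : φ ≠ 0 := by
    intro h0
    apply hne
    funext s
    have := congrFun h0 ((trEquiv t).symm s)
    simp only [hφ] at this
    have h2 : tr t ((trEquiv t).symm s) = s := (trEquiv t).apply_symm_apply s
    rw [h2] at this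
    exact this
  have hφE : H.mulVec φ = (E₀ : ℂ) • φ := by
    funext s
    have h1 : H.mulVec φ s = H.mulVec ψ (tr t s) := by
      unfold Matrix.mulVec dotProduct
      rw [← Equiv.sum_comp (trEquiv (d := d) t)
        (fun s' => H (tr t s) s' * ψ s')]
      refine Finset.sum_congr rfl (fun s' _ => ?_)
      have : (trEquiv (d := d) t) s' = tr t s' := rfl
      rw [this, hTI]
    rw [h1, hE]
    rfl
  rcases hgap E₀ φ hφne hφE with ⟨c, hc⟩ | h1
  · have hn : ∑ s, ‖φ s‖ ^ 2 = ∑ s, ‖ψ s‖ ^ 2 :=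
      Equiv.sum_comp (trEquiv (d := d) t) (fun s => ‖ψ s‖ ^ 2)
    have hn2 : ∑ s, ‖φ s‖ ^ 2 = ‖c‖ ^ 2 * ∑ s, ‖ψ s‖ ^ 2 := by
      rw [hc, Finset.mul_sum]
      refine Finset.sum_congr rfl (fun s _ => ?_)
      rw [Pi.smul_apply, smul_eq_mul, norm_mul, mul_pow]
    have hpos : 0 < ∑ s, ‖ψ s‖ ^ 2 := sqn_pos hne
    have hc1 : ‖c‖ ^ 2 = 1 := by
      have h3 : ‖c‖ ^ 2 * ∑ s, ‖ψ s‖ ^ 2 = 1 * ∑ s, ‖ψ s‖ ^ 2 := by
        rw [one_mul, ← hn2, hn]
      exact mul_right_cancel₀ hpos.ne' h3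
    have hcc : c * star c = 1 := by
      rw [mul_star_self, hc1]; simp
    unfold density
    have e1 : ψ (tr t s) = c * ψ s := congrFun hc s
    have e2 : ψ (tr t s') = c * ψ s' := congrFun hc s'
    rw [e1, e2, star_mul]
    congr 1
    calc c * ψ s * (star (ψ s') * star c) = (c * star c) * (ψ s * star (ψ s')) := by ring
      _ = ψ s * star (ψ s') := by rw [hcc, one_mul]
  · exfalso; linarith

open Classical in
theorem reduced_eq_of_TI {H : Matrix (Site L → Fin d) (Site L → Fin d) ℂ}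
    (hTI : ∀ (t : Site L) (s s' : Site L → Fin d), H (tr t s) (tr t s') = H s s') {Δ : ℝ}
    (hΔ : 0 < Δ) {ψ : (Site L → Fin d) → ℂ} (hg : IsGappedGround H Δ ψ)
    (R : Finset (ℤ × ℤ)) (w : Site L) : reduced L R w ψ = reduced L R 0 ψ := by
  ext a b
  unfold reduced ptrace
  rw [← Equiv.sum_comp (trEquiv (d := d) w) (fun s => ∑ s' : Site L → Fin d,
    if s ∘ (fun p : R => place L 0 p) = a ∧ s' ∘ (fun p : R => place L 0 p) = b ∧
      ∀ u, (∀ t : R, place L 0 t ≠ u) → s u = s' u then density ψ s s' else 0)]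
  refine Finset.sum_congr rfl (fun s _ => ?_)
  rw [← Equiv.sum_comp (trEquiv (d := d) w) (fun s' =>
    if (trEquiv (d := d) w s) ∘ (fun p : R => place L 0 p) = a ∧
      s' ∘ (fun p : R => place L 0 p) = b ∧
      ∀ u, (∀ t : R, place L 0 t ≠ u) → (trEquiv (d := d) w s) u = s' u
      then density ψ (trEquiv (d := d) w s) s' else 0)]
  refine Finset.sum_congr rfl (fun s' _ => ?_)
  have h1 : ∀ σ : Site L → Fin d, (trEquiv (d := d) w σ) ∘ (fun p : R => place L 0 p) =
      σ ∘ (fun p : R => place L w p) := by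
    intro σ
    funext p
    change σ (place L 0 p + w) = σ (place L w p)
    rw [place_add, zero_add]
  have h2 : (∀ u, (∀ t : R, place L 0 t ≠ u) → (trEquiv (d := d) w s) u = (trEquiv (d := d) w s') u) ↔
      (∀ u, (∀ t : R, place L w t ≠ u) → s u = s' u) := by
    constructor
    · intro H u hu
      have := H (u - w) (fun p hp => hu p (by
        have h3 : place L 0 p + w = place L w p := by rw [place_add, zero_add]
        rw [← h3, hp, sub_add_cancel]))
      change s (u - w + w) = s' (u - w + w) at this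
      rwa [sub_add_cancel] at this
    · intro H u hu
      change s (u + w) = s' (u + w)
      apply H
      intro p hp
      apply hu p
      have h3 : place L 0 p + w = place L w p := by rw [place_add, zero_add]
      rw [← h3] at hp
      exact add_right_cancel hp
  have h3 : density ψ (trEquiv (d := d) w s) (trEquiv (d := d) w s') = density ψ s s' :=
    density_tr' hTI hΔ hg w s s'
  have h4 : ((trEquiv (d := d) w s) ∘ (fun p : R => place L 0 p) = a ∧
      (trEquiv (d := d) w s') ∘ (fun p : R => place L 0 p) = b ∧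
      ∀ u, (∀ t : R, place L 0 t ≠ u) → (trEquiv (d := d) w s) u = (trEquiv (d := d) w s') u) ↔
      (s ∘ (fun p : R => place L w p) = a ∧ s' ∘ (fun p : R => place L w p) = b ∧
      ∀ u, (∀ t : R, place L w t ≠ u) → s u = s' u) := by
    rw [h1, h1, h2]
  by_cases hh : s ∘ (fun p : R => place L w p) = a ∧ s' ∘ (fun p : R => place L w p) = b ∧
      ∀ u, (∀ t : R, place L w t ≠ u) → s u = s' u
  · rw [if_pos hh, if_pos (h4.2 hh), h3]
  · rw [if_neg hh, if_neg (fun h' => hh (h4.1 h'))]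

theorem localTerm_isHermitian {F : Finset (ℤ × ℤ)} {h : Matrix (F → Fin d) (F → Fin d) ℂ}
    (hh : h.IsHermitian) (v : Site L) : (localTerm L F h v).IsHermitian := by
  rw [localTerm_eq_opAt]
  unfold Matrix.IsHermitian
  rw [← opAt_conjTranspose, hh.eq]

theorem hamiltonian_isHermitian {F : Finset (ℤ × ℤ)} {h : Matrix (F → Fin d) (F → Fin d) ℂ}
    (hh : h.IsHermitian) : (hamiltonian L F h).IsHermitian := by
  unfold hamiltonian Matrix.IsHermitian
  rw [Matrix.conjTranspose_sum]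
  exact Finset.sum_congr rfl (fun v _ => localTerm_isHermitian hh v)

/-- translation invariance of `H + s K` -/
theorem sum_TI (F R : Finset (ℤ × ℤ)) (h : Matrix (F → Fin d) (F → Fin d) ℂ)
    (k : Matrix (R → Fin d) (R → Fin d) ℂ) (c : ℂ) (t : Site L) (s s' : Site L → Fin d) :
    (hamiltonian L F h + c • hamiltonian L R k) (tr t s) (tr t s') =
      (hamiltonian L F h + c • hamiltonian L R k) s s' := by
  rw [Matrix.add_apply, Matrix.add_apply, Matrix.smul_apply, Matrix.smul_apply, hamiltonian_tr,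
    hamiltonian_tr]

end TI

section energy

variable {S T : Type} [Fintype S] [DecidableEq S] [Fintype T] [DecidableEq T] {d : ℕ}

open Classical in
/-- the expectation value of a local operator in terms of the marginal -/
theorem form_opAt (κ : T → S) (p : Matrix (T → Fin d) (T → Fin d) ℂ) (Φ : (S → Fin d) → ℂ) :
    star Φ ⬝ᵥ (opAt κ p).mulVec Φ = (ptrace κ (outer Φ) * p).trace := by
  have h1 : (ptrace κ (outer Φ) * p).trace = ∑ s : S → Fin d, ∑ s' : S → Fin d,
      if (∀ u, (∀ t, κ t ≠ u) → s u = s' u) then Φ s * star (Φ s') * p (s' ∘ κ) (s ∘ κ) else 0 := by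
    unfold Matrix.trace
    simp only [Matrix.diag_apply, Matrix.mul_apply]
    unfold ptrace outer
    simp_rw [Finset.sum_mul]
    have e1 : ∀ a : T → Fin d, (∑ b : T → Fin d, ∑ s : S → Fin d, ∑ s' : S → Fin d,
        (if s ∘ κ = a ∧ s' ∘ κ = b ∧ ∀ u, (∀ t, κ t ≠ u) → s u = s' u then Φ s * star (Φ s')
          else 0) * p b a) = ∑ s : S → Fin d, ∑ s' : S → Fin d,
        if s ∘ κ = a ∧ ∀ u, (∀ t, κ t ≠ u) → s u = s' u then
          Φ s * star (Φ s') * p (s' ∘ κ) (s ∘ κ) else 0 := by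
      intro a
      rw [Finset.sum_comm]
      refine Finset.sum_congr rfl (fun s _ => ?_)
      rw [Finset.sum_comm]
      refine Finset.sum_congr rfl (fun s' _ => ?_)
      rw [Finset.sum_eq_single (s' ∘ κ)]
      · by_cases h : s ∘ κ = a ∧ ∀ u, (∀ t, κ t ≠ u) → s u = s' u
        · rw [if_pos h, if_pos ⟨h.1, rfl, h.2⟩, h.1]
        · rw [if_neg h, if_neg (fun h' => h ⟨h'.1, h'.2.2⟩), zero_mul]
      · intro b _ hb
        rw [if_neg (fun h' => hb h'.2.1.symm), zero_mul]
      · intro h; exact absurd (Finset.mem_univ _) h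
    simp_rw [e1]
    rw [Finset.sum_comm]
    refine Finset.sum_congr rfl (fun s _ => ?_)
    rw [Finset.sum_comm]
    refine Finset.sum_congr rfl (fun s' _ => ?_)
    rw [Finset.sum_eq_single (s ∘ κ)]
    · by_cases h : ∀ u, (∀ t, κ t ≠ u) → s u = s' u
      · rw [if_pos h, if_pos ⟨rfl, h⟩]
      · rw [if_neg h, if_neg (fun h' => h h'.2)]
    · intro b _ hb
      rw [if_neg (fun h' => hb h'.1.symm)]
    · intro h; exact absurd (Finset.mem_univ _) h
  rw [h1, Finset.sum_comm]
  unfold dotProduct Matrix.mulVec dotProduct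
  refine Finset.sum_congr rfl (fun s _ => ?_)
  rw [Finset.mul_sum]
  refine Finset.sum_congr rfl (fun s' _ => ?_)
  rw [Pi.star_apply]
  have h2 : (∀ u, (∀ t, κ t ≠ u) → s u = s' u) ↔ (∀ u, (∀ t, κ t ≠ u) → s' u = s u) := by
    constructor <;> intro h u hu <;> exact (h u hu).symm
  by_cases h : ∀ u, (∀ t, κ t ≠ u) → s u = s' u
  · have e : opAt κ p s s' = p (s ∘ κ) (s' ∘ κ) := by
      unfold opAt
      rw [if_pos h]
    rw [if_pos (h2.1 h)]
    change star (Φ s) * (opAt κ p s s' * Φ s') = _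
    rw [e]; ring
  · have e : opAt κ p s s' = 0 := by
      unfold opAt
      rw [if_neg h]
    rw [if_neg (fun h' => h (h2.2 h'))]
    change star (Φ s) * (opAt κ p s s' * Φ s') = _
    rw [e]; ring

/-- energy functional on marginals -/
noncomputable def enf {m : Type} [Fintype m] [DecidableEq m] (p X : Matrix m m ℂ) : ℝ :=
  (X * p).trace.re

theorem ex_localTerm {L : ℕ} [NeZero L] (R : Finset (ℤ × ℤ)) (k : Matrix (R → Fin d) (R → Fin d) ℂ)
    (v : Site L) {Φ : (Site L → Fin d) → ℂ} (hΦ : Φ ≠ 0) :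
    ex (localTerm L R k v) Φ = sqn Φ * enf k (reduced L R v Φ) := by
  have hpos : 0 < nsq Φ := sqn_pos hΦ
  have hnc : ((nsq Φ : ℝ) : ℂ) ≠ 0 := by exact_mod_cast hpos.ne'
  have h1 : outer Φ = ((nsq Φ : ℝ) : ℂ) • density Φ := by
    rw [density_eq, smul_smul, mul_inv_cancel₀ hnc, one_smul]
  unfold ex enf reduced
  rw [localTerm_eq_opAt, form_opAt, h1, ptrace_smul, Matrix.smul_mul, Matrix.trace_smul, smul_eq_mul,
    Complex.re_ofReal_mul]
  rfl

end energy

section functional

variable {m : Type} [Fintype m] [DecidableEq m]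

theorem norm_apply_le_traceNorm (X : Matrix m m ℂ) (i j : m) : ‖X i j‖ ≤ traceNorm X := by
  have hW : IsContr (Matrix.single i j (1 : ℂ)) := by
    unfold IsContr
    have h1 : (1 : Matrix m m ℂ) - (Matrix.single i j (1 : ℂ))ᴴ * Matrix.single i j (1 : ℂ) =
        diagonal (fun l => if l = j then (0 : ℂ) else 1) := by
      rw [Matrix.conjTranspose_single, star_one, Matrix.single_mul_single_same, one_mul]
      ext a b
      rw [Matrix.sub_apply, Matrix.diagonal_apply, Matrix.one_apply, Matrix.single_apply]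
      by_cases hab : a = b
      · subst hab
        by_cases haj : a = j
        · subst haj; simp
        · have : ¬ (j = a) := fun h => haj h.symm
          simp [haj, this]
      · have : ¬ (j = a ∧ j = b) := fun h => hab (h.1.symm.trans h.2)
        simp [hab, this]
    rw [h1]
    apply Matrix.PosSemidef.diagonal
    intro l
    by_cases h : l = j
    · simp [h]
    · simp [h]
  have h2 := norm_trace_le_traceNorm X hW
  have h3 : ((Matrix.single i j (1 : ℂ))ᴴ * X).trace = X i j := by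
    rw [Matrix.conjTranspose_single, star_one, Matrix.trace_single_mul, one_smul]
  rwa [h3] at h2

/-- linear functionals are bounded in trace norm -/
theorem exists_functional_bound (f : Matrix m m ℂ →ₗ[ℂ] ℂ) :
    ∃ C : ℝ, 0 ≤ C ∧ ∀ X, |(f X).re| ≤ C * traceNorm X := by
  refine ⟨∑ i, ∑ j, ‖f (Matrix.single i j 1)‖, by positivity, fun X => ?_⟩
  refine (Complex.abs_re_le_norm _).trans ?_
  have h1 : f X = ∑ i, ∑ j, X i j * f (Matrix.single i j 1) := by
    conv_lhs => rw [Matrix.matrix_eq_sum_single X]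
    rw [map_sum]
    refine Finset.sum_congr rfl (fun i _ => ?_)
    rw [map_sum]
    refine Finset.sum_congr rfl (fun j _ => ?_)
    have : Matrix.single i j (X i j) = X i j • Matrix.single i j (1 : ℂ) := by
      rw [Matrix.smul_single, smul_eq_mul, mul_one]
    rw [this, map_smul, smul_eq_mul]
  rw [h1, Finset.sum_mul]
  refine (norm_sum_le _ _).trans (Finset.sum_le_sum (fun i _ => ?_))
  rw [Finset.sum_mul]
  refine (norm_sum_le _ _).trans (Finset.sum_le_sum (fun j _ => ?_))
  rw [norm_mul, mul_comm]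
  exact mul_le_mul_of_nonneg_left (norm_apply_le_traceNorm X i j) (norm_nonneg _)

end functional

section ptl

variable {S T : Type} [Fintype S] [DecidableEq S] [Fintype T] [DecidableEq T] {d : ℕ}

theorem ptrace_add (ι : T → S) (M M' : Matrix (S → Fin d) (S → Fin d) ℂ) :
    ptrace ι (M + M') = ptrace ι M + ptrace ι M' := by
  classical
  ext a b
  have key : ∀ M : Matrix (S → Fin d) (S → Fin d) ℂ, ptrace ι M a b = ∑ s : S → Fin d,
      ∑ s' : S → Fin d, if s ∘ ι = a ∧ s' ∘ ι = b ∧ ∀ u, (∀ t, ι t ≠ u) → s u = s' u then M s s'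
        else 0 := by
    intro M
    unfold ptrace
    refine Finset.sum_congr rfl (fun s _ => Finset.sum_congr rfl (fun s' _ => ?_))
    by_cases h : s ∘ ι = a ∧ s' ∘ ι = b ∧ ∀ u, (∀ t, ι t ≠ u) → s u = s' u
    · rw [if_pos h]
    · rw [if_neg h]
  rw [Matrix.add_apply, key, key, key]
  rw [← Finset.sum_add_distrib]
  refine Finset.sum_congr rfl (fun s _ => ?_)
  rw [← Finset.sum_add_distrib]
  refine Finset.sum_congr rfl (fun s' _ => ?_)
  rw [Matrix.add_apply]
  split_ifs <;> simp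

/-- the functional `X ↦ Tr (ptrace ι X * p)` -/
noncomputable def ptf (ι : T → S) (p : Matrix (T → Fin d) (T → Fin d) ℂ) :
    Matrix (S → Fin d) (S → Fin d) ℂ →ₗ[ℂ] ℂ where
  toFun X := (ptrace ι X * p).trace
  map_add' X Y := by rw [ptrace_add, Matrix.add_mul, Matrix.trace_add]
  map_smul' c X := by rw [ptrace_smul, Matrix.smul_mul, Matrix.trace_smul]; rfl

theorem reduced_incl {L : ℕ} [NeZero L] {R W : Finset (ℤ × ℤ)} (hRW : R ⊆ W) (v : Site L)
    (hW : Function.Injective (fun p : W => place L v p)) (Φ : (Site L → Fin d) → ℂ) :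
    reduced L R v Φ = ptrace (fun p : R => (⟨p.1, hRW p.2⟩ : W)) (reduced L W v Φ) := by
  unfold reduced
  rw [← ptrace_comp _ _ hW]
  rfl

end ptl

/-- monotone convergence criterion -/
theorem tendsto_of_almost_decreasing {e : ℕ → ℝ} {B : ℝ} (hB : ∀ᶠ n in atTop, |e n| ≤ B)
    (h : ∀ ε > 0, ∀ᶠ n in atTop, ∀ᶠ k in atTop, e k ≤ e n + ε) : ∃ l, Tendsto e atTop (𝓝 l) := by
  have hbu : IsBoundedUnder (· ≤ ·) atTop e :=
    isBoundedUnder_of_eventually_le (hB.mono (fun n hn => (abs_le.1 hn).2))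
  have hbl : IsBoundedUnder (· ≥ ·) atTop e :=
    isBoundedUnder_of_eventually_ge (hB.mono (fun n hn => (abs_le.1 hn).1))
  refine ⟨limsup e atTop, tendsto_of_le_liminf_of_limsup_le ?_ le_rfl hbu hbl⟩
  apply le_of_forall_pos_le_add
  intro ε hε
  have h1 := h ε hε
  have h2 : ∀ᶠ n in atTop, limsup e atTop - ε ≤ e n := by
    filter_upwards [h1] with n hn
    have h3 : limsup e atTop ≤ e n + ε := limsup_le_of_le hbl.isCoboundedUnder_le hn
    linarith
  have h4 : limsup e atTop - ε ≤ liminf e atTop := le_liminf_of_le hbu.isCoboundedUnder_ge h2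
  linarith

theorem GS.le {n : Type} [Fintype n] [DecidableEq n] {H : Matrix n n ℂ} (hH : H.IsHermitian)
    {Δ E : ℝ} (hΔ : 0 ≤ Δ) {ψ : n → ℂ} (hgs : GS H Δ E ψ) (φ : n → ℂ) : E * sqn φ ≤ ex H φ := by
  obtain ⟨α, hα⟩ : ∃ α, α = star ψ ⬝ᵥ φ := ⟨_, rfl⟩
  obtain ⟨χ, hχ⟩ : ∃ χ, χ = φ - α • ψ := ⟨_, rfl⟩
  have hort : star ψ ⬝ᵥ χ = 0 := by
    rw [hχ, dotProduct_sub, dotProduct_smul, star_dot_self, hgs.1, ← hα]
    simp
  have hφ : φ = α • ψ + χ := by rw [hχ]; abel
  have hort' : star χ ⬝ᵥ ψ = 0 := by rw [← star_dot_star, hort, star_zero]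
  have hHc : star ψ ⬝ᵥ H.mulVec χ = 0 := by
    rw [herm_form hH, hgs.2.1, dotProduct_smul, hort', smul_zero, star_zero]
  have hHf : ex H φ = ‖α‖ ^ 2 * E + ex H χ := by
    rw [hφ, ex_add_vec hH, hHc, mul_zero, hgs.ex_eq]
    simp
  have hHl := hgs.2.2 χ hort
  have hsq : sqn φ = ‖α‖ ^ 2 + sqn χ := by
    rw [hφ, sqn_add_vec α hort, hgs.1, mul_one]
  have h1 : 0 ≤ Δ * sqn χ := mul_nonneg hΔ (sqn_nonneg χ)
  rw [hHf, hsq]
  linarith

theorem GS.mono {n : Type} [Fintype n] [DecidableEq n] {H : Matrix n n ℂ} {Δ Δ' E : ℝ}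
    {ψ : n → ℂ} (hgs : GS H Δ E ψ) (h : Δ' ≤ Δ) : GS H Δ' E ψ := by
  refine ⟨hgs.1, hgs.2.1, fun χ hχ => le_trans ?_ (hgs.2.2 χ hχ)⟩
  exact mul_le_mul_of_nonneg_right (by linarith) (sqn_nonneg χ)

end Pool.Agent.Hhelper96.PEPS
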