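import Pool.Agent.Hhelper96.PEPS.ConvFinal

/-!
For Lebesgue-almost every interaction the marginals of the (unique) torus ground states converge.
-/

set_option autoImplicit false
set_option linter.unusedSectionVars false

open scoped BigOperators Topology ComplexOrder
open Matrix Filter

namespace Pool.Agent.Hhelper96.PEPS

section spectral

variable {n : Type} [Fintype n] [DecidableEq n]

/-- diagonalisation of the quadratic form -/
theorem exists_form_sum {H : Matrix n n ℂ} (hH : H.IsHermitian) (χ : n → ℂ) :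
    ∃ z : n → ℂ, ex H χ = ∑ i, hH.eigenvalues i * ‖z i‖ ^ 2 ∧ sqn χ = ∑ i, ‖z i‖ ^ 2 := by
  set U : Matrix n n ℂ := (hH.eigenvectorUnitary : Matrix n n ℂ) with hU
  have hUU : U * Uᴴ = 1 := by
    rw [← Matrix.star_eq_conjTranspose]
    exact Unitary.coe_mul_star_self hH.eigenvectorUnitary
  have hHd : H = U * diagonal (fun i => ((hH.eigenvalues i : ℝ) : ℂ)) * Uᴴ := by
    have h := hH.spectral_theorem
    rw [Unitary.conjStarAlgAut_apply] at h
    exact h
  obtain ⟨z, hz⟩ : ∃ z : n → ℂ, z = Uᴴ.mulVec χ := ⟨_, rfl⟩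
  have hzs : star z = Matrix.vecMul (star χ) U := by
    rw [hz, Matrix.star_mulVec, Matrix.conjTranspose_conjTranspose]
  refine ⟨z, ?_, ?_⟩
  · have h1 : star χ ⬝ᵥ H.mulVec χ = ∑ i, ((hH.eigenvalues i * ‖z i‖ ^ 2 : ℝ) : ℂ) := by
      conv_lhs => rw [hHd]
      rw [← Matrix.mulVec_mulVec, ← Matrix.mulVec_mulVec, Matrix.dotProduct_mulVec, ← hzs, ← hz]
      unfold dotProduct
      refine Finset.sum_congr rfl (fun i _ => ?_)
      rw [Matrix.mulVec_diagonal, Pi.star_apply]
      have : star (z i) * z i = ((‖z i‖ ^ 2 : ℝ) : ℂ) := by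
        rw [mul_comm, Complex.star_def, Complex.mul_conj, Complex.normSq_eq_norm_sq]
      calc star (z i) * (((hH.eigenvalues i : ℝ) : ℂ) * z i) =
          ((hH.eigenvalues i : ℝ) : ℂ) * (star (z i) * z i) := by ring
        _ = _ := by rw [this]; push_cast; ring
    unfold ex
    rw [h1, ← Complex.ofReal_sum, Complex.ofReal_re]
  · have h1 : ((sqn χ : ℝ) : ℂ) = ((sqn z : ℝ) : ℂ) := by
      rw [← star_dot_self, ← star_dot_self, hzs, hz, ← Matrix.dotProduct_mulVec,
        Matrix.mulVec_mulVec, hUU, Matrix.one_mulVec]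
    exact Complex.ofReal_injective h1

/-- a Hermitian matrix has a lowest eigenvector -/
theorem exists_lowest [Nonempty n] {H : Matrix n n ℂ} (hH : H.IsHermitian) :
    ∃ (E : ℝ) (φ : n → ℂ), φ ≠ 0 ∧ H.mulVec φ = (E : ℂ) • φ ∧ ∀ χ, E * sqn χ ≤ ex H χ := by
  obtain ⟨i₀, hi₀⟩ := Finite.exists_min hH.eigenvalues
  refine ⟨hH.eigenvalues i₀, ⇑(hH.eigenvectorBasis i₀), ?_, ?_, ?_⟩
  · intro h0
    have h1 := hH.eigenvectorBasis.orthonormal.ne_zero i₀
    apply h1
    ext k
    exact congrFun h0 k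
  · have h1 := hH.mulVec_eigenvectorBasis i₀
    rw [h1]
    rfl
  · intro χ
    obtain ⟨z, h1, h2⟩ := exists_form_sum hH χ
    rw [h1, h2, Finset.mul_sum]
    exact Finset.sum_le_sum (fun i _ => mul_le_mul_of_nonneg_right (hi₀ i) (by positivity))

theorem ex_of_eigen {H : Matrix n n ℂ} {E : ℝ} {φ : n → ℂ} (h : H.mulVec φ = (E : ℂ) • φ) :
    ex H φ = E * sqn φ := by
  unfold ex
  rw [h, dotProduct_smul, star_dot_self, smul_eq_mul, Complex.re_ofReal_mul, Complex.ofReal_re]

end spectral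

section TImin

variable {d : ℕ} {L : ℕ} [NeZero L]

/-- a vector with translation invariant density has translation invariant marginals -/
theorem reduced_eq_of_density_tr {ψ : (Site L → Fin d) → ℂ}
    (hd : ∀ (t : Site L) (s s' : Site L → Fin d), density ψ (tr t s) (tr t s') = density ψ s s')
    (R : Finset (ℤ × ℤ)) (w : Site L) : reduced L R w ψ = reduced L R 0 ψ := by
  classical
  ext a b
  have key : ∀ v : Site L, reduced L R v ψ a b = ∑ s : Site L → Fin d, ∑ s' : Site L → Fin d,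
      if s ∘ (fun p : R => place L v p) = a ∧ s' ∘ (fun p : R => place L v p) = b ∧
        ∀ u, (∀ t : R, place L v t ≠ u) → s u = s' u then density ψ s s' else 0 := by
    intro v
    unfold reduced ptrace
    refine Finset.sum_congr rfl (fun s _ => Finset.sum_congr rfl (fun s' _ => ?_))
    by_cases h : s ∘ (fun p : R => place L v p) = a ∧ s' ∘ (fun p : R => place L v p) = b ∧
        ∀ u, (∀ t : R, place L v t ≠ u) → s u = s' u
    · rw [if_pos h]
    · rw [if_neg h]
  rw [key, key]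
  rw [← Equiv.sum_comp (trEquiv (d := d) w) (fun s => ∑ s' : Site L → Fin d,
    if s ∘ (fun p : R => place L 0 p) = a ∧ s' ∘ (fun p : R => place L 0 p) = b ∧
      ∀ u, (∀ t : R, place L 0 t ≠ u) → s u = s' u then density ψ s s' else 0)]
  refine Finset.sum_congr rfl (fun s _ => ?_)
  rw [← Equiv.sum_comp (trEquiv (d := d) w) (fun s' =>
    if (trEquiv (d := d) w s) ∘ (fun p : R => place L 0 p) = a ∧
      s' ∘ (fun p : R => place L 0 p) = b ∧
      ∀ u, (∀ t : R, place L 0 t ≠ u) → (trEquiv (d := d) w s) u = s' u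
      then density ψ (trEquiv (d := d) w s) s' else 0)]
  refine Finset.sum_congr rfl (fun s' _ => ?_)
  have h1 : ∀ σ : Site L → Fin d, (trEquiv (d := d) w σ) ∘ (fun p : R => place L 0 p) =
      σ ∘ (fun p : R => place L w p) := by
    intro σ
    funext p
    change σ (place L 0 p + w) = σ (place L w p)
    rw [place_add, zero_add]
  have h2 : (∀ u, (∀ t : R, place L 0 t ≠ u) → (trEquiv (d := d) w s) u = (trEquiv (d := d) w s') u) ↔
      (∀ u, (∀ t : R, place L w t ≠ u) → s u = s' u) := by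
    constructor
    · intro H u hu
      have := H (u - w) (fun p hp => hu p (by
        have h3 : place L 0 p + w = place L w p := by rw [place_add, zero_add]
        rw [← h3, hp, sub_add_cancel]))
      change s (u - w + w) = s' (u - w + w) at this
      rwa [sub_add_cancel] at this
    · intro H u hu
      change s (u + w) = s' (u + w)
      apply H
      intro p hp
      apply hu p
      have h3 : place L 0 p + w = place L w p := by rw [place_add, zero_add]
      rw [← h3] at hp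
      exact add_right_cancel hp
  have h3 : density ψ (trEquiv (d := d) w s) (trEquiv (d := d) w s') = density ψ s s' :=
    hd w s s'
  have h4 : ((trEquiv (d := d) w s) ∘ (fun p : R => place L 0 p) = a ∧
      (trEquiv (d := d) w s') ∘ (fun p : R => place L 0 p) = b ∧
      ∀ u, (∀ t : R, place L 0 t ≠ u) → (trEquiv (d := d) w s) u = (trEquiv (d := d) w s') u) ↔
      (s ∘ (fun p : R => place L w p) = a ∧ s' ∘ (fun p : R => place L w p) = b ∧
      ∀ u, (∀ t : R, place L w t ≠ u) → s u = s' u) := by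
    rw [h1, h1, h2]
  by_cases hh : s ∘ (fun p : R => place L w p) = a ∧ s' ∘ (fun p : R => place L w p) = b ∧
      ∀ u, (∀ t : R, place L w t ≠ u) → s u = s' u
  · rw [if_pos hh, if_pos (h4.2 hh), h3]
  · rw [if_neg hh, if_neg (fun h' => hh (h4.1 h'))]

/-- a translation invariant Hermitian matrix has a lowest eigenvector with a translation invariant
density -/
theorem exists_TI_lowest [Nonempty (Site L → Fin d)]
    {H : Matrix (Site L → Fin d) (Site L → Fin d) ℂ} (hH : H.IsHermitian)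
    (hTI : ∀ (t : Site L) (s s' : Site L → Fin d), H (tr t s) (tr t s') = H s s') :
    ∃ (E : ℝ) (φ : (Site L → Fin d) → ℂ), φ ≠ 0 ∧ H.mulVec φ = (E : ℂ) • φ ∧
      (∀ χ, E * sqn χ ≤ ex H χ) ∧
      ∀ (t : Site L) (s s' : Site L → Fin d), density φ (tr t s) (tr t s') = density φ s s' := by
  classical
  obtain ⟨E, φ₀, hne, hE, hmin⟩ := exists_lowest hH
  -- the character components of `φ₀`
  obtain ⟨Φ, hΦ⟩ : ∃ Φ : AddChar (Site L) ℂ → (Site L → Fin d) → ℂ,
      Φ = fun χ s => ∑ t : Site L, χ (-t) * φ₀ (tr t s) := ⟨_, rfl⟩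
  have htr : ∀ (t u : Site L) (s : Site L → Fin d), tr t (tr u s) = tr (t + u) s := by
    intro t u s
    funext w
    unfold tr
    congr 1
    ring
  have hsum : ∀ s, ∑ χ : AddChar (Site L) ℂ, Φ χ s = (Fintype.card (Site L) : ℂ) * φ₀ s := by
    intro s
    rw [hΦ]
    simp only
    rw [Finset.sum_comm]
    have h1 : ∀ t : Site L, ∑ χ : AddChar (Site L) ℂ, χ (-t) * φ₀ (tr t s) =
        if t = 0 then (Fintype.card (Site L) : ℂ) * φ₀ s else 0 := by
      intro t
      rw [← Finset.sum_mul, AddChar.sum_apply_eq_ite]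
      by_cases ht : t = 0
      · subst ht
        have : tr (0 : Site L) s = s := by funext w; simp [tr]
        rw [if_pos (by simp), if_pos rfl, this]
      · rw [if_neg (by simpa using ht), if_neg ht, zero_mul]
    rw [Finset.sum_congr rfl (fun t _ => h1 t), Finset.sum_ite_eq' Finset.univ (0 : Site L)]
    simp
  obtain ⟨χ, hχ⟩ : ∃ χ, Φ χ ≠ 0 := by
    by_contra hcon
    push Not at hcon
    apply hne
    funext s
    have h1 := hsum s
    simp only [hcon] at h1
    simp only [Pi.zero_apply, Finset.sum_const_zero] at h1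
    have hc : (Fintype.card (Site L) : ℂ) ≠ 0 := by
      exact_mod_cast Fintype.card_ne_zero
    rcases mul_eq_zero.1 h1.symm with h | h
    · exact absurd h hc
    · exact h
  have hcov : ∀ (u : Site L) (s : Site L → Fin d), Φ χ (tr u s) = χ u * Φ χ s := by
    intro u s
    rw [hΦ]
    simp only
    rw [Finset.mul_sum, ← Equiv.sum_comp (Equiv.subRight u)
      (fun t => χ (-t) * φ₀ (tr t (tr u s)))]
    refine Finset.sum_congr rfl (fun t _ => ?_)
    rw [Equiv.subRight_apply, htr, sub_add_cancel]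
    have : χ (-(t - u)) = χ u * χ (-t) := by
      rw [neg_sub, sub_eq_add_neg, AddChar.map_add_eq_mul]
    rw [this]
    ring
  refine ⟨E, Φ χ, hχ, ?_, hmin, ?_⟩
  · have h1 : ∀ t : Site L, ∀ s, H.mulVec (fun s => φ₀ (tr t s)) s = (E : ℂ) * φ₀ (tr t s) := by
      intro t s
      have h2 : H.mulVec (fun s => φ₀ (tr t s)) s = H.mulVec φ₀ (tr t s) := by
        unfold Matrix.mulVec dotProduct
        rw [← Equiv.sum_comp (trEquiv (d := d) t) (fun s' => H (tr t s) s' * φ₀ s')]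
        refine Finset.sum_congr rfl (fun s' _ => ?_)
        have : (trEquiv (d := d) t) s' = tr t s' := rfl
        rw [this, hTI]
      rw [h2, hE]
      rfl
    funext s
    have h3 : H.mulVec (Φ χ) s = ∑ t : Site L, χ (-t) * H.mulVec (fun s => φ₀ (tr t s)) s := by
      rw [hΦ]
      unfold Matrix.mulVec dotProduct
      simp only
      simp_rw [Finset.mul_sum]
      rw [Finset.sum_comm]
      refine Finset.sum_congr rfl (fun t _ => Finset.sum_congr rfl (fun s' _ => ?_))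
      ring
    rw [h3, Pi.smul_apply, smul_eq_mul]
    conv_rhs => rw [hΦ]
    simp only
    rw [Finset.mul_sum]
    refine Finset.sum_congr rfl (fun t _ => ?_)
    rw [h1]
    ring
  · intro t s s'
    unfold density
    rw [hcov, hcov, star_mul]
    have h1 : χ t * star (χ t) = 1 := by
      rw [Complex.star_def, Complex.mul_conj, Complex.normSq_eq_norm_sq, AddChar.norm_apply]
      simp
    congr 1
    calc χ t * Φ χ s * (star (Φ χ s') * star (χ t)) =
        (χ t * star (χ t)) * (Φ χ s * star (Φ χ s')) := by ring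
      _ = _ := by rw [h1, one_mul]

end TImin

section converge

/-- the energy density of translation invariant lowest states on square tori converges, without any
assumption of uniqueness -/
theorem energy_converges' {d : ℕ} {F R W : Finset (ℤ × ℤ)} (hFW : F ⊆ W) (hRW : R ⊆ W) {r : ℕ} (hr : 1 ≤ r) (a b : ℤ)
    (hW : ∀ p ∈ W, a ≤ p.1 ∧ p.1 < a + r ∧ b ≤ p.2 ∧ p.2 < b + r)
    (h : Matrix (F → Fin d) (F → Fin d) ℂ) (k : Matrix (R → Fin d) (R → Fin d) ℂ)
    (φ : ∀ n : ℕ, (Site (n + 1) → Fin d) → ℂ) (E : ℕ → ℝ)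
    (hφ : ∀ n, φ n ≠ 0 ∧ (hamiltonian (n + 1) F h + hamiltonian (n + 1) R k).mulVec (φ n) =
        (E n : ℂ) • φ n ∧
      (∀ χ, E n * sqn χ ≤ ex (hamiltonian (n + 1) F h + hamiltonian (n + 1) R k) χ) ∧
      ∀ (t : Site (n + 1)) (s s' : Site (n + 1) → Fin d),
        density (φ n) (tr t s) (tr t s') = density (φ n) s s') :
    ∃ l, Tendsto (fun n => E n / ((n + 1 : ℕ) : ℝ) ^ 2) atTop (𝓝 l) := by
  obtain ⟨C, hC0, hC⟩ := exists_ltot_bound hFW hRW h k 1
  have hinj : ∀ n : ℕ, r ≤ n + 1 → ∀ v : Site (n + 1),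
      Function.Injective (fun p : W => place (n + 1) v p) :=
    fun n hn v => place_injective hn W a b hW v
  -- energy in terms of the marginal
  have hen : ∀ n : ℕ, r ≤ n + 1 →
      E n / ((n + 1 : ℕ) : ℝ) ^ 2 = ltot hFW hRW h k 1 (reduced (n + 1) W 0 (φ n)) := by
    intro n hn
    obtain ⟨h1, h2, h3, h4⟩ := hφ n
    have h5 := ex_total hFW hRW h k 1 (hinj n hn) h1
    rw [Complex.ofReal_one, one_smul, ex_of_eigen h2, mul_comm] at h5
    have h6 := mul_left_cancel₀ (sqn_pos h1).ne' h5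
    rw [h6, Finset.sum_congr rfl (fun v _ => by
      rw [reduced_eq_of_density_tr h4 W v]), Finset.sum_const, Finset.card_univ,
      Fintype.card_prod, ZMod.card, nsmul_eq_mul]
    have : (0 : ℝ) < ((n + 1 : ℕ) : ℝ) ^ 2 := by positivity
    field_simp
    push_cast
    ring
  apply tendsto_of_almost_decreasing (B := C * 1)
  · filter_upwards [eventually_ge_atTop r] with n h2
    rw [hen n (by omega)]
    have h3 := hC (reduced (n + 1) W 0 (φ n)) 0
    have h4 : ltot hFW hRW h k 1 (0 : Matrix (W → Fin d) (W → Fin d) ℂ) = 0 := by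
      unfold ltot
      rw [map_zero, map_zero]
      simp
    rw [h4, sub_zero, sub_zero] at h3
    refine h3.trans (mul_le_mul_of_nonneg_left ?_ hC0)
    have h5 := posSemidef_reduced (r := r) (by omega : r ≤ n + 1) W a b hW 0 (hφ n).1
    refine (traceNorm_posSemidef_le h5.1).trans ?_
    rw [h5.2]
    simp
  · intro ε hε
    obtain ⟨ε', hε'⟩ : ∃ ε', ε' = ε / (C + 1) := ⟨_, rfl⟩
    have hε'pos : 0 < ε' := by rw [hε']; positivity
    have hCε : C * ε' ≤ ε := by
      rw [hε', mul_div_assoc', div_le_iff₀ (by positivity)]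
      nlinarith
    filter_upwards [eventually_ge_atTop (boxSide r ε')] with n h2
    have hnr : r ≤ n + 1 := by
      have : r ≤ boxSide r ε' := by unfold boxSide; omega
      omega
    obtain ⟨D, _, A, hA⟩ := core_uniform d r hr hε'pos W a b hW (n + 1) (by omega) (φ n) (hφ n).1
      (fun w => reduced_eq_of_density_tr (hφ n).2.2.2 W w)
    filter_upwards [eventually_ge_atTop ((2 * boxSide r ε' + 2) ^ 2),
      eventually_ge_atTop ((2 * boxSide r ε' + 3) * W.card), eventually_ge_atTop r] with j h4 h5 h6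
    obtain ⟨h7, h8⟩ := hA (j + 1) (by omega) (by omega)
    obtain ⟨Φ, hΦ⟩ : ∃ Φ, Φ = pepsVec (j + 1) A := ⟨_, rfl⟩
    rw [← hΦ] at h7 h8
    have h10 := (hφ j).2.2.1 Φ
    have h10' := ex_total hFW hRW h k 1 (hinj j (by omega)) h7
    rw [Complex.ofReal_one, one_smul] at h10'
    rw [h10', mul_comm] at h10
    have h11 := le_of_mul_le_mul_left h10 (sqn_pos h7)
    have h12 : ∀ v : Site (j + 1), ltot hFW hRW h k 1 (reduced (j + 1) W v Φ) ≤
        ltot hFW hRW h k 1 (reduced (n + 1) W 0 (φ n)) + ε := by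
      intro v
      have h13 := (abs_le.1 (hC (reduced (j + 1) W v Φ) (reduced (n + 1) W 0 (φ n)))).2
      have h14 : C * traceNorm (reduced (j + 1) W v Φ - reduced (n + 1) W 0 (φ n)) ≤ C * ε' :=
        mul_le_mul_of_nonneg_left ((h8 v).trans (error_lt r hε'pos).le) hC0
      linarith
    have h15 : ∑ v : Site (j + 1), ltot hFW hRW h k 1 (reduced (j + 1) W v Φ) ≤
        ((j + 1 : ℕ) : ℝ) ^ 2 * (ltot hFW hRW h k 1 (reduced (n + 1) W 0 (φ n)) + ε) := by
      refine (Finset.sum_le_sum (fun v _ => h12 v)).trans ?_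
      rw [Finset.sum_const, Finset.card_univ, Fintype.card_prod, ZMod.card, nsmul_eq_mul]
      push_cast
      apply le_of_eq
      ring
    have h16 : (0 : ℝ) < ((j + 1 : ℕ) : ℝ) ^ 2 := by positivity
    rw [hen n hnr, div_le_iff₀ h16, mul_comm]
    exact h11.trans h15

end converge

section herm2

variable {m : Type} [Fintype m] [DecidableEq m]

theorem hermOf_isHermitian (X : m → m → ℝ) : (hermOf X).IsHermitian := by
  ext i j
  rw [Matrix.conjTranspose_apply]
  unfold hermOf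
  simp only [star_add, star_mul', Complex.star_def, Complex.conj_ofReal, Complex.conj_I]
  push_cast
  ring

theorem hermOf_add_smul (X V : m → m → ℝ) (s : ℝ) :
    hermOf (X + s • V) = hermOf X + (s : ℂ) • hermOf V := by
  ext i j
  rw [Matrix.add_apply, Matrix.smul_apply]
  unfold hermOf
  simp only [Pi.add_apply, Pi.smul_apply, smul_eq_mul]
  push_cast
  ring

theorem exists_hermOf {k : Matrix m m ℂ} (hk : k.IsHermitian) : ∃ V, hermOf V = k := by
  refine ⟨fun i j => ((k i j).re + (k i j).im) / 2, ?_⟩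
  ext i j
  have h1 : k j i = star (k i j) := by
    conv_lhs => rw [← hk.eq]
    rfl
  unfold hermOf
  beta_reduce
  rw [h1, Complex.star_def, Complex.conj_re, Complex.conj_im]
  apply Complex.ext
  · simp; ring
  · simp; ring

theorem norm_hermOf_le (X : m → m → ℝ) (i j : m) : ‖hermOf X i j‖ ≤ 4 * ‖X‖ := by
  have h1 : ∀ i j, |X i j| ≤ ‖X‖ := by
    intro i j
    rw [← Real.norm_eq_abs]
    exact (norm_le_pi_norm (X i) j).trans (norm_le_pi_norm X i)
  unfold hermOf
  refine (norm_add_le _ _).trans ?_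
  rw [norm_mul, Complex.norm_I, mul_one, Complex.norm_real, Complex.norm_real, Real.norm_eq_abs,
    Real.norm_eq_abs]
  have h2 := abs_add_le (X i j) (X j i)
  have h3 := abs_sub (X i j) (X j i)
  have h4 := h1 i j
  have h5 := h1 j i
  linarith

end herm2

theorem locBd_hermOf_le {R : Finset (ℤ × ℤ)} {d : ℕ} (X : (R → Fin d) → (R → Fin d) → ℝ) :
    locBd (T := R) (hermOf X) ≤
      √((∑ _a : R → Fin d, ∑ _c : R → Fin d, (4 : ℝ) ^ 2) * Fintype.card (R → Fin d)) * ‖X‖ := by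
  unfold locBd
  have h1 : (∑ a : R → Fin d, ∑ c : R → Fin d, ‖hermOf X a c‖ ^ 2) ≤
      (∑ _a : R → Fin d, ∑ _c : R → Fin d, (4 : ℝ) ^ 2) * ‖X‖ ^ 2 := by
    rw [Finset.sum_mul]
    refine Finset.sum_le_sum (fun a _ => ?_)
    rw [Finset.sum_mul]
    refine Finset.sum_le_sum (fun c _ => ?_)
    rw [← mul_pow]
    exact pow_le_pow_left₀ (norm_nonneg _) (norm_hermOf_le X a c) 2
  calc √((∑ a : R → Fin d, ∑ c : R → Fin d, ‖hermOf X a c‖ ^ 2) * Fintype.card (R → Fin d))
      ≤ √(((∑ _a : R → Fin d, ∑ _c : R → Fin d, (4 : ℝ) ^ 2) * ‖X‖ ^ 2) *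
          Fintype.card (R → Fin d)) := by
        apply Real.sqrt_le_sqrt
        exact mul_le_mul_of_nonneg_right h1 (Nat.cast_nonneg _)
    _ = √(((∑ _a : R → Fin d, ∑ _c : R → Fin d, (4 : ℝ) ^ 2) * Fintype.card (R → Fin d)) *
          ‖X‖ ^ 2) := by
        congr 1; ring
    _ = _ := by
        rw [Real.sqrt_mul (by positivity), Real.sqrt_sq (norm_nonneg X)]

theorem ex_hamiltonian_le {d : ℕ} {R : Finset (ℤ × ℤ)} {r n : ℕ} (hn : r ≤ n + 1) (a b : ℤ)
    (hR : ∀ p ∈ R, a ≤ p.1 ∧ p.1 < a + r ∧ b ≤ p.2 ∧ p.2 < b + r)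
    (k : Matrix (R → Fin d) (R → Fin d) ℂ) (χ : (Site (n + 1) → Fin d) → ℂ) :
    |ex (hamiltonian (n + 1) R k) χ| ≤ ((n + 1 : ℕ) : ℝ) ^ 2 * locBd k * sqn χ := by
  unfold hamiltonian
  rw [ex_sum]
  refine (Finset.abs_sum_le_sum_abs _ _).trans ?_
  have e1 : ∀ v : Site (n + 1), |ex (localTerm (n + 1) R k v) χ| ≤ locBd k * sqn χ := by
    intro v
    rw [localTerm_eq_opAt]
    exact (bd_opAt (place_injective hn R a b hR v) k).abs_ex_le χ
  refine (Finset.sum_le_sum (fun v _ => e1 v)).trans ?_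
  rw [Finset.sum_const, Finset.card_univ, Fintype.card_prod, ZMod.card, nsmul_eq_mul]
  push_cast
  apply le_of_eq
  ring

theorem localTerm_add_smul {d L : ℕ} (R : Finset (ℤ × ℤ)) (k k' : Matrix (R → Fin d) (R → Fin d) ℂ)
    (s : ℂ) (v : Site L) :
    localTerm L R (k + s • k') v = localTerm L R k v + s • localTerm L R k' v := by
  classical
  ext x y
  rw [Matrix.add_apply, Matrix.smul_apply]
  unfold localTerm
  by_cases h : ∀ u, (∀ p : R, place L v p ≠ u) → x u = y u
  · rw [if_pos h, if_pos h, if_pos h]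
    rfl
  · rw [if_neg h, if_neg h, if_neg h]
    simp

theorem hamiltonian_add_smul {d L : ℕ} [NeZero L] (R : Finset (ℤ × ℤ))
    (k k' : Matrix (R → Fin d) (R → Fin d) ℂ) (s : ℂ) :
    hamiltonian L R (k + s • k') = hamiltonian L R k + s • hamiltonian L R k' := by
  unfold hamiltonian
  rw [Finset.smul_sum, ← Finset.sum_add_distrib]
  exact Finset.sum_congr rfl (fun v _ => localTerm_add_smul R k k' s v)

/-- translation invariance of `H + K` -/
theorem sum_TI' {d L : ℕ} [NeZero L] (F R : Finset (ℤ × ℤ)) (h : Matrix (F → Fin d) (F → Fin d) ℂ)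
    (k : Matrix (R → Fin d) (R → Fin d) ℂ) (t : Site L) (s s' : Site L → Fin d) :
    (hamiltonian L F h + hamiltonian L R k) (tr t s) (tr t s') =
      (hamiltonian L F h + hamiltonian L R k) s s' := by
  have := sum_TI F R h k 1 t s s'
  rwa [one_smul] at this

/-- For almost every `X`, if the torus ground states of the interaction `h + hermOf X` are unique for
all large sizes, their marginals on `R` converge. -/
theorem generic_marginals (d : ℕ) (hd : 1 ≤ d) (F R : Finset (ℤ × ℤ))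
    (h : Matrix (F → Fin d) (F → Fin d) ℂ) (hh : h.IsHermitian) :
    ∀ᵐ X : (R → Fin d) → (R → Fin d) → ℝ, ∀ ψ : ∀ n : ℕ, (Site (n + 1) → Fin d) → ℂ,
      (∀ᶠ n in atTop, ∃ Δ > 0, IsGappedGround
        (hamiltonian (n + 1) F h + hamiltonian (n + 1) R (hermOf X)) Δ (ψ n)) →
      ∃ ρ, Tendsto (fun n => reduced (n + 1) R 0 (ψ n)) atTop (𝓝 ρ) := by
  classical
  obtain ⟨W, hWd⟩ : ∃ W, W = F ∪ R := ⟨_, rfl⟩
  have hFW : F ⊆ W := by rw [hWd]; exact Finset.subset_union_left
  have hRW : R ⊆ W := by rw [hWd]; exact Finset.subset_union_right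
  obtain ⟨r, a, b, hr, hW⟩ := exists_box W
  have hR : ∀ p ∈ R, a ≤ p.1 ∧ p.1 < a + r ∧ b ≤ p.2 ∧ p.2 < b + r := fun p hp => hW p (hRW hp)
  have hne : ∀ n : ℕ, Nonempty (Site (n + 1) → Fin d) := fun n => ⟨fun _ => ⟨0, by omega⟩⟩
  have hherm : ∀ (X : (R → Fin d) → (R → Fin d) → ℝ) (n : ℕ),
      (hamiltonian (n + 1) F h + hamiltonian (n + 1) R (hermOf X)).IsHermitian := fun X n =>
    (hamiltonian_isHermitian hh).add (hamiltonian_isHermitian (hermOf_isHermitian X))
  -- lowest states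
  have hlow : ∀ (X : (R → Fin d) → (R → Fin d) → ℝ) (n : ℕ), ∃ (E : ℝ)
      (φ : (Site (n + 1) → Fin d) → ℂ), φ ≠ 0 ∧
      (hamiltonian (n + 1) F h + hamiltonian (n + 1) R (hermOf X)).mulVec φ = (E : ℂ) • φ ∧
      (∀ χ, E * sqn χ ≤ ex (hamiltonian (n + 1) F h + hamiltonian (n + 1) R (hermOf X)) χ) ∧
      ∀ (t : Site (n + 1)) (s s' : Site (n + 1) → Fin d),
        density φ (tr t s) (tr t s') = density φ s s' := by
    intro X n
    have := hne n
    exact exists_TI_lowest (hherm X n) (sum_TI' F R h (hermOf X))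
  choose E φ hEφ using hlow
  -- limits
  have hlim : ∀ X, ∃ l, Tendsto (fun n => E X n / ((n + 1 : ℕ) : ℝ) ^ 2) atTop (𝓝 l) := fun X =>
    energy_converges' hFW hRW hr a b hW h (hermOf X) (φ X) (E X) (hEφ X)
  choose e he using hlim
  -- comparison
  have hcomp : ∀ (X V : (R → Fin d) → (R → Fin d) → ℝ) (n : ℕ), r ≤ n + 1 →
      E X n / ((n + 1 : ℕ) : ℝ) ^ 2 ≤ E V n / ((n + 1 : ℕ) : ℝ) ^ 2 + locBd (hermOf (X - V)) := by
    intro X V n hn
    have hq : (0 : ℝ) < ((n + 1 : ℕ) : ℝ) ^ 2 := by positivity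
    rw [div_add' _ _ _ hq.ne', div_le_div_iff_of_pos_right hq]
    have h1 := (hEφ X n).2.2.1 (φ V n)
    have h2 : hamiltonian (n + 1) F h + hamiltonian (n + 1) R (hermOf X) =
        (hamiltonian (n + 1) F h + hamiltonian (n + 1) R (hermOf V)) +
          hamiltonian (n + 1) R (hermOf (X - V)) := by
      have h3 : X = V + (1 : ℝ) • (X - V) := by rw [one_smul]; abel
      conv_lhs => rw [h3, hermOf_add_smul, hamiltonian_add_smul]
      rw [Complex.ofReal_one, one_smul, add_assoc]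
    rw [h2, ex_add, ex_of_eigen (hEφ V n).2.1] at h1
    have h4 := (abs_le.1 (ex_hamiltonian_le hn a b hR (hermOf (X - V)) (φ V n))).2
    have h5 := sqn_pos (hEφ V n).1
    have h6 : E X n * sqn (φ V n) ≤
        (E V n + locBd (hermOf (X - V)) * ((n + 1 : ℕ) : ℝ) ^ 2) * sqn (φ V n) := by
      nlinarith
    exact le_of_mul_le_mul_right h6 h5
  obtain ⟨K, hK⟩ : ∃ K : ℝ, K = √((∑ _a : R → Fin d, ∑ _c : R → Fin d, (4 : ℝ) ^ 2) *
      Fintype.card (R → Fin d)) := ⟨_, rfl⟩
  have hK0 : 0 ≤ K := by rw [hK]; exact Real.sqrt_nonneg _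
  have hle : ∀ X V, e X ≤ e V + K * ‖X - V‖ := by
    intro X V
    refine le_of_tendsto_of_tendsto (he X) ((he V).add_const _) ?_
    filter_upwards [eventually_ge_atTop r] with n hn
    refine (hcomp X V n (by omega)).trans ?_
    have := locBd_hermOf_le (X - V)
    rw [← hK] at this
    linarith
  have hLip : LipschitzWith (Real.toNNReal K) e := by
    apply LipschitzWith.of_dist_le_mul
    intro X V
    rw [Real.dist_eq, Real.coe_toNNReal K hK0, dist_eq_norm]
    rw [abs_le]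
    constructor
    · have := hle V X
      rw [norm_sub_rev] at this
      linarith
    · have := hle X V
      linarith
  filter_upwards [hLip.ae_differentiableAt] with X hX ψ hψ
  apply tendsto_of_enf
  · filter_upwards [hψ, eventually_ge_atTop r] with n h1 h2
    obtain ⟨Δ, _, h3⟩ := h1
    exact (posSemidef_reduced (by omega : r ≤ n + 1) R a b hR 0 h3.1).1.isHermitian
  · intro k hk
    obtain ⟨V, hV⟩ := exists_hermOf hk
    -- supergradient inequality
    have hsup : ∀ᶠ n in atTop, ∀ s : ℝ, E (X + s • V) n / ((n + 1 : ℕ) : ℝ) ^ 2 ≤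
        E X n / ((n + 1 : ℕ) : ℝ) ^ 2 + s * enf k (reduced (n + 1) R 0 (ψ n)) := by
      filter_upwards [hψ] with n h1 s
      obtain ⟨Δ, hΔ, hg⟩ := h1
      have hq : (0 : ℝ) < ((n + 1 : ℕ) : ℝ) ^ 2 := by positivity
      obtain ⟨E₁, c, hc, hgs⟩ := gs_of_gapped (hherm X n) hΔ hg
      have hne' : c • ψ n ≠ 0 := smul_ne_zero hc hg.1
      -- the energy
      have hE₁ : E₁ = E X n := by
        have h2 := hgs.le (hherm X n) hΔ.le (φ X n)
        rw [ex_of_eigen (hEφ X n).2.1] at h2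
        have h3 := le_of_mul_le_mul_right h2 (sqn_pos (hEφ X n).1)
        have h4 := (hEφ X n).2.2.1 (c • ψ n)
        rw [hgs.ex_eq, hgs.1, mul_one] at h4
        exact le_antisymm h3 h4
      have h2 := (hEφ (X + s • V) n).2.2.1 (c • ψ n)
      rw [hermOf_add_smul, hamiltonian_add_smul, ← add_assoc, ex_add, ex_smul, hgs.ex_eq, hgs.1,
        mul_one, hE₁, hV] at h2
      have hgK : ex (hamiltonian (n + 1) R k) (c • ψ n) =
          ((n + 1 : ℕ) : ℝ) ^ 2 * enf k (reduced (n + 1) R 0 (ψ n)) := by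
        unfold hamiltonian
        rw [ex_sum]
        have e1 : ∀ v : Site (n + 1), ex (localTerm (n + 1) R k v) (c • ψ n) =
            enf k (reduced (n + 1) R 0 (ψ n)) := by
          intro v
          rw [ex_localTerm R k v hne', hgs.1, one_mul, reduced_smul R v hc,
            reduced_eq_of_TI (sum_TI' F R h (hermOf X)) hΔ hg R v]
        rw [Finset.sum_congr rfl (fun v _ => e1 v), Finset.sum_const, Finset.card_univ,
          Fintype.card_prod, ZMod.card, nsmul_eq_mul]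
        push_cast
        ring
      rw [hgK] at h2
      rw [div_add' _ _ _ hq.ne', div_le_div_iff_of_pos_right hq]
      linarith
    -- the derivative
    obtain ⟨l, hl⟩ : ∃ l, l = fderiv ℝ e X V := ⟨_, rfl⟩
    have hder : HasDerivAt (fun s : ℝ => e (X + s • V)) l 0 := by
      have h1 := hX.hasFDerivAt
      have h2 : HasDerivAt (fun s : ℝ => X + s • V) V 0 := by
        have h3 : HasDerivAt (fun s : ℝ => s • V) ((1 : ℝ) • V) 0 :=
          (hasDerivAt_id (0 : ℝ)).smul_const V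
        rw [one_smul] at h3
        exact h3.const_add X
      have h4 : HasFDerivAt e (fderiv ℝ e X) ((fun s : ℝ => X + s • V) 0) := by
        simpa using h1
      rw [hl]
      exact h4.comp_hasDerivAt (0 : ℝ) h2
    refine ⟨l, ?_⟩
    rw [Metric.tendsto_atTop]
    intro ε hε
    have hslope := hder.tendsto_slope_zero
    simp only [zero_add, zero_smul, add_zero, smul_eq_mul] at hslope
    have h1 := (Metric.tendsto_nhdsWithin_nhds.1 hslope) (ε / 2) (by positivity)
    obtain ⟨δ, hδ, h2⟩ := h1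
    obtain ⟨s, hs⟩ : ∃ s, s = δ / 2 := ⟨_, rfl⟩
    have hs0 : 0 < s := by rw [hs]; positivity
    have hp := h2 (x := s) (by simpa using hs0.ne') (by
      rw [Real.dist_eq, sub_zero, abs_of_pos hs0, hs]; linarith)
    have hm := h2 (x := -s) (by simpa using hs0.ne') (by
      rw [Real.dist_eq, sub_zero, abs_neg, abs_of_pos hs0, hs]; linarith)
    rw [Real.dist_eq] at hp hm
    -- finite size quotients
    have hp' : Tendsto (fun n => s⁻¹ * (E (X + s • V) n / ((n + 1 : ℕ) : ℝ) ^ 2 -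
        E X n / ((n + 1 : ℕ) : ℝ) ^ 2)) atTop (𝓝 (s⁻¹ * (e (X + s • V) - e X))) :=
      ((he _).sub (he _)).const_mul _
    have hm' : Tendsto (fun n => (-s)⁻¹ * (E (X + (-s) • V) n / ((n + 1 : ℕ) : ℝ) ^ 2 -
        E X n / ((n + 1 : ℕ) : ℝ) ^ 2)) atTop (𝓝 ((-s)⁻¹ * (e (X + (-s) • V) - e X))) :=
      ((he _).sub (he _)).const_mul _
    obtain ⟨n₁, hn₁⟩ := Metric.tendsto_atTop.1 hp' (ε / 2) (by positivity)
    obtain ⟨n₂, hn₂⟩ := Metric.tendsto_atTop.1 hm' (ε / 2) (by positivity)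
    obtain ⟨n₃, hn₃⟩ := eventually_atTop.1 hsup
    refine ⟨max n₁ (max n₂ n₃), fun n hn => ?_⟩
    have h3 := hn₁ n (le_trans (le_max_left _ _) hn)
    have h4 := hn₂ n (le_trans ((le_max_left _ _).trans (le_max_right _ _)) hn)
    have h5 := hn₃ n (le_trans ((le_max_right _ _).trans (le_max_right _ _)) hn)
    rw [Real.dist_eq] at h3 h4 ⊢
    have h6 := h5 s
    have h7 := h5 (-s)
    obtain ⟨g, hg⟩ : ∃ g, g = enf k (reduced (n + 1) R 0 (ψ n)) := ⟨_, rfl⟩
    rw [← hg] at h6 h7 ⊢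
    have h8 : s⁻¹ * (E (X + s • V) n / ((n + 1 : ℕ) : ℝ) ^ 2 -
        E X n / ((n + 1 : ℕ) : ℝ) ^ 2) ≤ g := by
      rw [inv_mul_le_iff₀ hs0]
      linarith
    have h9 : g ≤ (-s)⁻¹ * (E (X + (-s) • V) n / ((n + 1 : ℕ) : ℝ) ^ 2 -
        E X n / ((n + 1 : ℕ) : ℝ) ^ 2) := by
      rw [inv_neg, neg_mul, ← mul_neg, le_inv_mul_iff₀ hs0]
      linarith
    rw [abs_lt] at *
    constructor <;> linarith [h3.1, h3.2, h4.1, h4.2, hp.1, hp.2, hm.1, hm.2]

/-- convergent translation invariant marginals give one translation invariant PEPS tensor -/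
theorem convergent_general (d : ℕ) (ψ : ∀ n : ℕ, (Site (n + 1) → Fin d) → ℂ)
    (R : Finset (ℤ × ℤ))
    (hψ : ∀ᶠ n in atTop, ψ n ≠ 0 ∧ ∀ w, reduced (n + 1) R w (ψ n) = reduced (n + 1) R 0 (ψ n))
    (r : ℕ) (hr : 1 ≤ r) (a b : ℤ)
    (hR : ∀ p ∈ R, a ≤ p.1 ∧ p.1 < a + r ∧ b ≤ p.2 ∧ p.2 < b + r)
    (ρ : Matrix (R → Fin d) (R → Fin d) ℂ)
    (hρ : Tendsto (fun n => reduced (n + 1) R 0 (ψ n)) atTop (𝓝 ρ)) (ε : ℝ) (hε : 0 < ε) :
    ∃ D ≤ bondBound d r ε, ∃ A : Fin d → Fin D → Fin D → Fin D → Fin D → ℂ,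
      (∀ᶠ n in atTop, pepsVec (n + 1) A ≠ 0) ∧
      ∀ᶠ n in atTop, ∀ v : Site (n + 1),
        traceNorm (reduced (n + 1) R v (ψ n) - reduced (n + 1) R v (pepsVec (n + 1) A)) ≤ ε := by
  have hlim : Tendsto (fun n => traceNorm (reduced (n + 1) R 0 (ψ n) - ρ)) atTop (𝓝 0) := by
    have h1 : Tendsto (fun n => ∑ i, ∑ j, ‖(reduced (n + 1) R 0 (ψ n) - ρ) i j‖) atTop (𝓝 0) := by
      have h2 : Tendsto (fun n => ∑ i, ∑ j, ‖(reduced (n + 1) R 0 (ψ n) - ρ) i j‖) atTop
          (𝓝 (∑ i : R → Fin d, ∑ j : R → Fin d, ‖(ρ - ρ) i j‖)) := by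
        refine tendsto_finsetSum _ (fun i _ => tendsto_finsetSum _ (fun j _ => ?_))
        refine Tendsto.norm ?_
        have h3 : Tendsto (fun n => (reduced (n + 1) R 0 (ψ n)) i j) atTop (𝓝 (ρ i j)) := by
          have h4 := (tendsto_pi_nhds.1 hρ) i
          exact (tendsto_pi_nhds.1 h4) j
        exact h3.sub tendsto_const_nhds
      simpa using h2
    exact squeeze_zero (fun n => traceNorm_nonneg _) (fun n => traceNorm_le_sum _) h1
  have herr := error_lt r hε
  obtain ⟨δ, hδ⟩ : ∃ δ, δ = (ε - (4 * r + 5 : ℝ) / (boxSide r ε : ℕ)) / 2 := ⟨_, rfl⟩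
  have hδpos : 0 < δ := by rw [hδ]; linarith
  have hev : ∀ᶠ n in atTop, traceNorm (reduced (n + 1) R 0 (ψ n) - ρ) < δ :=
    hlim.eventually_lt_const hδpos
  obtain ⟨n₁, hn₁, hn₂, hn₃⟩ : ∃ n₁, traceNorm (reduced (n₁ + 1) R 0 (ψ n₁) - ρ) < δ ∧
      (ψ n₁ ≠ 0 ∧ ∀ w, reduced (n₁ + 1) R w (ψ n₁) = reduced (n₁ + 1) R 0 (ψ n₁)) ∧
      boxSide r ε ≤ n₁ + 1 := by
    have h3 : ∀ᶠ n in atTop, boxSide r ε ≤ n + 1 := by
      filter_upwards [eventually_ge_atTop (boxSide r ε)] with n hn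
      omega
    obtain ⟨n₁, h⟩ := (hev.and (hψ.and h3)).exists
    exact ⟨n₁, h.1, h.2.1, h.2.2⟩
  obtain ⟨D, hD, A, hA⟩ := core_uniform d r hr hε R a b hR (n₁ + 1) hn₃ (ψ n₁) hn₂.1 hn₂.2
  have hbig : ∀ᶠ n in atTop, (2 * boxSide r ε + 2) ^ 2 ≤ n + 1 ∧
      (2 * boxSide r ε + 3) * R.card < n + 1 := by
    filter_upwards [eventually_ge_atTop ((2 * boxSide r ε + 2) ^ 2),
      eventually_ge_atTop ((2 * boxSide r ε + 3) * R.card)] with n h1 h2
    omega
  refine ⟨D, hD, A, ?_, ?_⟩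
  · filter_upwards [hbig] with n hn
    exact (hA (n + 1) hn.1 hn.2).1
  · filter_upwards [hbig, hev, hψ] with n hn h1 h2 v
    have h3 := (hA (n + 1) hn.1 hn.2).2 v
    rw [h2.2 v]
    have h5 : reduced (n + 1) R 0 (ψ n) - reduced (n + 1) R v (pepsVec (n + 1) A) =
        (reduced (n + 1) R 0 (ψ n) - ρ) +
          ((ρ - reduced (n₁ + 1) R 0 (ψ n₁)) +
            (reduced (n₁ + 1) R 0 (ψ n₁) - reduced (n + 1) R v (pepsVec (n + 1) A))) := by
      abel
    rw [h5]
    refine (traceNorm_add_le _ _).trans ?_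
    have h6 := traceNorm_add_le (ρ - reduced (n₁ + 1) R 0 (ψ n₁))
      (reduced (n₁ + 1) R 0 (ψ n₁) - reduced (n + 1) R v (pepsVec (n + 1) A))
    have h7 := traceNorm_sub_comm ρ (reduced (n₁ + 1) R 0 (ψ n₁))
    have h8 := traceNorm_sub_comm (reduced (n₁ + 1) R 0 (ψ n₁))
      (reduced (n + 1) R v (pepsVec (n + 1) A))
    linarith

theorem tendsto_ptrace {S T : Type} [Fintype S] [DecidableEq S] [Fintype T] [DecidableEq T] {d : ℕ}
    (κ : T → S) {X : ℕ → Matrix (S → Fin d) (S → Fin d) ℂ} {ρ : Matrix (S → Fin d) (S → Fin d) ℂ}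
    (h : Tendsto X atTop (𝓝 ρ)) : Tendsto (fun n => ptrace κ (X n)) atTop (𝓝 (ptrace κ ρ)) := by
  classical
  have hent : ∀ s s', Tendsto (fun n => X n s s') atTop (𝓝 (ρ s s')) := fun s s' =>
    (tendsto_pi_nhds.1 ((tendsto_pi_nhds.1 h) s)) s'
  refine tendsto_pi_nhds.2 (fun a => tendsto_pi_nhds.2 (fun b => ?_))
  unfold ptrace
  refine tendsto_finsetSum _ (fun s _ => tendsto_finsetSum _ (fun s' _ => ?_))
  by_cases hc : s ∘ κ = a ∧ s' ∘ κ = b ∧ ∀ u, (∀ t, κ t ≠ u) → s u = s' u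
  · simp only [if_pos hc]
    exact hent s s'
  · simp only [if_neg hc]
    exact tendsto_const_nhds

/-- the approximation holds for almost every interaction -/
theorem generic_final (d : ℕ) (F W : Finset (ℤ × ℤ))
    (h : Matrix (F → Fin d) (F → Fin d) ℂ) (hh : h.IsHermitian) :
    ∀ᵐ X : (W → Fin d) → (W → Fin d) → ℝ, ∀ ψ : ∀ n : ℕ, (Site (n + 1) → Fin d) → ℂ,
      (∀ᶠ n in atTop, ∃ Δ > 0, IsGappedGround
        (hamiltonian (n + 1) F h + hamiltonian (n + 1) W (hermOf X)) Δ (ψ n)) →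
      ∀ R ⊆ W, ∀ (r : ℕ) (a b : ℤ), 1 ≤ r →
      (∀ p ∈ R, a ≤ p.1 ∧ p.1 < a + r ∧ b ≤ p.2 ∧ p.2 < b + r) →
      ∀ ε : ℝ, 0 < ε → ∃ D ≤ bondBound d r ε, ∃ A : Fin d → Fin D → Fin D → Fin D → Fin D → ℂ,
        (∀ᶠ n in atTop, pepsVec (n + 1) A ≠ 0) ∧
        ∀ᶠ n in atTop, ∀ v : Site (n + 1),
          traceNorm (reduced (n + 1) R v (ψ n) - reduced (n + 1) R v (pepsVec (n + 1) A)) ≤ ε := by
  rcases Nat.eq_zero_or_pos d with hd | hd
  · subst hd
    refine Filter.Eventually.of_forall (fun X ψ hψ => ?_)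
    exfalso
    obtain ⟨n, Δ, _, hg⟩ := hψ.exists
    apply hg.1
    funext s
    exact (s 0).elim0
  · filter_upwards [generic_marginals d hd F W h hh] with X hX ψ hψ R hRW r a b hr hR ε hε
    obtain ⟨ρ, hρ⟩ := hX ψ hψ
    obtain ⟨r₁, a₁, b₁, _, hW⟩ := exists_box W
    have h1 : Tendsto (fun n => reduced (n + 1) R 0 (ψ n)) atTop
        (𝓝 (ptrace (fun p : R => (⟨p.1, hRW p.2⟩ : W)) ρ)) := by
      refine (tendsto_ptrace _ hρ).congr' ?_
      filter_upwards [eventually_ge_atTop r₁] with n hn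
      exact (reduced_incl hRW 0 (place_injective (by omega : r₁ ≤ n + 1) W a₁ b₁ hW 0) _).symm
    refine convergent_general d ψ R ?_ r hr a b hR _ h1 ε hε
    filter_upwards [hψ] with n hn
    obtain ⟨Δ, hΔ, hg⟩ := hn
    exact ⟨hg.1, fun w => reduced_eq_of_TI (sum_TI' F W h (hermOf X)) hΔ hg R w⟩

end Pool.Agent.Hhelper96.PEPS
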