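import Pool.Agent.Hhelper96.PEPS.AvgErr
import Pool.Agent.Hhelper96.PEPS.CommFinal

/-!
PEPS with site-dependent tensors on one torus.
-/

set_option autoImplicit false
set_option linter.unusedSectionVars false

open scoped BigOperators Topology ComplexOrder
open Matrix Filter

namespace Pool.Agent.Hhelper96.PEPS

/-- The vector on the `N × N` torus obtained by placing the tensor `B v` (one physical index and the
four virtual indices left, right, down, up, of dimension `D`) at the site `v` and contracting the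
virtual indices along the edges: a PEPS that need not be translation invariant.  `a v` is the index
on the edge from `v` to `v + (1,0)` and `b v` the index on the edge from `v` to `v + (0,1)`. -/
noncomputable def sitePepsVec (N : ℕ) [NeZero N] {d D : ℕ}
    (B : Site N → Fin d → Fin D → Fin D → Fin D → Fin D → ℂ) : (Site N → Fin d) → ℂ :=
  fun s => ∑ a : Site N → Fin D, ∑ b : Site N → Fin D,
    ∏ v : Site N, B v (s v) (a (v - (1, 0))) (a v) (b (v - (0, 1))) (b v)

theorem netT_site (N : ℕ) [NeZero N] {d D : ℕ}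
    (B : Site N → Fin d → Fin D → Fin D → Fin D → Fin D → ℂ) :
    netT (fun v s (l dwn y : Fin D × Fin D) => B v s l.1 y.1 dwn.2 y.2) = sitePepsVec N B := by
  funext s
  unfold netT sitePepsVec
  rw [← Fintype.sum_prod_type' (f := fun (a b : Site N → Fin D) =>
    ∏ v : Site N, B v (s v) (a (v - (1, 0))) (a v) (b (v - (0, 1))) (b v))]
  apply Fintype.sum_equiv (Equiv.arrowProdEquivProdArrow (Site N) (fun _ => Fin D) (fun _ => Fin D))
  intro y
  rfl

/-- a state given on one torus by a PEPS, all of whose `R`-marginals are close to `ρ` -/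
theorem core_site (d N r : ℕ) [NeZero N] (hr : 1 ≤ r) (hrN : r ≤ N)
    (R : Finset (ℤ × ℤ)) (a b : ℤ)
    (hR : ∀ p ∈ R, a ≤ p.1 ∧ p.1 < a + r ∧ b ≤ p.2 ∧ p.2 < b + r) {D₀ : ℕ}
    (B : Site N → Fin d → Fin D₀ → Fin D₀ → Fin D₀ → Fin D₀ → ℂ) (hB : sitePepsVec N B ≠ 0)
    (v₀ : Site N) (φ : (Site N → Fin d) → ℂ) (hφ : φ ≠ 0) (δ : ℝ)
    (hδ : ∀ v, traceNorm (reduced N R v (sitePepsVec N B) - reduced N R v₀ φ) ≤ δ) :
    ∃ D ≤ (N + 3) ^ 2 * (D₀ ^ 6 + 1), ∃ A : Fin d → Fin D → Fin D → Fin D → Fin D → ℂ,
      ∀ (L : ℕ) [NeZero L], (N + 2) ^ 2 ≤ L → (N + 3) * R.card < L →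
        pepsVec L A ≠ 0 ∧ ∀ v, traceNorm (reduced L R v (pepsVec L A) - reduced N R v₀ φ) ≤
          4 * (r + 2 : ℝ) / (N + 2) + δ := by
  have hδ0 : 0 ≤ δ := (traceNorm_nonneg _).trans (hδ 0)
  rcases Nat.lt_or_ge 1 d with hd | hd
  · have hzo : (⟨0, by omega⟩ : Fin d) ≠ ⟨1, hd⟩ := by
      intro h
      simp only [Fin.mk.injEq] at h
      omega
    have hρ := posSemidef_reduced hrN R a b hR v₀ hφ
    rw [← netT_site] at hB hδ
    obtain ⟨A, hA⟩ := core_net hzo N r hrN R a b hR _ hB _ hρ.1 hρ.2 δ hδ
    refine ⟨_, le_of_eq ?_, A, hA⟩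
    rw [card_hidY]
    simp only [Fintype.card_prod, Fintype.card_fin]
    ring
  · obtain ⟨A, hA⟩ := core_trivial d hd R r hr a b hR N hrN φ hφ
    refine ⟨1, ?_, A, ?_⟩
    · have : 0 < (N + 3) ^ 2 * (D₀ ^ 6 + 1) := by positivity
      omega
    · intro L _ h1 h2
      obtain ⟨h3, h4⟩ := hA L (by nlinarith)
      refine ⟨h3, fun v => ?_⟩
      have hv : reduced N R v₀ φ = reduced N R 0 φ := by
        -- all matrices are `1 × 1` with trace one
        have e1 := (posSemidef_reduced hrN R a b hR v₀ hφ).2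
        have e2 := (posSemidef_reduced hrN R a b hR 0 hφ).2
        have hd1 : d = 1 := by
          rcases Nat.lt_or_ge d 1 with h | h
          · exfalso
            have hd0 : d = 0 := by omega
            subst hd0
            apply hφ
            funext s
            exact (s 0).elim0
          · omega
        subst hd1
        unfold Matrix.trace at e1 e2
        rw [Fintype.sum_unique] at e1 e2
        ext x y
        rw [Subsingleton.elim x default, Subsingleton.elim y default]
        exact e1.trans e2.symm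
      rw [hv]
      refine (h4 v).trans ?_
      positivity

end Pool.Agent.Hhelper96.PEPS
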