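import Pool.Agent.Hhelper96.PEPS.Generic

/-!
Finitely many translation invariant PEPS tensors approximate the marginals of all gapped translation
invariant ground states on all large tori.
-/

set_option autoImplicit false
set_option linter.unusedSectionVars false

open scoped BigOperators Topology ComplexOrder
open Matrix Filter

namespace Pool.Agent.Hhelper96.PEPS

/-- `core_uniform` with a bond dimension that does not depend on the vector -/
theorem core_fixed (d r : ℕ) (hr : 1 ≤ r) {ε : ℝ} (_hε : 0 < ε) (R : Finset (ℤ × ℤ)) (a b : ℤ)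
    (hR : ∀ p ∈ R, a ≤ p.1 ∧ p.1 < a + r ∧ b ≤ p.2 ∧ p.2 < b + r) :
    ∃ D ≤ bondBound d r ε, ∀ (L₁ : ℕ) [NeZero L₁], boxSide r ε ≤ L₁ →
      ∀ (ψ : (Site L₁ → Fin d) → ℂ), ψ ≠ 0 → (∀ w, reduced L₁ R w ψ = reduced L₁ R 0 ψ) →
      ∃ A : Fin d → Fin D → Fin D → Fin D → Fin D → ℂ,
      ∀ (L : ℕ) [NeZero L], (2 * boxSide r ε + 2) ^ 2 ≤ L → (2 * boxSide r ε + 3) * R.card < L →
        pepsVec L A ≠ 0 ∧ ∀ v, traceNorm (reduced L R v (pepsVec L A) - reduced L₁ R 0 ψ) ≤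
          (4 * r + 5 : ℝ) / (boxSide r ε : ℕ) := by
  have hrm : r ≤ boxSide r ε := by unfold boxSide; omega
  rcases Nat.lt_or_ge 1 d with hd | hd
  · have hzo : (⟨0, by omega⟩ : Fin d) ≠ ⟨1, hd⟩ := by
      intro h
      simp only [Fin.mk.injEq] at h
      omega
    refine ⟨_, le_of_eq (card_hid (boxSide r ε) d), ?_⟩
    intro L₁ _ hm ψ hψ hTI
    exact core hzo (boxSide r ε) r hr hrm R a b hR L₁ hm ψ hψ hTI
  · refine ⟨1, ?_, ?_⟩
    · unfold bondBound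
      have : 0 < (2 * boxSide r ε + 3) * (boxSide r ε + 3) * (d ^ (2 * boxSide r ε ^ 2) + 1) := by
        positivity
      omega
    · intro L₁ _ hm ψ hψ hTI
      obtain ⟨A, hA⟩ := core_trivial d hd R r hr a b hR L₁ (hrm.trans hm) ψ hψ
      refine ⟨A, ?_⟩
      intro L _ h1 _
      have h2 : r ≤ L := by nlinarith
      obtain ⟨h3, h4⟩ := hA L h2
      refine ⟨h3, fun v => (h4 v).trans ?_⟩
      positivity

/-- a set of matrices with bounded entries has a finite net -/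
theorem exists_net {m : Type} [Fintype m] (S : Set (m → m → ℂ)) (C : ℝ)
    (hS : ∀ X ∈ S, ∀ i j, ‖X i j‖ ≤ C) {δ : ℝ} (hδ : 0 < δ) :
    ∃ t : Set (m → m → ℂ), t ⊆ S ∧ t.Finite ∧ ∀ X ∈ S, ∃ Y ∈ t, ∀ i j, ‖X i j - Y i j‖ ≤ δ := by
  have hb : Bornology.IsBounded S := by
    rw [isBounded_iff_forall_norm_le]
    refine ⟨|C|, fun X hX => ?_⟩
    rw [pi_norm_le_iff_of_nonneg (abs_nonneg C)]
    intro i
    rw [pi_norm_le_iff_of_nonneg (abs_nonneg C)]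
    intro j
    exact (hS X hX i j).trans (le_abs_self C)
  have htb : TotallyBounded S := hb.isCompact_closure.totallyBounded.subset subset_closure
  obtain ⟨t, ht1, ht2, ht3⟩ := (totallyBounded_iff_subset.1 htb) _ (Metric.dist_mem_uniformity hδ)
  refine ⟨t, ht1, ht2, fun X hX => ?_⟩
  have h1 := ht3 hX
  simp only [Set.mem_iUnion] at h1
  obtain ⟨Y, hY, h2⟩ := h1
  refine ⟨Y, hY, fun i j => ?_⟩
  have h3 : dist X Y < δ := h2
  rw [dist_eq_norm] at h3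
  have h4 : ‖(X - Y) i j‖ ≤ ‖X - Y‖ := (norm_le_pi_norm ((X - Y) i) j).trans (norm_le_pi_norm _ i)
  have h5 : (X - Y) i j = X i j - Y i j := rfl
  rw [h5] at h4
  linarith

theorem finite_set (d : ℕ) (R : Finset (ℤ × ℤ)) (r : ℕ) (hr : 1 ≤ r) (a b : ℤ)
    (hR : ∀ p ∈ R, a ≤ p.1 ∧ p.1 < a + r ∧ b ≤ p.2 ∧ p.2 < b + r) (ε : ℝ) (hε : 0 < ε) :
    ∃ D ≤ bondBound d r ε, ∃ (N : ℕ) (A : Fin N → Fin d → Fin D → Fin D → Fin D → Fin D → ℂ)
      (L₀ : ℕ), (∀ i, ∀ (L : ℕ) [NeZero L], L₀ ≤ L → pepsVec L (A i) ≠ 0) ∧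
      ∀ (L : ℕ) [NeZero L], L₀ ≤ L → ∀ (F : Finset (ℤ × ℤ)) (h : Matrix (F → Fin d) (F → Fin d) ℂ),
        h.IsHermitian → ∀ Δ : ℝ, 0 < Δ → ∀ ψ : (Site L → Fin d) → ℂ,
        IsGappedGround (hamiltonian L F h) Δ ψ →
        ∃ i, ∀ (L' : ℕ) [NeZero L'], L₀ ≤ L' → ∀ (v : Site L) (v' : Site L'),
          traceNorm (reduced L R v ψ - reduced L' R v' (pepsVec L' (A i))) ≤ ε := by
  classical
  obtain ⟨D, hD, hcore⟩ := core_fixed d r hr hε R a b hR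
  have hrm : r ≤ boxSide r ε := by unfold boxSide; omega
  obtain ⟨m, hm⟩ : ∃ m, m = boxSide r ε := ⟨_, rfl⟩
  obtain ⟨L₀, hL₀⟩ : ∃ L₀, L₀ = (2 * m + 2) ^ 2 + (2 * m + 3) * R.card + 1 := ⟨_, rfl⟩
  have hmL : m ≤ L₀ := by rw [hL₀]; nlinarith
  have herr := error_lt r hε
  obtain ⟨η, hη⟩ : ∃ η, η = ε - (4 * r + 5 : ℝ) / (boxSide r ε : ℕ) := ⟨_, rfl⟩
  have hη0 : 0 < η := by rw [hη]; linarith
  -- the set of marginals
  obtain ⟨S, hS⟩ : ∃ S : Set ((R → Fin d) → (R → Fin d) → ℂ), S = {X | ∃ (n : ℕ)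
      (ψ : (Site (n + 1) → Fin d) → ℂ), L₀ ≤ n + 1 ∧ ψ ≠ 0 ∧
      (∀ w, reduced (n + 1) R w ψ = reduced (n + 1) R 0 ψ) ∧ X = reduced (n + 1) R 0 ψ} := ⟨_, rfl⟩
  have hbd : ∀ X ∈ S, ∀ i j, ‖X i j‖ ≤ 1 := by
    intro X hX i j
    rw [hS] at hX
    obtain ⟨n, ψ, h1, h2, _, h4⟩ := hX
    rw [h4]
    have h5 := posSemidef_reduced (r := r) (by omega : r ≤ n + 1) R a b hR 0 h2
    refine (norm_apply_le_traceNorm _ i j).trans ((traceNorm_posSemidef_le h5.1).trans ?_)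
    rw [h5.2]
    simp
  obtain ⟨c, hc⟩ : ∃ c : ℝ, c = ∑ _i : R → Fin d, ∑ _j : R → Fin d, (1 : ℝ) := ⟨_, rfl⟩
  have hc0 : 0 ≤ c := by rw [hc]; positivity
  obtain ⟨t, ht1, ht2, ht3⟩ := exists_net S 1 hbd (δ := η / (c + 1)) (by positivity)
  -- tensors for the net
  have hten : ∀ Y ∈ t, ∃ A : Fin d → Fin D → Fin D → Fin D → Fin D → ℂ,
      ∀ (L : ℕ) [NeZero L], L₀ ≤ L → pepsVec L A ≠ 0 ∧ ∀ v,
        traceNorm (reduced L R v (pepsVec L A) - Matrix.of Y) ≤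
          (4 * r + 5 : ℝ) / (boxSide r ε : ℕ) := by
    intro Y hY
    have h1 := ht1 hY
    rw [hS] at h1
    obtain ⟨n, ψ, h2, h3, h4, h5⟩ := h1
    obtain ⟨A, hA⟩ := hcore (n + 1) (by rw [← hm]; omega) ψ h3 h4
    refine ⟨A, ?_⟩
    intro L _ hL
    have h6 := hA L (by rw [← hm]; omega) (by rw [← hm]; omega)
    rw [h5]
    exact h6
  obtain ⟨N, f, _, hf⟩ := ht2.fin_param
  have hfm : ∀ i, f i ∈ t := fun i => by rw [← hf]; exact Set.mem_range_self i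
  choose A hA using hten
  refine ⟨D, hD, N, fun i => A (f i) (hfm i), L₀, ?_, ?_⟩
  · intro i L _ hL
    exact (hA (f i) (hfm i) L hL).1
  · intro L _ hL F h _ Δ hΔ ψ hψ
    obtain ⟨n, rfl⟩ : ∃ n, L = n + 1 := ⟨L - 1, by have := NeZero.pos L; omega⟩
    have hTI : ∀ w, reduced (n + 1) R w ψ = reduced (n + 1) R 0 ψ := fun w =>
      reduced_eq_of_gapped F h hΔ hψ R w
    have hmem : (reduced (n + 1) R 0 ψ : (R → Fin d) → (R → Fin d) → ℂ) ∈ S := by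
      rw [hS]
      exact ⟨n, ψ, hL, hψ.1, hTI, rfl⟩
    obtain ⟨Y, hY, hclose⟩ := ht3 _ hmem
    obtain ⟨i, hi⟩ : ∃ i, f i = Y := by
      have : Y ∈ Set.range f := by rw [hf]; exact hY
      exact this
    refine ⟨i, fun L' _ hL' v v' => ?_⟩
    have h1 := (hA (f i) (hfm i) L' hL').2 v'
    rw [hTI v]
    have h2 : reduced (n + 1) R 0 ψ - reduced L' R v' (pepsVec L' (A (f i) (hfm i))) =
        (reduced (n + 1) R 0 ψ - Matrix.of (f i)) +
          (Matrix.of (f i) - reduced L' R v' (pepsVec L' (A (f i) (hfm i)))) := by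
      abel
    rw [h2]
    refine (traceNorm_add_le _ _).trans ?_
    have h3 : traceNorm (reduced (n + 1) R 0 ψ - Matrix.of (f i)) ≤ η := by
      refine (traceNorm_le_sum _).trans ?_
      have h4 : ∑ x : R → Fin d, ∑ y : R → Fin d,
          ‖(reduced (n + 1) R 0 ψ - Matrix.of (f i)) x y‖ ≤
          ∑ _x : R → Fin d, ∑ _y : R → Fin d, 1 * (η / (c + 1)) := by
        refine Finset.sum_le_sum (fun x _ => Finset.sum_le_sum (fun y _ => ?_))
        rw [one_mul, hi]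
        exact hclose x y
      refine h4.trans ?_
      simp_rw [← Finset.sum_mul]
      rw [← hc, mul_div_assoc', div_le_iff₀ (by positivity)]
      nlinarith
    rw [traceNorm_sub_comm (Matrix.of (f i))]
    rw [hη] at h3
    linarith

end Pool.Agent.Hhelper96.PEPS
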