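import Pool.Agent.Hhelper96.PEPS.Defs

set_option autoImplicit false
set_option linter.unusedSectionVars false

open scoped BigOperators ComplexOrder
open Matrix

namespace Pool.Agent.Hhelper96.PEPS

variable {n : Type} [Fintype n] [DecidableEq n]

/-- the squared norm of the `k`-th column -/
theorem diag_conjTranspose_mul_self (X : Matrix n n ℂ) (k : n) :
    (Xᴴ * X) k k = ((∑ i, ‖X i k‖ ^ 2 : ℝ) : ℂ) := by
  rw [Matrix.mul_apply]
  push_cast
  refine Finset.sum_congr rfl (fun i _ => ?_)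
  rw [Matrix.conjTranspose_apply]
  have h := Complex.normSq_eq_conj_mul_self (z := X i k)
  rw [Complex.normSq_eq_norm_sq] at h
  have h2 : (‖X i k‖ : ℂ) ^ 2 = ((‖X i k‖ ^ 2 : ℝ) : ℂ) := by push_cast; rfl
  rw [h2, h]
  rfl

theorem norm_trace_conjTranspose_mul_le (X Y : Matrix n n ℂ) :
    ‖(Xᴴ * Y).trace‖ ≤ ∑ k, √(∑ i, ‖X i k‖ ^ 2) * √(∑ i, ‖Y i k‖ ^ 2) := by
  unfold Matrix.trace
  refine (norm_sum_le _ _).trans (Finset.sum_le_sum (fun k _ => ?_))
  rw [Matrix.diag_apply, Matrix.mul_apply]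
  refine (norm_sum_le _ _).trans ?_
  rw [← Real.sqrt_mul (by positivity)]
  apply Real.le_sqrt_of_sq_le
  have h := Finset.sum_mul_sq_le_sq_mul_sq Finset.univ (fun i => ‖X i k‖) (fun i => ‖Y i k‖)
  refine le_trans (le_of_eq ?_) h
  congr 1
  refine Finset.sum_congr rfl (fun i _ => ?_)
  rw [norm_mul, Matrix.conjTranspose_apply, norm_star]

/-- contractions -/
def IsContr (W : Matrix n n ℂ) : Prop := (1 - Wᴴ * W).PosSemidef

theorem IsContr.col_le {W : Matrix n n ℂ} (hW : IsContr W) (B : Matrix n n ℂ) (k : n) :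
    (∑ i, ‖(W * B) i k‖ ^ 2) ≤ ∑ i, ‖B i k‖ ^ 2 := by
  have h1 : (Bᴴ * (1 - Wᴴ * W) * B).PosSemidef := hW.conjTranspose_mul_mul_same B
  have h2 : 0 ≤ (Bᴴ * (1 - Wᴴ * W) * B) k k := h1.diag_nonneg
  have h3 : (Bᴴ * (1 - Wᴴ * W) * B) = Bᴴ * B - (W * B)ᴴ * (W * B) := by
    rw [Matrix.conjTranspose_mul]
    noncomm_ring
  rw [h3, Matrix.sub_apply, diag_conjTranspose_mul_self, diag_conjTranspose_mul_self,
    ← Complex.ofReal_sub] at h2
  have h4 := (Complex.le_def.1 h2).1
  simp only [Complex.zero_re, Complex.ofReal_re] at h4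
  linarith

theorem IsContr.norm_apply_le {W : Matrix n n ℂ} (hW : IsContr W) (i k : n) : ‖W i k‖ ≤ 1 := by
  have h := hW.col_le 1 k
  rw [Matrix.mul_one] at h
  have h1 : (∑ i, ‖(1 : Matrix n n ℂ) i k‖ ^ 2) = 1 := by
    rw [Finset.sum_eq_single k]
    · simp
    · intro b _ hb
      simp [Matrix.one_apply_ne hb]
    · intro h; exact absurd (Finset.mem_univ _) h
  rw [h1] at h
  have h2 : ‖W i k‖ ^ 2 ≤ ∑ i, ‖W i k‖ ^ 2 :=
    Finset.single_le_sum (f := fun i => ‖W i k‖ ^ 2) (fun _ _ => by positivity) (Finset.mem_univ i)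
  have h3 : ‖W i k‖ ^ 2 ≤ 1 ^ 2 := by linarith
  exact le_of_sq_le_sq h3 (by norm_num)

variable (M : Matrix n n ℂ)

/-- the columns of `M * U` for the eigenvector unitary `U` of `Mᴴ * M` -/
theorem col_norm_sq (i : n) :
    (∑ k, ‖(M * ((isHermitian_conjTranspose_mul_self M).eigenvectorUnitary : Matrix n n ℂ)) k i‖ ^ 2)
      = (isHermitian_conjTranspose_mul_self M).eigenvalues i := by
  set H := isHermitian_conjTranspose_mul_self M
  set U : Matrix n n ℂ := (H.eigenvectorUnitary : Matrix n n ℂ)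
  have h1 : (M * U)ᴴ * (M * U) = diagonal (RCLike.ofReal ∘ H.eigenvalues) := by
    have h := H.conjStarAlgAut_star_eigenvectorUnitary
    rw [Unitary.conjStarAlgAut_star_apply] at h
    rw [← h, Matrix.conjTranspose_mul, Matrix.star_eq_conjTranspose]
    simp only [Matrix.mul_assoc]
    rfl
  have h2 := diag_conjTranspose_mul_self (M * U) i
  rw [h1, Matrix.diagonal_apply_eq] at h2
  have h3 : ((H.eigenvalues i : ℝ) : ℂ) = ((∑ k, ‖(M * U) k i‖ ^ 2 : ℝ) : ℂ) := h2
  exact (Complex.ofReal_injective h3).symm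

theorem eigenvalues_nonneg' (i : n) :
    0 ≤ (isHermitian_conjTranspose_mul_self M).eigenvalues i := by
  rw [← col_norm_sq]; positivity

theorem traceNorm_nonneg : 0 ≤ traceNorm M :=
  Finset.sum_nonneg (fun _ _ => Real.sqrt_nonneg _)

/-- duality, upper bound -/
theorem norm_trace_le_traceNorm {W : Matrix n n ℂ} (hW : IsContr W) :
    ‖(Wᴴ * M).trace‖ ≤ traceNorm M := by
  set H := isHermitian_conjTranspose_mul_self M with hH
  set U : Matrix n n ℂ := (H.eigenvectorUnitary : Matrix n n ℂ) with hU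
  have hUU : U * Uᴴ = 1 := by
    rw [← Matrix.star_eq_conjTranspose]
    exact Unitary.coe_mul_star_self H.eigenvectorUnitary
  have hUU' : Uᴴ * U = 1 := by
    rw [← Matrix.star_eq_conjTranspose]
    exact Unitary.coe_star_mul_self H.eigenvectorUnitary
  have h1 : (Wᴴ * M).trace = ((W * U)ᴴ * (M * U)).trace := by
    rw [Matrix.conjTranspose_mul]
    have : Uᴴ * Wᴴ * (M * U) = Uᴴ * (Wᴴ * M * U) := by noncomm_ring
    rw [this, Matrix.trace_mul_comm Uᴴ, Matrix.mul_assoc (Wᴴ * M) U, hUU, Matrix.mul_one]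
  rw [h1]
  refine (norm_trace_conjTranspose_mul_le _ _).trans ?_
  unfold traceNorm
  refine Finset.sum_le_sum (fun k _ => ?_)
  rw [col_norm_sq]
  have h2 := hW.col_le U k
  have h3 : (∑ i, ‖U i k‖ ^ 2) = 1 := by
    have h4 := diag_conjTranspose_mul_self U k
    rw [hUU', Matrix.one_apply_eq] at h4
    have h5 : ((1 : ℝ) : ℂ) = ((∑ i, ‖U i k‖ ^ 2 : ℝ) : ℂ) := by simpa using h4
    exact (Complex.ofReal_injective h5).symm
  rw [h3] at h2
  have h4 : √(∑ i, ‖(W * U) i k‖ ^ 2) ≤ 1 := by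
    rw [Real.sqrt_le_one]
    exact h2
  calc _ ≤ 1 * √((isHermitian_conjTranspose_mul_self M).eigenvalues k) :=
        mul_le_mul_of_nonneg_right h4 (Real.sqrt_nonneg _)
    _ = _ := one_mul _

/-- duality, the bound is attained -/
theorem exists_contr_trace_eq : ∃ W : Matrix n n ℂ, IsContr W ∧
    (Wᴴ * M).trace = ((traceNorm M : ℝ) : ℂ) := by
  set H := isHermitian_conjTranspose_mul_self M with hH
  set U : Matrix n n ℂ := (H.eigenvectorUnitary : Matrix n n ℂ) with hU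
  have hUU : U * Uᴴ = 1 := by
    rw [← Matrix.star_eq_conjTranspose]
    exact Unitary.coe_mul_star_self H.eigenvectorUnitary
  have hUU' : Uᴴ * U = 1 := by
    rw [← Matrix.star_eq_conjTranspose]
    exact Unitary.coe_star_mul_self H.eigenvectorUnitary
  set μ := H.eigenvalues with hμ
  have hμ0 : ∀ i, 0 ≤ μ i := eigenvalues_nonneg' M
  have hV : (M * U)ᴴ * (M * U) = diagonal (fun i => ((μ i : ℝ) : ℂ)) := by
    have h := H.conjStarAlgAut_star_eigenvectorUnitary
    rw [Unitary.conjStarAlgAut_star_apply] at h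
    have : (diagonal (fun i => ((μ i : ℝ) : ℂ)) : Matrix n n ℂ)
        = diagonal (RCLike.ofReal ∘ H.eigenvalues) := rfl
    rw [this, ← h, Matrix.conjTranspose_mul, Matrix.star_eq_conjTranspose]
    simp only [Matrix.mul_assoc]
    rfl
  set Dg : Matrix n n ℂ := diagonal (fun i => (((√(μ i))⁻¹ : ℝ) : ℂ)) with hD
  have hDH : Dgᴴ = Dg := by
    rw [hD, Matrix.diagonal_conjTranspose]
    congr 1
    funext i
    simp
  set Y : Matrix n n ℂ := (M * U) * Dg with hY
  have hYY : Yᴴ * Y = diagonal (fun i => (((√(μ i))⁻¹ * μ i * (√(μ i))⁻¹ : ℝ) : ℂ)) := by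
    rw [hY, Matrix.conjTranspose_mul, hDH]
    have : Dg * (M * U)ᴴ * (M * U * Dg) = Dg * ((M * U)ᴴ * (M * U)) * Dg := by noncomm_ring
    rw [this, hV, hD, Matrix.diagonal_mul_diagonal, Matrix.diagonal_mul_diagonal]
    congr 1
    funext i
    push_cast
    ring
  refine ⟨Y * Uᴴ, ?_, ?_⟩
  · unfold IsContr
    have h1 : 1 - (Y * Uᴴ)ᴴ * (Y * Uᴴ) = U * (1 - Yᴴ * Y) * Uᴴ := by
      rw [Matrix.conjTranspose_mul, Matrix.conjTranspose_conjTranspose]
      calc 1 - U * Yᴴ * (Y * Uᴴ) = U * Uᴴ - U * (Yᴴ * Y) * Uᴴ := by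
            rw [hUU]; noncomm_ring
        _ = _ := by noncomm_ring
    rw [h1, hYY]
    have h2 : (1 : Matrix n n ℂ) - diagonal (fun i => (((√(μ i))⁻¹ * μ i * (√(μ i))⁻¹ : ℝ) : ℂ))
        = diagonal (fun i => ((1 - (√(μ i))⁻¹ * μ i * (√(μ i))⁻¹ : ℝ) : ℂ)) := by
      rw [← Matrix.diagonal_one, Matrix.diagonal_sub]
      congr 1
      funext i
      push_cast
      ring
    rw [h2]
    apply Matrix.PosSemidef.mul_mul_conjTranspose_same
    apply Matrix.PosSemidef.diagonal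
    intro i
    simp only [Pi.zero_apply]
    rw [Complex.zero_le_real]
    have : (√(μ i))⁻¹ * μ i * (√(μ i))⁻¹ ≤ 1 := by
      by_cases h0 : μ i = 0
      · rw [h0]; norm_num
      · have hpos : 0 < μ i := lt_of_le_of_ne (hμ0 i) (Ne.symm h0)
        have hs : √(μ i) ≠ 0 := (Real.sqrt_pos.2 hpos).ne'
        have : (√(μ i))⁻¹ * μ i * (√(μ i))⁻¹ = 1 := by
          field_simp
          exact (Real.sq_sqrt (hμ0 i)).symm
        rw [this]
    linarith
  · have h1 : ((Y * Uᴴ)ᴴ * M).trace = (Dg * ((M * U)ᴴ * (M * U))).trace := by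
      rw [Matrix.conjTranspose_mul, Matrix.conjTranspose_conjTranspose, hY,
        Matrix.conjTranspose_mul, hDH]
      have : U * (Dg * (M * U)ᴴ) * M = U * (Dg * (M * U)ᴴ * M) := by noncomm_ring
      rw [this, Matrix.trace_mul_comm]
      congr 1
      noncomm_ring
    rw [h1, hV, hD, Matrix.diagonal_mul_diagonal, Matrix.trace_diagonal]
    unfold traceNorm
    push_cast
    refine Finset.sum_congr rfl (fun i _ => ?_)
    rw [← Complex.ofReal_inv, ← Complex.ofReal_mul]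
    congr 1
    by_cases h0 : μ i = 0
    · rw [h0]; simp [← hμ, h0]
    · have hpos : 0 < μ i := lt_of_le_of_ne (hμ0 i) (Ne.symm h0)
      have hs : √(μ i) ≠ 0 := (Real.sqrt_pos.2 hpos).ne'
      change (√(μ i))⁻¹ * μ i = √(μ i)
      field_simp
      exact (Real.sq_sqrt (hμ0 i)).symm

theorem traceNorm_add_le (A B : Matrix n n ℂ) :
    traceNorm (A + B) ≤ traceNorm A + traceNorm B := by
  obtain ⟨W, hW, h⟩ := exists_contr_trace_eq (A + B)
  have h1 : traceNorm (A + B) = ‖(Wᴴ * (A + B)).trace‖ := by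
    rw [h, Complex.norm_real, Real.norm_of_nonneg (traceNorm_nonneg _)]
  rw [h1, Matrix.mul_add, Matrix.trace_add]
  exact (norm_add_le _ _).trans
    (add_le_add (norm_trace_le_traceNorm A hW) (norm_trace_le_traceNorm B hW))

theorem traceNorm_neg (A : Matrix n n ℂ) : traceNorm (-A) = traceNorm A := by
  unfold traceNorm
  simp only [Matrix.conjTranspose_neg, neg_mul_neg]

theorem traceNorm_sub_le' (A B : Matrix n n ℂ) :
    traceNorm (A - B) ≤ traceNorm A + traceNorm B := by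
  rw [sub_eq_add_neg, ← traceNorm_neg B]
  exact traceNorm_add_le _ _

theorem traceNorm_sub_comm (A B : Matrix n n ℂ) : traceNorm (A - B) = traceNorm (B - A) := by
  rw [← traceNorm_neg, neg_sub]

theorem traceNorm_posSemidef_le {P : Matrix n n ℂ} (hP : P.PosSemidef) :
    traceNorm P ≤ P.trace.re := by
  obtain ⟨W, hW, h⟩ := exists_contr_trace_eq P
  have h1 : traceNorm P = ‖(Wᴴ * P).trace‖ := by
    rw [h, Complex.norm_real, Real.norm_of_nonneg (traceNorm_nonneg _)]
  set H := hP.isHermitian with hH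
  set U : Matrix n n ℂ := (H.eigenvectorUnitary : Matrix n n ℂ) with hU
  have hUU : U * Uᴴ = 1 := by
    rw [← Matrix.star_eq_conjTranspose]
    exact Unitary.coe_mul_star_self H.eigenvectorUnitary
  have hUU' : Uᴴ * U = 1 := by
    rw [← Matrix.star_eq_conjTranspose]
    exact Unitary.coe_star_mul_self H.eigenvectorUnitary
  have hPd : P = U * diagonal (fun i => ((H.eigenvalues i : ℝ) : ℂ)) * Uᴴ := by
    have h := H.spectral_theorem
    rw [Unitary.conjStarAlgAut_apply] at h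
    exact h
  have hV : IsContr (Uᴴ * W * U) := by
    unfold IsContr
    have h1 : 1 - (Uᴴ * W * U)ᴴ * (Uᴴ * W * U) = Uᴴ * (1 - Wᴴ * W) * U := by
      rw [Matrix.conjTranspose_mul, Matrix.conjTranspose_mul, Matrix.conjTranspose_conjTranspose]
      calc 1 - Uᴴ * (Wᴴ * U) * (Uᴴ * W * U) = Uᴴ * U - Uᴴ * Wᴴ * (U * Uᴴ) * W * U := by
            rw [hUU']; noncomm_ring
        _ = _ := by rw [hUU]; noncomm_ring
    rw [h1]
    exact hW.conjTranspose_mul_mul_same U
  have h2 : (Wᴴ * P).trace = ((Uᴴ * W * U)ᴴ * diagonal (fun i => ((H.eigenvalues i : ℝ) : ℂ))).trace := by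
    conv_lhs => rw [hPd]
    rw [Matrix.conjTranspose_mul, Matrix.conjTranspose_mul, Matrix.conjTranspose_conjTranspose]
    have : Wᴴ * (U * diagonal (fun i => ((H.eigenvalues i : ℝ) : ℂ)) * Uᴴ)
      = (Wᴴ * U * diagonal (fun i => ((H.eigenvalues i : ℝ) : ℂ))) * Uᴴ := by noncomm_ring
    rw [this, Matrix.trace_mul_comm]
    congr 1
    noncomm_ring
  have h3 : P.trace.re = ∑ i, H.eigenvalues i := by
    rw [H.trace_eq_sum_eigenvalues]
    simp
  rw [h1, h2, h3]
  unfold Matrix.trace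
  refine (norm_sum_le _ _).trans (Finset.sum_le_sum (fun k _ => ?_))
  rw [Matrix.diag_apply, Matrix.mul_diagonal, norm_mul, Complex.norm_real,
    Real.norm_of_nonneg (hP.eigenvalues_nonneg k), Matrix.conjTranspose_apply, norm_star]
  calc ‖(Uᴴ * W * U) k k‖ * H.eigenvalues k ≤ 1 * H.eigenvalues k :=
        mul_le_mul_of_nonneg_right (hV.norm_apply_le k k) (hP.eigenvalues_nonneg k)
    _ = _ := one_mul _

theorem traceNorm_le_sum (M : Matrix n n ℂ) : traceNorm M ≤ ∑ i, ∑ j, ‖M i j‖ := by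
  obtain ⟨W, hW, h⟩ := exists_contr_trace_eq M
  have h1 : traceNorm M = ‖(Wᴴ * M).trace‖ := by
    rw [h, Complex.norm_real, Real.norm_of_nonneg (traceNorm_nonneg _)]
  rw [h1, Finset.sum_comm]
  unfold Matrix.trace
  refine (norm_sum_le _ _).trans (Finset.sum_le_sum (fun k _ => ?_))
  rw [Matrix.diag_apply, Matrix.mul_apply]
  refine (norm_sum_le _ _).trans (Finset.sum_le_sum (fun i _ => ?_))
  rw [norm_mul, Matrix.conjTranspose_apply, norm_star]
  calc ‖W i k‖ * ‖M i k‖ ≤ 1 * ‖M i k‖ :=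
        mul_le_mul_of_nonneg_right (hW.norm_apply_le i k) (norm_nonneg _)
    _ = _ := one_mul _

end Pool.Agent.Hhelper96.PEPS
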