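import Mathlib

/-!
Cyclic words on `ZMod L` whose letters are `0, 1, ..., N+2`: a letter is followed by its successor,
and `N+1`, `N+2` may be followed by `0`.  The letter `0` marks the start of a block; the letters
`2, ..., N+1` are the interior of the block.
-/

set_option autoImplicit false
set_option linter.unusedSectionVars false

open scoped BigOperators

namespace Pool.Agent.Hhelper96.PEPS

/-- allowed transitions -/
def Step (N : ℕ) (i j : Fin (N + 3)) : Prop :=
  (j : ℕ) = i + 1 ∨ ((j : ℕ) = 0 ∧ N + 1 ≤ (i : ℕ))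

instance (N : ℕ) (i j : Fin (N + 3)) : Decidable (Step N i j) := by
  unfold Step; infer_instance

variable {N L : ℕ} [NeZero L]

/-- cyclic words with allowed transitions -/
def IsWalk (ξ : ZMod L → Fin (N + 3)) : Prop := ∀ x, Step N (ξ x) (ξ (x + 1))

instance (ξ : ZMod L → Fin (N + 3)) : Decidable (IsWalk ξ) := by
  unfold IsWalk; infer_instance

theorem IsWalk.shift {ξ : ZMod L → Fin (N + 3)} (h : IsWalk ξ) (t : ZMod L) :
    IsWalk (fun x => ξ (x + t)) := by
  intro x
  have := h (x + t)
  simp only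
  rw [add_right_comm]
  exact this

theorem IsWalk.pred {ξ : ZMod L → Fin (N + 3)} (h : IsWalk ξ) (x : ZMod L)
    (hx : (ξ (x + 1) : ℕ) ≠ 0) : (ξ (x + 1) : ℕ) = ξ x + 1 := by
  rcases h x with h1 | h1
  · exact h1
  · exact absurd h1.1 hx

theorem IsWalk.back {ξ : ZMod L → Fin (N + 3)} (h : IsWalk ξ) (x : ZMod L) (j : ℕ)
    (hj : j ≤ (ξ x : ℕ)) : (ξ (x - j) : ℕ) = ξ x - j := by
  induction j with
  | zero => simp
  | succ j ih =>
    have ih' := ih (by omega)
    have hx : x - (j : ZMod L) = (x - ((j + 1 : ℕ) : ZMod L)) + 1 := by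
      push_cast; ring
    have h1 : (ξ ((x - ((j + 1 : ℕ) : ZMod L)) + 1) : ℕ) ≠ 0 := by
      rw [← hx, ih']; omega
    have h2 := h.pred _ h1
    rw [← hx, ih'] at h2
    omega

theorem IsWalk.fwd {ξ : ZMod L → Fin (N + 3)} (h : IsWalk ξ) (x : ZMod L) (j : ℕ)
    (hj : (ξ x : ℕ) + j ≤ N + 1) : (ξ (x + j) : ℕ) = ξ x + j := by
  induction j with
  | zero => simp
  | succ j ih =>
    have ih' := ih (by omega)
    have hx : x + ((j + 1 : ℕ) : ZMod L) = (x + (j : ZMod L)) + 1 := by
      push_cast; ring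
    rw [hx]
    rcases h (x + j) with h1 | h1
    · rw [h1, ih']; ring
    · exfalso
      have := h1.2
      rw [ih'] at this
      omega

theorem IsWalk.ext_of_zero {ξ ξ' : ZMod L → Fin (N + 3)} (h : IsWalk ξ) (h' : IsWalk ξ')
    (h0 : ∀ x, ((ξ x : ℕ) = 0 ↔ (ξ' x : ℕ) = 0)) : ξ = ξ' := by
  -- a common zero
  have hz : ∃ x0, (ξ x0 : ℕ) = 0 := by
    refine ⟨0 - ((ξ 0 : ℕ) : ZMod L), ?_⟩
    rw [h.back 0 (ξ 0 : ℕ) le_rfl]
    simp
  obtain ⟨x0, hx0⟩ := hz
  have hstep : ∀ x, ξ x = ξ' x → ξ (x + 1) = ξ' (x + 1) := by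
    intro x hx
    by_cases hz : (ξ (x + 1) : ℕ) = 0
    · have hz' := (h0 (x + 1)).1 hz
      exact Fin.ext (hz.trans hz'.symm)
    · have hz' : (ξ' (x + 1) : ℕ) ≠ 0 := fun hh => hz ((h0 (x + 1)).2 hh)
      have h1 := h.pred x hz
      have h2 := h'.pred x hz'
      apply Fin.ext
      rw [h1, h2, hx]
  have hall : ∀ j : ℕ, ξ (x0 + j) = ξ' (x0 + j) := by
    intro j
    induction j with
    | zero =>
      simp only [Nat.cast_zero, add_zero]
      exact Fin.ext (hx0.trans ((h0 x0).1 hx0).symm)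
    | succ j ih =>
      have hx : x0 + ((j + 1 : ℕ) : ZMod L) = (x0 + (j : ZMod L)) + 1 := by
        push_cast; ring
      rw [hx]
      exact hstep _ ih
  funext x
  have := hall (x - x0).val
  rw [ZMod.natCast_zmod_val] at this
  simpa using this

open Classical in
/-- the number of positions carrying the letter `i` -/
noncomputable def cnt (ξ : ZMod L → Fin (N + 3)) (i : Fin (N + 3)) : ℕ :=
  (Finset.univ.filter (fun x => ξ x = i)).card

theorem IsWalk.cnt_le {ξ : ZMod L → Fin (N + 3)} (h : IsWalk ξ) (i : Fin (N + 3)) :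
    cnt ξ i ≤ cnt ξ 0 := by
  classical
  unfold cnt
  apply Finset.card_le_card_of_injOn (fun x => x - ((i : ℕ) : ZMod L))
  · intro x hx
    simp only [Finset.coe_filter, Finset.mem_univ, true_and, Set.mem_ofPred_eq] at hx ⊢
    apply Fin.ext
    have := h.back x (i : ℕ) (by rw [hx])
    rw [this, hx]
    simp
  · intro x _ y _ hxy
    simpa using hxy

theorem IsWalk.cnt_ge {ξ : ZMod L → Fin (N + 3)} (h : IsWalk ξ) (i : Fin (N + 3))
    (hi : (i : ℕ) ≤ N + 1) : cnt ξ 0 ≤ cnt ξ i := by
  classical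
  unfold cnt
  apply Finset.card_le_card_of_injOn (fun x => x + ((i : ℕ) : ZMod L))
  · intro x hx
    simp only [Finset.coe_filter, Finset.mem_univ, true_and, Set.mem_ofPred_eq] at hx ⊢
    apply Fin.ext
    have := h.fwd x (i : ℕ) (by rw [hx]; simpa using hi)
    rw [this, hx]
    simp
  · intro x _ y _ hxy
    simpa using hxy

theorem sum_cnt (ξ : ZMod L → Fin (N + 3)) : ∑ i, cnt ξ i = L := by
  classical
  unfold cnt
  rw [← Finset.card_eq_sum_card_fiberwise (f := ξ) (s := Finset.univ) (t := Finset.univ)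
    (fun _ _ => Finset.mem_univ _)]
  simp [ZMod.card]

theorem IsWalk.le_cnt_zero {ξ : ZMod L → Fin (N + 3)} (h : IsWalk ξ) :
    L ≤ (N + 3) * cnt ξ 0 := by
  calc L = ∑ i, cnt ξ i := (sum_cnt ξ).symm
    _ ≤ ∑ _i : Fin (N + 3), cnt ξ 0 := Finset.sum_le_sum (fun i _ => h.cnt_le i)
    _ = (N + 3) * cnt ξ 0 := by simp

theorem IsWalk.cnt_zero_le {ξ : ZMod L → Fin (N + 3)} (h : IsWalk ξ) :
    (N + 2) * cnt ξ 0 ≤ L := by
  calc (N + 2) * cnt ξ 0 = ∑ _i : Fin (N + 2), cnt ξ 0 := by simp
    _ ≤ ∑ i : Fin (N + 2), cnt ξ i.castSucc :=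
        Finset.sum_le_sum (fun i _ => h.cnt_ge _ (by
          have := i.isLt
          simp only [Fin.val_castSucc]
          omega))
    _ ≤ ∑ i : Fin (N + 2), cnt ξ i.castSucc + cnt ξ (Fin.last _) := Nat.le_add_right _ _
    _ = ∑ i, cnt ξ i := (Fin.sum_univ_castSucc _).symm
    _ = L := sum_cnt ξ

/-- positions carrying a letter outside of `G` are rare -/
theorem IsWalk.card_bad_le {ξ : ZMod L → Fin (N + 3)} (h : IsWalk ξ)
    (G : Finset (Fin (N + 3))) :
    (N + 2) * (Finset.univ.filter (fun x => ξ x ∉ G)).card ≤ (N + 3 - G.card) * L := by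
  classical
  have h1 : (Finset.univ.filter (fun x => ξ x ∉ G)).card = ∑ i ∈ Gᶜ, cnt ξ i := by
    unfold cnt
    rw [Finset.card_eq_sum_card_fiberwise (f := ξ) (s := Finset.univ.filter (fun x => ξ x ∉ G))
      (t := Gᶜ)]
    · refine Finset.sum_congr rfl (fun i hi => ?_)
      congr 1
      ext x
      simp only [Finset.mem_filter, Finset.mem_univ, true_and]
      constructor
      · rintro ⟨_, h2⟩; exact h2
      · intro h2
        refine ⟨?_, h2⟩
        rw [h2]
        simpa using hi
    · intro x hx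
      simpa using hx
  have h2 : (Finset.univ.filter (fun x => ξ x ∉ G)).card ≤ (N + 3 - G.card) * cnt ξ 0 := by
    rw [h1]
    calc ∑ i ∈ Gᶜ, cnt ξ i ≤ ∑ _i ∈ Gᶜ, cnt ξ 0 := Finset.sum_le_sum (fun i _ => h.cnt_le i)
      _ = (N + 3 - G.card) * cnt ξ 0 := by
        rw [Finset.sum_const, Finset.card_compl, Fintype.card_fin, smul_eq_mul]
  calc (N + 2) * (Finset.univ.filter (fun x => ξ x ∉ G)).card
      ≤ (N + 2) * ((N + 3 - G.card) * cnt ξ 0) := Nat.mul_le_mul_left _ h2
    _ = (N + 3 - G.card) * ((N + 2) * cnt ξ 0) := by ring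
    _ ≤ (N + 3 - G.card) * L := Nat.mul_le_mul_left _ h.cnt_zero_le

/-- walks exist on long cycles -/
theorem exists_walk (N L : ℕ) [NeZero L] (hL : (N + 2) ^ 2 ≤ L) :
    ∃ ξ : ZMod L → Fin (N + 3), IsWalk ξ := by
  -- L = a (N+2) + b (N+3)
  obtain ⟨a, b, hab⟩ : ∃ a b : ℕ, L = a * (N + 2) + b * (N + 3) := by
    refine ⟨L / (N + 2) - L % (N + 2), L % (N + 2), ?_⟩
    have h1 : L % (N + 2) < N + 2 := Nat.mod_lt _ (by omega)
    have h2 : N + 2 ≤ L / (N + 2) := by
      rw [Nat.le_div_iff_mul_le (by omega)]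
      nlinarith
    have h3 := Nat.div_add_mod L (N + 2)
    set q := L / (N + 2)
    set b := L % (N + 2)
    obtain ⟨c, hc⟩ : ∃ c, q = b + c := ⟨q - b, by omega⟩
    rw [hc, Nat.add_sub_cancel_left]
    rw [hc] at h3
    nlinarith
  have hLpos : 0 < L := Nat.pos_of_ne_zero (NeZero.ne L)
  let w : ℕ → ℕ := fun t => if t < a * (N + 2) then t % (N + 2) else (t - a * (N + 2)) % (N + 3)
  have hw : ∀ t, w t < N + 3 := by
    intro t
    simp only [w]
    split_ifs
    · exact (Nat.mod_lt _ (by omega)).trans (by omega)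
    · exact Nat.mod_lt _ (by omega)
  refine ⟨fun x => ⟨w x.val, hw _⟩, ?_⟩
  intro x
  unfold Step
  simp only
  have hmod : ∀ (t m : ℕ), 0 < m → ((t + 1) % m = t % m + 1 ∧ t % m + 1 < m) ∨
      ((t + 1) % m = 0 ∧ t % m + 1 = m) := by
    intro t m hm
    have h1 : t % m < m := Nat.mod_lt _ hm
    rcases Nat.lt_or_ge (t % m + 1) m with h2 | h2
    · left
      refine ⟨?_, h2⟩
      rw [Nat.add_mod, Nat.mod_eq_of_lt (a := 1) (by omega), Nat.mod_eq_of_lt h2]
    · right
      have h3 : t % m + 1 = m := by omega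
      refine ⟨?_, h3⟩
      have : (t + 1) = m * (t / m) + m := by
        have := Nat.div_add_mod t m
        omega
      rw [this]
      simp
  by_cases hx : x.val + 1 < L
  · -- no wrap around
    have hx1 : (x + 1).val = x.val + 1 := by
      have hL1 : 1 < L := by omega
      have : Fact (1 < L) := ⟨hL1⟩
      rw [ZMod.val_add, ZMod.val_one, Nat.mod_eq_of_lt hx]
    rw [hx1]
    set t := x.val
    simp only [w]
    by_cases h1 : t + 1 < a * (N + 2)
    · have h2 : t < a * (N + 2) := by omega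
      rw [if_pos h1, if_pos h2]
      rcases hmod t (N + 2) (by omega) with h3 | h3
      · left; exact h3.1
      · right; exact ⟨h3.1, by omega⟩
    · by_cases h2 : t < a * (N + 2)
      · -- t + 1 = a (N+2)
        have h3 : t + 1 = a * (N + 2) := by omega
        rw [if_neg h1, if_pos h2]
        right
        constructor
        · rw [h3]; simp
        · rcases hmod t (N + 2) (by omega) with h4 | h4
          · exfalso
            rw [h3] at h4
            have : a * (N + 2) % (N + 2) = 0 := Nat.mul_mod_left _ _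
            omega
          · omega
      · rw [if_neg h1, if_neg h2]
        have h3 : t + 1 - a * (N + 2) = (t - a * (N + 2)) + 1 := by omega
        rw [h3]
        rcases hmod (t - a * (N + 2)) (N + 3) (by omega) with h4 | h4
        · left; exact h4.1
        · right; exact ⟨h4.1, by omega⟩
  · have hxlt : x.val < L := ZMod.val_lt x
    have hxL : x.val + 1 = L := by omega
    have hx1 : (x + 1).val = 0 := by
      have : x + 1 = 0 := by
        have h1 : ((x.val + 1 : ℕ) : ZMod L) = 0 := by rw [hxL]; simp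
        rw [Nat.cast_add, ZMod.natCast_zmod_val, Nat.cast_one] at h1
        exact h1
      rw [this, ZMod.val_zero]
    rw [hx1]
    right
    constructor
    · simp only [w]
      split_ifs <;> simp
    · set t := x.val
      simp only [w]
      by_cases h2 : t < a * (N + 2)
      · rw [if_pos h2]
        have hb : b = 0 := by
          by_contra hb
          have : 1 ≤ b := Nat.one_le_iff_ne_zero.2 hb
          nlinarith
        have h3 : t + 1 = a * (N + 2) := by rw [hxL, hab, hb]; ring
        rcases hmod t (N + 2) (by omega) with h4 | h4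
        · exfalso
          rw [h3] at h4
          have : a * (N + 2) % (N + 2) = 0 := Nat.mul_mod_left _ _
          omega
        · omega
      · rw [if_neg h2]
        have h3 : (t - a * (N + 2)) + 1 = b * (N + 3) := by omega
        rcases hmod (t - a * (N + 2)) (N + 3) (by omega) with h4 | h4
        · exfalso
          rw [h3] at h4
          have : b * (N + 3) % (N + 3) = 0 := Nat.mul_mod_left _ _
          omega
        · omega

end Pool.Agent.Hhelper96.PEPS
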