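import Pool.Agent.Hhelper96.PEPS.Defs
import Pool.Agent.Hhelper96.PEPS.Walk

/-!
Vertex models with nearest neighbour constraints are translationally invariant PEPS, and the
coherent superposition of all block grids is such a vertex model.
-/

set_option autoImplicit false
set_option linter.unusedSectionVars false

open scoped BigOperators

namespace Pool.Agent.Hhelper96.PEPS

section vertex

variable {Hid : Type} [Fintype Hid] [DecidableEq Hid] {d D : ℕ}

open Classical in
/-- the tensor of a vertex model -/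
noncomputable def vertexTensor (e : Hid ≃ Fin D) (wt : Fin d → Hid → ℂ) (Hc Vc : Hid → Hid → Prop) :
    Fin d → Fin D → Fin D → Fin D → Fin D → ℂ :=
  fun s l r dn up =>
    if r = up ∧ Hc (e.symm l) (e.symm r) ∧ Vc (e.symm dn) (e.symm up) then wt s (e.symm r) else 0

open Classical in
theorem pepsVec_vertexTensor (L : ℕ) [NeZero L] (e : Hid ≃ Fin D) (wt : Fin d → Hid → ℂ)
    (Hc Vc : Hid → Hid → Prop) (s : Site L → Fin d) :
    pepsVec L (vertexTensor e wt Hc Vc) s = ∑ σ : Site L → Hid, ∏ v : Site L,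
      if Hc (σ (v - (1, 0))) (σ v) ∧ Vc (σ (v - (0, 1))) (σ v) then wt (s v) (σ v) else 0 := by
  unfold pepsVec
  have h1 : ∀ a : Site L → Fin D, (∑ b : Site L → Fin D,
      ∏ v : Site L, vertexTensor e wt Hc Vc (s v) (a (v - (1, 0))) (a v) (b (v - (0, 1))) (b v)) =
      ∏ v : Site L, if Hc (e.symm (a (v - (1, 0)))) (e.symm (a v)) ∧
        Vc (e.symm (a (v - (0, 1)))) (e.symm (a v)) then wt (s v) (e.symm (a v)) else 0 := by
    intro a
    rw [Finset.sum_eq_single a]
    · refine Finset.prod_congr rfl (fun v _ => ?_)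
      unfold vertexTensor
      simp only [true_and]
    · intro b _ hb
      obtain ⟨v, hv⟩ : ∃ v, b v ≠ a v := by
        by_contra hcon
        push Not at hcon
        exact hb (funext hcon)
      apply Finset.prod_eq_zero (Finset.mem_univ v)
      unfold vertexTensor
      rw [if_neg]
      rintro ⟨h, -⟩
      exact hv h.symm
    · intro h; exact absurd (Finset.mem_univ _) h
  simp_rw [h1]
  rw [← Equiv.sum_comp (Equiv.arrowCongr (Equiv.refl (Site L)) e)]
  refine Finset.sum_congr rfl (fun σ _ => ?_)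
  refine Finset.prod_congr rfl (fun v _ => ?_)
  simp [Equiv.arrowCongr]

end vertex

theorem const_of_pred {L : ℕ} [NeZero L] {α : Type} (f : ZMod L → α) (h : ∀ y, f (y - 1) = f y)
    (y : ZMod L) : f y = f 0 := by
  have h1 : ∀ j : ℕ, f (j : ZMod L) = f 0 := by
    intro j
    induction j with
    | zero => simp
    | succ j ih =>
      have := h ((j + 1 : ℕ) : ZMod L)
      rw [← this]
      push_cast
      rw [add_sub_cancel_right]
      exact ih
  have := h1 y.val
  rwa [ZMod.natCast_zmod_val] at this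

section grid

variable (N₁ N₂ d : ℕ)

/-- interior letters -/
def inner (N : ℕ) (i : Fin (N + 3)) : Prop := 2 ≤ (i : ℕ) ∧ (i : ℕ) ≤ N + 1

instance (N : ℕ) (i : Fin (N + 3)) : Decidable (inner N i) := by unfold inner; infer_instance

/-- the coordinate inside of the block -/
def dn (N : ℕ) (i : Fin (N + 3)) (h : inner N i) : Fin N := ⟨(i : ℕ) - 2, by
  have := h.1; have := h.2; omega⟩

/-- hidden states: horizontal letter, vertical letter, content of the block -/
abbrev Hid : Type := Fin (N₁ + 3) × Fin (N₂ + 3) × Option (Fin N₁ × Fin N₂ → Fin d)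

variable {N₁ N₂ d}

/-- horizontal constraint -/
def Hcon (σ σ' : Hid N₁ N₂ d) : Prop :=
  Step N₁ σ.1 σ'.1 ∧ σ.2.1 = σ'.2.1 ∧
    (inner N₁ σ.1 → inner N₁ σ'.1 → inner N₂ σ'.2.1 → σ.2.2 = σ'.2.2)

/-- vertical constraint -/
def Vcon (σ σ' : Hid N₁ N₂ d) : Prop :=
  σ.1 = σ'.1 ∧ Step N₂ σ.2.1 σ'.2.1 ∧
    (inner N₂ σ.2.1 → inner N₂ σ'.2.1 → inner N₁ σ'.1 → σ.2.2 = σ'.2.2)

variable (χ : (Fin N₁ × Fin N₂ → Fin d) → ℂ) (zr on : Fin d)

/-- physical state of the marker sites -/
def marker (i : Fin (N₁ + 3)) (j : Fin (N₂ + 3)) : Fin d :=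
  if (i : ℕ) = 0 ∨ (j : ℕ) = 0 then on else zr

open Classical in
/-- vertex weights -/
noncomputable def wt (t : Fin d) : Hid N₁ N₂ d → ℂ
  | (i, j, none) => if ¬ (inner N₁ i ∧ inner N₂ j) ∧ t = marker zr on i j then 1 else 0
  | (i, j, some c) => if h : inner N₁ i ∧ inner N₂ j then
      (if t = c (dn N₁ i h.1, dn N₂ j h.2) then
        (if (i : ℕ) = 2 ∧ (j : ℕ) = 2 then χ c else 1) else 0) else 0

variable {L : ℕ} [NeZero L]

/-- local factor of the grid state -/
noncomputable def locFactor (ξ : ZMod L → Fin (N₁ + 3)) (η : ZMod L → Fin (N₂ + 3))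
    (s : Site L → Fin d) (v : Site L) : ℂ :=
  if inner N₁ (ξ v.1) ∧ inner N₂ (η v.2) then
    (if (ξ v.1 : ℕ) = 2 ∧ (η v.2 : ℕ) = 2 then
      χ (fun p => s (v.1 + (p.1 : ℕ), v.2 + (p.2 : ℕ))) else 1)
  else (if s v = marker zr on (ξ v.1) (η v.2) then 1 else 0)

/-- the state attached to the grid given by the two walks -/
noncomputable def gridVec (ξ : ZMod L → Fin (N₁ + 3)) (η : ZMod L → Fin (N₂ + 3))
    (s : Site L → Fin d) : ℂ := ∏ v : Site L, locFactor χ zr on ξ η s v

/-- offset of a letter -/
def off (L : ℕ) {N : ℕ} (i : Fin (N + 3)) : ZMod L := (((i : ℕ) - 2 : ℕ) : ZMod L)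

/-- content of the block of `v` -/
def content (ξ : ZMod L → Fin (N₁ + 3)) (η : ZMod L → Fin (N₂ + 3)) (s : Site L → Fin d)
    (v : Site L) : Fin N₁ × Fin N₂ → Fin d :=
  fun p => s (v.1 - off L (ξ v.1) + (p.1 : ℕ), v.2 - off L (η v.2) + (p.2 : ℕ))

open Classical in
/-- the hidden configuration attached to two walks and a physical configuration -/
noncomputable def hidOf (s : Site L → Fin d)
    (q : (ZMod L → Fin (N₁ + 3)) × (ZMod L → Fin (N₂ + 3))) : Site L → Hid N₁ N₂ d :=
  fun v => (q.1 v.1, q.2 v.2,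
    if inner N₁ (q.1 v.1) ∧ inner N₂ (q.2 v.2) then some (content q.1 q.2 s v) else none)

theorem off_succ {N : ℕ} {ξ : ZMod L → Fin (N + 3)} (h : IsWalk ξ) (x : ZMod L)
    (hx : inner N (ξ x)) (hx' : inner N (ξ (x - 1))) :
    off L (ξ x) = off L (ξ (x - 1)) + 1 := by
  have h1 : (ξ (x - 1 + 1) : ℕ) ≠ 0 := by
    rw [sub_add_cancel]
    have := hx.1; omega
  have h2 := h.pred (x - 1) h1
  rw [sub_add_cancel] at h2
  unfold off
  rw [h2]
  have := hx'.1
  have h3 : (ξ (x - 1) : ℕ) + 1 - 2 = ((ξ (x - 1) : ℕ) - 2) + 1 := by omega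
  rw [h3]
  push_cast
  ring

theorem hcon_hidOf (s : Site L → Fin d) {ξ : ZMod L → Fin (N₁ + 3)} {η : ZMod L → Fin (N₂ + 3)}
    (hξ : IsWalk ξ) (v : Site L) :
    Hcon (hidOf s (ξ, η) (v - (1, 0))) (hidOf s (ξ, η) v) := by
  refine ⟨?_, ?_, ?_⟩
  · have := hξ (v.1 - 1)
    rw [sub_add_cancel] at this
    exact this
  · simp [hidOf]
  · intro h1 h2 h3
    have h1' : inner N₁ (ξ (v.1 - 1)) := h1
    have h2' : inner N₁ (ξ v.1) := h2
    have h3' : inner N₂ (η v.2) := h3
    have h4 : (v - (1, 0)).2 = v.2 := by simp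
    have h5 : (v - (1, 0)).1 = v.1 - 1 := by simp
    simp only [hidOf]
    rw [h4, h5, if_pos ⟨h1', h3'⟩, if_pos ⟨h2', h3'⟩]
    congr 1
    funext p
    unfold content
    rw [h4, h5, off_succ hξ v.1 h2' h1']
    congr 2
    ring

theorem vcon_hidOf (s : Site L → Fin d) {ξ : ZMod L → Fin (N₁ + 3)} {η : ZMod L → Fin (N₂ + 3)}
    (hη : IsWalk η) (v : Site L) :
    Vcon (hidOf s (ξ, η) (v - (0, 1))) (hidOf s (ξ, η) v) := by
  refine ⟨?_, ?_, ?_⟩
  · simp [hidOf]
  · have := hη (v.2 - 1)
    rw [sub_add_cancel] at this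
    exact this
  · intro h1 h2 h3
    have h1' : inner N₂ (η (v.2 - 1)) := h1
    have h2' : inner N₂ (η v.2) := h2
    have h3' : inner N₁ (ξ v.1) := h3
    have h4 : (v - (0, 1)).2 = v.2 - 1 := by simp
    have h5 : (v - (0, 1)).1 = v.1 := by simp
    simp only [hidOf]
    rw [h4, h5, if_pos ⟨h3', h1'⟩, if_pos ⟨h3', h2'⟩]
    congr 1
    funext p
    unfold content
    rw [h4, h5, off_succ hη v.2 h2' h1']
    congr 2
    ring

theorem wt_hidOf (s : Site L → Fin d) (ξ : ZMod L → Fin (N₁ + 3)) (η : ZMod L → Fin (N₂ + 3))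
    (v : Site L) :
    wt χ zr on (s v) (hidOf s (ξ, η) v) = locFactor χ zr on ξ η s v := by
  by_cases h : inner N₁ (ξ v.1) ∧ inner N₂ (η v.2)
  · have h1 : hidOf s (ξ, η) v = (ξ v.1, η v.2, some (content ξ η s v)) := by
      simp [hidOf, h]
    rw [h1]
    unfold locFactor
    rw [if_pos h]
    simp only [wt]
    rw [dif_pos h]
    have h2 : s v = content ξ η s v (dn N₁ (ξ v.1) h.1, dn N₂ (η v.2) h.2) := by
      unfold content dn off
      simp
    rw [if_pos h2]
    by_cases h3 : (ξ v.1 : ℕ) = 2 ∧ (η v.2 : ℕ) = 2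
    · rw [if_pos h3, if_pos h3]
      congr 1
      funext p
      unfold content off
      rw [h3.1, h3.2]
      simp
    · rw [if_neg h3, if_neg h3]
  · have h1 : hidOf s (ξ, η) v = (ξ v.1, η v.2, none) := by
      simp [hidOf, h]
    rw [h1]
    unfold locFactor
    rw [if_neg h]
    simp only [wt]
    by_cases h3 : s v = marker zr on (ξ v.1) (η v.2)
    · rw [if_pos ⟨h, h3⟩, if_pos h3]
    · rw [if_neg (fun hh => h3 hh.2), if_neg h3]

/-- a hidden configuration of nonzero weight comes from two walks -/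
theorem eq_hidOf (s : Site L → Fin d) (σ : Site L → Hid N₁ N₂ d)
    (hH : ∀ v, Hcon (σ (v - (1, 0))) (σ v)) (hV : ∀ v, Vcon (σ (v - (0, 1))) (σ v))
    (hw : ∀ v, wt χ zr on (s v) (σ v) ≠ 0) :
    ∃ ξ : ZMod L → Fin (N₁ + 3), ∃ η : ZMod L → Fin (N₂ + 3), IsWalk ξ ∧ IsWalk η ∧
      σ = hidOf s (ξ, η) := by
  refine ⟨fun x => (σ (x, 0)).1, fun y => (σ (0, y)).2.1, ?_, ?_, ?_⟩
  · intro x
    have := (hH (x + 1, 0)).1
    simpa using this
  · intro y
    have := (hV (0, y + 1)).2.1
    simpa using this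
  · have hx : ∀ x y, (σ (x, y)).1 = (σ (x, 0)).1 := by
      intro x y
      apply const_of_pred (fun y => (σ (x, y)).1)
      intro y
      have := (hV (x, y)).1
      simpa using this
    have hy : ∀ x y, (σ (x, y)).2.1 = (σ (0, y)).2.1 := by
      intro x y
      apply const_of_pred (fun x => (σ (x, y)).2.1)
      intro x
      have := (hH (x, y)).2.1
      simpa using this
    have hξ : IsWalk (fun x => (σ (x, 0)).1) := by
      intro x
      have := (hH (x + 1, 0)).1
      simpa using this
    have hη : IsWalk (fun y => (σ (0, y)).2.1) := by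
      intro y
      have := (hV (0, y + 1)).2.1
      simpa using this
    set ξ : ZMod L → Fin (N₁ + 3) := fun x => (σ (x, 0)).1 with hξd
    set η : ZMod L → Fin (N₂ + 3) := fun y => (σ (0, y)).2.1 with hηd
    have hx' : ∀ v, (σ v).1 = ξ v.1 := fun v => hx v.1 v.2
    have hy' : ∀ v, (σ v).2.1 = η v.2 := fun v => hy v.1 v.2
    -- value at inner sites
    have hin : ∀ v, (h : inner N₁ (ξ v.1) ∧ inner N₂ (η v.2)) →
        ∃ c, (σ v).2.2 = some c ∧ s v = c (dn N₁ (ξ v.1) h.1, dn N₂ (η v.2) h.2) := by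
      intro v h
      have hwv := hw v
      rcases hσ : σ v with ⟨i, j, oc⟩
      have hi : i = ξ v.1 := by rw [← hx' v, hσ]
      have hj : j = η v.2 := by rw [← hy' v, hσ]
      subst hi
      subst hj
      rw [hσ] at hwv
      cases oc with
      | none =>
        simp only [wt] at hwv
        rw [if_neg (fun hh => hh.1 h)] at hwv
        exact absurd rfl hwv
      | some c =>
        simp only [wt] at hwv
        rw [dif_pos h] at hwv
        refine ⟨c, rfl, ?_⟩
        by_contra hne
        rw [if_neg hne] at hwv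
        exact hwv rfl
    have hout : ∀ v, ¬ (inner N₁ (ξ v.1) ∧ inner N₂ (η v.2)) → (σ v).2.2 = none := by
      intro v h
      have hwv := hw v
      rcases hσ : σ v with ⟨i, j, oc⟩
      have hi : i = ξ v.1 := by rw [← hx' v, hσ]
      have hj : j = η v.2 := by rw [← hy' v, hσ]
      subst hi
      subst hj
      rw [hσ] at hwv
      cases oc with
      | none => rfl
      | some c =>
        simp only [wt] at hwv
        rw [dif_neg h] at hwv
        exact absurd rfl hwv
    -- contents are constant on blocks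
    have hblock : ∀ u : Site L, (ξ u.1 : ℕ) = 2 → (η u.2 : ℕ) = 2 → ∀ k l : ℕ, k < N₁ → l < N₂ →
        (σ (u.1 + k, u.2 + l)).2.2 = (σ u).2.2 := by
      intro u hu1 hu2 k l hk hl
      have hk' : ∀ k, k < N₁ → (ξ (u.1 + (k : ℕ)) : ℕ) = 2 + k := by
        intro k hk
        have := hξ.fwd u.1 k (by rw [hu1]; omega)
        rw [this, hu1]
      have hl' : ∀ l, l < N₂ → (η (u.2 + (l : ℕ)) : ℕ) = 2 + l := by
        intro l hl
        have := hη.fwd u.2 l (by rw [hu2]; omega)
        rw [this, hu2]
      have hki : ∀ k, k < N₁ → inner N₁ (ξ (u.1 + (k : ℕ))) := by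
        intro k hk
        unfold inner
        rw [hk' k hk]
        omega
      have hli : ∀ l, l < N₂ → inner N₂ (η (u.2 + (l : ℕ))) := by
        intro l hl
        unfold inner
        rw [hl' l hl]
        omega
      -- move horizontally
      have hhor : ∀ k, k < N₁ → ∀ l, l < N₂ →
          (σ (u.1 + k, u.2 + l)).2.2 = (σ (u.1, u.2 + l)).2.2 := by
        intro k
        induction k with
        | zero => intro _ l _; simp
        | succ k ih =>
          intro hk l hl
          have h1 := (hH (u.1 + ((k + 1 : ℕ) : ZMod L), u.2 + l)).2.2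
          have h2 : ((u.1 + ((k + 1 : ℕ) : ZMod L), u.2 + (l : ZMod L)) - (1, 0) : Site L)
              = (u.1 + (k : ZMod L), u.2 + (l : ZMod L)) := by
            ext
            · push_cast; simp; ring
            · simp
          rw [h2] at h1
          have h3 := h1 (by rw [hx']; exact hki k (by omega)) (by rw [hx']; exact hki (k + 1) hk)
            (by rw [hy']; exact hli l hl)
          rw [← h3]
          exact ih (by omega) l hl
      have hver : ∀ l, l < N₂ → (σ (u.1, u.2 + l)).2.2 = (σ u).2.2 := by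
        intro l
        induction l with
        | zero => intro _; simp
        | succ l ih =>
          intro hl
          have h1 := (hV (u.1, u.2 + ((l + 1 : ℕ) : ZMod L))).2.2
          have h2 : ((u.1, u.2 + ((l + 1 : ℕ) : ZMod L)) - (0, 1) : Site L)
              = (u.1, u.2 + (l : ZMod L)) := by
            ext
            · simp
            · push_cast; simp; ring
          rw [h2] at h1
          have hu0 : inner N₁ (ξ u.1) := by
            unfold inner; rw [hu1]; omega
          have h3 := h1 (by rw [hy']; exact hli l (by omega)) (by rw [hy']; exact hli (l + 1) hl)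
            (by rw [hx']; exact hu0)
          rw [← h3]
          exact ih (by omega)
      rw [hhor k hk l hl, hver l hl]
    funext v
    by_cases h : inner N₁ (ξ v.1) ∧ inner N₂ (η v.2)
    · have h1 : hidOf s (ξ, η) v = (ξ v.1, η v.2, some (content ξ η s v)) := by
        simp [hidOf, h]
      rw [h1]
      obtain ⟨c, hc, _⟩ := hin v h
      have h2 : (σ v).2.2 = some (content ξ η s v) := by
        rw [hc]
        congr 1
        -- the corner
        set u : Site L := (v.1 - off L (ξ v.1), v.2 - off L (η v.2)) with hu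
        have hu1 : (ξ u.1 : ℕ) = 2 := by
          have := hξ.back v.1 ((ξ v.1 : ℕ) - 2) (by omega)
          rw [hu]
          unfold off
          rw [this]
          have := h.1.1
          omega
        have hu2 : (η u.2 : ℕ) = 2 := by
          have := hη.back v.2 ((η v.2 : ℕ) - 2) (by omega)
          rw [hu]
          unfold off
          rw [this]
          have := h.2.1
          omega
        have hcu : (σ u).2.2 = some c := by
          rw [← hc]
          have h3 := hblock u hu1 hu2 ((ξ v.1 : ℕ) - 2) ((η v.2 : ℕ) - 2)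
            (by have := h.1.2; have := h.1.1; omega) (by have := h.2.2; have := h.2.1; omega)
          rw [← h3]
          congr 3
          ext
          · simp [hu, off]
          · simp [hu, off]
        funext p
        have hp := hblock u hu1 hu2 p.1 p.2 p.1.isLt p.2.isLt
        rw [hcu] at hp
        have hk' : (ξ (u.1 + ((p.1 : ℕ) : ZMod L)) : ℕ) = 2 + p.1 := by
          have := hξ.fwd u.1 p.1 (by rw [hu1]; omega)
          rw [this, hu1]
        have hl' : (η (u.2 + ((p.2 : ℕ) : ZMod L)) : ℕ) = 2 + p.2 := by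
          have := hη.fwd u.2 p.2 (by rw [hu2]; omega)
          rw [this, hu2]
        have hinn : inner N₁ (ξ (u.1 + ((p.1 : ℕ) : ZMod L))) ∧
            inner N₂ (η (u.2 + ((p.2 : ℕ) : ZMod L))) := by
          unfold inner
          rw [hk', hl']
          omega
        obtain ⟨c', hc', hs⟩ := hin (u.1 + ((p.1 : ℕ) : ZMod L), u.2 + ((p.2 : ℕ) : ZMod L)) hinn
        rw [hp] at hc'
        have hcc : c = c' := by simpa using hc'
        unfold content
        change c p = s (u.1 + ((p.1 : ℕ) : ZMod L), u.2 + ((p.2 : ℕ) : ZMod L))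
        rw [hs, ← hcc]
        congr 1
        unfold dn
        ext
        · simp only; rw [hk']; omega
        · simp only; rw [hl']; omega
      ext
      · rw [hx']
      · rw [hy']
      · rw [h2]
    · have h1 : hidOf s (ξ, η) v = (ξ v.1, η v.2, none) := by
        simp [hidOf, h]
      rw [h1]
      have h2 := hout v h
      ext
      · rw [hx']
      · rw [hy']
      · rw [h2]

open Classical in
/-- The vertex model evaluates to the coherent superposition of all grids. -/
theorem sum_hid_eq (s : Site L → Fin d) :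
    (∑ σ : Site L → Hid N₁ N₂ d, ∏ v : Site L,
      if Hcon (σ (v - (1, 0))) (σ v) ∧ Vcon (σ (v - (0, 1))) (σ v)
        then wt χ zr on (s v) (σ v) else 0) =
    ∑ q ∈ (Finset.univ : Finset ((ZMod L → Fin (N₁ + 3)) × (ZMod L → Fin (N₂ + 3)))).filter
      (fun q => IsWalk q.1 ∧ IsWalk q.2), gridVec χ zr on q.1 q.2 s := by
  symm
  apply Finset.sum_of_injOn (hidOf s)
  · rintro ⟨ξ, η⟩ _ ⟨ξ', η'⟩ _ h
    ext x
    · have := congrFun h (x, 0)
      have := congrArg Prod.fst this
      simpa [hidOf] using congrArg Fin.val this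
    · have := congrFun h (0, x)
      have := congrArg (fun z => z.2.1) this
      simpa [hidOf] using congrArg Fin.val this
  · intro q _
    simp
  · intro σ _ hσ
    by_contra hne
    apply hσ
    have hne' := Finset.prod_ne_zero_iff.1 hne
    have h1 : ∀ v, Hcon (σ (v - (1, 0))) (σ v) ∧ Vcon (σ (v - (0, 1))) (σ v) := by
      intro v
      by_contra hcon
      have := hne' v (Finset.mem_univ _)
      rw [if_neg hcon] at this
      exact this rfl
    have h2 : ∀ v, wt χ zr on (s v) (σ v) ≠ 0 := by
      intro v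
      have := hne' v (Finset.mem_univ _)
      rwa [if_pos (h1 v)] at this
    obtain ⟨ξ, η, hξ, hη, hh⟩ := eq_hidOf χ zr on s σ (fun v => (h1 v).1) (fun v => (h1 v).2) h2
    refine ⟨(ξ, η), ?_, hh.symm⟩
    simp [hξ, hη]
  · rintro ⟨ξ, η⟩ hq
    simp only [Finset.mem_filter, Finset.mem_univ, true_and] at hq
    unfold gridVec
    refine Finset.prod_congr rfl (fun v _ => ?_)
    rw [if_pos ⟨hcon_hidOf s hq.1 v, vcon_hidOf s hq.2 v⟩, wt_hidOf]

end grid

end Pool.Agent.Hhelper96.PEPS
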