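import Pool.Agent.Hhelper96.PEPS.Ptrace
import Pool.Agent.Hhelper96.PEPS.TraceNorm
import Pool.Agent.Hhelper96.PEPS.Vertex

/-!
The coherent superposition of all grid states: orthogonality of different grids after tracing out a
small region, translation invariance of the weights, and marginals inside a block.
-/

set_option autoImplicit false
set_option linter.unusedSectionVars false

open scoped BigOperators ComplexOrder
open Matrix

namespace Pool.Agent.Hhelper96.PEPS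

section outer

variable {S T : Type} [Fintype S] [DecidableEq S] [Fintype T] [DecidableEq T] {d : ℕ}

/-- unnormalised density matrix -/
def outer (Φ : (S → Fin d) → ℂ) : Matrix (S → Fin d) (S → Fin d) ℂ := fun s s' => Φ s * star (Φ s')

/-- squared norm -/
noncomputable def nsq (Φ : (S → Fin d) → ℂ) : ℝ := ∑ s, ‖Φ s‖ ^ 2

theorem nsq_nonneg (Φ : (S → Fin d) → ℂ) : 0 ≤ nsq Φ := by unfold nsq; positivity

theorem mul_star_self (z : ℂ) : z * star z = ((‖z‖ ^ 2 : ℝ) : ℂ) := by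
  have h := Complex.normSq_eq_conj_mul_self (z := z)
  rw [Complex.normSq_eq_norm_sq] at h
  rw [h, mul_comm]
  rfl

theorem trace_outer (Φ : (S → Fin d) → ℂ) : (outer Φ).trace = ((nsq Φ : ℝ) : ℂ) := by
  unfold Matrix.trace nsq
  rw [Complex.ofReal_sum]
  refine Finset.sum_congr rfl (fun s _ => ?_)
  rw [Matrix.diag_apply]
  exact mul_star_self (Φ s)

theorem posSemidef_outer (Φ : (S → Fin d) → ℂ) : (outer Φ).PosSemidef := by
  have : outer Φ = Matrix.vecMulVec Φ (star Φ) := rfl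
  rw [this]
  exact Matrix.posSemidef_vecMulVec_self_star Φ

theorem density_eq (Φ : (S → Fin d) → ℂ) : density Φ = ((nsq Φ : ℝ) : ℂ)⁻¹ • outer Φ := by
  ext s s'
  simp only [density, outer, nsq, Matrix.smul_apply, smul_eq_mul]
  rw [div_eq_inv_mul]

open Classical in
theorem ptrace_smul (ι : T → S) (c : ℂ) (M : Matrix (S → Fin d) (S → Fin d) ℂ) :
    ptrace ι (c • M) = c • ptrace ι M := by
  ext a b
  simp only [ptrace, Matrix.smul_apply, smul_eq_mul, Finset.mul_sum]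
  refine Finset.sum_congr rfl (fun s _ => Finset.sum_congr rfl (fun s' _ => ?_))
  split_ifs <;> simp

/-- partial trace preserves positivity -/
theorem posSemidef_ptrace (ι : T → S) (hι : Function.Injective ι) (Φ : (S → Fin d) → ℂ) :
    (ptrace ι (outer Φ)).PosSemidef := by
  have h : ptrace ι (outer Φ) = ∑ t : {u // ¬ u ∈ Set.range ι} → Fin d,
      Matrix.vecMulVec (fun a => Φ (glue ι a t)) (star (fun a => Φ (glue ι a t))) := by
    ext a b
    rw [ptrace_eq_glue ι hι, Matrix.sum_apply]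
    rfl
  rw [h]
  exact Matrix.posSemidef_sum _ (fun t _ => Matrix.posSemidef_vecMulVec_self_star _)

theorem trace_ptrace (ι : T → S) (hι : Function.Injective ι)
    (M : Matrix (S → Fin d) (S → Fin d) ℂ) : (ptrace ι M).trace = M.trace := by
  unfold Matrix.trace
  simp only [Matrix.diag_apply]
  rw [← Equiv.sum_comp (glueEquiv ι hι), Fintype.sum_prod_type]
  refine Finset.sum_congr rfl (fun a _ => ?_)
  rw [ptrace_eq_glue ι hι]
  rfl

end outer

section orth

variable {N₁ N₂ d : ℕ} (χ : (Fin N₁ × Fin N₂ → Fin d) → ℂ) (zr on : Fin d)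
variable {L : ℕ} [NeZero L] {T : Type} [Fintype T] [DecidableEq T]

theorem exists_line_x (N : ℕ) {η : ZMod L → Fin (N + 3)} (hη : IsWalk η) (ι : T → Site L)
    (hT : (N + 3) * Fintype.card T < L) (x : ZMod L) :
    ∃ y, (η y : ℕ) = 1 ∧ ∀ t, ι t ≠ (x, y) := by
  classical
  by_contra hcon
  push Not at hcon
  have h1 : cnt η 1 ≤ Fintype.card T := by
    unfold cnt
    have : (Finset.univ.filter (fun y => η y = 1)) ⊆ Finset.univ.image (fun t => (ι t).2) := by
      intro y hy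
      simp only [Finset.mem_filter, Finset.mem_univ, true_and] at hy
      obtain ⟨t, ht⟩ := hcon y (by rw [hy]; simp)
      simp only [Finset.mem_image, Finset.mem_univ, true_and]
      exact ⟨t, by rw [ht]⟩
    exact (Finset.card_le_card this).trans Finset.card_image_le
  have h2 : cnt η 0 ≤ cnt η 1 := hη.cnt_ge 1 (by simp)
  have h3 := hη.le_cnt_zero
  have h4 : (N + 3) * cnt η 0 ≤ (N + 3) * Fintype.card T := Nat.mul_le_mul_left _ (h2.trans h1)
  omega

theorem exists_line_y (N : ℕ) {ξ : ZMod L → Fin (N + 3)} (hξ : IsWalk ξ) (ι : T → Site L)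
    (hT : (N + 3) * Fintype.card T < L) (y : ZMod L) :
    ∃ x, (ξ x : ℕ) = 1 ∧ ∀ t, ι t ≠ (x, y) := by
  obtain ⟨x, h1, h2⟩ := exists_line_x N hξ (fun t => ((ι t).2, (ι t).1)) hT y
  refine ⟨x, h1, fun t ht => h2 t ?_⟩
  rw [ht]

theorem locFactor_ne_zero {ξ : ZMod L → Fin (N₁ + 3)} {η : ZMod L → Fin (N₂ + 3)}
    {s : Site L → Fin d} (h : gridVec χ zr on ξ η s ≠ 0) (v : Site L)
    (hv : ¬ (inner N₁ (ξ v.1) ∧ inner N₂ (η v.2))) : s v = marker zr on (ξ v.1) (η v.2) := by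
  have h1 := Finset.prod_ne_zero_iff.1 h v (Finset.mem_univ _)
  unfold locFactor at h1
  rw [if_neg hv] at h1
  by_contra hne
  rw [if_neg hne] at h1
  exact h1 rfl

theorem zero_imp_zero_x (hzo : zr ≠ on) {ξ ξ' : ZMod L → Fin (N₁ + 3)}
    {η η' : ZMod L → Fin (N₂ + 3)} (hη : IsWalk η) (ι : T → Site L)
    (hT : (N₂ + 3) * Fintype.card T < L) {s s' : Site L → Fin d}
    (hss : ∀ u, (∀ t, ι t ≠ u) → s u = s' u)
    (h : gridVec χ zr on ξ η s ≠ 0) (h' : gridVec χ zr on ξ' η' s' ≠ 0) (x : ZMod L)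
    (hx : (ξ' x : ℕ) = 0) : (ξ x : ℕ) = 0 := by
  by_contra hne
  obtain ⟨y, hy, hyt⟩ := exists_line_x N₂ hη ι hT x
  have h1 := locFactor_ne_zero χ zr on h (x, y) (by
    rintro ⟨-, h2⟩
    have := h2.1
    simp only at this
    omega)
  have h2 := locFactor_ne_zero χ zr on h' (x, y) (by
    rintro ⟨h2, -⟩
    have := h2.1
    simp only at this
    omega)
  have h3 := hss (x, y) hyt
  rw [h1, h2] at h3
  unfold marker at h3
  simp only at h3
  rw [if_neg (by omega), if_pos (by omega)] at h3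
  exact hzo h3

theorem zero_imp_zero_y (hzo : zr ≠ on) {ξ ξ' : ZMod L → Fin (N₁ + 3)}
    {η η' : ZMod L → Fin (N₂ + 3)} (hξ : IsWalk ξ) (ι : T → Site L)
    (hT : (N₁ + 3) * Fintype.card T < L) {s s' : Site L → Fin d}
    (hss : ∀ u, (∀ t, ι t ≠ u) → s u = s' u)
    (h : gridVec χ zr on ξ η s ≠ 0) (h' : gridVec χ zr on ξ' η' s' ≠ 0) (y : ZMod L)
    (hy : (η' y : ℕ) = 0) : (η y : ℕ) = 0 := by
  by_contra hne
  obtain ⟨x, hx, hxt⟩ := exists_line_y N₁ hξ ι hT y
  have h1 := locFactor_ne_zero χ zr on h (x, y) (by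
    rintro ⟨h2, -⟩
    have := h2.1
    simp only at this
    omega)
  have h2 := locFactor_ne_zero χ zr on h' (x, y) (by
    rintro ⟨-, h2⟩
    have := h2.1
    simp only at this
    omega)
  have h3 := hss (x, y) hxt
  rw [h1, h2] at h3
  unfold marker at h3
  simp only at h3
  rw [if_neg (by omega), if_pos (by omega)] at h3
  exact hzo h3

/-- different grids stay orthogonal after a small region is cut out -/
theorem grid_orth (hzo : zr ≠ on) {ξ ξ' : ZMod L → Fin (N₁ + 3)}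
    {η η' : ZMod L → Fin (N₂ + 3)} (hξ : IsWalk ξ) (hη : IsWalk η) (hξ' : IsWalk ξ')
    (hη' : IsWalk η') (ι : T → Site L)
    (hT1 : (N₁ + 3) * Fintype.card T < L) (hT2 : (N₂ + 3) * Fintype.card T < L)
    {s s' : Site L → Fin d} (hss : ∀ u, (∀ t, ι t ≠ u) → s u = s' u)
    (h : gridVec χ zr on ξ η s ≠ 0) (h' : gridVec χ zr on ξ' η' s' ≠ 0) : ξ = ξ' ∧ η = η' := by
  have hss' : ∀ u, (∀ t, ι t ≠ u) → s' u = s u := fun u hu => (hss u hu).symm
  constructor
  · apply hξ.ext_of_zero hξ'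
    intro x
    exact ⟨fun hx => zero_imp_zero_x χ zr on hzo hη' ι hT2 hss' h' h x hx,
      fun hx => zero_imp_zero_x χ zr on hzo hη ι hT2 hss h h' x hx⟩
  · apply hη.ext_of_zero hη'
    intro y
    exact ⟨fun hy => zero_imp_zero_y χ zr on hzo hξ' ι hT1 hss' h' h y hy,
      fun hy => zero_imp_zero_y χ zr on hzo hξ ι hT1 hss h h' y hy⟩

/-- the set of grids -/
noncomputable def grids (N₁ N₂ L : ℕ) [NeZero L] :
    Finset ((ZMod L → Fin (N₁ + 3)) × (ZMod L → Fin (N₂ + 3))) :=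
  Finset.univ.filter (fun q => IsWalk q.1 ∧ IsWalk q.2)

/-- the coherent superposition of all grid states -/
noncomputable def superVec (s : Site L → Fin d) : ℂ :=
  ∑ q ∈ grids N₁ N₂ L, gridVec χ zr on q.1 q.2 s

open Classical in
theorem ptrace_outer_superVec (hzo : zr ≠ on) (ι : T → Site L)
    (hT1 : (N₁ + 3) * Fintype.card T < L) (hT2 : (N₂ + 3) * Fintype.card T < L) :
    ptrace ι (outer (superVec (L := L) χ zr on)) =
      ∑ q ∈ grids N₁ N₂ L, ptrace ι (outer (fun s => gridVec χ zr on q.1 q.2 s)) := by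
  ext a b
  rw [Matrix.sum_apply]
  simp only [ptrace]
  rw [Finset.sum_comm]
  rw [Finset.sum_comm (s := grids N₁ N₂ L)]
  rw [Finset.sum_comm]
  refine Finset.sum_congr rfl (fun s _ => ?_)
  rw [Finset.sum_comm (s := grids N₁ N₂ L)]
  refine Finset.sum_congr rfl (fun s' _ => ?_)
  by_cases h : s ∘ ι = a ∧ s' ∘ ι = b ∧ ∀ u, (∀ t, ι t ≠ u) → s u = s' u
  · rw [if_pos h]
    simp only [if_pos h]
    unfold outer superVec
    rw [star_sum, Finset.sum_mul]
    refine Finset.sum_congr rfl (fun q hq => ?_)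
    rw [Finset.mul_sum, Finset.sum_eq_single q]
    · intro q' hq' hne
      by_contra hcon
      have h1 : gridVec χ zr on q.1 q.2 s ≠ 0 := left_ne_zero_of_mul hcon
      have h2 : gridVec χ zr on q'.1 q'.2 s' ≠ 0 := by
        have := right_ne_zero_of_mul hcon
        exact fun h0 => this (by rw [h0]; simp)
      simp only [grids, Finset.mem_filter, Finset.mem_univ, true_and] at hq hq'
      obtain ⟨h3, h4⟩ := grid_orth χ zr on hzo hq.1 hq.2 hq'.1 hq'.2 ι hT1 hT2 h.2.2 h1 h2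
      exact hne (Prod.ext h3.symm h4.symm)
    · intro h0; exact absurd hq h0
  · rw [if_neg h]
    simp only [if_neg h, Finset.sum_const_zero]

/-- weight of a grid -/
noncomputable def wgt (L : ℕ) [NeZero L]
    (q : (ZMod L → Fin (N₁ + 3)) × (ZMod L → Fin (N₂ + 3))) : ℝ :=
  nsq (fun s : Site L → Fin d => gridVec χ zr on q.1 q.2 s)

theorem nsq_superVec (hzo : zr ≠ on) (hL : 0 < L) :
    nsq (superVec (L := L) χ zr on) = ∑ q ∈ grids N₁ N₂ L, wgt χ zr on L q := by
  have h := ptrace_outer_superVec (L := L) (T := Empty) χ zr on hzo (fun t => t.elim)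
    (by simpa using hL) (by simpa using hL)
  have hinj : Function.Injective (fun t : Empty => (t.elim : Site L)) := fun t => t.elim
  have h1 := congrArg Matrix.trace h
  rw [trace_ptrace _ hinj, trace_outer, Matrix.trace_sum] at h1
  have h2 : ∀ q ∈ grids N₁ N₂ L, (ptrace (fun t : Empty => (t.elim : Site L))
      (outer (fun s => gridVec χ zr on q.1 q.2 s))).trace = ((wgt χ zr on L q : ℝ) : ℂ) := by
    intro q _
    rw [trace_ptrace _ hinj, trace_outer]
    rfl
  rw [Finset.sum_congr rfl h2, ← Complex.ofReal_sum] at h1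
  exact Complex.ofReal_injective h1

end orth

section shift

variable {N₁ N₂ d : ℕ} (χ : (Fin N₁ × Fin N₂ → Fin d) → ℂ) (zr on : Fin d)
variable {L : ℕ} [NeZero L]

theorem gridVec_shift (ξ : ZMod L → Fin (N₁ + 3)) (η : ZMod L → Fin (N₂ + 3)) (t : Site L)
    (s : Site L → Fin d) :
    gridVec χ zr on (fun x => ξ (x + t.1)) (fun y => η (y + t.2)) s =
      gridVec χ zr on ξ η (fun v => s (v - t)) := by
  unfold gridVec
  rw [← Equiv.prod_comp (Equiv.subRight t)]
  refine Finset.prod_congr rfl (fun v _ => ?_)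
  unfold locFactor
  simp only [Equiv.subRight_apply, Prod.fst_sub, Prod.snd_sub, sub_add_cancel]
  have : (fun p : Fin N₁ × Fin N₂ => s (v.1 - t.1 + ((p.1 : ℕ) : ZMod L), v.2 - t.2 + ((p.2 : ℕ) : ZMod L)))
      = (fun p : Fin N₁ × Fin N₂ => s ((v.1 + ((p.1 : ℕ) : ZMod L), v.2 + ((p.2 : ℕ) : ZMod L)) - t)) := by
    funext p
    congr 1
    ext
    · simp; ring
    · simp; ring
  rw [this]

theorem wgt_shift (ξ : ZMod L → Fin (N₁ + 3)) (η : ZMod L → Fin (N₂ + 3)) (t : Site L) :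
    wgt χ zr on L (fun x => ξ (x + t.1), fun y => η (y + t.2)) = wgt χ zr on L (ξ, η) := by
  unfold wgt nsq
  simp only [gridVec_shift]
  rw [← Equiv.sum_comp (Equiv.arrowCongr (Equiv.subRight t) (Equiv.refl (Fin d)))]
  refine Finset.sum_congr rfl (fun s _ => ?_)
  congr 2
  congr 1
  funext v
  simp [Equiv.arrowCongr]

/-- total weight of the grids for which the letter above position `x₀` is not in `G`. -/
theorem sum_bad_x (G : Finset (Fin (N₁ + 3))) (x₀ : ZMod L) :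
    ((N₁ : ℝ) + 2) * ∑ q ∈ (grids N₁ N₂ L).filter (fun q => q.1 x₀ ∉ G), wgt χ zr on L q ≤
      ((N₁ + 3 - G.card : ℕ) : ℝ) * ∑ q ∈ grids N₁ N₂ L, wgt χ zr on L q := by
  classical
  set W : ℝ := ∑ q ∈ (grids N₁ N₂ L).filter (fun q => q.1 x₀ ∉ G), wgt χ zr on L q with hW
  have hLpos : (0 : ℝ) < L := by
    have := Nat.pos_of_ne_zero (NeZero.ne L)
    exact_mod_cast this
  -- all positions are equivalent
  have h1 : ∀ x : ZMod L, ∑ q ∈ (grids N₁ N₂ L).filter (fun q => q.1 x ∉ G), wgt χ zr on L q = W := by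
    intro x
    rw [hW]
    apply Finset.sum_nbij'
      (fun q : (ZMod L → Fin (N₁ + 3)) × (ZMod L → Fin (N₂ + 3)) =>
        (((fun z => q.1 (z + (x - x₀))), (fun y => q.2 (y + 0))) :
          (ZMod L → Fin (N₁ + 3)) × (ZMod L → Fin (N₂ + 3))))
      (fun q : (ZMod L → Fin (N₁ + 3)) × (ZMod L → Fin (N₂ + 3)) =>
        (((fun z => q.1 (z + (x₀ - x))), (fun y => q.2 (y + 0))) :
          (ZMod L → Fin (N₁ + 3)) × (ZMod L → Fin (N₂ + 3))))
    · rintro ⟨ξ, η⟩ hq
      simp only [grids, Finset.mem_filter, Finset.mem_univ, true_and] at hq ⊢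
      refine ⟨⟨hq.1.1.shift _, hq.1.2.shift _⟩, ?_⟩
      rw [add_sub_cancel]
      exact hq.2
    · rintro ⟨ξ, η⟩ hq
      simp only [grids, Finset.mem_filter, Finset.mem_univ, true_and] at hq ⊢
      refine ⟨⟨hq.1.1.shift _, hq.1.2.shift _⟩, ?_⟩
      rw [add_sub_cancel]
      exact hq.2
    · rintro ⟨ξ, η⟩ _
      refine Prod.ext ?_ ?_
      · funext z; simp only; congr 1; ring
      · funext z; simp
    · rintro ⟨ξ, η⟩ _
      refine Prod.ext ?_ ?_
      · funext z; simp only; congr 1; ring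
      · funext z; simp
    · rintro ⟨ξ, η⟩ _
      exact (wgt_shift χ zr on ξ η (x - x₀, 0)).symm
  have h2 : (L : ℝ) * W = ∑ q ∈ grids N₁ N₂ L,
      wgt χ zr on L q * ((Finset.univ.filter (fun x => q.1 x ∉ G)).card : ℝ) := by
    calc (L : ℝ) * W = ∑ _x : ZMod L, W := by simp [ZMod.card]
      _ = ∑ x : ZMod L, ∑ q ∈ (grids N₁ N₂ L).filter (fun q => q.1 x ∉ G), wgt χ zr on L q :=
        Finset.sum_congr rfl (fun x _ => (h1 x).symm)
      _ = ∑ x : ZMod L, ∑ q ∈ grids N₁ N₂ L, if q.1 x ∉ G then wgt χ zr on L q else 0 := by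
        refine Finset.sum_congr rfl (fun x _ => ?_)
        rw [Finset.sum_filter]
      _ = ∑ q ∈ grids N₁ N₂ L, ∑ x : ZMod L, if q.1 x ∉ G then wgt χ zr on L q else 0 :=
        Finset.sum_comm
      _ = _ := by
        refine Finset.sum_congr rfl (fun q _ => ?_)
        rw [← Finset.sum_filter, Finset.sum_const, nsmul_eq_mul, mul_comm]
  have h3 : ((N₁ : ℝ) + 2) * ((L : ℝ) * W) ≤
      (L : ℝ) * (((N₁ + 3 - G.card : ℕ) : ℝ) * ∑ q ∈ grids N₁ N₂ L, wgt χ zr on L q) := by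
    rw [h2, Finset.mul_sum, Finset.mul_sum, Finset.mul_sum]
    refine Finset.sum_le_sum (fun q hq => ?_)
    simp only [grids, Finset.mem_filter, Finset.mem_univ, true_and] at hq
    have h4 := hq.1.card_bad_le G
    have h5 : ((N₁ : ℝ) + 2) * ((Finset.univ.filter (fun x => q.1 x ∉ G)).card : ℝ) ≤
        ((N₁ + 3 - G.card : ℕ) : ℝ) * L := by exact_mod_cast h4
    have h6 : 0 ≤ wgt χ zr on L q := nsq_nonneg _
    calc ((N₁ : ℝ) + 2) * (wgt χ zr on L q * ((Finset.univ.filter (fun x => q.1 x ∉ G)).card : ℝ))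
        = wgt χ zr on L q * (((N₁ : ℝ) + 2) * ((Finset.univ.filter (fun x => q.1 x ∉ G)).card : ℝ)) := by ring
      _ ≤ wgt χ zr on L q * (((N₁ + 3 - G.card : ℕ) : ℝ) * L) := mul_le_mul_of_nonneg_left h5 h6
      _ = _ := by ring
  have h7 : (L : ℝ) * (((N₁ : ℝ) + 2) * W) ≤
      (L : ℝ) * (((N₁ + 3 - G.card : ℕ) : ℝ) * ∑ q ∈ grids N₁ N₂ L, wgt χ zr on L q) := by
    calc _ = ((N₁ : ℝ) + 2) * ((L : ℝ) * W) := by ring
      _ ≤ _ := h3
  exact le_of_mul_le_mul_left h7 hLpos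

theorem sum_bad_y (G : Finset (Fin (N₂ + 3))) (y₀ : ZMod L) :
    ((N₂ : ℝ) + 2) * ∑ q ∈ (grids N₁ N₂ L).filter (fun q => q.2 y₀ ∉ G), wgt χ zr on L q ≤
      ((N₂ + 3 - G.card : ℕ) : ℝ) * ∑ q ∈ grids N₁ N₂ L, wgt χ zr on L q := by
  classical
  set W : ℝ := ∑ q ∈ (grids N₁ N₂ L).filter (fun q => q.2 y₀ ∉ G), wgt χ zr on L q with hW
  have hLpos : (0 : ℝ) < L := by
    have := Nat.pos_of_ne_zero (NeZero.ne L)
    exact_mod_cast this
  have h1 : ∀ y : ZMod L, ∑ q ∈ (grids N₁ N₂ L).filter (fun q => q.2 y ∉ G), wgt χ zr on L q = W := by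
    intro x
    rw [hW]
    apply Finset.sum_nbij'
      (fun q : (ZMod L → Fin (N₁ + 3)) × (ZMod L → Fin (N₂ + 3)) =>
        (((fun z => q.1 (z + 0)), (fun z => q.2 (z + (x - y₀)))) :
          (ZMod L → Fin (N₁ + 3)) × (ZMod L → Fin (N₂ + 3))))
      (fun q : (ZMod L → Fin (N₁ + 3)) × (ZMod L → Fin (N₂ + 3)) =>
        (((fun z => q.1 (z + 0)), (fun z => q.2 (z + (y₀ - x)))) :
          (ZMod L → Fin (N₁ + 3)) × (ZMod L → Fin (N₂ + 3))))
    · rintro ⟨ξ, η⟩ hq
      simp only [grids, Finset.mem_filter, Finset.mem_univ, true_and] at hq ⊢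
      refine ⟨⟨hq.1.1.shift _, hq.1.2.shift _⟩, ?_⟩
      rw [add_sub_cancel]
      exact hq.2
    · rintro ⟨ξ, η⟩ hq
      simp only [grids, Finset.mem_filter, Finset.mem_univ, true_and] at hq ⊢
      refine ⟨⟨hq.1.1.shift _, hq.1.2.shift _⟩, ?_⟩
      rw [add_sub_cancel]
      exact hq.2
    · rintro ⟨ξ, η⟩ _
      refine Prod.ext ?_ ?_
      · funext z; simp
      · funext z; simp only; congr 1; ring
    · rintro ⟨ξ, η⟩ _
      refine Prod.ext ?_ ?_
      · funext z; simp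
      · funext z; simp only; congr 1; ring
    · rintro ⟨ξ, η⟩ _
      exact (wgt_shift χ zr on ξ η (0, x - y₀)).symm
  have h2 : (L : ℝ) * W = ∑ q ∈ grids N₁ N₂ L,
      wgt χ zr on L q * ((Finset.univ.filter (fun x => q.2 x ∉ G)).card : ℝ) := by
    calc (L : ℝ) * W = ∑ _x : ZMod L, W := by simp [ZMod.card]
      _ = ∑ x : ZMod L, ∑ q ∈ (grids N₁ N₂ L).filter (fun q => q.2 x ∉ G), wgt χ zr on L q :=
        Finset.sum_congr rfl (fun x _ => (h1 x).symm)
      _ = ∑ x : ZMod L, ∑ q ∈ grids N₁ N₂ L, if q.2 x ∉ G then wgt χ zr on L q else 0 := by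
        refine Finset.sum_congr rfl (fun x _ => ?_)
        rw [Finset.sum_filter]
      _ = ∑ q ∈ grids N₁ N₂ L, ∑ x : ZMod L, if q.2 x ∉ G then wgt χ zr on L q else 0 :=
        Finset.sum_comm
      _ = _ := by
        refine Finset.sum_congr rfl (fun q _ => ?_)
        rw [← Finset.sum_filter, Finset.sum_const, nsmul_eq_mul, mul_comm]
  have h3 : ((N₂ : ℝ) + 2) * ((L : ℝ) * W) ≤
      (L : ℝ) * (((N₂ + 3 - G.card : ℕ) : ℝ) * ∑ q ∈ grids N₁ N₂ L, wgt χ zr on L q) := by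
    rw [h2, Finset.mul_sum, Finset.mul_sum, Finset.mul_sum]
    refine Finset.sum_le_sum (fun q hq => ?_)
    simp only [grids, Finset.mem_filter, Finset.mem_univ, true_and] at hq
    have h4 := hq.2.card_bad_le G
    have h5 : ((N₂ : ℝ) + 2) * ((Finset.univ.filter (fun x => q.2 x ∉ G)).card : ℝ) ≤
        ((N₂ + 3 - G.card : ℕ) : ℝ) * L := by exact_mod_cast h4
    have h6 : 0 ≤ wgt χ zr on L q := nsq_nonneg _
    calc ((N₂ : ℝ) + 2) * (wgt χ zr on L q * ((Finset.univ.filter (fun x => q.2 x ∉ G)).card : ℝ))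
        = wgt χ zr on L q * (((N₂ : ℝ) + 2) * ((Finset.univ.filter (fun x => q.2 x ∉ G)).card : ℝ)) := by ring
      _ ≤ wgt χ zr on L q * (((N₂ + 3 - G.card : ℕ) : ℝ) * L) := mul_le_mul_of_nonneg_left h5 h6
      _ = _ := by ring
  have h7 : (L : ℝ) * (((N₂ : ℝ) + 2) * W) ≤
      (L : ℝ) * (((N₂ + 3 - G.card : ℕ) : ℝ) * ∑ q ∈ grids N₁ N₂ L, wgt χ zr on L q) := by
    calc _ = ((N₂ : ℝ) + 2) * ((L : ℝ) * W) := by ring
      _ ≤ _ := h3
  exact le_of_mul_le_mul_left h7 hLpos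

end shift

end Pool.Agent.Hhelper96.PEPS
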