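import Pool.Agent.Hhelper96.PEPS.Average

/-!
Marginals of a grid state inside one block, positivity of the weights, and the averaging estimate.
-/

set_option autoImplicit false
set_option linter.unusedSectionVars false

open scoped BigOperators ComplexOrder
open Matrix

namespace Pool.Agent.Hhelper96.PEPS

variable {N₁ N₂ d : ℕ} (χ : (Fin N₁ × Fin N₂ → Fin d) → ℂ) (zr on : Fin d)
variable {L : ℕ} [NeZero L]

/-- the block with corner `u` -/
def blk (N₁ N₂ : ℕ) (u : Site L) (p : Fin N₁ × Fin N₂) : Site L :=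
  (u.1 + ((p.1 : ℕ) : ZMod L), u.2 + ((p.2 : ℕ) : ZMod L))

theorem letter_x {ξ : ZMod L → Fin (N₁ + 3)} (hξ : IsWalk ξ) {x : ZMod L} (hx : (ξ x : ℕ) = 2)
    (k : Fin N₁) : (ξ (x + ((k : ℕ) : ZMod L)) : ℕ) = 2 + k := by
  have := hξ.fwd x k (by rw [hx]; omega)
  rw [this, hx]

theorem blk_injective {ξ : ZMod L → Fin (N₁ + 3)} {η : ZMod L → Fin (N₂ + 3)} (hξ : IsWalk ξ)
    (hη : IsWalk η) {u : Site L} (hu1 : (ξ u.1 : ℕ) = 2) (hu2 : (η u.2 : ℕ) = 2) :
    Function.Injective (blk N₁ N₂ u) := by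
  intro p q h
  have h1 : u.1 + ((p.1 : ℕ) : ZMod L) = u.1 + ((q.1 : ℕ) : ZMod L) := congrArg Prod.fst h
  have h2 : u.2 + ((p.2 : ℕ) : ZMod L) = u.2 + ((q.2 : ℕ) : ZMod L) := congrArg Prod.snd h
  have h3 := letter_x hξ hu1 p.1
  have h4 := letter_x hξ hu1 q.1
  have h5 := letter_x hη hu2 p.2
  have h6 := letter_x hη hu2 q.2
  rw [h1, h4] at h3
  rw [h2, h6] at h5
  ext
  · omega
  · omega

theorem locFactor_eq_of_agree {ξ : ZMod L → Fin (N₁ + 3)} {η : ZMod L → Fin (N₂ + 3)}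
    (hξ : IsWalk ξ) (hη : IsWalk η) {u : Site L} (hu1 : (ξ u.1 : ℕ) = 2) (hu2 : (η u.2 : ℕ) = 2)
    {s s' : Site L → Fin d} (hss : ∀ v, v ∉ Set.range (blk N₁ N₂ u) → s v = s' v)
    (v : Site L) (hv : v ≠ u) :
    locFactor χ zr on ξ η s v = locFactor χ zr on ξ η s' v := by
  unfold locFactor
  by_cases h : inner N₁ (ξ v.1) ∧ inner N₂ (η v.2)
  · rw [if_pos h, if_pos h]
    by_cases h2 : (ξ v.1 : ℕ) = 2 ∧ (η v.2 : ℕ) = 2
    · rw [if_pos h2, if_pos h2]
      congr 1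
      funext p
      apply hss
      rintro ⟨q, hq⟩
      apply hv
      have h3 : u.1 + ((q.1 : ℕ) : ZMod L) = v.1 + ((p.1 : ℕ) : ZMod L) := congrArg Prod.fst hq
      have h4 : u.2 + ((q.2 : ℕ) : ZMod L) = v.2 + ((p.2 : ℕ) : ZMod L) := congrArg Prod.snd hq
      have h5 := letter_x hξ hu1 q.1
      have h6 := letter_x hξ h2.1 p.1
      have h7 := letter_x hη hu2 q.2
      have h8 := letter_x hη h2.2 p.2
      rw [h3, h6] at h5
      rw [h4, h8] at h7
      have h9 : (p.1 : ℕ) = q.1 := by omega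
      have h10 : (p.2 : ℕ) = q.2 := by omega
      rw [h9] at h3
      rw [h10] at h4
      ext
      · exact (add_right_cancel h3).symm
      · exact (add_right_cancel h4).symm
    · rw [if_neg h2, if_neg h2]
  · rw [if_neg h, if_neg h]
    have : s v = s' v := by
      apply hss
      rintro ⟨q, hq⟩
      apply h
      have h5 := letter_x hξ hu1 q.1
      have h7 := letter_x hη hu2 q.2
      rw [← hq]
      unfold blk inner
      simp only
      rw [h5, h7]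
      omega
    rw [this]

/-- the marginal of a grid state on one of its blocks -/
theorem ptrace_blk {ξ : ZMod L → Fin (N₁ + 3)} {η : ZMod L → Fin (N₂ + 3)}
    (hξ : IsWalk ξ) (hη : IsWalk η) {u : Site L} (hu1 : (ξ u.1 : ℕ) = 2) (hu2 : (η u.2 : ℕ) = 2)
    (hN₁ : 1 ≤ N₁) (hN₂ : 1 ≤ N₂) (hχ : nsq χ = 1) :
    ptrace (blk N₁ N₂ u) (outer (fun s => gridVec χ zr on ξ η s)) =
      ((wgt χ zr on L (ξ, η) : ℝ) : ℂ) • outer χ := by
  classical
  set κ := blk N₁ N₂ u with hκd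
  have hκ : Function.Injective κ := blk_injective hξ hη hu1 hu2
  -- there is a block configuration
  have hne : Nonempty (Fin N₁ × Fin N₂ → Fin d) := by
    by_contra hcon
    rw [not_nonempty_iff] at hcon
    have : nsq χ = 0 := by
      unfold nsq
      exact Finset.sum_eq_zero (fun s _ => (hcon.false s).elim)
    rw [this] at hχ
    exact zero_ne_one hχ
  obtain ⟨c₀⟩ := hne
  let rest : ({v // ¬ v ∈ Set.range κ} → Fin d) → ℂ := fun t =>
    ∏ v ∈ Finset.univ.erase u, locFactor χ zr on ξ η (glue κ c₀ t) v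
  have hfac : ∀ c t, gridVec χ zr on ξ η (glue κ c t) = χ c * rest t := by
    intro c t
    unfold gridVec
    rw [← Finset.mul_prod_erase Finset.univ _ (Finset.mem_univ u)]
    congr 1
    · unfold locFactor
      have hin : inner N₁ (ξ u.1) ∧ inner N₂ (η u.2) := by
        unfold inner
        rw [hu1, hu2]
        omega
      rw [if_pos hin, if_pos ⟨hu1, hu2⟩]
      congr 1
      funext p
      exact glue_apply_mem κ hκ c t p
    · refine Finset.prod_congr rfl (fun v hv => ?_)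
      apply locFactor_eq_of_agree χ zr on hξ hη hu1 hu2 _ v (Finset.ne_of_mem_erase hv)
      intro w hw
      rw [glue_apply_not_mem κ c t w hw, glue_apply_not_mem κ c₀ t w hw]
  have h1 : ptrace κ (outer (fun s => gridVec χ zr on ξ η s)) =
      ((∑ t, ‖rest t‖ ^ 2 : ℝ) : ℂ) • outer χ := by
    ext a b
    rw [ptrace_eq_glue κ hκ, Matrix.smul_apply, smul_eq_mul, Complex.ofReal_sum, Finset.sum_mul]
    refine Finset.sum_congr rfl (fun t _ => ?_)
    unfold outer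
    simp only
    rw [hfac a t, hfac b t, ← mul_star_self, star_mul]
    ring
  have h2 : wgt χ zr on L (ξ, η) = ∑ t, ‖rest t‖ ^ 2 := by
    have h3 := congrArg Matrix.trace h1
    rw [trace_ptrace κ hκ, trace_outer, Matrix.trace_smul, trace_outer, hχ] at h3
    simp only [Complex.ofReal_one, smul_eq_mul, mul_one] at h3
    exact Complex.ofReal_injective h3
  rw [h1, h2]

/-- every grid has positive weight -/
theorem wgt_pos {ξ : ZMod L → Fin (N₁ + 3)} {η : ZMod L → Fin (N₂ + 3)}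
    (hξ : IsWalk ξ) (hη : IsWalk η) (hχ : nsq χ = 1) : 0 < wgt χ zr on L (ξ, η) := by
  classical
  obtain ⟨c, hc⟩ : ∃ c, χ c ≠ 0 := by
    by_contra hcon
    push Not at hcon
    have : nsq χ = 0 := by
      unfold nsq
      exact Finset.sum_eq_zero (fun s _ => by rw [hcon s]; simp)
    rw [this] at hχ
    exact zero_ne_one hχ
  let s : Site L → Fin d := fun v =>
    if h : inner N₁ (ξ v.1) ∧ inner N₂ (η v.2) then c (dn N₁ (ξ v.1) h.1, dn N₂ (η v.2) h.2)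
    else marker zr on (ξ v.1) (η v.2)
  have hs : gridVec χ zr on ξ η s ≠ 0 := by
    unfold gridVec
    rw [Finset.prod_ne_zero_iff]
    intro v _
    unfold locFactor
    by_cases h : inner N₁ (ξ v.1) ∧ inner N₂ (η v.2)
    · rw [if_pos h]
      by_cases h2 : (ξ v.1 : ℕ) = 2 ∧ (η v.2 : ℕ) = 2
      · rw [if_pos h2]
        have : (fun p : Fin N₁ × Fin N₂ => s (v.1 + ((p.1 : ℕ) : ZMod L),
            v.2 + ((p.2 : ℕ) : ZMod L))) = c := by
          funext p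
          have h3 := letter_x hξ h2.1 p.1
          have h4 := letter_x hη h2.2 p.2
          have hin : inner N₁ (ξ (v.1 + ((p.1 : ℕ) : ZMod L))) ∧
              inner N₂ (η (v.2 + ((p.2 : ℕ) : ZMod L))) := by
            unfold inner
            rw [h3, h4]
            omega
          simp only [s]
          rw [dif_pos hin]
          congr 1
          ext
          · simp only [dn]; rw [h3]; omega
          · simp only [dn]; rw [h4]; omega
        rw [this]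
        exact hc
      · rw [if_neg h2]
        exact one_ne_zero
    · rw [if_neg h]
      have : s v = marker zr on (ξ v.1) (η v.2) := by
        simp only [s]
        rw [dif_neg h]
      rw [if_pos this]
      exact one_ne_zero
  unfold wgt nsq
  apply Finset.sum_pos'
  · intro _ _; positivity
  · exact ⟨s, Finset.mem_univ _, by positivity⟩

theorem sum_wgt_pos (hχ : nsq χ = 1) (h1 : (N₁ + 2) ^ 2 ≤ L) (h2 : (N₂ + 2) ^ 2 ≤ L) :
    0 < ∑ q ∈ grids N₁ N₂ L, wgt χ zr on L q := by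
  obtain ⟨ξ, hξ⟩ := exists_walk N₁ L h1
  obtain ⟨η, hη⟩ := exists_walk N₂ L h2
  apply Finset.sum_pos'
  · intro _ _; exact nsq_nonneg _
  · refine ⟨(ξ, η), ?_, wgt_pos χ zr on hξ hη hχ⟩
    simp [grids, hξ, hη]

/-- the averaging estimate -/
theorem traceNorm_super_le {T : Type} [Fintype T] [DecidableEq T] (hzo : zr ≠ on)
    (hχ : nsq χ = 1) (h1 : (N₁ + 2) ^ 2 ≤ L) (h2 : (N₂ + 2) ^ 2 ≤ L) (ι : T → Site L)
    (hι : Function.Injective ι)
    (hT1 : (N₁ + 3) * Fintype.card T < L) (hT2 : (N₂ + 3) * Fintype.card T < L)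
    (ρ : Matrix (T → Fin d) (T → Fin d) ℂ) (hρ : ρ.PosSemidef) (hρ1 : ρ.trace = 1)
    (G₁ : Finset (Fin (N₁ + 3))) (G₂ : Finset (Fin (N₂ + 3))) (x₀ y₀ : ZMod L)
    (hgood : ∀ (ξ : ZMod L → Fin (N₁ + 3)) (η : ZMod L → Fin (N₂ + 3)), IsWalk ξ → IsWalk η →
      ξ x₀ ∈ G₁ → η y₀ ∈ G₂ → ptrace ι (outer (fun s => gridVec χ zr on ξ η s)) =
        ((wgt χ zr on L (ξ, η) : ℝ) : ℂ) • ρ) :
    superVec (L := L) χ zr on ≠ 0 ∧
    traceNorm (ptrace ι (density (superVec (L := L) χ zr on)) - ρ) ≤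
      2 * (((N₁ + 3 - G₁.card : ℕ) : ℝ) / ((N₁ : ℝ) + 2) +
        ((N₂ + 3 - G₂.card : ℕ) : ℝ) / ((N₂ : ℝ) + 2)) := by
  classical
  have hL : 0 < L := Nat.pos_of_ne_zero (NeZero.ne L)
  obtain ⟨W, hW⟩ : ∃ W : ℝ, W = ∑ q ∈ grids N₁ N₂ L, wgt χ zr on L q := ⟨_, rfl⟩
  have hWpos : 0 < W := by
    rw [hW]; exact sum_wgt_pos χ zr on hχ h1 h2
  have hnsq : nsq (superVec (L := L) χ zr on) = W := by
    rw [hW]; exact nsq_superVec χ zr on hzo hL
  have hne : superVec (L := L) χ zr on ≠ 0 := by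
    intro h0
    rw [h0] at hnsq
    have : nsq (0 : (Site L → Fin d) → ℂ) = 0 := by simp [nsq]
    rw [this] at hnsq
    exact hWpos.ne hnsq
  refine ⟨hne, ?_⟩
  obtain ⟨B, hB⟩ : ∃ B, B = (grids N₁ N₂ L).filter (fun q => ¬ (q.1 x₀ ∈ G₁ ∧ q.2 y₀ ∈ G₂)) :=
    ⟨_, rfl⟩
  obtain ⟨M, hM⟩ : ∃ M : ((ZMod L → Fin (N₁ + 3)) × (ZMod L → Fin (N₂ + 3))) →
      Matrix (T → Fin d) (T → Fin d) ℂ,
      ∀ q, M q = ptrace ι (outer (fun s => gridVec χ zr on q.1 q.2 s)) := ⟨_, fun _ => rfl⟩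
  have hsum : ptrace ι (outer (superVec (L := L) χ zr on)) - ((W : ℝ) : ℂ) • ρ =
      ∑ q ∈ B, M q - ∑ q ∈ B, ((wgt χ zr on L q : ℝ) : ℂ) • ρ := by
    rw [ptrace_outer_superVec χ zr on hzo ι hT1 hT2, hW, Complex.ofReal_sum, Finset.sum_smul,
      ← Finset.sum_sub_distrib, ← Finset.sum_sub_distrib, hB, Finset.sum_filter]
    refine Finset.sum_congr rfl (fun q hq => ?_)
    simp only [grids, Finset.mem_filter, Finset.mem_univ, true_and] at hq
    by_cases hg : q.1 x₀ ∈ G₁ ∧ q.2 y₀ ∈ G₂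
    · rw [if_neg (by simpa using hg), hgood q.1 q.2 hq.1 hq.2 hg.1 hg.2]
      exact sub_self _
    · rw [if_pos hg, hM]
  have hWc : ((W : ℝ) : ℂ) ≠ 0 := by exact_mod_cast hWpos.ne'
  have hred : ptrace ι (density (superVec (L := L) χ zr on)) - ρ =
      ((W : ℝ) : ℂ)⁻¹ • (∑ q ∈ B, M q) - ((W : ℝ) : ℂ)⁻¹ • (∑ q ∈ B, ((wgt χ zr on L q : ℝ) : ℂ) • ρ) := by
    rw [← smul_sub, ← hsum, smul_sub, density_eq, hnsq, ptrace_smul, smul_smul,
      inv_mul_cancel₀ hWc, one_smul]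
  have hcinv : ((W : ℝ) : ℂ)⁻¹ = ((W⁻¹ : ℝ) : ℂ) := by push_cast; rfl
  have hinv0 : (0 : ℂ) ≤ ((W : ℝ) : ℂ)⁻¹ := by
    rw [hcinv, Complex.zero_le_real]
    exact inv_nonneg.2 hWpos.le
  have hP : (((W : ℝ) : ℂ)⁻¹ • (∑ q ∈ B, M q)).PosSemidef := by
    refine (Matrix.posSemidef_sum _ (fun q _ => ?_)).smul hinv0
    rw [hM]
    exact posSemidef_ptrace ι hι _
  have hQ : (((W : ℝ) : ℂ)⁻¹ • (∑ q ∈ B, ((wgt χ zr on L q : ℝ) : ℂ) • ρ)).PosSemidef := by
    refine (Matrix.posSemidef_sum _ (fun q _ => hρ.smul ?_)).smul hinv0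
    rw [Complex.zero_le_real]
    exact nsq_nonneg _
  have htP : (((W : ℝ) : ℂ)⁻¹ • (∑ q ∈ B, M q)).trace.re = W⁻¹ * ∑ q ∈ B, wgt χ zr on L q := by
    rw [Matrix.trace_smul, Matrix.trace_sum]
    have : ∀ q ∈ B, (M q).trace = ((wgt χ zr on L q : ℝ) : ℂ) := by
      intro q _
      rw [hM, trace_ptrace ι hι, trace_outer, wgt]
    rw [Finset.sum_congr rfl this, ← Complex.ofReal_sum, hcinv, smul_eq_mul, ← Complex.ofReal_mul,
      Complex.ofReal_re]
  have htQ : (((W : ℝ) : ℂ)⁻¹ • (∑ q ∈ B, ((wgt χ zr on L q : ℝ) : ℂ) • ρ)).trace.re =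
      W⁻¹ * ∑ q ∈ B, wgt χ zr on L q := by
    rw [Matrix.trace_smul, Matrix.trace_sum]
    have : ∀ q ∈ B, (((wgt χ zr on L q : ℝ) : ℂ) • ρ).trace = ((wgt χ zr on L q : ℝ) : ℂ) := by
      intro q _
      rw [Matrix.trace_smul, hρ1, smul_eq_mul, mul_one]
    rw [Finset.sum_congr rfl this, ← Complex.ofReal_sum, hcinv, smul_eq_mul, ← Complex.ofReal_mul,
      Complex.ofReal_re]
  have hbad : ∑ q ∈ B, wgt χ zr on L q ≤
      (((N₁ + 3 - G₁.card : ℕ) : ℝ) / ((N₁ : ℝ) + 2) +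
        ((N₂ + 3 - G₂.card : ℕ) : ℝ) / ((N₂ : ℝ) + 2)) * W := by
    have hb1 := sum_bad_x (N₂ := N₂) χ zr on G₁ x₀
    have hb2 := sum_bad_y (N₁ := N₁) χ zr on G₂ y₀
    rw [← hW] at hb1 hb2
    have hc : ∑ q ∈ B, wgt χ zr on L q ≤
        ∑ q ∈ (grids N₁ N₂ L).filter (fun q => q.1 x₀ ∉ G₁), wgt χ zr on L q +
        ∑ q ∈ (grids N₁ N₂ L).filter (fun q => q.2 y₀ ∉ G₂), wgt χ zr on L q := by
      rw [hB, Finset.sum_filter, Finset.sum_filter, Finset.sum_filter, ← Finset.sum_add_distrib]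
      refine Finset.sum_le_sum (fun q _ => ?_)
      have h0 : 0 ≤ wgt χ zr on L q := nsq_nonneg _
      by_cases hx : q.1 x₀ ∈ G₁
      · by_cases hy : q.2 y₀ ∈ G₂
        · simp [hx, hy]
        · simp [hx, hy]
      · by_cases hy : q.2 y₀ ∈ G₂
        · simp [hx, hy]
        · simp [hx, hy, h0]
    have hn1 : (0 : ℝ) < (N₁ : ℝ) + 2 := by positivity
    have hn2 : (0 : ℝ) < (N₂ : ℝ) + 2 := by positivity
    have e1 : ∑ q ∈ (grids N₁ N₂ L).filter (fun q => q.1 x₀ ∉ G₁), wgt χ zr on L q ≤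
        ((N₁ + 3 - G₁.card : ℕ) : ℝ) / ((N₁ : ℝ) + 2) * W := by
      rw [div_mul_eq_mul_div, le_div_iff₀ hn1, mul_comm]
      exact hb1
    have e2 : ∑ q ∈ (grids N₁ N₂ L).filter (fun q => q.2 y₀ ∉ G₂), wgt χ zr on L q ≤
        ((N₂ + 3 - G₂.card : ℕ) : ℝ) / ((N₂ : ℝ) + 2) * W := by
      rw [div_mul_eq_mul_div, le_div_iff₀ hn2, mul_comm]
      exact hb2
    rw [add_mul]
    linarith
  rw [hred]
  refine (traceNorm_sub_le' _ _).trans ?_
  have t1 := traceNorm_posSemidef_le hP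
  have t2 := traceNorm_posSemidef_le hQ
  rw [htP] at t1
  rw [htQ] at t2
  have hfin : W⁻¹ * ∑ q ∈ B, wgt χ zr on L q ≤
      (((N₁ + 3 - G₁.card : ℕ) : ℝ) / ((N₁ : ℝ) + 2) +
        ((N₂ + 3 - G₂.card : ℕ) : ℝ) / ((N₂ : ℝ) + 2)) := by
    rw [inv_mul_le_iff₀ hWpos, mul_comm]
    exact hbad
  linarith

end Pool.Agent.Hhelper96.PEPS
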