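import Mathlib

/-!
The explicit bond dimension, and real coordinates of Hermitian matrices.
-/

set_option autoImplicit false

namespace Pool.Agent.Hhelper96.PEPS

/-- side of the boxes used for accuracy `ε` on a region contained in an `r × r` box -/
noncomputable def boxSide (r : ℕ) (ε : ℝ) : ℕ := r + ⌈(4 * r + 5) / ε⌉₊ + 1

/-- bond dimension sufficient for accuracy `ε` on a region contained in an `r × r` box -/
noncomputable def bondBound (d r : ℕ) (ε : ℝ) : ℕ :=
  (2 * boxSide r ε + 3) * (boxSide r ε + 3) * (d ^ (2 * boxSide r ε ^ 2) + 1)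

/-- The Hermitian matrix with real coordinates `X`: every Hermitian matrix is `hermOf X` for exactly
one real matrix `X`. -/
noncomputable def hermOf {m : Type} (X : m → m → ℝ) : Matrix m m ℂ :=
  fun i j => ((X i j + X j i : ℝ) : ℂ) + ((X i j - X j i : ℝ) : ℂ) * Complex.I

end Pool.Agent.Hhelper96.PEPS
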