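import Pool.Agent.Hhelper96.PEPS.Block

/-!
The block state built from the marginal of a translation invariant state on an `m × m` box, and the
resulting PEPS.
-/

set_option autoImplicit false
set_option linter.unusedSectionVars false

open scoped BigOperators ComplexOrder
open Matrix

namespace Pool.Agent.Hhelper96.PEPS

section factor

variable {n : Type} [Fintype n] [DecidableEq n]

/-- a positive semidefinite matrix is `X Xᴴ` with `X` symmetric -/
theorem exists_symm_factor {ω : Matrix n n ℂ} (hω : ω.PosSemidef) :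
    ∃ X : Matrix n n ℂ, Xᵀ = X ∧ X * Xᴴ = ω := by
  set H := hω.isHermitian
  set U : Matrix n n ℂ := (H.eigenvectorUnitary : Matrix n n ℂ) with hU
  have hUU' : Uᴴ * U = 1 := by
    rw [← Matrix.star_eq_conjTranspose]
    exact Unitary.coe_star_mul_self H.eigenvectorUnitary
  have hPd : ω = U * diagonal (fun i => ((H.eigenvalues i : ℝ) : ℂ)) * Uᴴ := by
    have h := H.spectral_theorem
    rw [Unitary.conjStarAlgAut_apply] at h
    exact h
  set Dg : Matrix n n ℂ := diagonal (fun i => ((√(H.eigenvalues i) : ℝ) : ℂ)) with hD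
  have hDH : Dgᴴ = Dg := by
    rw [hD, Matrix.diagonal_conjTranspose]
    congr 1
    funext i
    simp
  have hDD : Dg * Dg = diagonal (fun i => ((H.eigenvalues i : ℝ) : ℂ)) := by
    rw [hD, Matrix.diagonal_mul_diagonal]
    congr 1
    funext i
    rw [← Complex.ofReal_mul, Real.mul_self_sqrt (hω.eigenvalues_nonneg i)]
  refine ⟨U * Dg * Uᵀ, ?_, ?_⟩
  · rw [Matrix.transpose_mul, Matrix.transpose_mul, Matrix.transpose_transpose, hD,
      Matrix.diagonal_transpose, Matrix.mul_assoc]
  · have h1 : Uᵀ * (Uᵀ)ᴴ = 1 := by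
      have : Uᵀ * (Uᵀ)ᴴ = (Uᴴ * U)ᵀ := by
        rw [Matrix.transpose_mul]
        rfl
      rw [this, hUU', Matrix.transpose_one]
    rw [Matrix.conjTranspose_mul, Matrix.conjTranspose_mul, hDH]
    calc U * Dg * Uᵀ * ((Uᵀ)ᴴ * (Dg * Uᴴ)) = U * Dg * (Uᵀ * (Uᵀ)ᴴ) * Dg * Uᴴ := by noncomm_ring
      _ = U * (Dg * Dg) * Uᴴ := by rw [h1]; noncomm_ring
      _ = ω := by rw [hDD, ← hPd]

end factor

section compl

variable {S T T' : Type} [Fintype S] [DecidableEq S] [Fintype T] [DecidableEq T]
  [Fintype T'] [DecidableEq T'] {d : ℕ}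

theorem split_bijective (l : T → S) (l' : T' → S) (hb : Function.Bijective (Sum.elim l l')) :
    Function.Bijective (fun c : S → Fin d => (c ∘ l, c ∘ l')) := by
  constructor
  · intro c c' h
    have h1 : c ∘ l = c' ∘ l := congrArg Prod.fst h
    have h2 : c ∘ l' = c' ∘ l' := congrArg Prod.snd h
    funext u
    obtain ⟨t, ht⟩ := hb.2 u
    cases t with
    | inl t =>
      simp only [Sum.elim_inl] at ht
      rw [← ht]
      exact congrFun h1 t
    | inr t =>
      simp only [Sum.elim_inr] at ht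
      rw [← ht]
      exact congrFun h2 t
  · rintro ⟨a, e⟩
    refine ⟨fun u => Sum.elim a e ((Equiv.ofBijective _ hb).symm u), ?_⟩
    ext t
    · have : (Equiv.ofBijective _ hb).symm (l t) = Sum.inl t := by
        rw [Equiv.symm_apply_eq]; rfl
      simp [this]
    · have : (Equiv.ofBijective _ hb).symm (l' t) = Sum.inr t := by
        rw [Equiv.symm_apply_eq]; rfl
      simp [this]

open Classical in
theorem ptrace_of_compl (l : T → S) (l' : T' → S) (hb : Function.Bijective (Sum.elim l l'))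
    (f : (T → Fin d) → (T' → Fin d) → ℂ) (a b : T → Fin d) :
    ptrace l (outer (fun c => f (c ∘ l) (c ∘ l'))) a b = ∑ e, f a e * star (f b e) := by
  set E := Equiv.ofBijective _ (split_bijective (d := d) l l' hb) with hE
  have e1 : ptrace l (outer (fun c => f (c ∘ l) (c ∘ l'))) a b =
      ∑ p : (T → Fin d) × (T' → Fin d), ∑ q : (T → Fin d) × (T' → Fin d),
        if p.1 = a ∧ q.1 = b ∧ p.2 = q.2 then f p.1 p.2 * star (f q.1 q.2) else 0 := by
    unfold ptrace outer
    rw [← Equiv.sum_comp E]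
    refine Finset.sum_congr rfl (fun c _ => ?_)
    rw [← Equiv.sum_comp E]
    refine Finset.sum_congr rfl (fun c' _ => ?_)
    have h3 : (∀ u, (∀ t, l t ≠ u) → c u = c' u) ↔ c ∘ l' = c' ∘ l' := by
      constructor
      · intro h
        funext t
        apply h
        intro t' ht'
        have : Sum.elim l l' (Sum.inl t') = Sum.elim l l' (Sum.inr t) := ht'
        have := hb.1 this
        cases this
      · intro h u hu
        obtain ⟨t, ht⟩ := hb.2 u
        cases t with
        | inl t => exact absurd ht (hu t)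
        | inr t =>
          simp only [Sum.elim_inr] at ht
          rw [← ht]
          exact congrFun h t
    have h4 : (c ∘ l = a ∧ c' ∘ l = b ∧ (∀ u, (∀ t, l t ≠ u) → c u = c' u)) ↔
        ((E c).1 = a ∧ (E c').1 = b ∧ (E c).2 = (E c').2) := by
      rw [h3]; rfl
    by_cases h : (E c).1 = a ∧ (E c').1 = b ∧ (E c).2 = (E c').2
    · rw [if_pos h, if_pos (h4.2 h)]; rfl
    · rw [if_neg h, if_neg (fun h' => h (h4.1 h'))]
  rw [e1, Fintype.sum_prod_type]
  rw [Finset.sum_eq_single a]
  · refine Finset.sum_congr rfl (fun t _ => ?_)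
    rw [Fintype.sum_prod_type, Finset.sum_eq_single b, Finset.sum_eq_single t]
    · simp
    · intro t' _ ht'
      rw [if_neg (fun h => ht' h.2.2.symm)]
    · intro h; exact absurd (Finset.mem_univ _) h
    · intro b' _ hb'
      apply Finset.sum_eq_zero
      intro t' _
      rw [if_neg (fun h => hb' h.2.1)]
    · intro h; exact absurd (Finset.mem_univ _) h
  · intro a' _ ha'
    apply Finset.sum_eq_zero
    intro t _
    apply Finset.sum_eq_zero
    intro q _
    rw [if_neg (fun h => ha' h.1)]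
  · intro h; exact absurd (Finset.mem_univ _) h

end compl

section cell

variable {m d : ℕ}

/-- left cell -/
def lam0 (m : ℕ) (p : Fin m × Fin m) : Fin (2 * m) × Fin m := (⟨p.1, by omega⟩, p.2)

/-- right cell -/
def lam1 (m : ℕ) (p : Fin m × Fin m) : Fin (2 * m) × Fin m := (⟨m + p.1, by omega⟩, p.2)

theorem lam0_injective : Function.Injective (lam0 m) := by
  intro p q h
  unfold lam0 at h
  simp only [Prod.mk.injEq, Fin.mk.injEq] at h
  exact Prod.ext (Fin.ext h.1) h.2

theorem lam1_injective : Function.Injective (lam1 m) := by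
  intro p q h
  unfold lam1 at h
  simp only [Prod.mk.injEq, Fin.mk.injEq] at h
  exact Prod.ext (Fin.ext (by omega)) h.2

theorem lam_disj (p q : Fin m × Fin m) : lam0 m p ≠ lam1 m q := by
  intro h
  unfold lam0 lam1 at h
  simp only [Prod.mk.injEq, Fin.mk.injEq] at h
  omega

theorem lam_surj (u : Fin (2 * m) × Fin m) : (∃ p, lam0 m p = u) ∨ (∃ p, lam1 m p = u) := by
  by_cases h : (u.1 : ℕ) < m
  · left
    exact ⟨(⟨u.1, h⟩, u.2), by simp [lam0]⟩
  · right
    refine ⟨(⟨(u.1 : ℕ) - m, by omega⟩, u.2), ?_⟩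
    unfold lam1
    ext
    · simp only; omega
    · simp

theorem lam_bij : Function.Bijective (Sum.elim (lam0 m) (lam1 m)) := by
  constructor
  · rintro (p | p) (q | q) h
    · simp only [Sum.elim_inl] at h; rw [lam0_injective h]
    · simp only [Sum.elim_inl, Sum.elim_inr] at h; exact absurd h (lam_disj p q)
    · simp only [Sum.elim_inl, Sum.elim_inr] at h; exact absurd h.symm (lam_disj q p)
    · simp only [Sum.elim_inr] at h; rw [lam1_injective h]
  · intro u
    rcases lam_surj u with ⟨p, hp⟩ | ⟨p, hp⟩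
    · exact ⟨Sum.inl p, hp⟩
    · exact ⟨Sum.inr p, hp⟩

theorem lam_bij' : Function.Bijective (Sum.elim (lam1 m) (lam0 m)) := by
  constructor
  · rintro (p | p) (q | q) h
    · simp only [Sum.elim_inl] at h; rw [lam1_injective h]
    · simp only [Sum.elim_inl, Sum.elim_inr] at h; exact absurd h.symm (lam_disj q p)
    · simp only [Sum.elim_inl, Sum.elim_inr] at h; exact absurd h (lam_disj p q)
    · simp only [Sum.elim_inr] at h; rw [lam0_injective h]
  · intro u
    rcases lam_surj u with ⟨p, hp⟩ | ⟨p, hp⟩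
    · exact ⟨Sum.inr p, hp⟩
    · exact ⟨Sum.inl p, hp⟩

/-- the block state -/
def cellVec (X : Matrix (Fin m × Fin m → Fin d) (Fin m × Fin m → Fin d) ℂ)
    (c : Fin (2 * m) × Fin m → Fin d) : ℂ := X (c ∘ lam0 m) (c ∘ lam1 m)

theorem ptrace_lam0 (X : Matrix (Fin m × Fin m → Fin d) (Fin m × Fin m → Fin d) ℂ) :
    ptrace (lam0 m) (outer (cellVec X)) = X * Xᴴ := by
  ext a b
  have := ptrace_of_compl (lam0 m) (lam1 m) lam_bij (fun x y => X x y) a b
  unfold cellVec
  rw [this, Matrix.mul_apply]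
  rfl

theorem ptrace_lam1 (X : Matrix (Fin m × Fin m → Fin d) (Fin m × Fin m → Fin d) ℂ) (hX : Xᵀ = X) :
    ptrace (lam1 m) (outer (cellVec X)) = X * Xᴴ := by
  ext a b
  have := ptrace_of_compl (lam1 m) (lam0 m) lam_bij' (fun x y => X y x) a b
  unfold cellVec
  rw [this, Matrix.mul_apply]
  have h : ∀ x y, X x y = X y x := fun x y => by
    conv_lhs => rw [← hX]
    rfl
  refine Finset.sum_congr rfl (fun e _ => ?_)
  rw [Matrix.conjTranspose_apply, h e a, h e b]

theorem nsq_cellVec (X : Matrix (Fin m × Fin m → Fin d) (Fin m × Fin m → Fin d) ℂ)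
    (h1 : (X * Xᴴ).trace = 1) : nsq (cellVec X) = 1 := by
  have h2 := congrArg Matrix.trace (ptrace_lam0 X)
  rw [trace_ptrace _ lam0_injective, trace_outer, h1] at h2
  exact_mod_cast h2

/-- good letters, horizontally -/
def good1 (m r : ℕ) : Finset (Fin (2 * m + 3)) :=
  Finset.univ.filter (fun i => 2 ≤ (i : ℕ) ∧
    ((i : ℕ) - 2 + r ≤ m ∨ (m ≤ (i : ℕ) - 2 ∧ (i : ℕ) - 2 + r ≤ 2 * m)))

/-- good letters, vertically -/
def good2 (m r : ℕ) : Finset (Fin (m + 3)) :=
  Finset.univ.filter (fun i => 2 ≤ (i : ℕ) ∧ (i : ℕ) - 2 + r ≤ m)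

theorem card_good1 (m r : ℕ) (hr : 1 ≤ r) (hrm : r ≤ m) : 2 * m + 3 - (good1 m r).card ≤ 2 * r + 1 := by
  have h : 2 * (m - r + 1) ≤ (good1 m r).card := by
    calc 2 * (m - r + 1) = (Finset.range (2 * (m - r + 1))).card := by simp
      _ ≤ (good1 m r).card := by
        apply Finset.card_le_card_of_injOn
          (fun t => if h : t < 2 * (m - r + 1) then
            (if h' : t < m - r + 1 then (⟨t + 2, by omega⟩ : Fin (2 * m + 3))
              else ⟨m + (t - (m - r + 1)) + 2, by omega⟩) else 0)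
        · intro t ht
          simp only [Finset.coe_range, Set.mem_Iio] at ht
          simp only [good1, Finset.coe_filter, Finset.mem_univ, true_and, Set.mem_ofPred_eq]
          rw [dif_pos ht]
          split_ifs with h'
          · simp only; omega
          · simp only; omega
        · intro t ht t' ht' h
          simp only [Finset.coe_range, Set.mem_Iio] at ht ht'
          simp only [dif_pos ht, dif_pos ht'] at h
          split_ifs at h with h1 h2 h2
          · simp only [Fin.mk.injEq] at h; omega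
          · simp only [Fin.mk.injEq] at h; omega
          · simp only [Fin.mk.injEq] at h; omega
          · simp only [Fin.mk.injEq] at h; omega
  omega

theorem card_good2 (m r : ℕ) (hrm : r ≤ m) : m + 3 - (good2 m r).card ≤ r + 2 := by
  have h : m - r + 1 ≤ (good2 m r).card := by
    calc m - r + 1 = (Finset.range (m - r + 1)).card := by simp
      _ ≤ (good2 m r).card := by
        apply Finset.card_le_card_of_injOn
          (fun t => if h : t < m - r + 1 then (⟨t + 2, by omega⟩ : Fin (m + 3)) else 0)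
        · intro t ht
          simp only [Finset.coe_range, Set.mem_Iio] at ht
          simp only [good2, Finset.coe_filter, Finset.mem_univ, true_and, Set.mem_ofPred_eq]
          rw [dif_pos ht]
          simp only; omega
        · intro t ht t' ht' h
          simp only [Finset.coe_range, Set.mem_Iio] at ht ht'
          simp only [dif_pos ht, dif_pos ht'] at h
          simp only [Fin.mk.injEq] at h; omega
  omega

end cell

section main

variable {d : ℕ}

/-- embedding of a box in a torus -/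
def boxEmb (L m : ℕ) (p : Fin m × Fin m) : Site L := (((p.1 : ℕ) : ZMod L), ((p.2 : ℕ) : ZMod L))

theorem natCast_inj_of_lt {L a b : ℕ} (ha : a < L) (hb : b < L)
    (h : ((a : ℕ) : ZMod L) = ((b : ℕ) : ZMod L)) : a = b := by
  have := (ZMod.natCast_eq_natCast_iff' a b L).1 h
  rwa [Nat.mod_eq_of_lt ha, Nat.mod_eq_of_lt hb] at this

theorem toNat_cast (L : ℕ) (x a : ℤ) (h : a ≤ x) :
    (((x - a).toNat : ℕ) : ZMod L) = (x : ZMod L) - (a : ZMod L) := by
  rw [← Int.cast_natCast, Int.toNat_of_nonneg (by omega), Int.cast_sub]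

theorem boxEmb_injective {L m : ℕ} (hm : m ≤ L) : Function.Injective (boxEmb L m) := by
  intro p q h
  have h1 : ((p.1 : ℕ) : ZMod L) = ((q.1 : ℕ) : ZMod L) := congrArg Prod.fst h
  have h2 : ((p.2 : ℕ) : ZMod L) = ((q.2 : ℕ) : ZMod L) := congrArg Prod.snd h
  ext
  · exact natCast_inj_of_lt (by omega) (by omega) h1
  · exact natCast_inj_of_lt (by omega) (by omega) h2

theorem place_injective {L r : ℕ} (hL : r ≤ L) (R : Finset (ℤ × ℤ)) (a b : ℤ)
    (hR : ∀ p ∈ R, a ≤ p.1 ∧ p.1 < a + r ∧ b ≤ p.2 ∧ p.2 < b + r) (v : Site L) :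
    Function.Injective (fun p : R => place L v p) := by
  rintro ⟨p, hp⟩ ⟨q, hq⟩ h
  have h1 : v.1 + (p.1 : ZMod L) = v.1 + (q.1 : ZMod L) := congrArg Prod.fst h
  have h2 : v.2 + (p.2 : ZMod L) = v.2 + (q.2 : ZMod L) := congrArg Prod.snd h
  have h3 := add_left_cancel h1
  have h4 := add_left_cancel h2
  have hp' := hR p hp
  have hq' := hR q hq
  have key : ∀ x y : ℤ, ∀ c : ℤ, c ≤ x → x < c + r → c ≤ y → y < c + r →
      (x : ZMod L) = (y : ZMod L) → x = y := by
    intro x y c hx1 hx2 hy1 hy2 hxy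
    rw [ZMod.intCast_eq_intCast_iff_dvd_sub] at hxy
    obtain ⟨k, hk⟩ := hxy
    have hk0 : k = 0 := by
      by_contra hne
      have hLpos : (0 : ℤ) ≤ L := by positivity
      have hLr : (r : ℤ) ≤ L := by exact_mod_cast hL
      rcases lt_or_gt_of_ne hne with h5 | h5
      · have : k ≤ -1 := by omega
        nlinarith
      · have : 1 ≤ k := by omega
        nlinarith
    rw [hk0] at hk
    omega
  apply Subtype.ext
  ext
  · exact key p.1 q.1 a hp'.1 hp'.2.1 hq'.1 hq'.2.1 h3
  · exact key p.2 q.2 b hp'.2.2.1 hp'.2.2.2 hq'.2.2.1 hq'.2.2.2 h4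

/-- the general approximation statement: any state with translation invariant `R`-marginals is
locally approximated by one translation invariant PEPS on all large tori -/
theorem core {zr on : Fin d} (hzo : zr ≠ on) (m r : ℕ) (hr : 1 ≤ r) (hrm : r ≤ m)
    (R : Finset (ℤ × ℤ)) (a b : ℤ)
    (hR : ∀ p ∈ R, a ≤ p.1 ∧ p.1 < a + r ∧ b ≤ p.2 ∧ p.2 < b + r)
    (L₁ : ℕ) [NeZero L₁] (hm : m ≤ L₁) (ψ : (Site L₁ → Fin d) → ℂ) (hψ : ψ ≠ 0)
    (hTI : ∀ w, reduced L₁ R w ψ = reduced L₁ R 0 ψ) :
    ∃ A : Fin d → Fin (Fintype.card (Hid (2 * m) m d)) → Fin (Fintype.card (Hid (2 * m) m d)) →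
        Fin (Fintype.card (Hid (2 * m) m d)) → Fin (Fintype.card (Hid (2 * m) m d)) → ℂ,
      ∀ (L : ℕ) [NeZero L], (2 * m + 2) ^ 2 ≤ L → (2 * m + 3) * R.card < L →
        pepsVec L A ≠ 0 ∧ ∀ v, traceNorm (reduced L R v (pepsVec L A) - reduced L₁ R 0 ψ) ≤
          (4 * r + 5 : ℝ) / m := by
  classical
  -- the marginal of the box
  have hnpos : 0 < nsq ψ := by
    obtain ⟨s, hs⟩ : ∃ s, ψ s ≠ 0 := by
      by_contra hcon
      push Not at hcon
      exact hψ (funext hcon)
    unfold nsq
    apply Finset.sum_pos'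
    · intro _ _; positivity
    · exact ⟨s, Finset.mem_univ _, by positivity⟩
  have hκ := boxEmb_injective (L := L₁) (m := m) hm
  have hnc : ((nsq ψ : ℝ) : ℂ) ≠ 0 := by exact_mod_cast hnpos.ne'
  obtain ⟨ω, hω⟩ : ∃ ω, ω = ptrace (boxEmb L₁ m) (density ψ) := ⟨_, rfl⟩
  have hinv0 : (0 : ℂ) ≤ ((nsq ψ : ℝ) : ℂ)⁻¹ := by
    have : ((nsq ψ : ℝ) : ℂ)⁻¹ = (((nsq ψ)⁻¹ : ℝ) : ℂ) := by push_cast; rfl
    rw [this, Complex.zero_le_real]
    exact inv_nonneg.2 hnpos.le
  have hωP : ω.PosSemidef := by
    rw [hω, density_eq, ptrace_smul]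
    exact (posSemidef_ptrace _ hκ ψ).smul hinv0
  have hω1 : ω.trace = 1 := by
    rw [hω, density_eq, ptrace_smul, Matrix.trace_smul, trace_ptrace _ hκ, trace_outer, smul_eq_mul,
      inv_mul_cancel₀ hnc]
  obtain ⟨X, hXs, hX⟩ := exists_symm_factor hωP
  have hχ : nsq (cellVec X) = 1 := nsq_cellVec X (by rw [hX, hω1])
  -- the PEPS
  refine ⟨vertexTensor (Fintype.equivFin (Hid (2 * m) m d)) (wt (cellVec X) zr on) Hcon Vcon, ?_⟩
  intro L _ hL1 hL2
  have hvec : pepsVec L (vertexTensor (Fintype.equivFin (Hid (2 * m) m d)) (wt (cellVec X) zr on)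
      Hcon Vcon) = superVec (L := L) (cellVec X) zr on := by
    funext s
    rw [pepsVec_vertexTensor, sum_hid_eq]
    rfl
  rw [hvec]
  have hrL : r ≤ L := by nlinarith
  have hrL₁ : r ≤ L₁ := le_trans hrm hm
  have hιinj : ∀ v : Site L, Function.Injective (fun p : R => place L v p) :=
    fun v => place_injective hrL R a b hR v
  have hι₁inj : ∀ v : Site L₁, Function.Injective (fun p : R => place L₁ v p) :=
    fun v => place_injective hrL₁ R a b hR v
  have hcard : Fintype.card R = R.card := Fintype.card_coe R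
  -- the target
  have hρP : (reduced L₁ R 0 ψ).PosSemidef := by
    unfold reduced
    rw [density_eq, ptrace_smul]
    exact (posSemidef_ptrace _ (hι₁inj 0) ψ).smul hinv0
  have hρ1 : (reduced L₁ R 0 ψ).trace = 1 := by
    unfold reduced
    rw [density_eq, ptrace_smul, Matrix.trace_smul, trace_ptrace _ (hι₁inj 0), trace_outer,
      smul_eq_mul, inv_mul_cancel₀ hnc]
  -- marginals inside a block
  have hgood : ∀ v : Site L, ∀ (ξ : ZMod L → Fin (2 * m + 3)) (η : ZMod L → Fin (m + 3)),
      IsWalk ξ → IsWalk η → ξ (v.1 + (a : ZMod L)) ∈ good1 m r → η (v.2 + (b : ZMod L)) ∈ good2 m r →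
      ptrace (fun p : R => place L v p) (outer (fun s => gridVec (cellVec X) zr on ξ η s)) =
        ((wgt (cellVec X) zr on L (ξ, η) : ℝ) : ℂ) • reduced L₁ R 0 ψ := by
    intro v ξ η hξ hη hgx hgy
    simp only [good1, Finset.mem_filter, Finset.mem_univ, true_and] at hgx
    simp only [good2, Finset.mem_filter, Finset.mem_univ, true_and] at hgy
    obtain ⟨k, hk⟩ : ∃ k, (ξ (v.1 + (a : ZMod L)) : ℕ) = 2 + k :=
      ⟨(ξ (v.1 + (a : ZMod L)) : ℕ) - 2, by omega⟩
    obtain ⟨l, hl⟩ : ∃ l, (η (v.2 + (b : ZMod L)) : ℕ) = 2 + l :=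
      ⟨(η (v.2 + (b : ZMod L)) : ℕ) - 2, by omega⟩
    obtain ⟨u, hu⟩ : ∃ u : Site L, u = (v.1 + (a : ZMod L) - (k : ZMod L),
      v.2 + (b : ZMod L) - (l : ZMod L)) := ⟨_, rfl⟩
    have hu1 : (ξ u.1 : ℕ) = 2 := by
      rw [hu]
      have := hξ.back (v.1 + (a : ZMod L)) k (by omega)
      rw [this]; omega
    have hu2 : (η u.2 : ℕ) = 2 := by
      rw [hu]
      have := hη.back (v.2 + (b : ZMod L)) l (by omega)
      rw [this]; omega
    have hblk := ptrace_blk (N₁ := 2 * m) (N₂ := m) (cellVec X) zr on hξ hη hu1 hu2 (by omega)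
      (by omega) hχ
    have hbinj := blk_injective (N₁ := 2 * m) (N₂ := m) hξ hη hu1 hu2
    -- the two cells
    have hcell : ∀ (k' : ℕ) (lam : Fin m × Fin m → Fin (2 * m) × Fin m)
        (hlam : Function.Injective lam) (hpt : ptrace lam (outer (cellVec X)) = ω)
        (hk' : k' + r ≤ m) (hval : ∀ p : Fin m × Fin m, ((lam p).1 : ℕ) = (k - k') + p.1 ∧
          (lam p).2 = p.2) (hkk : k' ≤ k),
        ptrace (fun p : R => place L v p) (outer (fun s => gridVec (cellVec X) zr on ξ η s)) =
        ((wgt (cellVec X) zr on L (ξ, η) : ℝ) : ℂ) • reduced L₁ R 0 ψ := by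
      intro k' lam hlam hpt hk' hval hkk
      obtain ⟨μ, hμ⟩ : ∃ μ : R → Fin m × Fin m, ∀ p : R,
          ((μ p).1 : ℕ) = k' + (p.1.1 - a).toNat ∧ ((μ p).2 : ℕ) = l + (p.1.2 - b).toNat := by
        refine ⟨fun p => (⟨k' + (p.1.1 - a).toNat, ?_⟩, ⟨l + (p.1.2 - b).toNat, ?_⟩), ?_⟩
        · have := hR p.1 p.2; omega
        · have := hR p.1 p.2; omega
        · intro p; simp
      have hc1 : (fun p : R => place L v p) = blk (2 * m) m u ∘ (lam ∘ μ) := by
        funext p
        have hp := hR p.1 p.2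
        have h1 := hμ p
        have h2 := hval (μ p)
        unfold place blk
        simp only [Function.comp_apply]
        rw [h2.1, h2.2, h1.1, h1.2, hu]
        have e1 := toNat_cast L p.1.1 a (by omega)
        have e2 := toNat_cast L p.1.2 b (by omega)
        ext
        · simp only
          rw [show k - k' + (k' + (p.1.1 - a).toNat) = k + (p.1.1 - a).toNat by omega]
          push_cast
          rw [e1]; ring
        · simp only
          push_cast
          rw [e2]; ring
      have hc2 : ptrace μ ω = reduced L₁ R 0 ψ := by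
        rw [hω, ← ptrace_comp _ _ hκ]
        have hc3 : boxEmb L₁ m ∘ μ = fun p : R => place L₁
            (((k' : ZMod L₁) - (a : ZMod L₁)), ((l : ZMod L₁) - (b : ZMod L₁))) p := by
          funext p
          have hp := hR p.1 p.2
          have h1 := hμ p
          unfold place boxEmb
          simp only [Function.comp_apply]
          rw [h1.1, h1.2]
          have e1 := toNat_cast L₁ p.1.1 a (by omega)
          have e2 := toNat_cast L₁ p.1.2 b (by omega)
          ext
          · push_cast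
            rw [e1]; ring
          · push_cast
            rw [e2]; ring
        rw [hc3]
        exact hTI _
      rw [hc1, ptrace_comp _ _ hbinj, hblk, ptrace_smul, ptrace_comp _ _ hlam, hpt, hc2]
    rcases hgx.2 with h5 | h5
    · exact hcell k (lam0 m) lam0_injective (by rw [ptrace_lam0, hX]) (by omega)
        (fun p => by simp [lam0]) le_rfl
    · exact hcell (k - m) (lam1 m) lam1_injective (by rw [ptrace_lam1 X hXs, hX]) (by omega)
        (fun p => by simp only [lam1, and_true]; omega) (by omega)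
  have h1 : (2 * m + 2) ^ 2 ≤ L := hL1
  have h2 : (m + 2) ^ 2 ≤ L := by nlinarith
  have hT1 : (2 * m + 3) * Fintype.card R < L := by rw [hcard]; exact hL2
  have hT2 : (m + 3) * Fintype.card R < L := by rw [hcard]; nlinarith
  have hbd : 2 * (((2 * m + 3 - (good1 m r).card : ℕ) : ℝ) / (((2 * m : ℕ) : ℝ) + 2) +
        ((m + 3 - (good2 m r).card : ℕ) : ℝ) / ((m : ℝ) + 2)) ≤ (4 * r + 5 : ℝ) / m := by
    have hmpos : (0 : ℝ) < m := by
      have : 0 < m := by omega
      exact_mod_cast this
    have c1 : ((2 * m + 3 - (good1 m r).card : ℕ) : ℝ) ≤ 2 * r + 1 := by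
      exact_mod_cast card_good1 m r hr hrm
    have c2 : ((m + 3 - (good2 m r).card : ℕ) : ℝ) ≤ r + 2 := by
      exact_mod_cast card_good2 m r hrm
    have e1 : ((2 * m + 3 - (good1 m r).card : ℕ) : ℝ) / (((2 * m : ℕ) : ℝ) + 2) ≤
        (2 * r + 1) / (2 * m) := by
      push_cast
      apply div_le_div₀ (by positivity) c1 (by positivity) (by linarith)
    have e2 : ((m + 3 - (good2 m r).card : ℕ) : ℝ) / ((m : ℝ) + 2) ≤ (r + 2) / m := by
      apply div_le_div₀ (by positivity) c2 (by positivity) (by linarith)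
    calc _ ≤ 2 * ((2 * (r : ℝ) + 1) / (2 * m) + (r + 2) / m) := by linarith
      _ = (4 * r + 5 : ℝ) / m := by field_simp; ring
  constructor
  · exact (traceNorm_super_le (N₁ := 2 * m) (N₂ := m) (cellVec X) zr on hzo hχ h1 h2 _ (hιinj 0) hT1
      hT2 _ hρP hρ1 (good1 m r) (good2 m r) _ _ (hgood 0)).1
  · intro v
    refine le_trans ?_ hbd
    exact (traceNorm_super_le (N₁ := 2 * m) (N₂ := m) (cellVec X) zr on hzo hχ h1 h2 _ (hιinj v) hT1
      hT2 _ hρP hρ1 (good1 m r) (good2 m r) _ _ (hgood v)).2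

end main

end Pool.Agent.Hhelper96.PEPS
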