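import Pool.Agent.Hhelper96.PEPS.Stable

/-!
Convergent marginals give one translation invariant PEPS tensor; convergence of all Hermitian
expectation values gives convergence of the marginals.
-/

set_option autoImplicit false
set_option linter.unusedSectionVars false

open scoped BigOperators Topology ComplexOrder
open Matrix Filter

namespace Pool.Agent.Hhelper96.PEPS

theorem convergent_final (d : ℕ) (F : Finset (ℤ × ℤ)) (h : Matrix (F → Fin d) (F → Fin d) ℂ)
    (Δ : ℝ) (hΔ : 0 < Δ) (ψ : ∀ n : ℕ, (Site (n + 1) → Fin d) → ℂ)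
    (hψ : ∀ᶠ n in atTop, IsGappedGround (hamiltonian (n + 1) F h) Δ (ψ n))
    (R : Finset (ℤ × ℤ)) (r : ℕ) (hr : 1 ≤ r) (a b : ℤ)
    (hR : ∀ p ∈ R, a ≤ p.1 ∧ p.1 < a + r ∧ b ≤ p.2 ∧ p.2 < b + r)
    (ρ : Matrix (R → Fin d) (R → Fin d) ℂ)
    (hρ : Tendsto (fun n => reduced (n + 1) R 0 (ψ n)) atTop (𝓝 ρ)) (ε : ℝ) (hε : 0 < ε) :
    ∃ D ≤ bondBound d r ε, ∃ A : Fin d → Fin D → Fin D → Fin D → Fin D → ℂ,
      (∀ᶠ n in atTop, pepsVec (n + 1) A ≠ 0) ∧
      ∀ᶠ n in atTop, ∀ v : Site (n + 1),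
        traceNorm (reduced (n + 1) R v (ψ n) - reduced (n + 1) R v (pepsVec (n + 1) A)) ≤ ε := by
  have hlim : Tendsto (fun n => traceNorm (reduced (n + 1) R 0 (ψ n) - ρ)) atTop (𝓝 0) := by
    have h1 : Tendsto (fun n => ∑ i, ∑ j, ‖(reduced (n + 1) R 0 (ψ n) - ρ) i j‖) atTop (𝓝 0) := by
      have h2 : Tendsto (fun n => ∑ i, ∑ j, ‖(reduced (n + 1) R 0 (ψ n) - ρ) i j‖) atTop
          (𝓝 (∑ i : R → Fin d, ∑ j : R → Fin d, ‖(ρ - ρ) i j‖)) := by
        refine tendsto_finsetSum _ (fun i _ => tendsto_finsetSum _ (fun j _ => ?_))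
        refine Tendsto.norm ?_
        have h3 : Tendsto (fun n => (reduced (n + 1) R 0 (ψ n)) i j) atTop (𝓝 (ρ i j)) := by
          have h4 := (tendsto_pi_nhds.1 hρ) i
          exact (tendsto_pi_nhds.1 h4) j
        exact h3.sub tendsto_const_nhds
      simpa using h2
    exact squeeze_zero (fun n => traceNorm_nonneg _) (fun n => traceNorm_le_sum _) h1
  have herr := error_lt r hε
  obtain ⟨δ, hδ⟩ : ∃ δ, δ = (ε - (4 * r + 5 : ℝ) / (boxSide r ε : ℕ)) / 2 := ⟨_, rfl⟩
  have hδpos : 0 < δ := by rw [hδ]; linarith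
  have hev : ∀ᶠ n in atTop, traceNorm (reduced (n + 1) R 0 (ψ n) - ρ) < δ :=
    hlim.eventually_lt_const hδpos
  obtain ⟨n₁, hn₁, hn₂, hn₃⟩ : ∃ n₁, traceNorm (reduced (n₁ + 1) R 0 (ψ n₁) - ρ) < δ ∧
      IsGappedGround (hamiltonian (n₁ + 1) F h) Δ (ψ n₁) ∧ boxSide r ε ≤ n₁ + 1 := by
    have h3 : ∀ᶠ n in atTop, boxSide r ε ≤ n + 1 := by
      filter_upwards [eventually_ge_atTop (boxSide r ε)] with n hn
      omega
    obtain ⟨n₁, h⟩ := (hev.and (hψ.and h3)).exists
    exact ⟨n₁, h.1, h.2.1, h.2.2⟩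
  obtain ⟨D, hD, A, hA⟩ := core_uniform d r hr hε R a b hR (n₁ + 1) hn₃ (ψ n₁) hn₂.1
    (fun w => reduced_eq_of_gapped F h hΔ hn₂ R w)
  have hbig : ∀ᶠ n in atTop, (2 * boxSide r ε + 2) ^ 2 ≤ n + 1 ∧
      (2 * boxSide r ε + 3) * R.card < n + 1 := by
    filter_upwards [eventually_ge_atTop ((2 * boxSide r ε + 2) ^ 2),
      eventually_ge_atTop ((2 * boxSide r ε + 3) * R.card)] with n h1 h2
    omega
  refine ⟨D, hD, A, ?_, ?_⟩
  · filter_upwards [hbig] with n hn
    exact (hA (n + 1) hn.1 hn.2).1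
  · filter_upwards [hbig, hev, hψ] with n hn h1 h2 v
    have h3 := (hA (n + 1) hn.1 hn.2).2 v
    have h4 : reduced (n + 1) R v (ψ n) = reduced (n + 1) R 0 (ψ n) :=
      reduced_eq_of_gapped F h hΔ h2 R v
    rw [h4]
    have h5 : reduced (n + 1) R 0 (ψ n) - reduced (n + 1) R v (pepsVec (n + 1) A) =
        (reduced (n + 1) R 0 (ψ n) - ρ) +
          ((ρ - reduced (n₁ + 1) R 0 (ψ n₁)) +
            (reduced (n₁ + 1) R 0 (ψ n₁) - reduced (n + 1) R v (pepsVec (n + 1) A))) := by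
      abel
    rw [h5]
    refine (traceNorm_add_le _ _).trans ?_
    have h6 := traceNorm_add_le (ρ - reduced (n₁ + 1) R 0 (ψ n₁))
      (reduced (n₁ + 1) R 0 (ψ n₁) - reduced (n + 1) R v (pepsVec (n + 1) A))
    have h7 := traceNorm_sub_comm ρ (reduced (n₁ + 1) R 0 (ψ n₁))
    have h8 := traceNorm_sub_comm (reduced (n₁ + 1) R 0 (ψ n₁))
      (reduced (n + 1) R v (pepsVec (n + 1) A))
    linarith

section herm

variable {m : Type} [Fintype m] [DecidableEq m]

theorem enf_single_add {X : Matrix m m ℂ} (hX : X.IsHermitian) (i j : m) :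
    enf (Matrix.single i j (1 : ℂ) + Matrix.single j i 1) X = 2 * (X i j).re := by
  unfold enf
  rw [Matrix.mul_add, Matrix.trace_add, Matrix.trace_mul_comm, Matrix.trace_single_mul,
    Matrix.trace_mul_comm X, Matrix.trace_single_mul, one_smul, one_smul, Complex.add_re]
  have : X j i = star (X i j) := by
    conv_lhs => rw [← hX.eq]
    rfl
  rw [this, Complex.star_def, Complex.conj_re]
  ring

theorem enf_single_sub {X : Matrix m m ℂ} (hX : X.IsHermitian) (i j : m) :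
    enf (Complex.I • (Matrix.single i j (1 : ℂ) - Matrix.single j i 1)) X = 2 * (X i j).im := by
  unfold enf
  rw [Matrix.mul_smul, Matrix.trace_smul, Matrix.mul_sub, Matrix.trace_sub, Matrix.trace_mul_comm,
    Matrix.trace_single_mul, Matrix.trace_mul_comm X, Matrix.trace_single_mul, one_smul, one_smul]
  have : X j i = star (X i j) := by
    conv_lhs => rw [← hX.eq]
    rfl
  rw [this, Complex.star_def, smul_eq_mul, Complex.mul_re, Complex.sub_re, Complex.sub_im,
    Complex.conj_re, Complex.conj_im, Complex.I_re, Complex.I_im]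
  ring

theorem isHermitian_single_add (i j : m) :
    (Matrix.single i j (1 : ℂ) + Matrix.single j i 1).IsHermitian := by
  unfold Matrix.IsHermitian
  rw [Matrix.conjTranspose_add, Matrix.conjTranspose_single, Matrix.conjTranspose_single, star_one,
    add_comm]

theorem isHermitian_single_sub (i j : m) :
    (Complex.I • (Matrix.single i j (1 : ℂ) - Matrix.single j i 1)).IsHermitian := by
  unfold Matrix.IsHermitian
  rw [Matrix.conjTranspose_smul, Matrix.conjTranspose_sub, Matrix.conjTranspose_single,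
    Matrix.conjTranspose_single, star_one, Complex.star_def, Complex.conj_I]
  module

/-- a sequence of Hermitian matrices converges when all Hermitian expectation values do -/
theorem tendsto_of_enf {X : ℕ → Matrix m m ℂ} (hX : ∀ᶠ n in atTop, (X n).IsHermitian)
    (h : ∀ k : Matrix m m ℂ, k.IsHermitian → ∃ l, Tendsto (fun n => enf k (X n)) atTop (𝓝 l)) :
    ∃ ρ, Tendsto X atTop (𝓝 ρ) := by
  have h1 : ∀ i j, ∃ z : ℂ, Tendsto (fun n => X n i j) atTop (𝓝 z) := by
    intro i j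
    obtain ⟨x, hx⟩ := h _ (isHermitian_single_add i j)
    obtain ⟨y, hy⟩ := h _ (isHermitian_single_sub i j)
    refine ⟨((x / 2 : ℝ) : ℂ) + ((y / 2 : ℝ) : ℂ) * Complex.I, ?_⟩
    have hx' : Tendsto (fun n => (X n i j).re) atTop (𝓝 (x / 2)) := by
      refine (hx.div_const 2).congr' ?_
      filter_upwards [hX] with n hn
      rw [enf_single_add hn]
      ring
    have hy' : Tendsto (fun n => (X n i j).im) atTop (𝓝 (y / 2)) := by
      refine (hy.div_const 2).congr' ?_
      filter_upwards [hX] with n hn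
      rw [enf_single_sub hn]
      ring
    have h2 : Tendsto (fun n => (((X n i j).re : ℝ) : ℂ) + (((X n i j).im : ℝ) : ℂ) * Complex.I)
        atTop (𝓝 (((x / 2 : ℝ) : ℂ) + ((y / 2 : ℝ) : ℂ) * Complex.I)) :=
      ((Complex.continuous_ofReal.tendsto _).comp hx').add
        (((Complex.continuous_ofReal.tendsto _).comp hy').mul_const _)
    refine h2.congr (fun n => ?_)
    exact Complex.re_add_im _
  choose ρ hρ using h1
  exact ⟨ρ, tendsto_pi_nhds.2 (fun i => tendsto_pi_nhds.2 (fun j => hρ i j))⟩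

end herm

/-- Families whose gap is stable under small perturbations supported on `R` have convergent
marginals on `R`. -/
theorem stable_marginals (d : ℕ) (F : Finset (ℤ × ℤ)) (h : Matrix (F → Fin d) (F → Fin d) ℂ)
    (hh : h.IsHermitian) (Δ : ℝ) (hΔ : 0 < Δ) (ψ : ∀ n : ℕ, (Site (n + 1) → Fin d) → ℂ)
    (hψ : ∀ᶠ n in atTop, IsGappedGround (hamiltonian (n + 1) F h) Δ (ψ n))
    (R : Finset (ℤ × ℤ))
    (hstable : ∀ k : Matrix (R → Fin d) (R → Fin d) ℂ, k.IsHermitian → ∃ η > 0, ∃ Δ' > 0,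
      ∀ᶠ n in atTop, ∀ s ∈ Set.Icc (0 : ℝ) η, ∃ φ : (Site (n + 1) → Fin d) → ℂ,
        IsGappedGround (hamiltonian (n + 1) F h + (s : ℂ) • hamiltonian (n + 1) R k) Δ' φ) :
    ∃ ρ, Tendsto (fun n => reduced (n + 1) R 0 (ψ n)) atTop (𝓝 ρ) := by
  obtain ⟨r, a, b, hr, hR⟩ := exists_box R
  apply tendsto_of_enf
  · filter_upwards [hψ, eventually_ge_atTop r] with n h1 h2
    exact (posSemidef_reduced (by omega : r ≤ n + 1) R a b hR 0 h1.1).1.isHermitian
  · intro k hk
    obtain ⟨η, hη, Δ', hΔ', hst⟩ := hstable k hk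
    exact stable_converges hh hk hΔ ψ hψ hη hΔ' hst

end Pool.Agent.Hhelper96.PEPS
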