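import Pool.Agent.Hhelper96.PEPS.Trans

/-!
Local PEPS approximation of gapped ground states in two dimensions: one translation invariant PEPS
tensor works for all large tori as soon as the marginals of the ground states converge.
-/

set_option autoImplicit false

open Filter Topology
open Pool.Agent.Hhelper96.PEPS

namespace Pool.Agent.Hhelper96.PEPS.ConvergentMarginals

/-- Let `h` be a Hermitian finite-range interaction on `ℤ²` with local dimension `d`, such that for
all large `L = n + 1` the translation invariant Hamiltonian `H_L` on the `L × L` torus has the unique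
ground state `ψ n` with gap at least `Δ > 0`.  Let `R` be a region contained in an `r × r` box, and
let `l` be a filter of sizes (`l = atTop`: all large sizes; or the filter of an infinite set of
sizes) along which the reduced density matrices of the ground states on `R` converge.  Then for every
`ε > 0` there is one translation invariant PEPS tensor `A`, of bond dimension `D ≤ bondBound d r ε`,
whose PEPS vector is nonzero on all large tori, and whose reduced density matrices on all translates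
of `R` are, eventually along `l`, within `ε` in trace norm of those of the ground state. -/
theorem result (d : ℕ) (F : Finset (ℤ × ℤ)) (h : Matrix (F → Fin d) (F → Fin d) ℂ)
    (_hh : h.IsHermitian) (Δ : ℝ) (hΔ : 0 < Δ) (ψ : ∀ n : ℕ, (Site (n + 1) → Fin d) → ℂ)
    (hψ : ∀ᶠ n in atTop, IsGappedGround (hamiltonian (n + 1) F h) Δ (ψ n))
    (R : Finset (ℤ × ℤ)) (r : ℕ) (hr : 1 ≤ r) (a b : ℤ)
    (hR : ∀ p ∈ R, a ≤ p.1 ∧ p.1 < a + r ∧ b ≤ p.2 ∧ p.2 < b + r)
    (l : Filter ℕ) [l.NeBot] (hl : l ≤ atTop) (ρ : Matrix (R → Fin d) (R → Fin d) ℂ)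
    (hρ : Tendsto (fun n => reduced (n + 1) R 0 (ψ n)) l (𝓝 ρ)) (ε : ℝ) (hε : 0 < ε) :
    ∃ D ≤ bondBound d r ε, ∃ A : Fin d → Fin D → Fin D → Fin D → Fin D → ℂ,
      (∀ᶠ n in atTop, pepsVec (n + 1) A ≠ 0) ∧
      ∀ᶠ n in l, ∀ v : Site (n + 1),
        traceNorm (reduced (n + 1) R v (ψ n) - reduced (n + 1) R v (pepsVec (n + 1) A)) ≤ ε := by
  -- trace norm distance to the limit
  have hlim : Tendsto (fun n => traceNorm (reduced (n + 1) R 0 (ψ n) - ρ)) l (𝓝 0) := by
    have h1 : Tendsto (fun n => ∑ i, ∑ j, ‖(reduced (n + 1) R 0 (ψ n) - ρ) i j‖) l (𝓝 0) := by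
      have h2 : Tendsto (fun n => ∑ i, ∑ j, ‖(reduced (n + 1) R 0 (ψ n) - ρ) i j‖) l
          (𝓝 (∑ i : R → Fin d, ∑ j : R → Fin d, ‖(ρ - ρ) i j‖)) := by
        refine tendsto_finsetSum _ (fun i _ => tendsto_finsetSum _ (fun j _ => ?_))
        refine Tendsto.norm ?_
        have h3 : Tendsto (fun n => (reduced (n + 1) R 0 (ψ n)) i j) l (𝓝 (ρ i j)) := by
          have h4 := (tendsto_pi_nhds.1 hρ) i
          exact (tendsto_pi_nhds.1 h4) j
        exact h3.sub tendsto_const_nhds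
      simpa using h2
    exact squeeze_zero (fun n => traceNorm_nonneg _) (fun n => traceNorm_le_sum _) h1
  have herr := error_lt r hε
  obtain ⟨δ, hδ⟩ : ∃ δ, δ = (ε - (4 * r + 5 : ℝ) / (boxSide r ε : ℕ)) / 2 := ⟨_, rfl⟩
  have hδpos : 0 < δ := by rw [hδ]; linarith
  have hev : ∀ᶠ n in l, traceNorm (reduced (n + 1) R 0 (ψ n) - ρ) < δ :=
    hlim.eventually_lt_const hδpos
  have hgl : ∀ᶠ n in l, IsGappedGround (hamiltonian (n + 1) F h) Δ (ψ n) := hl hψ
  obtain ⟨n₁, hn₁, hn₂, hn₃⟩ : ∃ n₁, traceNorm (reduced (n₁ + 1) R 0 (ψ n₁) - ρ) < δ ∧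
      IsGappedGround (hamiltonian (n₁ + 1) F h) Δ (ψ n₁) ∧ boxSide r ε ≤ n₁ + 1 := by
    have h3 : ∀ᶠ n in l, boxSide r ε ≤ n + 1 := by
      apply hl
      filter_upwards [eventually_ge_atTop (boxSide r ε)] with n hn
      omega
    obtain ⟨n₁, h⟩ := (hev.and (hgl.and h3)).exists
    exact ⟨n₁, h.1, h.2.1, h.2.2⟩
  obtain ⟨D, hD, A, hA⟩ := core_uniform d r hr hε R a b hR (n₁ + 1) hn₃ (ψ n₁) hn₂.1
    (fun w => reduced_eq_of_gapped F h hΔ hn₂ R w)
  have hbig : ∀ᶠ n in atTop, (2 * boxSide r ε + 2) ^ 2 ≤ n + 1 ∧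
      (2 * boxSide r ε + 3) * R.card < n + 1 := by
    filter_upwards [eventually_ge_atTop ((2 * boxSide r ε + 2) ^ 2),
      eventually_ge_atTop ((2 * boxSide r ε + 3) * R.card)] with n h1 h2
    omega
  refine ⟨D, hD, A, ?_, ?_⟩
  · filter_upwards [hbig] with n hn
    exact (hA (n + 1) hn.1 hn.2).1
  · filter_upwards [hl hbig, hev, hgl] with n hn h1 h2 v
    have h3 := (hA (n + 1) hn.1 hn.2).2 v
    have h4 : reduced (n + 1) R v (ψ n) = reduced (n + 1) R 0 (ψ n) :=
      reduced_eq_of_gapped F h hΔ h2 R v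
    rw [h4]
    have h5 : reduced (n + 1) R 0 (ψ n) - reduced (n + 1) R v (pepsVec (n + 1) A) =
        (reduced (n + 1) R 0 (ψ n) - ρ) +
          ((ρ - reduced (n₁ + 1) R 0 (ψ n₁)) +
            (reduced (n₁ + 1) R 0 (ψ n₁) - reduced (n + 1) R v (pepsVec (n + 1) A))) := by
      abel
    rw [h5]
    refine (traceNorm_add_le _ _).trans ?_
    have h6 := traceNorm_add_le (ρ - reduced (n₁ + 1) R 0 (ψ n₁))
      (reduced (n₁ + 1) R 0 (ψ n₁) - reduced (n + 1) R v (pepsVec (n + 1) A))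
    have h7 := traceNorm_sub_comm ρ (reduced (n₁ + 1) R 0 (ψ n₁))
    have h8 := traceNorm_sub_comm (reduced (n₁ + 1) R 0 (ψ n₁))
      (reduced (n + 1) R v (pepsVec (n + 1) A))
    linarith

end Pool.Agent.Hhelper96.PEPS.ConvergentMarginals
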