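import Mathlib

/-!
Definitions for the local approximation of gapped ground states on two-dimensional tori by
translationally invariant PEPS.
-/

set_option autoImplicit false

open scoped BigOperators

namespace Pool.Agent.Hhelper96.PEPS

/-- Sites of the `L × L` torus. -/
abbrev Site (L : ℕ) : Type := ZMod L × ZMod L

/-- The site of the `L × L` torus reached from the site `v` by the lattice vector `p`. -/
def place (L : ℕ) (v : Site L) (p : ℤ × ℤ) : Site L :=
  (v.1 + (p.1 : ZMod L), v.2 + (p.2 : ZMod L))

section general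

variable {S T : Type} [Fintype S] [DecidableEq S] [Fintype T] [DecidableEq T] {d : ℕ}

open Classical in
/-- Partial trace.  `M` is an operator on `(ℂ^d)^{⊗ S}` (its matrix in the product basis, indexed by
configurations `S → Fin d`), and `ι : T → S` names the kept sites; all other sites are traced out. -/
noncomputable def ptrace (ι : T → S) (M : Matrix (S → Fin d) (S → Fin d) ℂ) :
    Matrix (T → Fin d) (T → Fin d) ℂ :=
  fun a b => ∑ s : S → Fin d, ∑ s' : S → Fin d,
    if s ∘ ι = a ∧ s' ∘ ι = b ∧ ∀ u, (∀ t, ι t ≠ u) → s u = s' u then M s s' else 0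

/-- The density matrix `|ψ⟩⟨ψ| / ⟨ψ, ψ⟩` of a vector `ψ` of `(ℂ^d)^{⊗ S}`. -/
noncomputable def density (ψ : (S → Fin d) → ℂ) : Matrix (S → Fin d) (S → Fin d) ℂ :=
  fun s s' => ψ s * star (ψ s') / ((∑ t, ‖ψ t‖ ^ 2 : ℝ) : ℂ)

end general

/-- The reduced density matrix, on the region `R` placed at the site `v` of the `L × L` torus, of the
normalisation of the vector `ψ`. -/
noncomputable def reduced (L : ℕ) [NeZero L] {d : ℕ} (R : Finset (ℤ × ℤ)) (v : Site L)
    (ψ : (Site L → Fin d) → ℂ) : Matrix (R → Fin d) (R → Fin d) ℂ :=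
  ptrace (fun p : R => place L v p) (density ψ)

/-- Trace norm: the sum of the singular values of `M`, that is, of the square roots of the
eigenvalues of `Mᴴ * M`. -/
noncomputable def traceNorm {n : Type} [Fintype n] [DecidableEq n] (M : Matrix n n ℂ) : ℝ :=
  ∑ i, √((Matrix.isHermitian_conjTranspose_mul_self M).eigenvalues i)

open Classical in
/-- The operator `τ_v(h)` on the `L × L` torus: the interaction `h`, a matrix on the finitely many
lattice sites `F`, translated so that the origin sits at `v`, and acting as the identity elsewhere. -/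
noncomputable def localTerm (L : ℕ) {d : ℕ} (F : Finset (ℤ × ℤ))
    (h : Matrix (F → Fin d) (F → Fin d) ℂ) (v : Site L) :
    Matrix (Site L → Fin d) (Site L → Fin d) ℂ :=
  fun s s' => if ∀ u, (∀ p : F, place L v p ≠ u) → s u = s' u
    then h (fun p => s (place L v p)) (fun p => s' (place L v p)) else 0

/-- The translation invariant Hamiltonian `H_L = ∑_v τ_v(h)` on the `L × L` torus. -/
noncomputable def hamiltonian (L : ℕ) [NeZero L] {d : ℕ} (F : Finset (ℤ × ℤ))
    (h : Matrix (F → Fin d) (F → Fin d) ℂ) : Matrix (Site L → Fin d) (Site L → Fin d) ℂ :=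
  ∑ v : Site L, localTerm L F h v

/-- `ψ` spans the ground space of the Hermitian matrix `H`, the ground state is unique, and the gap
above it is at least `Δ`: `ψ` is an eigenvector with eigenvalue `E₀`, and every eigenvector that is
not a multiple of `ψ` has eigenvalue at least `E₀ + Δ`. -/
def IsGappedGround {n : Type} [Fintype n] (H : Matrix n n ℂ) (Δ : ℝ) (ψ : n → ℂ) : Prop :=
  ψ ≠ 0 ∧ ∃ E₀ : ℝ, H.mulVec ψ = (E₀ : ℂ) • ψ ∧
    ∀ (E : ℝ) (φ : n → ℂ), φ ≠ 0 → H.mulVec φ = (E : ℂ) • φ → (∃ c : ℂ, φ = c • ψ) ∨ E₀ + Δ ≤ E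

/-- The vector on the `L × L` torus obtained by placing the tensor `A` (one physical index and the
four virtual indices left, right, down, up, of dimension `D`) at every site and contracting the
virtual indices along the edges.  `a v` is the index on the edge from `v` to `v + (1,0)` and `b v`
the index on the edge from `v` to `v + (0,1)`. -/
noncomputable def pepsVec (L : ℕ) [NeZero L] {d D : ℕ}
    (A : Fin d → Fin D → Fin D → Fin D → Fin D → ℂ) : (Site L → Fin d) → ℂ :=
  fun s => ∑ a : Site L → Fin D, ∑ b : Site L → Fin D,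
    ∏ v : Site L, A (s v) (a (v - (1, 0))) (a v) (b (v - (0, 1))) (b v)

end Pool.Agent.Hhelper96.PEPS
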