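import Pool.Agent.Hhelper96.PEPS.SitePeps

/-!
Local PEPS approximation of gapped ground states in two dimensions: global approximability by PEPS
(not translation invariant, bond dimension `f`) gives local approximability by one translation
invariant PEPS with a bond dimension polynomial in `1 / ε` and in `f` at the scale `1 / ε`.
-/

set_option autoImplicit false

open Filter Topology
open Pool.Agent.Hhelper96.PEPS

namespace Pool.Agent.Hhelper96.PEPS.GlobalToLocal

/-- Let `h` be a Hermitian finite-range interaction on `ℤ²` with local dimension `d`, such that for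
all large `L = n + 1` the translation invariant Hamiltonian `H_L` on the `L × L` torus has the unique
ground state `ψ n` with gap at least `Δ > 0`, and let `R` be a region contained in an `r × r` box.
Suppose that for all large sizes `n + 1` some PEPS with site-dependent tensors and bond dimension
`f n` on the `(n + 1) × (n + 1)` torus has all its reduced density matrices on translates of `R`
within `δ n` of those of the ground state (as is the case for a PEPS close to the ground state in
Hilbert norm), and that the reduced density matrices of the ground states on `R` at all much larger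
sizes are within `κ n` of the one at size `n + 1`.  Then for all large `n` there is one translation
invariant PEPS tensor `A`, of bond dimension at most `(n + 4) ^ 2 * (f n ^ 6 + 1)`, whose PEPS vector
is nonzero on all large tori and whose reduced density matrices on all translates of `R` are, on all
large tori, within `4 * (r + 2) / (n + 3) + δ n + κ n` of those of the ground state. -/
theorem result (d : ℕ) (F : Finset (ℤ × ℤ)) (h : Matrix (F → Fin d) (F → Fin d) ℂ)
    (_hh : h.IsHermitian) (Δ : ℝ) (hΔ : 0 < Δ) (ψ : ∀ n : ℕ, (Site (n + 1) → Fin d) → ℂ)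
    (hψ : ∀ᶠ n in atTop, IsGappedGround (hamiltonian (n + 1) F h) Δ (ψ n))
    (R : Finset (ℤ × ℤ)) (r : ℕ) (hr : 1 ≤ r) (a b : ℤ)
    (hR : ∀ p ∈ R, a ≤ p.1 ∧ p.1 < a + r ∧ b ≤ p.2 ∧ p.2 < b + r)
    (f : ℕ → ℕ) (δ κ : ℕ → ℝ)
    (hglobal : ∀ᶠ n in atTop, ∃ B : Site (n + 1) → Fin d → Fin (f n) → Fin (f n) → Fin (f n) →
      Fin (f n) → ℂ, sitePepsVec (n + 1) B ≠ 0 ∧ ∀ v : Site (n + 1),
        traceNorm (reduced (n + 1) R v (ψ n) - reduced (n + 1) R v (sitePepsVec (n + 1) B)) ≤ δ n)
    (hconv : ∀ᶠ n in atTop, ∀ᶠ k in atTop,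
      traceNorm (reduced (k + 1) R 0 (ψ k) - reduced (n + 1) R 0 (ψ n)) ≤ κ n) :
    ∀ᶠ n in atTop, ∃ D ≤ (n + 4) ^ 2 * (f n ^ 6 + 1),
      ∃ A : Fin d → Fin D → Fin D → Fin D → Fin D → ℂ,
        (∀ᶠ k in atTop, pepsVec (k + 1) A ≠ 0) ∧
        ∀ᶠ k in atTop, ∀ v : Site (k + 1),
          traceNorm (reduced (k + 1) R v (ψ k) - reduced (k + 1) R v (pepsVec (k + 1) A)) ≤
            4 * ((r : ℝ) + 2) / ((n : ℝ) + 3) + δ n + κ n := by
  filter_upwards [hψ, hglobal, hconv, eventually_ge_atTop r] with n h1 h2 h3 h4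
  obtain ⟨B, hB, hB'⟩ := h2
  have hδ : ∀ v : Site (n + 1), traceNorm (reduced (n + 1) R v (sitePepsVec (n + 1) B) -
      reduced (n + 1) R 0 (ψ n)) ≤ δ n := by
    intro v
    rw [traceNorm_sub_comm, ← reduced_eq_of_gapped F h hΔ h1 R v]
    exact hB' v
  obtain ⟨D, hD, A, hA⟩ := core_site d (n + 1) r hr (by omega) R a b hR B hB 0 (ψ n) h1.1 (δ n) hδ
  refine ⟨D, hD, A, ?_, ?_⟩
  · filter_upwards [eventually_ge_atTop ((n + 1 + 2) ^ 2),
      eventually_ge_atTop ((n + 1 + 3) * R.card)] with k h5 h6
    exact (hA (k + 1) (by omega) (by omega)).1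
  · filter_upwards [eventually_ge_atTop ((n + 1 + 2) ^ 2),
      eventually_ge_atTop ((n + 1 + 3) * R.card), hψ, h3] with k h5 h6 h7 h8 v
    have h9 := (hA (k + 1) (by omega) (by omega)).2 v
    rw [reduced_eq_of_gapped F h hΔ h7 R v]
    have h10 : reduced (k + 1) R 0 (ψ k) - reduced (k + 1) R v (pepsVec (k + 1) A) =
        (reduced (k + 1) R 0 (ψ k) - reduced (n + 1) R 0 (ψ n)) +
          (reduced (n + 1) R 0 (ψ n) - reduced (k + 1) R v (pepsVec (k + 1) A)) := by
      abel
    rw [h10]
    refine (traceNorm_add_le _ _).trans ?_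
    rw [traceNorm_sub_comm (reduced (n + 1) R 0 (ψ n))]
    have h11 : 4 * ((r : ℝ) + 2) / (((n + 1 : ℕ) : ℝ) + 2) = 4 * ((r : ℝ) + 2) / ((n : ℝ) + 3) := by
      push_cast
      ring_nf
    rw [h11] at h9
    linarith

end Pool.Agent.Hhelper96.PEPS.GlobalToLocal
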