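import Pool.Agent.Hhelper96.PEPS.Block

/-!
Grid superpositions whose blocks carry a state given by an open tensor network: they are
translationally invariant PEPS whose bond dimension is governed by the number of labels of the
network and not by the number of configurations of the block.
-/

set_option autoImplicit false
set_option linter.unusedSectionVars false

open scoped BigOperators

namespace Pool.Agent.Hhelper96.PEPS

section gtensor

variable {Hid : Type} [Fintype Hid] [DecidableEq Hid] {d D : ℕ}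

/-- the tensor of a general label model: the weight of a site depends on its physical state, on its
own label and on the labels of its left and lower neighbours -/
noncomputable def gTensor (e : Hid ≃ Fin D) (W : Fin d → Hid → Hid → Hid → ℂ) :
    Fin d → Fin D → Fin D → Fin D → Fin D → ℂ :=
  fun s l r dn up => if r = up then W s (e.symm l) (e.symm dn) (e.symm r) else 0

theorem pepsVec_gTensor (L : ℕ) [NeZero L] (e : Hid ≃ Fin D) (W : Fin d → Hid → Hid → Hid → ℂ)
    (s : Site L → Fin d) :
    pepsVec L (gTensor e W) s = ∑ σ : Site L → Hid, ∏ v : Site L,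
      W (s v) (σ (v - (1, 0))) (σ (v - (0, 1))) (σ v) := by
  unfold pepsVec
  have h1 : ∀ a : Site L → Fin D, (∑ b : Site L → Fin D,
      ∏ v : Site L, gTensor e W (s v) (a (v - (1, 0))) (a v) (b (v - (0, 1))) (b v)) =
      ∏ v : Site L, W (s v) (e.symm (a (v - (1, 0)))) (e.symm (a (v - (0, 1)))) (e.symm (a v)) := by
    intro a
    rw [Finset.sum_eq_single a]
    · refine Finset.prod_congr rfl (fun v _ => ?_)
      unfold gTensor
      rw [if_pos rfl]
    · intro b _ hb
      obtain ⟨v, hv⟩ : ∃ v, b v ≠ a v := by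
        by_contra hcon
        push Not at hcon
        exact hb (funext hcon)
      apply Finset.prod_eq_zero (Finset.mem_univ v)
      unfold gTensor
      rw [if_neg (fun h => hv h.symm)]
    · intro h; exact absurd (Finset.mem_univ _) h
  simp_rw [h1]
  rw [← Equiv.sum_comp (Equiv.arrowCongr (Equiv.refl (Site L)) e)]
  refine Finset.sum_congr rfl (fun σ _ => ?_)
  refine Finset.prod_congr rfl (fun v _ => ?_)
  simp [Equiv.arrowCongr]

end gtensor

section net

variable {N₁ N₂ d : ℕ} {Y : Type} [Fintype Y] [DecidableEq Y]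

/-- label of the left neighbour inside of the block -/
def leftOf (y : Fin N₁ × Fin N₂ → Y) (p : Fin N₁ × Fin N₂) : Option Y :=
  if (p.1 : ℕ) = 0 then none else some (y (⟨(p.1 : ℕ) - 1, by omega⟩, p.2))

/-- label of the lower neighbour inside of the block -/
def downOf (y : Fin N₁ × Fin N₂ → Y) (p : Fin N₁ × Fin N₂) : Option Y :=
  if (p.2 : ℕ) = 0 then none else some (y (p.1, ⟨(p.2 : ℕ) - 1, by omega⟩))

/-- the state of a block given by an open network -/
noncomputable def netVec (w : Fin N₁ × Fin N₂ → Fin d → Option Y → Option Y → Y → ℂ)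
    (c : Fin N₁ × Fin N₂ → Fin d) : ℂ :=
  ∑ y : Fin N₁ × Fin N₂ → Y, ∏ p, w p (c p) (leftOf y p) (downOf y p) (y p)

/-- hidden labels -/
abbrev HidY (N₁ N₂ : ℕ) (Y : Type) : Type := Fin (N₁ + 3) × Fin (N₂ + 3) × Option Y

variable (w : Fin N₁ × Fin N₂ → Fin d → Option Y → Option Y → Y → ℂ) (zr on : Fin d)

/-- the part of the weight involving the network labels, for given letters -/
noncomputable def innerWt (i : Fin (N₁ + 3)) (j : Fin (N₂ + 3)) (s : Fin d)
    (l dwn : Option Y) : Option Y → ℂ
  | none => if ¬ (inner N₁ i ∧ inner N₂ j) ∧ s = marker zr on i j then 1 else 0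
  | some y => if h : inner N₁ i ∧ inner N₂ j then
      w (dn N₁ i h.1, dn N₂ j h.2) s (if (i : ℕ) = 2 then none else l)
        (if (j : ℕ) = 2 then none else dwn) y else 0

/-- the weight of a site -/
noncomputable def netWt (s : Fin d) (l dwn own : HidY N₁ N₂ Y) : ℂ :=
  if Step N₁ l.1 own.1 ∧ l.2.1 = own.2.1 ∧ dwn.1 = own.1 ∧ Step N₂ dwn.2.1 own.2.1 then
    innerWt w zr on own.1 own.2.1 s l.2.2 dwn.2.2 own.2.2 else 0

variable {L : ℕ} [NeZero L]

/-- corners of the blocks -/
abbrev Corner (ξ : ZMod L → Fin (N₁ + 3)) (η : ZMod L → Fin (N₂ + 3)) : Type :=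
  {u : Site L // (ξ u.1 : ℕ) = 2 ∧ (η u.2 : ℕ) = 2}

/-- sites inside of blocks -/
abbrev InnerSite (ξ : ZMod L → Fin (N₁ + 3)) (η : ZMod L → Fin (N₂ + 3)) : Type :=
  {v : Site L // inner N₁ (ξ v.1) ∧ inner N₂ (η v.2)}

theorem off_letter {N : ℕ} {ξ : ZMod L → Fin (N + 3)} (h : IsWalk ξ) {x : ZMod L}
    (hx : inner N (ξ x)) : (ξ (x - off L (ξ x)) : ℕ) = 2 := by
  have := h.back x ((ξ x : ℕ) - 2) (by omega)
  unfold off
  rw [this]
  have := hx.1
  omega

theorem letter_corner {N : ℕ} {ξ : ZMod L → Fin (N + 3)} (hξ : IsWalk ξ) {x : ZMod L}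
    (hx : (ξ x : ℕ) = 2) (k : Fin N) : (ξ (x + ((k : ℕ) : ZMod L)) : ℕ) = 2 + k := by
  have := hξ.fwd x k (by rw [hx]; omega)
  rw [this, hx]

/-- sites inside of blocks are pairs of a corner and a position in the block -/
def siteEquiv {ξ : ZMod L → Fin (N₁ + 3)} {η : ZMod L → Fin (N₂ + 3)} (hξ : IsWalk ξ)
    (hη : IsWalk η) : InnerSite ξ η ≃ Corner ξ η × (Fin N₁ × Fin N₂) where
  toFun v := (⟨(v.1.1 - off L (ξ v.1.1), v.1.2 - off L (η v.1.2)),
    off_letter hξ v.2.1, off_letter hη v.2.2⟩, (dn N₁ (ξ v.1.1) v.2.1, dn N₂ (η v.1.2) v.2.2))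
  invFun q := ⟨blk N₁ N₂ q.1.1 q.2, by
    have h1 := letter_corner hξ q.1.2.1 q.2.1
    have h2 := letter_corner hη q.1.2.2 q.2.2
    unfold blk inner
    simp only
    rw [h1, h2]
    omega⟩
  left_inv v := by
    apply Subtype.ext
    unfold blk off dn
    ext <;> simp
  right_inv q := by
    obtain ⟨⟨u, hu1, hu2⟩, p⟩ := q
    have h1 := letter_corner hξ hu1 p.1
    have h2 := letter_corner hη hu2 p.2
    have e1 : off L (ξ (u.1 + ((p.1 : ℕ) : ZMod L))) = ((p.1 : ℕ) : ZMod L) := by
      unfold off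
      rw [h1]
      simp
    have e2 : off L (η (u.2 + ((p.2 : ℕ) : ZMod L))) = ((p.2 : ℕ) : ZMod L) := by
      unfold off
      rw [h2]
      simp
    refine Prod.ext ?_ ?_
    · apply Subtype.ext
      unfold blk
      simp only [e1, e2]
      ext <;> simp
    · unfold blk dn
      ext
      · simp only; rw [h1]; omega
      · simp only; rw [h2]; omega

/-- the label field attached to labels on all blocks -/
noncomputable def field {ξ : ZMod L → Fin (N₁ + 3)} {η : ZMod L → Fin (N₂ + 3)} (hξ : IsWalk ξ)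
    (hη : IsWalk η) (z : Corner ξ η → (Fin N₁ × Fin N₂ → Y)) (v : Site L) : Option Y :=
  if h : inner N₁ (ξ v.1) ∧ inner N₂ (η v.2) then
    some (z (siteEquiv hξ hη ⟨v, h⟩).1 (siteEquiv hξ hη ⟨v, h⟩).2) else none

theorem field_blk {ξ : ZMod L → Fin (N₁ + 3)} {η : ZMod L → Fin (N₂ + 3)} (hξ : IsWalk ξ)
    (hη : IsWalk η) (z : Corner ξ η → (Fin N₁ × Fin N₂ → Y)) (u : Corner ξ η)
    (p : Fin N₁ × Fin N₂) : field hξ hη z (blk N₁ N₂ u.1 p) = some (z u p) := by
  have h1 := letter_corner hξ u.2.1 p.1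
  have h2 := letter_corner hη u.2.2 p.2
  have h : inner N₁ (ξ (blk N₁ N₂ u.1 p).1) ∧ inner N₂ (η (blk N₁ N₂ u.1 p).2) := by
    unfold blk inner
    simp only
    rw [h1, h2]
    omega
  unfold field
  rw [dif_pos h]
  have h3 : siteEquiv hξ hη ⟨blk N₁ N₂ u.1 p, h⟩ = (u, p) :=
    (siteEquiv hξ hη).right_inv (u, p)
  rw [h3]

/-- value of the weight on a block site -/
theorem innerWt_blk {ξ : ZMod L → Fin (N₁ + 3)} {η : ZMod L → Fin (N₂ + 3)} (hξ : IsWalk ξ)
    (hη : IsWalk η) (z : Corner ξ η → (Fin N₁ × Fin N₂ → Y)) (s : Site L → Fin d)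
    (u : Corner ξ η) (p : Fin N₁ × Fin N₂) :
    innerWt w zr on (ξ (blk N₁ N₂ u.1 p).1) (η (blk N₁ N₂ u.1 p).2) (s (blk N₁ N₂ u.1 p))
      (field hξ hη z (blk N₁ N₂ u.1 p - (1, 0))) (field hξ hη z (blk N₁ N₂ u.1 p - (0, 1)))
      (field hξ hη z (blk N₁ N₂ u.1 p)) =
    w p (s (blk N₁ N₂ u.1 p)) (leftOf (z u) p) (downOf (z u) p) (z u p) := by
  have h1 := letter_corner hξ u.2.1 p.1
  have h2 := letter_corner hη u.2.2 p.2
  have h : inner N₁ (ξ (blk N₁ N₂ u.1 p).1) ∧ inner N₂ (η (blk N₁ N₂ u.1 p).2) := by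
    unfold blk inner
    simp only
    rw [h1, h2]
    omega
  rw [field_blk hξ hη z u p]
  simp only [innerWt]
  rw [dif_pos h]
  have e1 : dn N₁ (ξ (blk N₁ N₂ u.1 p).1) h.1 = p.1 := by
    unfold dn blk
    ext
    simp only
    rw [h1]
    omega
  have e2 : dn N₂ (η (blk N₁ N₂ u.1 p).2) h.2 = p.2 := by
    unfold dn blk
    ext
    simp only
    rw [h2]
    omega
  rw [e1, e2]
  have e3 : (if (ξ (blk N₁ N₂ u.1 p).1 : ℕ) = 2 then none
      else field hξ hη z (blk N₁ N₂ u.1 p - (1, 0))) = leftOf (z u) p := by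
    unfold leftOf
    have h3 : (ξ (blk N₁ N₂ u.1 p).1 : ℕ) = 2 + p.1 := h1
    by_cases hp : (p.1 : ℕ) = 0
    · rw [if_pos (by omega), if_pos hp]
    · rw [if_neg (by omega), if_neg hp]
      have e4 : blk N₁ N₂ u.1 p - (1, 0) = blk N₁ N₂ u.1 (⟨(p.1 : ℕ) - 1, by omega⟩, p.2) := by
        unfold blk
        ext
        · simp only [Prod.fst_sub]
          rw [Nat.cast_sub (by omega)]
          push_cast
          ring
        · simp
      rw [e4, field_blk]
  have e5 : (if (η (blk N₁ N₂ u.1 p).2 : ℕ) = 2 then none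
      else field hξ hη z (blk N₁ N₂ u.1 p - (0, 1))) = downOf (z u) p := by
    unfold downOf
    have h3 : (η (blk N₁ N₂ u.1 p).2 : ℕ) = 2 + p.2 := h2
    by_cases hp : (p.2 : ℕ) = 0
    · rw [if_pos (by omega), if_pos hp]
    · rw [if_neg (by omega), if_neg hp]
      have e4 : blk N₁ N₂ u.1 p - (0, 1) = blk N₁ N₂ u.1 (p.1, ⟨(p.2 : ℕ) - 1, by omega⟩) := by
        unfold blk
        ext
        · simp
        · simp only [Prod.snd_sub]
          rw [Nat.cast_sub (by omega)]
          push_cast
          ring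
      rw [e4, field_blk]
  rw [e3, e5]

open Classical in
/-- For a fixed grid, the sum over the labels gives the product of the block states. -/
theorem sum_labels {ξ : ZMod L → Fin (N₁ + 3)} {η : ZMod L → Fin (N₂ + 3)} (hN₁ : 1 ≤ N₁)
    (hN₂ : 1 ≤ N₂) (hξ : IsWalk ξ) (hη : IsWalk η) (s : Site L → Fin d) :
    ∑ τ : Site L → Option Y, ∏ v : Site L,
      innerWt w zr on (ξ v.1) (η v.2) (s v) (τ (v - (1, 0))) (τ (v - (0, 1))) (τ v) =
    gridVec (netVec w) zr on ξ η s := by
  -- the marker factor
  set M : ℂ := ∏ v : {v : Site L // ¬ (inner N₁ (ξ v.1) ∧ inner N₂ (η v.2))},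
    (if s v.1 = marker zr on (ξ v.1.1) (η v.1.2) then (1 : ℂ) else 0) with hM
  -- left side
  have hL : ∑ τ : Site L → Option Y, ∏ v : Site L,
      innerWt w zr on (ξ v.1) (η v.2) (s v) (τ (v - (1, 0))) (τ (v - (0, 1))) (τ v) =
      ∑ z : Corner ξ η → (Fin N₁ × Fin N₂ → Y), (∏ u : Corner ξ η, ∏ p : Fin N₁ × Fin N₂,
        w p (s (blk N₁ N₂ u.1 p)) (leftOf (z u) p) (downOf (z u) p) (z u p)) * M := by
    symm
    apply Finset.sum_of_injOn (field hξ hη)
    · intro z _ z' _ h
      funext u p
      have := congrFun h (blk N₁ N₂ u.1 p)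
      rw [field_blk, field_blk] at this
      exact Option.some.inj this
    · intro z _
      simp
    · intro τ _ hτ
      by_contra hne
      apply hτ
      have hne' := Finset.prod_ne_zero_iff.1 hne
      have hin : ∀ v, (inner N₁ (ξ v.1) ∧ inner N₂ (η v.2)) → ∃ y, τ v = some y := by
        intro v h
        have h1 := hne' v (Finset.mem_univ _)
        cases hv : τ v with
        | none =>
          rw [hv] at h1
          simp only [innerWt] at h1
          rw [if_neg (fun hh => hh.1 h)] at h1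
          exact absurd rfl h1
        | some y => exact ⟨y, rfl⟩
      have hout : ∀ v, ¬ (inner N₁ (ξ v.1) ∧ inner N₂ (η v.2)) → τ v = none := by
        intro v h
        have h1 := hne' v (Finset.mem_univ _)
        cases hv : τ v with
        | none => rfl
        | some y =>
          rw [hv] at h1
          simp only [innerWt] at h1
          rw [dif_neg h] at h1
          exact absurd rfl h1
      have hblk : ∀ (u : Corner ξ η) (p : Fin N₁ × Fin N₂),
          inner N₁ (ξ (blk N₁ N₂ u.1 p).1) ∧ inner N₂ (η (blk N₁ N₂ u.1 p).2) := by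
        intro u p
        have h1 := letter_corner hξ u.2.1 p.1
        have h2 := letter_corner hη u.2.2 p.2
        unfold blk inner
        simp only
        rw [h1, h2]
        omega
      refine ⟨fun u p => (hin _ (hblk u p)).choose, by simp, ?_⟩
      funext v
      by_cases h : inner N₁ (ξ v.1) ∧ inner N₂ (η v.2)
      · have h3 : blk N₁ N₂ (siteEquiv hξ hη ⟨v, h⟩).1.1 (siteEquiv hξ hη ⟨v, h⟩).2 = v :=
          congrArg Subtype.val ((siteEquiv hξ hη).left_inv ⟨v, h⟩)
        unfold field
        rw [dif_pos h]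
        have h4 := (hin _ (hblk (siteEquiv hξ hη ⟨v, h⟩).1 (siteEquiv hξ hη ⟨v, h⟩).2)).choose_spec
        rw [← h4, h3]
      · unfold field
        rw [dif_neg h, hout v h]
    · intro z _
      rw [← Fintype.prod_subtype_mul_prod_subtype
        (fun v : Site L => inner N₁ (ξ v.1) ∧ inner N₂ (η v.2))]
      congr 1
      · rw [← Equiv.prod_comp (siteEquiv hξ hη).symm, Fintype.prod_prod_type]
        refine Finset.prod_congr rfl (fun u _ => Finset.prod_congr rfl (fun p _ => ?_))
        exact (innerWt_blk w zr on hξ hη z s u p).symm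
      · rw [hM]
        refine Finset.prod_congr rfl (fun v _ => ?_)
        have h5 : field hξ hη z v.1 = none := by
          unfold field
          rw [dif_neg v.2]
        rw [h5]
        simp only [innerWt]
        by_cases h6 : s v.1 = marker zr on (ξ v.1.1) (η v.1.2)
        · rw [if_pos h6, if_pos ⟨v.2, h6⟩]
        · rw [if_neg h6, if_neg (fun hh => h6 hh.2)]
  rw [hL, ← Finset.sum_mul]
  -- right side
  have hR : gridVec (netVec w) zr on ξ η s =
      (∏ u : Corner ξ η, netVec w (fun p => s (blk N₁ N₂ u.1 p))) * M := by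
    unfold gridVec
    rw [← Fintype.prod_subtype_mul_prod_subtype
        (fun v : Site L => inner N₁ (ξ v.1) ∧ inner N₂ (η v.2))]
    congr 1
    · -- inner sites: only the corners contribute
      have hcor : ∀ u : Corner ξ η, inner N₁ (ξ u.1.1) ∧ inner N₂ (η u.1.2) := by
        intro u
        unfold inner
        rw [u.2.1, u.2.2]
        omega
      symm
      refine Fintype.prod_of_injective (fun u : Corner ξ η => (⟨u.1, hcor u⟩ : InnerSite ξ η))
        ?_ _ _ ?_ ?_
      · intro u u' h
        exact Subtype.ext (congrArg (fun z : InnerSite ξ η => z.1) h)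
      · intro v hv
        unfold locFactor
        rw [if_pos v.2, if_neg]
        intro h
        exact hv ⟨⟨v.1, h⟩, rfl⟩
      · intro u
        unfold locFactor
        rw [if_pos (hcor u), if_pos u.2]
        rfl
    · rw [hM]
      refine Finset.prod_congr rfl (fun v _ => ?_)
      unfold locFactor
      rw [if_neg v.2]
  rw [hR]
  congr 1
  unfold netVec
  rw [Finset.prod_univ_sum]
  rw [Fintype.piFinset_univ]

open Classical in
/-- The label model evaluates to the coherent superposition of all grids. -/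
theorem sum_net (hN₁ : 1 ≤ N₁) (hN₂ : 1 ≤ N₂) (s : Site L → Fin d) :
    (∑ σ : Site L → HidY N₁ N₂ Y, ∏ v : Site L,
      netWt w zr on (s v) (σ (v - (1, 0))) (σ (v - (0, 1))) (σ v)) =
    superVec (netVec w) zr on s := by
  have h0 : superVec (netVec w) zr on s = ∑ x ∈ grids N₁ N₂ L ×ˢ
      (Finset.univ : Finset (Site L → Option Y)), ∏ v : Site L,
      innerWt w zr on (x.1.1 v.1) (x.1.2 v.2) (s v) (x.2 (v - (1, 0))) (x.2 (v - (0, 1)))
        (x.2 v) := by
    unfold superVec
    rw [Finset.sum_product]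
    refine Finset.sum_congr rfl (fun q hq => ?_)
    simp only [grids, Finset.mem_filter, Finset.mem_univ, true_and] at hq
    exact (sum_labels w zr on hN₁ hN₂ hq.1 hq.2 s).symm
  rw [h0]
  symm
  apply Finset.sum_of_injOn (fun x : ((ZMod L → Fin (N₁ + 3)) × (ZMod L → Fin (N₂ + 3))) ×
    (Site L → Option Y) => fun v : Site L => ((x.1.1 v.1, x.1.2 v.2, x.2 v) : HidY N₁ N₂ Y))
  · rintro ⟨⟨ξ, η⟩, τ⟩ _ ⟨⟨ξ', η'⟩, τ'⟩ _ h
    have e1 : ξ = ξ' := by
      funext x
      have := congrFun h (x, 0)
      exact congrArg Prod.fst this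
    have e2 : η = η' := by
      funext x
      have := congrFun h (0, x)
      exact congrArg (fun z => z.2.1) this
    have e3 : τ = τ' := by
      funext v
      have := congrFun h v
      exact congrArg (fun z => z.2.2) this
    rw [e1, e2, e3]
  · intro q _
    simp
  · intro σ _ hσ
    by_contra hne
    apply hσ
    have hne' := Finset.prod_ne_zero_iff.1 hne
    have hc : ∀ v, Step N₁ (σ (v - (1, 0))).1 (σ v).1 ∧ (σ (v - (1, 0))).2.1 = (σ v).2.1 ∧
        (σ (v - (0, 1))).1 = (σ v).1 ∧ Step N₂ (σ (v - (0, 1))).2.1 (σ v).2.1 := by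
      intro v
      by_contra hcon
      have := hne' v (Finset.mem_univ _)
      unfold netWt at this
      rw [if_neg hcon] at this
      exact this rfl
    have hx : ∀ x y, (σ (x, y)).1 = (σ (x, 0)).1 := by
      intro x y
      apply const_of_pred (fun y => (σ (x, y)).1)
      intro y
      have := (hc (x, y)).2.2.1
      simpa using this
    have hy : ∀ x y, (σ (x, y)).2.1 = (σ (0, y)).2.1 := by
      intro x y
      apply const_of_pred (fun x => (σ (x, y)).2.1)
      intro x
      have := (hc (x, y)).2.1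
      simpa using this
    have hξ : IsWalk (fun x : ZMod L => (σ (x, 0)).1) := by
      intro x
      have := (hc (x + 1, 0)).1
      simpa using this
    have hη : IsWalk (fun y : ZMod L => (σ (0, y)).2.1) := by
      intro y
      have := (hc (0, y + 1)).2.2.2
      simpa using this
    refine ⟨((fun x => (σ (x, 0)).1, fun y => (σ (0, y)).2.1), fun v => (σ v).2.2), ?_, ?_⟩
    · simp only [Finset.coe_product, Finset.coe_univ, Set.mem_prod, Finset.mem_coe, Set.mem_univ,
        and_true]
      simp [grids, hξ, hη]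
    · funext v
      obtain ⟨x, y⟩ := v
      refine Prod.ext ?_ (Prod.ext ?_ rfl)
      · exact (hx x y).symm
      · exact (hy x y).symm
  · rintro ⟨⟨ξ, η⟩, τ⟩ hq
    simp only [grids, Finset.mem_product, Finset.mem_filter, Finset.mem_univ, true_and,
      and_true] at hq
    refine Finset.prod_congr rfl (fun v _ => ?_)
    unfold netWt
    rw [if_pos]
    refine ⟨?_, ?_, ?_, ?_⟩
    · have := hq.1 (v.1 - 1)
      simpa using this
    · simp
    · simp
    · have := hq.2 (v.2 - 1)
      simpa using this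

/-- the bond dimension -/
theorem card_hidY (N₁ N₂ : ℕ) (Y : Type) [Fintype Y] [DecidableEq Y] :
    Fintype.card (HidY N₁ N₂ Y) = (N₁ + 3) * ((N₂ + 3) * (Fintype.card Y + 1)) := by
  simp [HidY]

open Classical in
/-- The superposition of all grids carrying an open network is a translation invariant PEPS. -/
theorem pepsVec_net (hN₁ : 1 ≤ N₁) (hN₂ : 1 ≤ N₂) :
    pepsVec L (gTensor (Fintype.equivFin (HidY N₁ N₂ Y)) (netWt w zr on)) =
      superVec (netVec w) zr on := by
  funext s
  rw [pepsVec_gTensor, sum_net w zr on hN₁ hN₂]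

end net

end Pool.Agent.Hhelper96.PEPS
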