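import Pool.Agent.Hhelper96.PEPS.Ptrace

/-!
Operators acting on part of the sites.
-/

set_option autoImplicit false
set_option linter.unusedSectionVars false

open scoped BigOperators
open Matrix

namespace Pool.Agent.Hhelper96.PEPS

variable {S T T' : Type} [Fintype S] [DecidableEq S] [Fintype T] [DecidableEq T]
  [Fintype T'] [DecidableEq T'] {d : ℕ}

open Classical in
/-- the operator `p` acting on the sites `κ t` -/
noncomputable def opAt (κ : T → S) (p : Matrix (T → Fin d) (T → Fin d) ℂ) :
    Matrix (S → Fin d) (S → Fin d) ℂ :=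
  fun s s' => if ∀ u, (∀ t, κ t ≠ u) → s u = s' u then p (s ∘ κ) (s' ∘ κ) else 0

theorem localTerm_eq_opAt (L : ℕ) [NeZero L] (F : Finset (ℤ × ℤ)) (h : Matrix (F → Fin d) (F → Fin d) ℂ)
    (v : Site L) : localTerm L F h v = opAt (fun p : F => place L v p) h := by
  ext s s'
  unfold localTerm opAt
  by_cases h' : ∀ u, (∀ p : F, place L v p ≠ u) → s u = s' u
  · rw [if_pos h', if_pos h']; rfl
  · rw [if_neg h', if_neg h']

open Classical in
/-- overwrite the configuration `s` by `c` on the range of `κ` -/
noncomputable def overwrite (κ : T → S) (s : S → Fin d) (c : T → Fin d) : S → Fin d :=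
  fun u => if h : ∃ t, κ t = u then c h.choose else s u

theorem overwrite_mem {κ : T → S} (hκ : Function.Injective κ) (s : S → Fin d) (c : T → Fin d)
    (t : T) : overwrite κ s c (κ t) = c t := by
  unfold overwrite
  have h : ∃ t', κ t' = κ t := ⟨t, rfl⟩
  rw [dif_pos h]
  exact congrArg c (hκ h.choose_spec)

theorem overwrite_comp {κ : T → S} (hκ : Function.Injective κ) (s : S → Fin d) (c : T → Fin d) :
    overwrite κ s c ∘ κ = c := by
  funext t; exact overwrite_mem hκ s c t

theorem overwrite_not_mem (κ : T → S) (s : S → Fin d) (c : T → Fin d) (u : S)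
    (hu : ∀ t, κ t ≠ u) : overwrite κ s c u = s u := by
  unfold overwrite
  rw [dif_neg]
  rintro ⟨t, ht⟩
  exact hu t ht

theorem eq_overwrite {κ : T → S} (hκ : Function.Injective κ) (s s' : S → Fin d)
    (h : ∀ u, (∀ t, κ t ≠ u) → s u = s' u) : s' = overwrite κ s (s' ∘ κ) := by
  funext u
  by_cases hu : ∃ t, κ t = u
  · obtain ⟨t, rfl⟩ := hu
    rw [overwrite_mem hκ]
    rfl
  · push Not at hu
    rw [overwrite_not_mem κ s _ u hu, h u hu]

/-- the action of `opAt κ p` as a sum over the configurations of the window -/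
theorem sum_opAt {κ : T → S} (hκ : Function.Injective κ)
    (p : Matrix (T → Fin d) (T → Fin d) ℂ) (s : S → Fin d) (f : (S → Fin d) → ℂ) :
    ∑ s', opAt κ p s s' * f s' = ∑ c : T → Fin d, p (s ∘ κ) c * f (overwrite κ s c) := by
  classical
  symm
  apply Finset.sum_of_injOn (overwrite κ s)
  · intro c _ c' _ h
    have := congrArg (fun z => z ∘ κ) h
    simpa [overwrite_comp hκ] using this
  · intro c _; simp
  · intro s' _ hs'
    by_cases h : ∀ u, (∀ t, κ t ≠ u) → s u = s' u
    · exact absurd ⟨s' ∘ κ, by simp, (eq_overwrite hκ s s' h).symm⟩ hs'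
    · unfold opAt
      rw [if_neg h, zero_mul]
  · intro c _
    unfold opAt
    rw [if_pos, overwrite_comp hκ]
    intro u hu
    rw [overwrite_not_mem κ s c u hu]

theorem opAt_mul {κ : T → S} (hκ : Function.Injective κ)
    (p q : Matrix (T → Fin d) (T → Fin d) ℂ) : opAt κ (p * q) = opAt κ p * opAt κ q := by
  classical
  ext s s'
  rw [Matrix.mul_apply, sum_opAt hκ]
  by_cases h : ∀ u, (∀ t, κ t ≠ u) → s u = s' u
  · have h1 : opAt κ (p * q) s s' = (p * q) (s ∘ κ) (s' ∘ κ) := by
      unfold opAt; rw [if_pos h]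
    rw [h1, Matrix.mul_apply]
    refine Finset.sum_congr rfl (fun c _ => ?_)
    unfold opAt
    rw [if_pos, overwrite_comp hκ]
    intro u hu
    rw [overwrite_not_mem κ s c u hu, h u hu]
  · have h1 : opAt κ (p * q) s s' = 0 := by
      unfold opAt; rw [if_neg h]
    rw [h1]
    symm
    apply Finset.sum_eq_zero
    intro c _
    unfold opAt
    rw [if_neg, mul_zero]
    intro h'
    apply h
    intro u hu
    rw [← h' u hu, overwrite_not_mem κ s c u hu]

theorem opAt_one {κ : T → S} (hκ : Function.Injective κ) :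
    opAt κ (1 : Matrix (T → Fin d) (T → Fin d) ℂ) = 1 := by
  classical
  ext s s'
  unfold opAt
  by_cases h : s = s'
  · subst h
    simp
  · rw [Matrix.one_apply_ne h]
    by_cases h' : ∀ u, (∀ t, κ t ≠ u) → s u = s' u
    · rw [if_pos h', Matrix.one_apply_ne]
      intro h''
      apply h
      have := eq_overwrite hκ s s' h'
      rw [this, ← h'']
      exact eq_overwrite hκ s s (fun _ _ => rfl)
    · rw [if_neg h']

theorem opAt_add (κ : T → S) (p q : Matrix (T → Fin d) (T → Fin d) ℂ) :
    opAt κ (p + q) = opAt κ p + opAt κ q := by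
  ext s s'
  simp only [opAt, Matrix.add_apply]
  split_ifs <;> simp

theorem opAt_smul (κ : T → S) (c : ℂ) (p : Matrix (T → Fin d) (T → Fin d) ℂ) :
    opAt κ (c • p) = c • opAt κ p := by
  ext s s'
  simp only [opAt, Matrix.smul_apply]
  split_ifs <;> simp

/-- operators on a window form a subalgebra -/
noncomputable def opHom (κ : T → S) (hκ : Function.Injective κ) :
    Matrix (T → Fin d) (T → Fin d) ℂ →ₐ[ℂ] Matrix (S → Fin d) (S → Fin d) ℂ :=
  AlgHom.ofLinearMap
    { toFun := opAt κ
      map_add' := opAt_add κ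
      map_smul' := opAt_smul κ } (opAt_one hκ) (opAt_mul hκ)

theorem opHom_apply (κ : T → S) (hκ : Function.Injective κ)
    (p : Matrix (T → Fin d) (T → Fin d) ℂ) : opHom κ hκ p = opAt κ p := rfl

theorem opAt_aeval {κ : T → S} (hκ : Function.Injective κ) (p : Matrix (T → Fin d) (T → Fin d) ℂ)
    (q : Polynomial ℂ) : opAt κ (Polynomial.aeval p q) = Polynomial.aeval (opAt κ p) q := by
  rw [← opHom_apply κ hκ, ← opHom_apply κ hκ]
  exact (Polynomial.aeval_algHom_apply (opHom κ hκ) p q).symm

theorem opAt_conjTranspose (κ : T → S) (p : Matrix (T → Fin d) (T → Fin d) ℂ) :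
    opAt κ pᴴ = (opAt κ p)ᴴ := by
  ext s s'
  simp only [opAt, Matrix.conjTranspose_apply]
  have h : (∀ u, (∀ t, κ t ≠ u) → s u = s' u) ↔ (∀ u, (∀ t, κ t ≠ u) → s' u = s u) := by
    constructor <;> intro h u hu <;> exact (h u hu).symm
  by_cases h' : ∀ u, (∀ t, κ t ≠ u) → s u = s' u
  · rw [if_pos h', if_pos (h.1 h')]
  · rw [if_neg h', if_neg (fun h'' => h' (h.2 h''))]
    simp

/-- operators with disjoint supports commute -/
theorem opAt_comm_of_disjoint {κ : T → S} {κ' : T' → S} (hκ : Function.Injective κ)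
    (hκ' : Function.Injective κ') (hd : ∀ t t', κ t ≠ κ' t')
    (p : Matrix (T → Fin d) (T → Fin d) ℂ) (q : Matrix (T' → Fin d) (T' → Fin d) ℂ) :
    opAt κ p * opAt κ' q = opAt κ' q * opAt κ p := by
  classical
  ext s s'
  rw [Matrix.mul_apply, Matrix.mul_apply, sum_opAt hκ, sum_opAt hκ']
  -- both sums have at most one nonzero term
  have e1 : ∀ c : T → Fin d, (overwrite κ s c) ∘ κ' = s ∘ κ' := by
    intro c; funext t'
    exact overwrite_not_mem κ s c (κ' t') (fun t => hd t t')
  have e2 : ∀ c : T' → Fin d, (overwrite κ' s c) ∘ κ = s ∘ κ := by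
    intro c; funext t
    exact overwrite_not_mem κ' s c (κ t) (fun t' => (hd t t').symm)
  by_cases h : ∀ u, (∀ t, κ t ≠ u) → (∀ t', κ' t' ≠ u) → s u = s' u
  · rw [Finset.sum_eq_single (s' ∘ κ), Finset.sum_eq_single (s' ∘ κ')]
    · unfold opAt
      rw [if_pos, if_pos, e1, e2, mul_comm]
      · intro u hu
        by_cases hu' : ∃ t', κ' t' = u
        · obtain ⟨t', rfl⟩ := hu'
          rw [overwrite_mem hκ']; rfl
        · push Not at hu'
          rw [overwrite_not_mem κ' _ _ u hu', h u hu hu']
      · intro u hu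
        by_cases hu' : ∃ t, κ t = u
        · obtain ⟨t, rfl⟩ := hu'
          rw [overwrite_mem hκ]; rfl
        · push Not at hu'
          rw [overwrite_not_mem κ _ _ u hu', h u hu' hu]
    · intro c _ hc
      unfold opAt
      rw [if_neg, mul_zero]
      intro h'
      apply hc
      funext t'
      have := h' (κ' t') (fun t => hd t t')
      rw [overwrite_mem hκ'] at this
      exact this
    · intro h; exact absurd (Finset.mem_univ _) h
    · intro c _ hc
      unfold opAt
      rw [if_neg, mul_zero]
      intro h'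
      apply hc
      funext t
      have := h' (κ t) (fun t' => (hd t t').symm)
      rw [overwrite_mem hκ] at this
      exact this
    · intro h; exact absurd (Finset.mem_univ _) h
  · rw [Finset.sum_eq_zero, Finset.sum_eq_zero]
    · intro c _
      unfold opAt
      rw [if_neg, mul_zero]
      intro h'
      apply h
      intro u hu hu'
      rw [← h' u hu, overwrite_not_mem κ' s c u hu']
    · intro c _
      unfold opAt
      rw [if_neg, mul_zero]
      intro h'
      apply h
      intro u hu hu'
      rw [← h' u hu', overwrite_not_mem κ s c u hu]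

end Pool.Agent.Hhelper96.PEPS
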