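import Pool.Agent.Hhelper96.PEPS.Defs

set_option autoImplicit false
set_option linter.unusedSectionVars false

open scoped BigOperators

namespace Pool.Agent.Hhelper96.PEPS

variable {S T U : Type} [Fintype S] [DecidableEq S] [Fintype T] [DecidableEq T]
  [Fintype U] [DecidableEq U] {d : ℕ}

open Classical in
theorem ptrace_comp (κ : T → S) (ι : U → T) (hκ : Function.Injective κ)
    (M : Matrix (S → Fin d) (S → Fin d) ℂ) :
    ptrace (κ ∘ ι) M = ptrace ι (ptrace κ M) := by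
  ext a b
  have key : ∀ s s' : S → Fin d,
      (if s ∘ (κ ∘ ι) = a ∧ s' ∘ (κ ∘ ι) = b ∧ (∀ u, (∀ t, (κ ∘ ι) t ≠ u) → s u = s' u)
        then M s s' else 0) =
      ∑ c : T → Fin d, ∑ c' : T → Fin d,
        if c ∘ ι = a ∧ c' ∘ ι = b ∧ (∀ u, (∀ t, ι t ≠ u) → c u = c' u) then
          (if s ∘ κ = c ∧ s' ∘ κ = c' ∧ (∀ u, (∀ t, κ t ≠ u) → s u = s' u)
            then M s s' else 0) else 0 := by
    intro s s'
    have hmain : (s ∘ (κ ∘ ι) = a ∧ s' ∘ (κ ∘ ι) = b ∧ (∀ u, (∀ t, (κ ∘ ι) t ≠ u) → s u = s' u)) ↔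
        (((s ∘ κ) ∘ ι = a ∧ (s' ∘ κ) ∘ ι = b ∧ (∀ u, (∀ t, ι t ≠ u) → (s ∘ κ) u = (s' ∘ κ) u)) ∧
          (∀ u, (∀ t, κ t ≠ u) → s u = s' u)) := by
      constructor
      · rintro ⟨h1, h2, h3⟩
        refine ⟨⟨h1, h2, ?_⟩, ?_⟩
        · intro u hu
          apply h3 (κ u)
          intro t ht
          exact hu t (hκ ht)
        · intro u hu
          exact h3 u (fun t => hu (ι t))
      · rintro ⟨⟨h1, h2, h3⟩, h4⟩
        refine ⟨h1, h2, ?_⟩
        intro u hu
        by_cases hu' : ∃ t, κ t = u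
        · obtain ⟨t, rfl⟩ := hu'
          apply h3 t
          intro x hx
          exact hu x (by simp [hx])
        · push Not at hu'
          exact h4 u hu'
    rw [Finset.sum_eq_single (s ∘ κ), Finset.sum_eq_single (s' ∘ κ)]
    · by_cases hP : (s ∘ κ) ∘ ι = a ∧ (s' ∘ κ) ∘ ι = b ∧
          (∀ u, (∀ t, ι t ≠ u) → (s ∘ κ) u = (s' ∘ κ) u)
      · by_cases hQ : ∀ u, (∀ t, κ t ≠ u) → s u = s' u
        · have h1 := hmain.2 ⟨hP, hQ⟩
          rw [if_pos h1, if_pos hP, if_pos ⟨rfl, rfl, hQ⟩]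
        · have h1 : ¬ (s ∘ (κ ∘ ι) = a ∧ s' ∘ (κ ∘ ι) = b ∧
              (∀ u, (∀ t, (κ ∘ ι) t ≠ u) → s u = s' u)) := fun h => hQ (hmain.1 h).2
          have h2 : ¬ (s ∘ κ = s ∘ κ ∧ s' ∘ κ = s' ∘ κ ∧
              (∀ u, (∀ t, κ t ≠ u) → s u = s' u)) := fun h => hQ h.2.2
          rw [if_neg h1, if_pos hP, if_neg h2]
      · have h1 : ¬ (s ∘ (κ ∘ ι) = a ∧ s' ∘ (κ ∘ ι) = b ∧
              (∀ u, (∀ t, (κ ∘ ι) t ≠ u) → s u = s' u)) := fun h => hP (hmain.1 h).1
        rw [if_neg h1, if_neg hP]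
    · intro c' _ hc'
      have h2 : ¬ (s ∘ κ = s ∘ κ ∧ s' ∘ κ = c' ∧
              (∀ u, (∀ t, κ t ≠ u) → s u = s' u)) := fun h => hc' h.2.1.symm
      rw [if_neg h2, ite_self]
    · intro h; exact absurd (Finset.mem_univ _) h
    · intro c _ hc
      apply Finset.sum_eq_zero
      intro c' _
      have h2 : ¬ (s ∘ κ = c ∧ s' ∘ κ = c' ∧
              (∀ u, (∀ t, κ t ≠ u) → s u = s' u)) := fun h => hc h.1.symm
      rw [if_neg h2, ite_self]
    · intro h; exact absurd (Finset.mem_univ _) h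
  calc ptrace (κ ∘ ι) M a b
      = ∑ s : S → Fin d, ∑ s' : S → Fin d,
        (if s ∘ (κ ∘ ι) = a ∧ s' ∘ (κ ∘ ι) = b ∧ (∀ u, (∀ t, (κ ∘ ι) t ≠ u) → s u = s' u)
        then M s s' else 0) := rfl
    _ = ∑ s : S → Fin d, ∑ s' : S → Fin d, ∑ c : T → Fin d, ∑ c' : T → Fin d,
        if c ∘ ι = a ∧ c' ∘ ι = b ∧ (∀ u, (∀ t, ι t ≠ u) → c u = c' u) then
          (if s ∘ κ = c ∧ s' ∘ κ = c' ∧ (∀ u, (∀ t, κ t ≠ u) → s u = s' u)
            then M s s' else 0) else 0 := by
        simp_rw [key]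
    _ = ∑ c : T → Fin d, ∑ c' : T → Fin d, ∑ s : S → Fin d, ∑ s' : S → Fin d,
        if c ∘ ι = a ∧ c' ∘ ι = b ∧ (∀ u, (∀ t, ι t ≠ u) → c u = c' u) then
          (if s ∘ κ = c ∧ s' ∘ κ = c' ∧ (∀ u, (∀ t, κ t ≠ u) → s u = s' u)
            then M s s' else 0) else 0 := by
        rw [Finset.sum_congr rfl (fun s _ => Finset.sum_comm), Finset.sum_comm]
        refine Finset.sum_congr rfl (fun c _ => ?_)
        rw [Finset.sum_congr rfl (fun s _ => Finset.sum_comm), Finset.sum_comm]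
    _ = ptrace ι (ptrace κ M) a b := by
        unfold ptrace
        refine Finset.sum_congr rfl (fun c _ => Finset.sum_congr rfl (fun c' _ => ?_))
        split_ifs with h
        · rfl
        · simp

open Classical in
/-- Put the configuration `c` on the range of `κ` and `t` elsewhere. -/
noncomputable def glue (κ : T → S) (c : T → Fin d) (t : {u // ¬ u ∈ Set.range κ} → Fin d) :
    S → Fin d :=
  fun u => if h : u ∈ Set.range κ then c h.choose else t ⟨u, h⟩

theorem glue_apply_mem (κ : T → S) (hκ : Function.Injective κ) (c : T → Fin d)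
    (t : {u // ¬ u ∈ Set.range κ} → Fin d) (x : T) : glue κ c t (κ x) = c x := by
  unfold glue
  have h : κ x ∈ Set.range κ := ⟨x, rfl⟩
  rw [dif_pos h]
  exact congrArg c (hκ h.choose_spec)

theorem glue_apply_not_mem (κ : T → S) (c : T → Fin d)
    (t : {u // ¬ u ∈ Set.range κ} → Fin d) (u : S) (hu : ¬ u ∈ Set.range κ) :
    glue κ c t u = t ⟨u, hu⟩ := by
  unfold glue
  rw [dif_neg hu]

/-- configurations on `S` are pairs of configurations on the range of `κ` and off it -/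
noncomputable def glueEquiv (κ : T → S) (hκ : Function.Injective κ) :
    ((T → Fin d) × ({u // ¬ u ∈ Set.range κ} → Fin d)) ≃ (S → Fin d) where
  toFun p := glue κ p.1 p.2
  invFun s := (s ∘ κ, fun u => s u.1)
  left_inv := by
    rintro ⟨c, t⟩
    ext x
    · simp [glue_apply_mem κ hκ]
    · simp [glue_apply_not_mem κ c t x.1 x.2]
  right_inv := by
    intro s
    ext u
    by_cases hu : u ∈ Set.range κ
    · obtain ⟨x, rfl⟩ := hu
      simp [glue_apply_mem κ hκ]
    · simp [glue_apply_not_mem κ _ _ u hu]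

open Classical in
theorem ptrace_eq_glue (κ : T → S) (hκ : Function.Injective κ)
    (M : Matrix (S → Fin d) (S → Fin d) ℂ) (a b : T → Fin d) :
    ptrace κ M a b = ∑ t : {u // ¬ u ∈ Set.range κ} → Fin d, M (glue κ a t) (glue κ b t) := by
  have e1 : ptrace κ M a b = ∑ p : (T → Fin d) × ({u // ¬ u ∈ Set.range κ} → Fin d),
      ∑ q : (T → Fin d) × ({u // ¬ u ∈ Set.range κ} → Fin d),
        if p.1 = a ∧ q.1 = b ∧ p.2 = q.2 then M (glue κ p.1 p.2) (glue κ q.1 q.2) else 0 := by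
    unfold ptrace
    rw [← Equiv.sum_comp (glueEquiv κ hκ)]
    refine Finset.sum_congr rfl (fun p _ => ?_)
    rw [← Equiv.sum_comp (glueEquiv κ hκ)]
    refine Finset.sum_congr rfl (fun q _ => ?_)
    have h1 : (glueEquiv κ hκ p) ∘ κ = p.1 := by
      ext x; simp [glueEquiv, glue_apply_mem κ hκ]
    have h2 : (glueEquiv κ hκ q) ∘ κ = q.1 := by
      ext x; simp [glueEquiv, glue_apply_mem κ hκ]
    have h3 : (∀ u, (∀ t, κ t ≠ u) → (glueEquiv κ hκ p) u = (glueEquiv κ hκ q) u) ↔ p.2 = q.2 := by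
      constructor
      · intro h
        funext u
        have hu : ∀ t, κ t ≠ u.1 := fun t ht => u.2 ⟨t, ht⟩
        have := h u.1 hu
        simpa [glueEquiv, glue_apply_not_mem κ _ _ u.1 u.2] using this
      · intro h u hu
        have hu' : ¬ u ∈ Set.range κ := by
          rintro ⟨t, ht⟩; exact hu t ht
        simp [glueEquiv, glue_apply_not_mem κ _ _ u hu', h]
    have h4 : ((glueEquiv κ hκ p) ∘ κ = a ∧ (glueEquiv κ hκ q) ∘ κ = b ∧
        (∀ u, (∀ t, κ t ≠ u) → (glueEquiv κ hκ p) u = (glueEquiv κ hκ q) u)) ↔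
        (p.1 = a ∧ q.1 = b ∧ p.2 = q.2) := by
      rw [h1, h2, h3]
    by_cases h : p.1 = a ∧ q.1 = b ∧ p.2 = q.2
    · rw [if_pos h, if_pos (h4.2 h)]; rfl
    · rw [if_neg h, if_neg (fun h' => h (h4.1 h'))]
  rw [e1, Fintype.sum_prod_type]
  rw [Finset.sum_eq_single a]
  · refine Finset.sum_congr rfl (fun t _ => ?_)
    rw [Fintype.sum_prod_type, Finset.sum_eq_single b, Finset.sum_eq_single t]
    · simp
    · intro t' _ ht'
      rw [if_neg (fun h => ht' h.2.2.symm)]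
    · intro h; exact absurd (Finset.mem_univ _) h
    · intro b' _ hb'
      apply Finset.sum_eq_zero
      intro t' _
      rw [if_neg (fun h => hb' h.2.1)]
    · intro h; exact absurd (Finset.mem_univ _) h
  · intro a' _ ha'
    apply Finset.sum_eq_zero
    intro t _
    apply Finset.sum_eq_zero
    intro q _
    rw [if_neg (fun h => ha' h.1)]
  · intro h; exact absurd (Finset.mem_univ _) h

end Pool.Agent.Hhelper96.PEPS
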