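import Pool.Agent.Hhelper96.PEPS.Energy

/-!
If the spectral gap is stable under small translation invariant perturbations supported on `R`, the
reduced density matrices of the ground states on `R` converge as the torus grows.
-/

set_option autoImplicit false
set_option linter.unusedSectionVars false

open scoped BigOperators Topology ComplexOrder
open Matrix Filter

namespace Pool.Agent.Hhelper96.PEPS

section ltot

variable {d : ℕ} {F R W : Finset (ℤ × ℤ)} (hFW : F ⊆ W) (hRW : R ⊆ W)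
  (h : Matrix (F → Fin d) (F → Fin d) ℂ) (k : Matrix (R → Fin d) (R → Fin d) ℂ) (s : ℝ)

/-- energy per site of `H + s K` in terms of the marginal on `W ⊇ F ∪ R` -/
noncomputable def ltot (X : Matrix (W → Fin d) (W → Fin d) ℂ) : ℝ :=
  (ptf (fun p : F => (⟨p.1, hFW p.2⟩ : W)) h X).re + s * (ptf (fun p : R => (⟨p.1, hRW p.2⟩ : W)) k X).re

theorem exists_ltot_bound : ∃ C : ℝ, 0 ≤ C ∧ ∀ X Y : Matrix (W → Fin d) (W → Fin d) ℂ,
    |ltot hFW hRW h k s X - ltot hFW hRW h k s Y| ≤ C * traceNorm (X - Y) := by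
  obtain ⟨C₁, h1, hC₁⟩ := exists_functional_bound (ptf (fun p : F => (⟨p.1, hFW p.2⟩ : W)) h)
  obtain ⟨C₂, h2, hC₂⟩ := exists_functional_bound (ptf (fun p : R => (⟨p.1, hRW p.2⟩ : W)) k)
  refine ⟨C₁ + |s| * C₂, by positivity, fun X Y => ?_⟩
  have e1 : ltot hFW hRW h k s X - ltot hFW hRW h k s Y =
      (ptf (fun p : F => (⟨p.1, hFW p.2⟩ : W)) h (X - Y)).re +
        s * (ptf (fun p : R => (⟨p.1, hRW p.2⟩ : W)) k (X - Y)).re := by
    unfold ltot
    rw [map_sub, map_sub, Complex.sub_re, Complex.sub_re]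
    ring
  rw [e1]
  refine (abs_add_le _ _).trans ?_
  rw [abs_mul, add_mul, mul_assoc]
  exact add_le_add (hC₁ _) (mul_le_mul_of_nonneg_left (hC₂ _) (abs_nonneg s))

variable {L : ℕ} [NeZero L]

theorem ex_total (hW : ∀ v : Site L, Function.Injective (fun p : W => place L v p))
    {Φ : (Site L → Fin d) → ℂ} (hΦ : Φ ≠ 0) :
    ex (hamiltonian L F h + (s : ℂ) • hamiltonian L R k) Φ =
      sqn Φ * ∑ v : Site L, ltot hFW hRW h k s (reduced L W v Φ) := by
  rw [ex_add, ex_smul]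
  unfold hamiltonian
  rw [ex_sum, ex_sum, Finset.mul_sum, Finset.mul_sum, ← Finset.sum_add_distrib]
  refine Finset.sum_congr rfl (fun v _ => ?_)
  rw [ex_localTerm F h v hΦ, ex_localTerm R k v hΦ, reduced_incl hFW v (hW v),
    reduced_incl hRW v (hW v)]
  unfold ltot enf ptf
  simp only [LinearMap.coe_mk, AddHom.coe_mk]
  ring

theorem isHermitian_total {h : Matrix (F → Fin d) (F → Fin d) ℂ}
    {k : Matrix (R → Fin d) (R → Fin d) ℂ} (hh : h.IsHermitian) (hk : k.IsHermitian) (s : ℝ) :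
    (hamiltonian L F h + (s : ℂ) • hamiltonian L R k).IsHermitian := by
  refine (hamiltonian_isHermitian hh).add ?_
  unfold Matrix.IsHermitian
  rw [Matrix.conjTranspose_smul, (hamiltonian_isHermitian hk).eq]
  congr 1
  exact Complex.conj_ofReal s

/-- ground state energy in terms of the marginal -/
theorem energy_eq {h : Matrix (F → Fin d) (F → Fin d) ℂ} {k : Matrix (R → Fin d) (R → Fin d) ℂ}
    (hW : ∀ v : Site L, Function.Injective (fun p : W => place L v p)) (s : ℝ) {Δ : ℝ} (hΔ : 0 < Δ)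
    {φ : (Site L → Fin d) → ℂ}
    (hg : IsGappedGround (hamiltonian L F h + (s : ℂ) • hamiltonian L R k) Δ φ) {E : ℝ} {c : ℂ}
    (hc : c ≠ 0)
    (hgs : GS (hamiltonian L F h + (s : ℂ) • hamiltonian L R k) Δ E (c • φ)) :
    E = (L : ℝ) ^ 2 * ltot hFW hRW h k s (reduced L W 0 φ) := by
  have hne : c • φ ≠ 0 := by
    intro h0
    have h1 := hgs.1
    rw [h0] at h1
    unfold sqn at h1
    simp at h1
  have h1 := ex_total hFW hRW h k s hW hne
  rw [hgs.ex_eq, hgs.1, one_mul] at h1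
  rw [h1]
  have h2 : ∀ v : Site L, ltot hFW hRW h k s (reduced L W v (c • φ)) =
      ltot hFW hRW h k s (reduced L W 0 φ) := by
    intro v
    rw [reduced_smul W v hc, reduced_eq_of_TI (sum_TI F R h k s) hΔ hg W v]
  rw [Finset.sum_congr rfl (fun v _ => h2 v), Finset.sum_const, Finset.card_univ,
    Fintype.card_prod, ZMod.card, nsmul_eq_mul]
  push_cast
  ring

end ltot

/-- the energy density of the ground states on square tori converges -/
theorem energy_converges {d : ℕ} {F R W : Finset (ℤ × ℤ)} (hFW : F ⊆ W) (hRW : R ⊆ W)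
    {r : ℕ} (hr : 1 ≤ r) (a b : ℤ)
    (hW : ∀ p ∈ W, a ≤ p.1 ∧ p.1 < a + r ∧ b ≤ p.2 ∧ p.2 < b + r)
    {h : Matrix (F → Fin d) (F → Fin d) ℂ} {k : Matrix (R → Fin d) (R → Fin d) ℂ}
    (hh : h.IsHermitian) (hk : k.IsHermitian) (s Δ : ℝ) (hΔ : 0 < Δ)
    (φ : ∀ n : ℕ, (Site (n + 1) → Fin d) → ℂ)
    (hφ : ∀ᶠ n in atTop,
      IsGappedGround (hamiltonian (n + 1) F h + (s : ℂ) • hamiltonian (n + 1) R k) Δ (φ n)) :
    ∃ l, Tendsto (fun n => ltot hFW hRW h k s (reduced (n + 1) W 0 (φ n))) atTop (𝓝 l) := by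
  obtain ⟨C, hC0, hC⟩ := exists_ltot_bound hFW hRW h k s
  have hinj : ∀ n : ℕ, r ≤ n + 1 → ∀ v : Site (n + 1),
      Function.Injective (fun p : W => place (n + 1) v p) :=
    fun n hn v => place_injective hn W a b hW v
  apply tendsto_of_almost_decreasing (B := C * 1)
  · filter_upwards [hφ, eventually_ge_atTop r] with n h1 h2
    have h3 := hC (reduced (n + 1) W 0 (φ n)) 0
    have h4 : ltot hFW hRW h k s (0 : Matrix (W → Fin d) (W → Fin d) ℂ) = 0 := by
      unfold ltot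
      rw [map_zero, map_zero]
      simp
    rw [h4, sub_zero, sub_zero] at h3
    refine h3.trans (mul_le_mul_of_nonneg_left ?_ hC0)
    have h5 := posSemidef_reduced (r := r) (by omega : r ≤ n + 1) W a b hW 0 h1.1
    refine (traceNorm_posSemidef_le h5.1).trans ?_
    rw [h5.2]
    simp
  · intro ε hε
    obtain ⟨ε', hε'⟩ : ∃ ε', ε' = ε / (C + 1) := ⟨_, rfl⟩
    have hε'pos : 0 < ε' := by rw [hε']; positivity
    have hCε : C * ε' ≤ ε := by
      rw [hε', mul_div_assoc', div_le_iff₀ (by positivity)]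
      nlinarith
    filter_upwards [hφ, eventually_ge_atTop (boxSide r ε')] with n h1 h2
    obtain ⟨D, _, A, hA⟩ := core_uniform d r hr hε'pos W a b hW (n + 1) (by omega) (φ n) h1.1
      (fun w => reduced_eq_of_TI (sum_TI F R h k s) hΔ h1 W w)
    filter_upwards [hφ, eventually_ge_atTop ((2 * boxSide r ε' + 2) ^ 2),
      eventually_ge_atTop ((2 * boxSide r ε' + 3) * W.card), eventually_ge_atTop r] with j h3 h4 h5 h6
    obtain ⟨h7, h8⟩ := hA (j + 1) (by omega) (by omega)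
    obtain ⟨Φ, hΦ⟩ : ∃ Φ, Φ = pepsVec (j + 1) A := ⟨_, rfl⟩
    rw [← hΦ] at h7 h8
    obtain ⟨E, c, hc, hgs⟩ := gs_of_gapped (isHermitian_total hh hk s) hΔ h3
    have h9 := energy_eq hFW hRW (hinj j (by omega)) s hΔ h3 hc hgs
    have h10 := hgs.le (isHermitian_total hh hk s) hΔ.le Φ
    rw [ex_total hFW hRW h k s (hinj j (by omega)) h7, mul_comm] at h10
    have h11 := le_of_mul_le_mul_left h10 (sqn_pos h7)
    have h12 : ∀ v : Site (j + 1), ltot hFW hRW h k s (reduced (j + 1) W v Φ) ≤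
        ltot hFW hRW h k s (reduced (n + 1) W 0 (φ n)) + ε := by
      intro v
      have h13 := (abs_le.1 (hC (reduced (j + 1) W v Φ) (reduced (n + 1) W 0 (φ n)))).2
      have h14 : C * traceNorm (reduced (j + 1) W v Φ - reduced (n + 1) W 0 (φ n)) ≤ C * ε' :=
        mul_le_mul_of_nonneg_left ((h8 v).trans (error_lt r hε'pos).le) hC0
      linarith
    have h15 : ∑ v : Site (j + 1), ltot hFW hRW h k s (reduced (j + 1) W v Φ) ≤
        ((j + 1 : ℕ) : ℝ) ^ 2 * (ltot hFW hRW h k s (reduced (n + 1) W 0 (φ n)) + ε) := by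
      refine (Finset.sum_le_sum (fun v _ => h12 v)).trans ?_
      rw [Finset.sum_const, Finset.card_univ, Fintype.card_prod, ZMod.card, nsmul_eq_mul]
      push_cast
      apply le_of_eq
      ring
    rw [h9] at h11
    have h16 : (0 : ℝ) < ((j + 1 : ℕ) : ℝ) ^ 2 := by positivity
    exact le_of_mul_le_mul_left (h11.trans h15) h16

/-- expectation values of local observables converge when the gap is stable in their direction -/
theorem stable_converges {d : ℕ} {F R : Finset (ℤ × ℤ)}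
    {h : Matrix (F → Fin d) (F → Fin d) ℂ} {k : Matrix (R → Fin d) (R → Fin d) ℂ}
    (hh : h.IsHermitian) (hk : k.IsHermitian) {Δ : ℝ} (hΔ : 0 < Δ)
    (ψ : ∀ n : ℕ, (Site (n + 1) → Fin d) → ℂ)
    (hψ : ∀ᶠ n in atTop, IsGappedGround (hamiltonian (n + 1) F h) Δ (ψ n))
    {η Δ' : ℝ} (hη : 0 < η) (hΔ' : 0 < Δ')
    (hst : ∀ᶠ n in atTop, ∀ s ∈ Set.Icc (0 : ℝ) η, ∃ φ : (Site (n + 1) → Fin d) → ℂ,
      IsGappedGround (hamiltonian (n + 1) F h + (s : ℂ) • hamiltonian (n + 1) R k) Δ' φ) :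
    ∃ l, Tendsto (fun n => enf k (reduced (n + 1) R 0 (ψ n))) atTop (𝓝 l) := by
  classical
  obtain ⟨W, hWd⟩ : ∃ W, W = F ∪ R := ⟨_, rfl⟩
  have hFW : F ⊆ W := by rw [hWd]; exact Finset.subset_union_left
  have hRW : R ⊆ W := by rw [hWd]; exact Finset.subset_union_right
  obtain ⟨r, a, b, hr, hW⟩ := exists_box W
  have hinj : ∀ n : ℕ, r ≤ n + 1 → ∀ v : Site (n + 1),
      Function.Injective (fun p : W => place (n + 1) v p) :=
    fun n hn v => place_injective hn W a b hW v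
  have hinjF : ∀ n : ℕ, r ≤ n + 1 → ∀ v : Site (n + 1),
      Function.Injective (fun p : F => place (n + 1) v p) :=
    fun n hn v => place_injective hn F a b (fun p hp => hW p (hFW hp)) v
  have hinjR : ∀ n : ℕ, r ≤ n + 1 → ∀ v : Site (n + 1),
      Function.Injective (fun p : R => place (n + 1) v p) :=
    fun n hn v => place_injective hn R a b (fun p hp => hW p (hRW hp)) v
  -- the common gap
  obtain ⟨Δm, hΔm⟩ : ∃ Δm, Δm = min Δ Δ' := ⟨_, rfl⟩
  have hΔm0 : 0 < Δm := by rw [hΔm]; exact lt_min hΔ hΔ'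
  -- energy densities
  obtain ⟨e0, he0⟩ : ∃ l, Tendsto (fun n => ltot hFW hRW h k 0 (reduced (n + 1) W 0 (ψ n)))
      atTop (𝓝 l) := by
    apply energy_converges hFW hRW hr a b hW hh hk 0 Δ hΔ ψ
    filter_upwards [hψ] with n hn
    simpa using hn
  -- the constant
  obtain ⟨M, hM⟩ : ∃ M : ℝ, M = (4 * (locBd k * locBd h * locBd k)) *
    (F.card * R.card * (R.card * R.card + R.card * F.card)) := ⟨_, rfl⟩
  have hM0 : 0 ≤ M := by
    rw [hM]
    have := locBd_nonneg k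
    have := locBd_nonneg h
    positivity
  obtain ⟨C, hC⟩ : ∃ C : ℝ, C = M / Δm ^ 2 := ⟨_, rfl⟩
  have hC0 : 0 ≤ C := by rw [hC]; positivity
  -- the sandwich
  have key : ∀ t ∈ Set.Ioc (0 : ℝ) η, ∃ l, ∀ ε > 0, ∀ᶠ n in atTop,
      |enf k (reduced (n + 1) R 0 (ψ n)) - l| ≤ C * t + ε := by
    intro t ht
    -- ground states at parameter t
    have hex : ∀ n : ℕ, ∃ φ : (Site (n + 1) → Fin d) → ℂ, (∃ φ' : (Site (n + 1) → Fin d) → ℂ,
        IsGappedGround (hamiltonian (n + 1) F h + (t : ℂ) • hamiltonian (n + 1) R k) Δ' φ') →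
        IsGappedGround (hamiltonian (n + 1) F h + (t : ℂ) • hamiltonian (n + 1) R k) Δ' φ := by
      intro n
      by_cases hex' : ∃ φ' : (Site (n + 1) → Fin d) → ℂ,
        IsGappedGround (hamiltonian (n + 1) F h + (t : ℂ) • hamiltonian (n + 1) R k) Δ' φ'
      · obtain ⟨φ', h'⟩ := hex'
        exact ⟨φ', fun _ => h'⟩
      · exact ⟨0, fun h' => absurd h' hex'⟩
    choose φ hφ using hex
    have hφg : ∀ᶠ n in atTop,
        IsGappedGround (hamiltonian (n + 1) F h + (t : ℂ) • hamiltonian (n + 1) R k) Δ' (φ n) := by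
      filter_upwards [hst] with n hn
      exact hφ n (hn t ⟨ht.1.le, ht.2⟩)
    obtain ⟨e1, he1⟩ := energy_converges hFW hRW hr a b hW hh hk t Δ' hΔ' φ hφg
    refine ⟨(e1 - e0) / t, fun ε hε => ?_⟩
    have hlim : Tendsto (fun n => (ltot hFW hRW h k t (reduced (n + 1) W 0 (φ n)) -
        ltot hFW hRW h k 0 (reduced (n + 1) W 0 (ψ n))) / t) atTop (𝓝 ((e1 - e0) / t)) :=
      (he1.sub he0).div_const t
    have hev := Metric.tendsto_atTop.1 hlim ε hε
    obtain ⟨n₀, hn₀⟩ := hev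
    filter_upwards [hψ, hst, hφg, eventually_ge_atTop r, eventually_ge_atTop n₀] with n h1 h2 h3 h4 h5
    have h6 := hn₀ n h5
    rw [Real.dist_eq] at h6
    -- notation
    obtain ⟨H, hH⟩ : ∃ H, H = hamiltonian (n + 1) F h := ⟨_, rfl⟩
    obtain ⟨K, hK⟩ : ∃ K, K = hamiltonian (n + 1) R k := ⟨_, rfl⟩
    have hHh : H.IsHermitian := by rw [hH]; exact hamiltonian_isHermitian hh
    have hKh : K.IsHermitian := by rw [hK]; exact hamiltonian_isHermitian hk
    obtain ⟨V, hV⟩ : ∃ V : ℝ, V = M * ((n + 1 : ℕ) : ℝ) ^ 2 / (2 * Δm) := ⟨_, rfl⟩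
    have hV0 : 0 ≤ V := by rw [hV]; positivity
    -- variance bound
    have hvar : ∀ (s E : ℝ) (χ : (Site (n + 1) → Fin d) → ℂ), GS (H + (s : ℂ) • K) Δm E χ →
        sqn (K.mulVec χ - ((ex K χ : ℝ) : ℂ) • χ) ≤ V := by
      intro s E χ hgs
      have hHs : (H + (s : ℂ) • K).IsHermitian := by
        rw [hH, hK]; exact isHermitian_total hh hk s
      have e1 := variance_le hHs hKh hgs
      have e2 : (H + (s : ℂ) • K) * K - K * (H + (s : ℂ) • K) = H * K - K * H := by
        rw [add_mul, mul_add, smul_mul_assoc, mul_smul_comm]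
        abel
      rw [e2, hH, hK] at e1
      have e3 := dcomm_le F R h k (hinjF n (by omega)) (hinjR n (by omega)) χ
      rw [hgs.1, mul_one, ← hM] at e3
      rw [← hH, ← hK] at e1 e3
      rw [hV, le_div_iff₀ (by positivity)]
      nlinarith
    -- bound on K
    obtain ⟨B, hB⟩ : ∃ B : ℝ, B = ((n + 1 : ℕ) : ℝ) ^ 2 * locBd k := ⟨_, rfl⟩
    have hB0 : 0 ≤ B := by rw [hB]; exact mul_nonneg (by positivity) (locBd_nonneg k)
    have hKB : ∀ χ, |ex K χ| ≤ B * sqn χ := by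
      intro χ
      rw [hK]
      unfold hamiltonian
      rw [ex_sum]
      refine (Finset.abs_sum_le_sum_abs _ _).trans ?_
      have e1 : ∀ v : Site (n + 1), |ex (localTerm (n + 1) R k v) χ| ≤ locBd k * sqn χ := by
        intro v
        rw [localTerm_eq_opAt]
        exact (bd_opAt (hinjR n (by omega) v) k).abs_ex_le χ
      refine (Finset.sum_le_sum (fun v _ => e1 v)).trans ?_
      rw [Finset.sum_const, Finset.card_univ, Fintype.card_prod, ZMod.card, nsmul_eq_mul, hB]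
      push_cast
      apply le_of_eq
      ring
    -- ground states on the segment
    have hseg : ∀ s ∈ Set.Icc (0 : ℝ) t, ∃ E χ, GS (H + (s : ℂ) • K) Δm E χ ∧
        sqn (K.mulVec χ - ((ex K χ : ℝ) : ℂ) • χ) ≤ V := by
      intro s hs
      obtain ⟨φs, hφs⟩ := h2 s ⟨hs.1, hs.2.trans ht.2⟩
      obtain ⟨E, c, _, hgs⟩ := gs_of_gapped (isHermitian_total hh hk s) hΔ' hφs
      rw [← hH, ← hK] at hgs
      have hgs' := hgs.mono (Δ' := Δm) (by rw [hΔm]; exact min_le_right _ _)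
      exact ⟨E, _, hgs', hvar s E _ hgs'⟩
    -- at zero
    have h1' : IsGappedGround (hamiltonian (n + 1) F h + ((0 : ℝ) : ℂ) • hamiltonian (n + 1) R k) Δ
        (ψ n) := by simpa using h1
    obtain ⟨E₀, c₀, hc₀, hgs₀⟩ := gs_of_gapped (isHermitian_total hh hk 0) hΔ h1'
    have hE₀ := energy_eq hFW hRW (hinj n (by omega)) 0 hΔ h1' hc₀ hgs₀
    rw [← hH, ← hK] at hgs₀
    have hgs₀' := hgs₀.mono (Δ' := Δm) (by rw [hΔm]; exact min_le_left _ _)
    have hgs₀'' : GS H Δm E₀ (c₀ • ψ n) := by simpa using hgs₀'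
    -- at t
    obtain ⟨E₁, c₁, hc₁, hgs₁⟩ := gs_of_gapped (isHermitian_total hh hk t) hΔ' h3
    have hE₁ := energy_eq hFW hRW (hinj n (by omega)) t hΔ' h3 hc₁ hgs₁
    rw [← hH, ← hK] at hgs₁
    have hgs₁' := hgs₁.mono (Δ' := Δm) (by rw [hΔm]; exact min_le_right _ _)
    -- expectation of K
    have hne : c₀ • ψ n ≠ 0 := smul_ne_zero hc₀ h1.1
    have hgK : ex K (c₀ • ψ n) = ((n + 1 : ℕ) : ℝ) ^ 2 * enf k (reduced (n + 1) R 0 (ψ n)) := by
      rw [hK]
      unfold hamiltonian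
      rw [ex_sum]
      have e1 : ∀ v : Site (n + 1), ex (localTerm (n + 1) R k v) (c₀ • ψ n) =
          enf k (reduced (n + 1) R 0 (ψ n)) := by
        intro v
        rw [ex_localTerm R k v hne, hgs₀.1, one_mul, reduced_smul R v hc₀,
          reduced_eq_of_gapped F h hΔ h1 R v]
      rw [Finset.sum_congr rfl (fun v _ => e1 v), Finset.sum_const, Finset.card_univ,
        Fintype.card_prod, ZMod.card, nsmul_eq_mul]
      push_cast
      ring
    have hchain := chain hHh hKh hΔm0 hV0 ht.1 hB0 hKB hseg hgs₀''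
      (hvar 0 E₀ _ hgs₀') hgs₁'
    have hHt : (H + (t : ℂ) • K).IsHermitian := by
      rw [hH, hK]; exact isHermitian_total hh hk t
    have hup := hgs₁'.le hHt hΔm0.le (c₀ • ψ n)
    rw [hgs₀.1, mul_one, ex_add, ex_smul, hgs₀''.ex_eq] at hup
    rw [hgK] at hchain hup
    -- divide by the volume
    obtain ⟨q, hq⟩ : ∃ q : ℝ, q = ((n + 1 : ℕ) : ℝ) ^ 2 := ⟨_, rfl⟩
    have hq0 : 0 < q := by rw [hq]; positivity
    rw [← hq] at hE₀ hE₁ hchain hup hV
    obtain ⟨g, hg⟩ : ∃ g, g = enf k (reduced (n + 1) R 0 (ψ n)) := ⟨_, rfl⟩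
    obtain ⟨x0, hx0⟩ : ∃ x0, x0 = ltot hFW hRW h k 0 (reduced (n + 1) W 0 (ψ n)) := ⟨_, rfl⟩
    obtain ⟨x1, hx1⟩ : ∃ x1, x1 = ltot hFW hRW h k t (reduced (n + 1) W 0 (φ n)) := ⟨_, rfl⟩
    rw [← hg] at hchain hup ⊢
    rw [← hx0] at hE₀ h6
    rw [← hx1] at hE₁ h6
    have ht0 := ht.1
    have hu : x1 ≤ x0 + t * g := by
      have : q * x1 ≤ q * (x0 + t * g) := by rw [← hE₁]; rw [hE₀] at hup; linarith
      exact le_of_mul_le_mul_left this hq0
    have hl : x0 + t * g - t ^ 2 * C ≤ x1 := by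
      have e1 : 2 * t ^ 2 * V / Δm = q * (t ^ 2 * C) := by
        rw [hV, hC]
        field_simp
      rw [e1, hE₀, hE₁] at hchain
      have : q * (x0 + t * g - t ^ 2 * C) ≤ q * x1 := by linarith
      exact le_of_mul_le_mul_left this hq0
    have h7 : |g - (x1 - x0) / t| ≤ C * t := by
      rw [abs_le]
      constructor
      · have : (x1 - x0) / t ≤ g := by
          rw [div_le_iff₀ ht0]; linarith
        have h8 : 0 ≤ C * t := by positivity
        linarith
      · have : g - C * t ≤ (x1 - x0) / t := by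
          rw [le_div_iff₀ ht0]
          nlinarith
        linarith
    calc |g - (e1 - e0) / t| = |(g - (x1 - x0) / t) + ((x1 - x0) / t - (e1 - e0) / t)| := by
          congr 1; ring
      _ ≤ |g - (x1 - x0) / t| + |(x1 - x0) / t - (e1 - e0) / t| := abs_add_le _ _
      _ ≤ C * t + ε := add_le_add h7 h6.le
  -- Cauchy
  have hcau : CauchySeq (fun n => enf k (reduced (n + 1) R 0 (ψ n))) := by
    rw [Metric.cauchySeq_iff']
    intro ε hε
    obtain ⟨t, ht⟩ : ∃ t, t = min η (ε / (8 * (C + 1))) := ⟨_, rfl⟩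
    have ht0 : 0 < t := by rw [ht]; exact lt_min hη (by positivity)
    have htη : t ≤ η := by rw [ht]; exact min_le_left _ _
    have htC : C * t ≤ ε / 8 := by
      have h1 : t ≤ ε / (8 * (C + 1)) := by rw [ht]; exact min_le_right _ _
      have h2 : C * t ≤ C * (ε / (8 * (C + 1))) := mul_le_mul_of_nonneg_left h1 hC0
      have h3 : C * (ε / (8 * (C + 1))) ≤ ε / 8 := by
        rw [mul_div_assoc', div_le_div_iff₀ (by positivity) (by norm_num)]
        nlinarith
      linarith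
    obtain ⟨l, hl⟩ := key t ⟨ht0, htη⟩
    obtain ⟨n₀, hn₀⟩ := eventually_atTop.1 (hl (ε / 8) (by positivity))
    refine ⟨n₀, fun n hn => ?_⟩
    have h1 := hn₀ n hn
    have h2 := hn₀ n₀ le_rfl
    rw [Real.dist_eq]
    calc |enf k (reduced (n + 1) R 0 (ψ n)) - enf k (reduced (n₀ + 1) R 0 (ψ n₀))| =
          |(enf k (reduced (n + 1) R 0 (ψ n)) - l) -
            (enf k (reduced (n₀ + 1) R 0 (ψ n₀)) - l)| := by congr 1; ring
      _ ≤ |enf k (reduced (n + 1) R 0 (ψ n)) - l| +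
            |enf k (reduced (n₀ + 1) R 0 (ψ n₀)) - l| := abs_sub _ _
      _ < ε := by linarith
  exact cauchySeq_tendsto_of_complete hcau

end Pool.Agent.Hhelper96.PEPS
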