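import Pool.Agent.Hhelper96.PEPS.Cell
import Pool.Agent.Hhelper96.PEPS.Bound

/-!
Translation invariance of the marginals of a nondegenerate ground state, and the two final forms.
-/

set_option autoImplicit false
set_option linter.unusedSectionVars false

open scoped BigOperators ComplexOrder Topology
open Matrix Filter

namespace Pool.Agent.Hhelper96.PEPS

variable {d : ℕ} {L : ℕ} [NeZero L]

/-- translate a configuration -/
def tr (t : Site L) (s : Site L → Fin d) : Site L → Fin d := fun u => s (u + t)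

theorem place_add (t v : Site L) (p : ℤ × ℤ) : place L v p + t = place L (v + t) p := by
  unfold place
  ext
  · simp; ring
  · simp; ring

open Classical in
theorem localTerm_tr (F : Finset (ℤ × ℤ)) (h : Matrix (F → Fin d) (F → Fin d) ℂ) (v t : Site L)
    (s s' : Site L → Fin d) :
    localTerm L F h v (tr t s) (tr t s') = localTerm L F h (v + t) s s' := by
  unfold localTerm
  have h1 : (∀ u, (∀ p : F, place L v p ≠ u) → tr t s u = tr t s' u) ↔
      (∀ u, (∀ p : F, place L (v + t) p ≠ u) → s u = s' u) := by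
    constructor
    · intro H u hu
      have := H (u - t) (fun p hp => hu p (by rw [← place_add, hp, sub_add_cancel]))
      unfold tr at this
      rwa [sub_add_cancel] at this
    · intro H u hu
      unfold tr
      apply H
      intro p hp
      apply hu p
      rw [← place_add] at hp
      exact add_right_cancel hp
  have h2 : ∀ σ : Site L → Fin d, (fun p : F => tr t σ (place L v p)) =
      (fun p : F => σ (place L (v + t) p)) := by
    intro σ
    funext p
    unfold tr
    rw [place_add]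
  rw [h2, h2]
  by_cases h3 : ∀ u, (∀ p : F, place L (v + t) p ≠ u) → s u = s' u
  · rw [if_pos h3, if_pos (h1.2 h3)]
  · rw [if_neg h3, if_neg (fun hh => h3 (h1.1 hh))]

theorem hamiltonian_tr (F : Finset (ℤ × ℤ)) (h : Matrix (F → Fin d) (F → Fin d) ℂ) (t : Site L)
    (s s' : Site L → Fin d) :
    hamiltonian L F h (tr t s) (tr t s') = hamiltonian L F h s s' := by
  unfold hamiltonian
  rw [Matrix.sum_apply, Matrix.sum_apply]
  simp_rw [localTerm_tr]
  exact Equiv.sum_comp (Equiv.addRight t) (fun v => localTerm L F h v s s')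

/-- translations as a permutation of configurations -/
def trEquiv (t : Site L) : (Site L → Fin d) ≃ (Site L → Fin d) where
  toFun := tr t
  invFun := tr (-t)
  left_inv := by intro s; funext u; simp [tr]
  right_inv := by intro s; funext u; simp [tr]

theorem density_tr (F : Finset (ℤ × ℤ)) (h : Matrix (F → Fin d) (F → Fin d) ℂ) {Δ : ℝ}
    (hΔ : 0 < Δ) {ψ : (Site L → Fin d) → ℂ} (hg : IsGappedGround (hamiltonian L F h) Δ ψ)
    (t : Site L) (s s' : Site L → Fin d) : density ψ (tr t s) (tr t s') = density ψ s s' := by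
  obtain ⟨hne, E₀, hE, hgap⟩ := hg
  set φ : (Site L → Fin d) → ℂ := fun s => ψ (tr t s) with hφ
  have hφne : φ ≠ 0 := by
    intro h0
    apply hne
    funext s
    have := congrFun h0 ((trEquiv t).symm s)
    simp only [hφ] at this
    have h2 : tr t ((trEquiv t).symm s) = s := (trEquiv t).apply_symm_apply s
    rw [h2] at this
    exact this
  have hφE : (hamiltonian L F h).mulVec φ = (E₀ : ℂ) • φ := by
    funext s
    have h1 : (hamiltonian L F h).mulVec φ s = (hamiltonian L F h).mulVec ψ (tr t s) := by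
      unfold Matrix.mulVec dotProduct
      rw [← Equiv.sum_comp (trEquiv (d := d) t)
        (fun s' => hamiltonian L F h (tr t s) s' * ψ s')]
      refine Finset.sum_congr rfl (fun s' _ => ?_)
      have : (trEquiv (d := d) t) s' = tr t s' := rfl
      rw [this, hamiltonian_tr]
    rw [h1, hE]
    rfl
  rcases hgap E₀ φ hφne hφE with ⟨c, hc⟩ | h1
  · have hn : ∑ s, ‖φ s‖ ^ 2 = ∑ s, ‖ψ s‖ ^ 2 :=
      Equiv.sum_comp (trEquiv (d := d) t) (fun s => ‖ψ s‖ ^ 2)
    have hn2 : ∑ s, ‖φ s‖ ^ 2 = ‖c‖ ^ 2 * ∑ s, ‖ψ s‖ ^ 2 := by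
      rw [hc, Finset.mul_sum]
      refine Finset.sum_congr rfl (fun s _ => ?_)
      rw [Pi.smul_apply, smul_eq_mul, norm_mul, mul_pow]
    have hpos : 0 < ∑ s, ‖ψ s‖ ^ 2 := by
      obtain ⟨s, hs⟩ : ∃ s, ψ s ≠ 0 := by
        by_contra hcon
        push Not at hcon
        exact hne (funext hcon)
      apply Finset.sum_pos'
      · intro _ _; positivity
      · exact ⟨s, Finset.mem_univ _, by positivity⟩
    have hc1 : ‖c‖ ^ 2 = 1 := by
      have h3 : ‖c‖ ^ 2 * ∑ s, ‖ψ s‖ ^ 2 = 1 * ∑ s, ‖ψ s‖ ^ 2 := by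
        rw [one_mul, ← hn2, hn]
      exact mul_right_cancel₀ hpos.ne' h3
    have hcc : c * star c = 1 := by
      rw [mul_star_self, hc1]; simp
    unfold density
    have e1 : ψ (tr t s) = c * ψ s := congrFun hc s
    have e2 : ψ (tr t s') = c * ψ s' := congrFun hc s'
    rw [e1, e2, star_mul]
    congr 1
    calc c * ψ s * (star (ψ s') * star c) = (c * star c) * (ψ s * star (ψ s')) := by ring
      _ = ψ s * star (ψ s') := by rw [hcc, one_mul]
  · exfalso; linarith

open Classical in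
theorem reduced_eq_of_gapped (F : Finset (ℤ × ℤ)) (h : Matrix (F → Fin d) (F → Fin d) ℂ) {Δ : ℝ}
    (hΔ : 0 < Δ) {ψ : (Site L → Fin d) → ℂ} (hg : IsGappedGround (hamiltonian L F h) Δ ψ)
    (R : Finset (ℤ × ℤ)) (w : Site L) : reduced L R w ψ = reduced L R 0 ψ := by
  ext a b
  unfold reduced ptrace
  rw [← Equiv.sum_comp (trEquiv (d := d) w) (fun s => ∑ s' : Site L → Fin d,
    if s ∘ (fun p : R => place L 0 p) = a ∧ s' ∘ (fun p : R => place L 0 p) = b ∧
      ∀ u, (∀ t : R, place L 0 t ≠ u) → s u = s' u then density ψ s s' else 0)]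
  refine Finset.sum_congr rfl (fun s _ => ?_)
  rw [← Equiv.sum_comp (trEquiv (d := d) w) (fun s' =>
    if (trEquiv (d := d) w s) ∘ (fun p : R => place L 0 p) = a ∧
      s' ∘ (fun p : R => place L 0 p) = b ∧
      ∀ u, (∀ t : R, place L 0 t ≠ u) → (trEquiv (d := d) w s) u = s' u
      then density ψ (trEquiv (d := d) w s) s' else 0)]
  refine Finset.sum_congr rfl (fun s' _ => ?_)
  have h1 : ∀ σ : Site L → Fin d, (trEquiv (d := d) w σ) ∘ (fun p : R => place L 0 p) =
      σ ∘ (fun p : R => place L w p) := by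
    intro σ
    funext p
    change σ (place L 0 p + w) = σ (place L w p)
    rw [place_add, zero_add]
  have h2 : (∀ u, (∀ t : R, place L 0 t ≠ u) → (trEquiv (d := d) w s) u = (trEquiv (d := d) w s') u) ↔
      (∀ u, (∀ t : R, place L w t ≠ u) → s u = s' u) := by
    constructor
    · intro H u hu
      have := H (u - w) (fun p hp => hu p (by
        have h3 : place L 0 p + w = place L w p := by rw [place_add, zero_add]
        rw [← h3, hp, sub_add_cancel]))
      change s (u - w + w) = s' (u - w + w) at this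
      rwa [sub_add_cancel] at this
    · intro H u hu
      change s (u + w) = s' (u + w)
      apply H
      intro p hp
      apply hu p
      have h3 : place L 0 p + w = place L w p := by rw [place_add, zero_add]
      rw [← h3] at hp
      exact add_right_cancel hp
  have h3 : density ψ (trEquiv (d := d) w s) (trEquiv (d := d) w s') = density ψ s s' :=
    density_tr F h hΔ hg w s s'
  have h4 : ((trEquiv (d := d) w s) ∘ (fun p : R => place L 0 p) = a ∧
      (trEquiv (d := d) w s') ∘ (fun p : R => place L 0 p) = b ∧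
      ∀ u, (∀ t : R, place L 0 t ≠ u) → (trEquiv (d := d) w s) u = (trEquiv (d := d) w s') u) ↔
      (s ∘ (fun p : R => place L w p) = a ∧ s' ∘ (fun p : R => place L w p) = b ∧
      ∀ u, (∀ t : R, place L w t ≠ u) → s u = s' u) := by
    rw [h1, h1, h2]
  by_cases hh : s ∘ (fun p : R => place L w p) = a ∧ s' ∘ (fun p : R => place L w p) = b ∧
      ∀ u, (∀ t : R, place L w t ≠ u) → s u = s' u
  · rw [if_pos hh, if_pos (h4.2 hh), h3]
  · rw [if_neg hh, if_neg (fun h' => hh (h4.1 h'))]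

theorem card_hid (m d : ℕ) : Fintype.card (Hid (2 * m) m d) =
    (2 * m + 3) * (m + 3) * (d ^ (2 * m ^ 2) + 1) := by
  simp only [Hid, Fintype.card_prod, Fintype.card_fin, Fintype.card_option, Fintype.card_fun]
  ring_nf

theorem error_lt (r : ℕ) {ε : ℝ} (hε : 0 < ε) : (4 * r + 5 : ℝ) / (boxSide r ε : ℕ) < ε := by
  have h1 : (4 * r + 5 : ℝ) / ε ≤ ⌈(4 * r + 5 : ℝ) / ε⌉₊ := Nat.le_ceil _
  have h2 : (⌈(4 * r + 5 : ℝ) / ε⌉₊ : ℝ) < (boxSide r ε : ℕ) := by
    unfold boxSide
    push_cast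
    have : (0 : ℝ) ≤ r := Nat.cast_nonneg r
    linarith
  have h3 : (4 * r + 5 : ℝ) / ε < (boxSide r ε : ℕ) := lt_of_le_of_lt h1 h2
  have h4 : (0 : ℝ) < (boxSide r ε : ℕ) := lt_trans (by positivity) h3
  rw [div_lt_iff₀ hε] at h3
  rw [div_lt_iff₀ h4]
  linarith

/-- trivial case of one-dimensional sites -/
theorem core_trivial (d : ℕ) (hd : d ≤ 1) (R : Finset (ℤ × ℤ)) (r : ℕ) (_hr : 1 ≤ r) (a b : ℤ)
    (hR : ∀ p ∈ R, a ≤ p.1 ∧ p.1 < a + r ∧ b ≤ p.2 ∧ p.2 < b + r) (L₁ : ℕ) [NeZero L₁]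
    (hL₁ : r ≤ L₁) (ψ : (Site L₁ → Fin d) → ℂ) (hψ : ψ ≠ 0) :
    ∃ A : Fin d → Fin 1 → Fin 1 → Fin 1 → Fin 1 → ℂ,
      ∀ (L : ℕ) [NeZero L], r ≤ L →
        pepsVec L A ≠ 0 ∧ ∀ v, traceNorm (reduced L R v (pepsVec L A) - reduced L₁ R 0 ψ) ≤ 0 := by
  classical
  -- d = 1
  have hd1 : d = 1 := by
    rcases Nat.lt_or_ge d 1 with h | h
    · exfalso
      have hd0 : d = 0 := by omega
      subst hd0
      apply hψ
      funext s
      exact (s 0).elim0
    · omega
  subst hd1
  refine ⟨fun _ _ _ _ _ => 1, ?_⟩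
  intro L _ hL
  have hpe : pepsVec L (fun (_ : Fin 1) (_ : Fin 1) (_ : Fin 1) (_ : Fin 1) (_ : Fin 1) => (1 : ℂ)) =
      fun _ => 1 := by
    funext s
    unfold pepsVec
    simp
  have hne : pepsVec L (fun (_ : Fin 1) (_ : Fin 1) (_ : Fin 1) (_ : Fin 1) (_ : Fin 1) => (1 : ℂ)) ≠ 0 := by
    rw [hpe]
    intro h0
    have := congrFun h0 (fun _ => 0)
    simp at this
  refine ⟨hne, ?_⟩
  intro v
  -- all traces are one and the matrices are 1 × 1
  have key : ∀ (L' : ℕ) [NeZero L'] (_ : r ≤ L') (w : Site L') (φ : (Site L' → Fin 1) → ℂ) (_ : φ ≠ 0)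
      (x y : R → Fin 1), reduced L' R w φ x y = 1 := by
    intro L' _ hL' w φ hφ x y
    have hnpos : 0 < nsq φ := by
      obtain ⟨s, hs⟩ : ∃ s, φ s ≠ 0 := by
        by_contra hcon
        push Not at hcon
        exact hφ (funext hcon)
      unfold nsq
      apply Finset.sum_pos'
      · intro _ _; positivity
      · exact ⟨s, Finset.mem_univ _, by positivity⟩
    have hnc : ((nsq φ : ℝ) : ℂ) ≠ 0 := by exact_mod_cast hnpos.ne'
    have h1 : (reduced L' R w φ).trace = 1 := by
      unfold reduced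
      rw [density_eq, ptrace_smul, Matrix.trace_smul,
        trace_ptrace _ (place_injective hL' R a b hR w), trace_outer, smul_eq_mul,
        inv_mul_cancel₀ hnc]
    unfold Matrix.trace at h1
    rw [Fintype.sum_unique] at h1
    rw [Subsingleton.elim x default, Subsingleton.elim y default]
    exact h1
  have h0 : reduced L R v (pepsVec L (fun (_ : Fin 1) (_ : Fin 1) (_ : Fin 1) (_ : Fin 1)
      (_ : Fin 1) => (1 : ℂ))) - reduced L₁ R 0 ψ = 0 := by
    ext x y
    rw [Matrix.sub_apply, key L hL v _ hne, key L₁ hL₁ 0 ψ hψ]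
    simp
  rw [h0]
  refine (traceNorm_le_sum _).trans ?_
  simp

/-- uniform form of the approximation statement -/
theorem core_uniform (d r : ℕ) (hr : 1 ≤ r) {ε : ℝ} (_hε : 0 < ε) (R : Finset (ℤ × ℤ)) (a b : ℤ)
    (hR : ∀ p ∈ R, a ≤ p.1 ∧ p.1 < a + r ∧ b ≤ p.2 ∧ p.2 < b + r)
    (L₁ : ℕ) [NeZero L₁] (hm : boxSide r ε ≤ L₁) (ψ : (Site L₁ → Fin d) → ℂ) (hψ : ψ ≠ 0)
    (hTI : ∀ w, reduced L₁ R w ψ = reduced L₁ R 0 ψ) :
    ∃ D ≤ bondBound d r ε, ∃ A : Fin d → Fin D → Fin D → Fin D → Fin D → ℂ,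
      ∀ (L : ℕ) [NeZero L], (2 * boxSide r ε + 2) ^ 2 ≤ L → (2 * boxSide r ε + 3) * R.card < L →
        pepsVec L A ≠ 0 ∧ ∀ v, traceNorm (reduced L R v (pepsVec L A) - reduced L₁ R 0 ψ) ≤
          (4 * r + 5 : ℝ) / (boxSide r ε : ℕ) := by
  have hrm : r ≤ boxSide r ε := by unfold boxSide; omega
  rcases Nat.lt_or_ge 1 d with hd | hd
  · have hzo : (⟨0, by omega⟩ : Fin d) ≠ ⟨1, hd⟩ := by
      intro h
      simp only [Fin.mk.injEq] at h
      omega
    obtain ⟨A, hA⟩ := core hzo (boxSide r ε) r hr hrm R a b hR L₁ hm ψ hψ hTI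
    exact ⟨_, le_of_eq (card_hid _ _), A, hA⟩
  · obtain ⟨A, hA⟩ := core_trivial d hd R r hr a b hR L₁ (hrm.trans hm) ψ hψ
    refine ⟨1, ?_, A, ?_⟩
    · unfold bondBound
      have : 0 < (2 * boxSide r ε + 3) * (boxSide r ε + 3) * (d ^ (2 * boxSide r ε ^ 2) + 1) := by
        positivity
      omega
    · intro L _ h1 _
      have h2 : r ≤ L := by nlinarith
      obtain ⟨h3, h4⟩ := hA L h2
      refine ⟨h3, fun v => (h4 v).trans ?_⟩
      positivity

end Pool.Agent.Hhelper96.PEPS
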