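import Pool.Agent.Hhelper96.PEPS.Net
import Pool.Agent.Hhelper96.PEPS.Trans

/-!
A label network on the `N × N` torus, cut open, is an open network on an `N × N` block.
-/

set_option autoImplicit false
set_option linter.unusedSectionVars false

open scoped BigOperators ComplexOrder
open Matrix

namespace Pool.Agent.Hhelper96.PEPS

section cut

variable {N d : ℕ} [NeZero N] {Y : Type} [Fintype Y] [DecidableEq Y]

/-- the vector of a label network on the torus -/
noncomputable def netT (W : Site N → Fin d → Y → Y → Y → ℂ) (s : Site N → Fin d) : ℂ :=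
  ∑ y : Site N → Y, ∏ v : Site N, W v (s v) (y (v - (1, 0))) (y (v - (0, 1))) (y v)

/-- the block as a torus -/
noncomputable def boxE (N : ℕ) [NeZero N] : Fin N × Fin N ≃ Site N :=
  Equiv.ofBijective (boxEmb N N) (by
    rw [Fintype.bijective_iff_injective_and_card]
    refine ⟨boxEmb_injective le_rfl, ?_⟩
    simp [ZMod.card])

theorem boxE_apply (p : Fin N × Fin N) : boxE N p = (((p.1 : ℕ) : ZMod N), ((p.2 : ℕ) : ZMod N)) :=
  rfl

/-- last index -/
def lst (N : ℕ) [NeZero N] : Fin N := ⟨N - 1, by have := NeZero.pos N; omega⟩

theorem boxE_left (p : Fin N × Fin N) : boxE N p - (1, 0) =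
    boxE N (if h : (p.1 : ℕ) = 0 then (lst N, p.2) else (⟨(p.1 : ℕ) - 1, by omega⟩, p.2)) := by
  have hN := NeZero.pos N
  by_cases h : (p.1 : ℕ) = 0
  · rw [dif_pos h, boxE_apply, boxE_apply]
    unfold lst
    ext
    · simp only [Prod.fst_sub]
      rw [h, Nat.cast_sub (by omega)]
      simp
    · simp
  · rw [dif_neg h, boxE_apply, boxE_apply]
    ext
    · simp only [Prod.fst_sub]
      rw [Nat.cast_sub (by omega)]
      simp
    · simp

theorem boxE_down (p : Fin N × Fin N) : boxE N p - (0, 1) =
    boxE N (if h : (p.2 : ℕ) = 0 then (p.1, lst N) else (p.1, ⟨(p.2 : ℕ) - 1, by omega⟩)) := by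
  have hN := NeZero.pos N
  by_cases h : (p.2 : ℕ) = 0
  · rw [dif_pos h, boxE_apply, boxE_apply]
    unfold lst
    ext
    · simp
    · simp only [Prod.snd_sub]
      rw [h, Nat.cast_sub (by omega)]
      simp
  · rw [dif_neg h, boxE_apply, boxE_apply]
    ext
    · simp
    · simp only [Prod.snd_sub]
      rw [Nat.cast_sub (by omega)]
      simp

/-- own label of the neighbour, or the carried wrap-around label -/
def pick (l : Option (Y × Y × Y)) (α : Y) : Y :=
  match l with
  | none => α
  | some x => x.1

open Classical in
/-- the open network obtained by cutting a torus network: a label carries the label of the site,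
the label of the last site of its row and the label of the last site of its column -/
noncomputable def cutW (W : Site N → Fin d → Y → Y → Y → ℂ) (p : Fin N × Fin N) (s : Fin d)
    (l dwn : Option (Y × Y × Y)) (y : Y × Y × Y) : ℂ :=
  if (∀ x, l = some x → x.2.1 = y.2.1) ∧ (∀ x, dwn = some x → x.2.2 = y.2.2) ∧
      (p.1 = lst N → y.1 = y.2.1) ∧ (p.2 = lst N → y.1 = y.2.2) then
    W (boxE N p) s (pick l y.2.1) (pick dwn y.2.2) y.1 else 0

/-- labels of the cut network attached to labels of the torus network -/
def lift3 (o : Fin N × Fin N → Y) (p : Fin N × Fin N) : Y × Y × Y :=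
  (o p, o (lst N, p.2), o (p.1, lst N))

theorem netVec_cutW (W : Site N → Fin d → Y → Y → Y → ℂ) (c : Fin N × Fin N → Fin d) :
    netVec (cutW W) c = netT W (c ∘ (boxE N).symm) := by
  classical
  unfold netVec netT
  rw [← Equiv.sum_comp (Equiv.arrowCongr (boxE N) (Equiv.refl Y))]
  symm
  apply Finset.sum_of_injOn (lift3 (N := N) (Y := Y))
  · intro o _ o' _ h
    funext p
    exact congrArg Prod.fst (congrFun h p)
  · intro o _
    simp
  · intro z _ hz
    by_contra hne
    apply hz
    have hne' := Finset.prod_ne_zero_iff.1 hne
    have hc : ∀ p, (∀ x, leftOf z p = some x → x.2.1 = (z p).2.1) ∧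
        (∀ x, downOf z p = some x → x.2.2 = (z p).2.2) ∧
        (p.1 = lst N → (z p).1 = (z p).2.1) ∧ (p.2 = lst N → (z p).1 = (z p).2.2) := by
      intro p
      by_contra hcon
      have := hne' p (Finset.mem_univ _)
      unfold cutW at this
      rw [if_neg hcon] at this
      exact this rfl
    have hN := NeZero.pos N
    have h1 : ∀ (k : ℕ) (hk : k < N) (j : Fin N), (z (⟨N - 1 - k, by omega⟩, j)).2.1 =
        (z (lst N, j)).1 := by
      intro k
      induction k with
      | zero =>
        intro hk j
        exact ((hc (lst N, j)).2.2.1 rfl).symm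
      | succ k ih =>
        intro hk j
        have h2 := ih (by omega) j
        rw [← h2]
        apply (hc (⟨N - 1 - k, by omega⟩, j)).1
        unfold leftOf
        rw [if_neg]
        · congr 1
        · simp only; omega
    have h1' : ∀ (k : ℕ) (hk : k < N) (j : Fin N), (z (j, ⟨N - 1 - k, by omega⟩)).2.2 =
        (z (j, lst N)).1 := by
      intro k
      induction k with
      | zero =>
        intro hk j
        exact ((hc (j, lst N)).2.2.2 rfl).symm
      | succ k ih =>
        intro hk j
        have h2 := ih (by omega) j
        rw [← h2]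
        apply (hc (j, ⟨N - 1 - k, by omega⟩)).2.1
        unfold downOf
        rw [if_neg]
        · congr 1
        · simp only; omega
    refine ⟨fun p => (z p).1, by simp, ?_⟩
    funext p
    unfold lift3
    refine Prod.ext rfl (Prod.ext ?_ ?_)
    · simp only
      rw [← h1 (N - 1 - p.1) (by omega) p.2]
      congr 3
      ext
      · simp only; omega
      · rfl
    · simp only
      rw [← h1' (N - 1 - p.2) (by omega) p.1]
      congr 3
      ext
      · rfl
      · simp only; omega
  · intro o _
    rw [← Equiv.prod_comp (boxE N)]
    refine Finset.prod_congr rfl (fun p _ => ?_)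
    rw [boxE_left, boxE_down]
    have hlift : ∀ q, (Equiv.arrowCongr (boxE N) (Equiv.refl Y)) o (boxE N q) = o q := by
      intro q
      simp [Equiv.arrowCongr]
    rw [hlift, hlift, hlift]
    simp only [Function.comp_apply, Equiv.symm_apply_apply]
    unfold cutW
    rw [if_pos]
    · congr 1
      · unfold pick leftOf lift3
        by_cases h : (p.1 : ℕ) = 0
        · simp only [h, if_true, dif_pos]
        · simp only [h, if_false]
          rfl
      · unfold pick downOf lift3
        by_cases h : (p.2 : ℕ) = 0
        · simp only [h, if_true, dif_pos]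
        · simp only [h, if_false]
          rfl
    · refine ⟨?_, ?_, ?_, ?_⟩
      · intro x hx
        unfold leftOf at hx
        split_ifs at hx
        rw [← Option.some.inj hx]
        rfl
      · intro x hx
        unfold downOf at hx
        split_ifs at hx
        rw [← Option.some.inj hx]
        rfl
      · intro h
        unfold lift3
        simp only
        rw [← h]
      · intro h
        unfold lift3
        simp only
        rw [← h]

/-- multiplying a network by a constant -/
theorem netT_scale (W : Site N → Fin d → Y → Y → Y → ℂ) (K : ℂ) (s : Site N → Fin d) :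
    netT (fun v s l dwn y => (if v = 0 then K else 1) * W v s l dwn y) s = K * netT W s := by
  unfold netT
  rw [Finset.mul_sum]
  refine Finset.sum_congr rfl (fun y _ => ?_)
  rw [Finset.prod_mul_distrib]
  congr 1
  rw [Finset.prod_ite_eq']
  simp

end cut

end Pool.Agent.Hhelper96.PEPS
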