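import Pool.Agent.Hhelper96.PEPS.Trans

/-!
Local PEPS approximation of gapped ground states in two dimensions: on every large torus a
translation invariant PEPS of bond dimension bounded by an explicit function of the accuracy and of
the size of the region, whatever the gapped translation invariant Hamiltonian.
-/

set_option autoImplicit false

open Filter Topology
open Pool.Agent.Hhelper96.PEPS

namespace Pool.Agent.Hhelper96.PEPS.UniformBondDimension

/-- For every local dimension `d`, region size `r` and accuracy `ε > 0` there is a size `L₀` such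
that: on every `L × L` torus with `L ≥ L₀`, for every Hermitian finite-range interaction `h` whose
translation invariant Hamiltonian `H_L` has a unique ground state `ψ` with a gap `Δ > 0`, and for
every region `R` contained in an `r × r` box, there is a translation invariant PEPS tensor `A` of
bond dimension `D ≤ bondBound d r ε` whose vector on the torus is nonzero and whose reduced density
matrices on all translates of `R` are within `ε` in trace norm of those of the ground state. -/
theorem result (d r : ℕ) (hr : 1 ≤ r) (ε : ℝ) (hε : 0 < ε) :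
    ∃ L₀ : ℕ, ∀ (L : ℕ) [NeZero L], L₀ ≤ L →
      ∀ (F : Finset (ℤ × ℤ)) (h : Matrix (F → Fin d) (F → Fin d) ℂ), h.IsHermitian →
      ∀ (Δ : ℝ), 0 < Δ → ∀ (ψ : (Site L → Fin d) → ℂ), IsGappedGround (hamiltonian L F h) Δ ψ →
      ∀ (R : Finset (ℤ × ℤ)) (a b : ℤ),
        (∀ p ∈ R, a ≤ p.1 ∧ p.1 < a + r ∧ b ≤ p.2 ∧ p.2 < b + r) →
      ∃ D ≤ bondBound d r ε, ∃ A : Fin d → Fin D → Fin D → Fin D → Fin D → ℂ,
        pepsVec L A ≠ 0 ∧
        ∀ v : Site L, traceNorm (reduced L R v ψ - reduced L R v (pepsVec L A)) ≤ ε := by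
  refine ⟨(2 * boxSide r ε + 2) ^ 2 + (2 * boxSide r ε + 3) * r ^ 2 + 1, ?_⟩
  intro L _ hL F h _ Δ hΔ ψ hψ R a b hR
  have hcard : R.card ≤ r ^ 2 := by
    have hsub : R ⊆ (Finset.Ico a (a + r)) ×ˢ (Finset.Ico b (b + r)) := by
      intro p hp
      have := hR p hp
      simp only [Finset.mem_product, Finset.mem_Ico]
      omega
    have := Finset.card_le_card hsub
    simp only [Finset.card_product, Int.card_Ico, add_sub_cancel_left, Int.toNat_natCast] at this
    calc R.card ≤ r * r := this
      _ = r ^ 2 := by ring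
  have h1 : (2 * boxSide r ε + 2) ^ 2 ≤ L := by omega
  have h2 : (2 * boxSide r ε + 3) * R.card < L := by
    have : (2 * boxSide r ε + 3) * R.card ≤ (2 * boxSide r ε + 3) * r ^ 2 :=
      Nat.mul_le_mul_left _ hcard
    omega
  have h3 : boxSide r ε ≤ L := by nlinarith
  obtain ⟨D, hD, A, hA⟩ := core_uniform d r hr hε R a b hR L h3 ψ hψ.1
    (fun w => reduced_eq_of_gapped F h hΔ hψ R w)
  obtain ⟨h4, h5⟩ := hA L h1 h2
  refine ⟨D, hD, A, h4, fun v => ?_⟩
  rw [reduced_eq_of_gapped F h hΔ hψ R v, traceNorm_sub_comm]
  exact (h5 v).trans (error_lt r hε).le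

end Pool.Agent.Hhelper96.PEPS.UniformBondDimension
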