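import Pool.Agent.Hhelper96.PEPS.Ops
import Pool.Agent.Hhelper96.PEPS.TorusNet

/-!
Window networks: sums over hidden configurations of products of functions of `m × m` windows.  They
are label networks with nearest neighbour constraints.
-/

set_option autoImplicit false
set_option linter.unusedSectionVars false

open scoped BigOperators
open Matrix

namespace Pool.Agent.Hhelper96.PEPS

variable {N d m : ℕ} [NeZero N] [NeZero m]

/-- the window based at `v` -/
def win (N m : ℕ) (v : Site N) (q : Fin m × Fin m) : Site N :=
  (v.1 + ((q.1 : ℕ) : ZMod N), v.2 + ((q.2 : ℕ) : ZMod N))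

theorem win_zero (v : Site N) : win N m v (0, 0) = v := by
  unfold win
  simp

section label

variable {I : Type} [Fintype I] [DecidableEq I]

open Classical in
/-- the label network of a window network -/
noncomputable def winW (w : Site N → (Fin m × Fin m → Fin d) → (Fin m × Fin m → I) → ℂ)
    (v : Site N) (s : Fin d) (l dwn y : Fin m × Fin m → Fin d × I) : ℂ :=
  if (y (0, 0)).1 = s ∧
      (∀ q q' : Fin m × Fin m, (q.1 : ℕ) + 1 = q'.1 → q.2 = q'.2 → l q' = y q) ∧
      (∀ q q' : Fin m × Fin m, q.1 = q'.1 → (q.2 : ℕ) + 1 = q'.2 → dwn q' = y q) then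
    w v (fun q => (y q).1) (fun q => (y q).2) else 0

theorem netT_winW (w : Site N → (Fin m × Fin m → Fin d) → (Fin m × Fin m → I) → ℂ)
    (s : Site N → Fin d) :
    netT (winW w) s = ∑ i : Site N → I, ∏ v, w v (s ∘ win N m v) (i ∘ win N m v) := by
  classical
  unfold netT
  symm
  apply Finset.sum_of_injOn (fun (i : Site N → I) (v : Site N) (q : Fin m × Fin m) =>
    (s (win N m v q), i (win N m v q)))
  · intro i _ i' _ h
    funext v
    have := congrFun (congrFun h v) (0, 0)
    simp only [win_zero, Prod.mk.injEq, true_and] at this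
    exact this
  · intro i _; simp
  · intro y _ hy
    by_contra hne
    apply hy
    have hne' := Finset.prod_ne_zero_iff.1 hne
    have hc : ∀ v, (y v (0, 0)).1 = s v ∧
        (∀ q q' : Fin m × Fin m, (q.1 : ℕ) + 1 = q'.1 → q.2 = q'.2 → y (v - (1, 0)) q' = y v q) ∧
        (∀ q q' : Fin m × Fin m, q.1 = q'.1 → (q.2 : ℕ) + 1 = q'.2 → y (v - (0, 1)) q' = y v q) := by
      intro v
      by_contra hcon
      have := hne' v (Finset.mem_univ _)
      unfold winW at this
      rw [if_neg hcon] at this
      exact this rfl
    have hA : ∀ (k : ℕ) (hk : k < m) (j : Fin m) (v : Site N),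
        y v (⟨k, hk⟩, j) = y (v + ((k : ZMod N), 0)) (0, j) := by
      intro k
      induction k with
      | zero =>
        intro hk j v
        have : (v + (((0 : ℕ) : ZMod N), 0) : Site N) = v := by
          ext <;> simp
        rw [this]
        rfl
      | succ k ih =>
        intro hk j v
        have h1 := (hc (v + (1, 0))).2.1 (⟨k, by omega⟩, j) (⟨k + 1, hk⟩, j) rfl rfl
        rw [add_sub_cancel_right] at h1
        rw [h1, ih (by omega)]
        congr 1
        ext
        · simp only [Prod.fst_add]
          push_cast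
          ring
        · simp
    have hB : ∀ (k : ℕ) (hk : k < m) (v : Site N),
        y v (0, ⟨k, hk⟩) = y (v + (0, (k : ZMod N))) (0, 0) := by
      intro k
      induction k with
      | zero =>
        intro hk v
        have : (v + (0, ((0 : ℕ) : ZMod N)) : Site N) = v := by
          ext <;> simp
        rw [this]
        rfl
      | succ k ih =>
        intro hk v
        have h1 := (hc (v + (0, 1))).2.2 (0, ⟨k, by omega⟩) (0, ⟨k + 1, hk⟩) rfl rfl
        rw [add_sub_cancel_right] at h1
        rw [h1, ih (by omega)]
        congr 1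
        ext
        · simp
        · simp only [Prod.snd_add]
          push_cast
          ring
    refine ⟨fun v => (y v (0, 0)).2, by simp, ?_⟩
    funext v q
    obtain ⟨k, j⟩ := q
    have h1 := hA k k.isLt j v
    have h2 := hB j j.isLt (v + (((k : ℕ) : ZMod N), 0))
    have h3 : (v + (((k : ℕ) : ZMod N), 0) + (0, ((j : ℕ) : ZMod N)) : Site N) =
        win N m v (k, j) := by
      unfold win
      ext <;> simp
    have h4 : y v (k, j) = y (win N m v (k, j)) (0, 0) := by
      rw [← h3, ← h2]
      exact h1
    rw [h4]
    refine Prod.ext ?_ rfl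
    exact ((hc (win N m v (k, j))).1).symm
  · intro i _
    refine Finset.prod_congr rfl (fun v _ => ?_)
    unfold winW
    rw [if_pos]
    · rfl
    · refine ⟨?_, ?_, ?_⟩
      · simp only [win_zero]
      · intro q q' h1 h2
        have : win N m (v - (1, 0)) q' = win N m v q := by
          unfold win
          ext
          · simp only [Prod.fst_sub]
            rw [← h1]
            push_cast
            ring
          · simp [h2]
        change (s (win N m (v - (1, 0)) q'), i (win N m (v - (1, 0)) q')) = _
        rw [this]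
      · intro q q' h1 h2
        have : win N m (v - (0, 1)) q' = win N m v q := by
          unfold win
          ext
          · simp [h1]
          · simp only [Prod.snd_sub]
            rw [← h2]
            push_cast
            ring
        change (s (win N m (v - (0, 1)) q'), i (win N m (v - (0, 1)) q')) = _
        rw [this]

end label

/-- window networks with `c` hidden states per site -/
def WinNet (m : ℕ) (c : ℕ) (φ : (Site N → Fin d) → ℂ) : Prop :=
  ∃ w : Site N → (Fin m × Fin m → Fin d) → (Fin m × Fin m → Fin c) → ℂ,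
    ∀ s, φ s = ∑ i : Site N → Fin c, ∏ v, w v (s ∘ win N m v) (i ∘ win N m v)

/-- operators whose kernel is a product of window functions -/
def WinOp (m : ℕ) (O : Matrix (Site N → Fin d) (Site N → Fin d) ℂ) : Prop :=
  ∃ o : Site N → (Fin m × Fin m → Fin d) → (Fin m × Fin m → Fin d) → ℂ,
    ∀ s s', O s s' = ∏ v, o v (s ∘ win N m v) (s' ∘ win N m v)

theorem WinNet.mulVec {c : ℕ} {φ : (Site N → Fin d) → ℂ} (hφ : WinNet m c φ)
    {O : Matrix (Site N → Fin d) (Site N → Fin d) ℂ} (hO : WinOp m O) :
    WinNet m (d * c) (O.mulVec φ) := by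
  classical
  obtain ⟨w, hw⟩ := hφ
  obtain ⟨o, ho⟩ := hO
  refine ⟨fun v sw iw => o v sw (fun q => (finProdFinEquiv.symm (iw q)).1) *
    w v (fun q => (finProdFinEquiv.symm (iw q)).1) (fun q => (finProdFinEquiv.symm (iw q)).2), ?_⟩
  intro s
  have h1 : (O.mulVec φ) s = ∑ x : (Site N → Fin d) × (Site N → Fin c), ∏ v,
      (o v (s ∘ win N m v) (x.1 ∘ win N m v) * w v (x.1 ∘ win N m v) (x.2 ∘ win N m v)) := by
    rw [Fintype.sum_prod_type]
    simp only [Matrix.mulVec, dotProduct]
    refine Finset.sum_congr rfl (fun s' _ => ?_)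
    rw [hw s', ho s s', Finset.mul_sum]
    refine Finset.sum_congr rfl (fun i _ => ?_)
    rw [Finset.prod_mul_distrib]
  rw [h1]
  symm
  apply Fintype.sum_equiv ((Equiv.arrowCongr (Equiv.refl (Site N)) finProdFinEquiv.symm).trans
    (Equiv.arrowProdEquivProdArrow (Site N) (fun _ => Fin d) (fun _ => Fin c)))
  intro i
  rfl

/-- basis vectors are window networks -/
theorem winNet_single (s₀ : Site N → Fin d) :
    WinNet m 1 (fun s => if s = s₀ then (1 : ℂ) else 0) := by
  classical
  refine ⟨fun v sw _ => if sw (0, 0) = s₀ v then 1 else 0, ?_⟩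
  intro s
  rw [Fintype.sum_unique]
  simp only [Function.comp_apply, win_zero]
  by_cases h : s = s₀
  · subst h
    simp
  · rw [if_neg h]
    symm
    obtain ⟨v, hv⟩ : ∃ v, s v ≠ s₀ v := by
      by_contra hcon
      push Not at hcon
      exact h (funext hcon)
    exact Finset.prod_eq_zero (Finset.mem_univ v) (if_neg hv)

/-- window networks are label networks -/
theorem WinNet.netT {c : ℕ} {φ : (Site N → Fin d) → ℂ} (hφ : WinNet m c φ) :
    ∃ W : Site N → Fin d → (Fin m × Fin m → Fin d × Fin c) → (Fin m × Fin m → Fin d × Fin c) →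
      (Fin m × Fin m → Fin d × Fin c) → ℂ, Hhelper96.PEPS.netT W = φ := by
  obtain ⟨w, hw⟩ := hφ
  refine ⟨winW w, ?_⟩
  funext s
  rw [netT_winW, hw]

section layer

variable {T : Type} [Fintype T] [DecidableEq T]

/-- the kernel of a product of operators on disjoint windows -/
theorem prod_opAt_apply (κ : Site N → T → Fin m × Fin m) (p : Matrix (T → Fin d) (T → Fin d) ℂ)
    (hκ : ∀ v, Function.Injective (fun t => win N m v (κ v t)))
    (l : List (Site N)) (hnd : l.Nodup)
    (hdis : ∀ v ∈ l, ∀ v' ∈ l, v ≠ v' → ∀ t t', win N m v (κ v t) ≠ win N m v' (κ v' t'))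
    (s s' : Site N → Fin d) :
    ((l.map (fun v => opAt (fun t => win N m v (κ v t)) p)).prod) s s' =
      if ∀ u, (∀ v ∈ l, ∀ t, win N m v (κ v t) ≠ u) → s u = s' u then
        (l.map (fun v => p (s ∘ fun t => win N m v (κ v t)) (s' ∘ fun t => win N m v (κ v t)))).prod
      else 0 := by
  classical
  induction l generalizing s with
  | nil =>
    simp only [List.map_nil, List.prod_nil, List.not_mem_nil, false_implies, implies_true]
    by_cases h : s = s'
    · subst h; simp
    · rw [Matrix.one_apply_ne h, if_neg]
      intro h'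
      exact h (funext (fun u => h' u trivial))
  | cons a l ih =>
    have hnd' := List.nodup_cons.1 hnd
    have ih' := ih hnd'.2 (fun v hv v' hv' => hdis v (List.mem_cons_of_mem a hv) v'
      (List.mem_cons_of_mem a hv'))
    rw [List.map_cons, List.prod_cons, Matrix.mul_apply, sum_opAt (hκ a)]
    have hda : ∀ v ∈ l, ∀ t t', win N m v (κ v t) ≠ win N m a (κ a t') := by
      intro v hv t t'
      apply hdis v (List.mem_cons_of_mem a hv) a List.mem_cons_self
      rintro rfl
      exact hnd'.1 hv
    have hover : ∀ c : T → Fin d, ∀ v ∈ l, (overwrite (fun t => win N m a (κ a t)) s c) ∘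
        (fun t => win N m v (κ v t)) = s ∘ (fun t => win N m v (κ v t)) := by
      intro c v hv
      funext t
      exact overwrite_not_mem _ s c _ (fun t' => (hda v hv t t').symm)
    have hprod : ∀ c : T → Fin d,
        (l.map (fun v => p ((overwrite (fun t => win N m a (κ a t)) s c) ∘
          fun t => win N m v (κ v t)) (s' ∘ fun t => win N m v (κ v t)))).prod =
        (l.map (fun v => p (s ∘ fun t => win N m v (κ v t))
          (s' ∘ fun t => win N m v (κ v t)))).prod := by
      intro c
      congr 1
      apply List.map_congr_left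
      intro v hv
      rw [hover c v hv]
    by_cases h : ∀ u, (∀ v ∈ a :: l, ∀ t, win N m v (κ v t) ≠ u) → s u = s' u
    · rw [if_pos h, Finset.sum_eq_single (s' ∘ fun t => win N m a (κ a t))]
      · rw [ih', if_pos, hprod, List.map_cons, List.prod_cons]
        intro u hu
        by_cases hu' : ∃ t, win N m a (κ a t) = u
        · obtain ⟨t, rfl⟩ := hu'
          exact overwrite_mem (hκ a) s _ t
        · push Not at hu'
          rw [overwrite_not_mem _ _ _ u hu']
          apply h u
          intro v hv
          rcases List.mem_cons.1 hv with rfl | hv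
          · exact hu'
          · exact hu v hv
      · intro c _ hc
        rw [ih', if_neg, mul_zero]
        intro h'
        apply hc
        funext t
        have := h' (win N m a (κ a t)) (fun v hv t' => hda v hv t' t)
        have h2 := overwrite_mem (hκ a) s c t
        rw [← h2]
        exact this
      · intro h; exact absurd (Finset.mem_univ _) h
    · rw [if_neg h]
      apply Finset.sum_eq_zero
      intro c _
      rw [ih', if_neg, mul_zero]
      intro h'
      apply h
      intro u hu
      have h1 := h' u (fun v hv => hu v (List.mem_cons_of_mem a hv))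
      rwa [overwrite_not_mem _ s c u (hu a List.mem_cons_self)] at h1

/-- a product of operators on disjoint windows is a window operator -/
theorem winOp_prod (κ : T → Fin m × Fin m) (p : Matrix (T → Fin d) (T → Fin d) ℂ)
    (hκ : ∀ v, Function.Injective (fun t => win N m v (κ t)))
    (l : List (Site N)) (hnd : l.Nodup)
    (hdis : ∀ v ∈ l, ∀ v' ∈ l, v ≠ v' → ∀ t t', win N m v (κ t) ≠ win N m v' (κ t')) :
    WinOp m ((l.map (fun v => opAt (fun t => win N m v (κ t)) p)).prod) := by
  classical
  refine ⟨fun v sw sw' => (if v ∈ l then p (sw ∘ κ) (sw' ∘ κ) else 1) *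
    (if (∃ v' ∈ l, ∃ t, win N m v' (κ t) = v) ∨ sw (0, 0) = sw' (0, 0) then 1 else 0), ?_⟩
  intro s s'
  rw [prod_opAt_apply (fun _ => κ) p hκ l hnd hdis, Finset.prod_mul_distrib]
  have h1 : (∏ v : Site N, if v ∈ l then p ((s ∘ win N m v) ∘ κ) ((s' ∘ win N m v) ∘ κ) else 1) =
      (l.map (fun v => p (s ∘ fun t => win N m v (κ t)) (s' ∘ fun t => win N m v (κ t)))).prod := by
    rw [← List.prod_toFinset _ hnd]
    rw [Finset.prod_ite, Finset.prod_const_one, mul_one]
    refine Finset.prod_congr ?_ (fun v _ => rfl)
    ext v
    simp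
  rw [h1]
  by_cases h : ∀ u, (∀ v ∈ l, ∀ t, win N m v (κ t) ≠ u) → s u = s' u
  · rw [if_pos h]
    have h2 : (∏ v : Site N, if (∃ v' ∈ l, ∃ t, win N m v' (κ t) = v) ∨
        (s ∘ win N m v) (0, 0) = (s' ∘ win N m v) (0, 0) then (1 : ℂ) else 0) = 1 := by
      apply Finset.prod_eq_one
      intro v _
      rw [if_pos]
      by_cases hv : ∃ v' ∈ l, ∃ t, win N m v' (κ t) = v
      · exact Or.inl hv
      · right
        push Not at hv
        simp only [Function.comp_apply, win_zero]
        exact h v hv
    rw [h2, mul_one]
  · rw [if_neg h]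
    push Not at h
    obtain ⟨u, hu, hne⟩ := h
    symm
    apply mul_eq_zero_of_right
    apply Finset.prod_eq_zero (Finset.mem_univ u)
    rw [if_neg]
    rintro (⟨v', hv', t, ht⟩ | h')
    · exact hu v' hv' t ht
    · simp only [Function.comp_apply, win_zero] at h'
      exact hne h'

end layer

end Pool.Agent.Hhelper96.PEPS
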